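import Pool.Agent.MP_301177_an.Gap

open Filter Topology InnerProductSpace
open scoped ComplexOrder InnerProductSpace

noncomputable section

namespace Pool.Agent.MP_301177_an

variable {E : Type} [NormedAddCommGroup E] [InnerProductSpace ℂ E] [CompleteSpace E]

def gram (γ : ℕ → E) : E →L[ℂ] E := ∑' m, rankOne ℂ (γ m) (γ m)

lemma summable_rankOne {γ : ℕ → E} (hγ : Summable fun m => ‖γ m‖ ^ 2) :
    Summable fun m => rankOne ℂ (γ m) (γ m) :=
  Summable.of_norm (hγ.congr fun m => by rw [norm_rankOne, sq])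

lemma hasSum_gram {γ : ℕ → E} (hγ : Summable fun m => ‖γ m‖ ^ 2) (x : E) :
    HasSum (fun m => ⟪γ m, x⟫_ℂ • γ m) (gram γ x) :=
  (ContinuousLinearMap.apply ℂ E x).hasSum (summable_rankOne hγ).hasSum

lemma gram_compact {γ : ℕ → E} (hγ : Summable fun m => ‖γ m‖ ^ 2) :
    IsCompactOperator (gram γ) := by
  refine isCompactOperator_of_tendsto (summable_rankOne hγ).hasSum.tendsto_sum_nat
    (Eventually.of_forall fun N => ?_)
  induction N with
  | zero => simpa using isCompactOperator_zero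
  | succ N ih =>
    rw [Finset.sum_range_succ]
    refine IsCompactOperator.add ih ?_
    rw [rankOne_def']
    exact (isCompactOperator_of_locallyCompactSpace_dom (innerSL ℂ (γ N))).clm_comp
      (ContinuousLinearMap.toSpanSingleton ℂ (γ N))

lemma hasSum_inner_gram {γ : ℕ → E} (hγ : Summable fun m => ‖γ m‖ ^ 2) (x y : E) :
    HasSum (fun m => ⟪γ m, x⟫_ℂ * ⟪y, γ m⟫_ℂ) ⟪y, gram γ x⟫_ℂ := by
  have := (innerSL ℂ y).hasSum (hasSum_gram hγ x)
  simpa only [innerSL_apply_apply, inner_smul_right] using this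

lemma hasSum_inner_gram_self {γ : ℕ → E} (hγ : Summable fun m => ‖γ m‖ ^ 2) (x : E) :
    HasSum (fun m => ‖⟪γ m, x⟫_ℂ‖ ^ 2) (⟪x, gram γ x⟫_ℂ).re := by
  have := Complex.hasSum_re (hasSum_inner_gram hγ x x)
  refine (congrArg (fun F => HasSum F (⟪x, gram γ x⟫_ℂ).re) (funext fun m => ?_)).mpr this
  rw [← inner_conj_symm x (γ m), Complex.mul_conj']
  norm_cast

lemma gram_pos {γ : ℕ → E} (hγ : Summable fun m => ‖γ m‖ ^ 2) : (gram γ).IsPositive := by
  have hsym : ∀ x y, ⟪gram γ x, y⟫_ℂ = ⟪x, gram γ y⟫_ℂ := by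
    intro x y
    have h1 := hasSum_inner_gram hγ y x
    have h2 := Complex.hasSum_conj'.2 (hasSum_inner_gram hγ x y)
    simp only [map_mul, inner_conj_symm] at h2
    refine h2.unique ?_
    simpa only [mul_comm] using h1
  refine ⟨hsym, fun x => ?_⟩
  have := (hasSum_inner_gram_self hγ x).nonneg fun m => sq_nonneg _
  rw [← hsym] at this
  exact this

lemma gram_succ {γ : ℕ → E} (hγ : Summable fun m => ‖γ m‖ ^ 2) (x : E) :
    gram (fun m => γ (m + 1)) x = gram γ x - ⟪γ 0, x⟫_ℂ • γ 0 := by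
  have h1 := hasSum_gram (γ := fun m => γ (m + 1)) ((summable_nat_add_iff 1).2 hγ) x
  have h2 := (hasSum_nat_add_iff' 1).2 (hasSum_gram hγ x)
  simp only [Finset.range_one, Finset.sum_singleton] at h2
  exact h1.unique h2

theorem decay {δ : ℝ} {s : ℕ → ℝ} (hδ : 0 < δ) (hδ1 : δ < 1) (hpos : ∀ r, 0 < s r)
    (hs : ∀ r, s (r + 1) ≤ δ * s r) (γ : ℕ → E) (hγ : Summable fun m => ‖γ m‖ ^ 2)
    (W : E →L[ℂ] E) (hW : ∀ x, ‖W x‖ ≤ ‖x‖) (hWγ : ∀ m, W (γ m) = γ (m + 1))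
    (hA : ∀ lam : ℝ, 0 < lam →
      ((∃ x, x ≠ 0 ∧ gram γ x = (lam : ℂ) • x) ↔ ∃ j, lam = s (2 * j) ^ 2))
    (hB : ∀ lam : ℝ, 0 < lam →
      ((∃ x, x ≠ 0 ∧ gram (fun m => γ (m + 1)) x = (lam : ℂ) • x)
        ↔ ∃ k, lam = s (2 * k + 1) ^ 2)) (n : ℕ) (x : E) :
    ‖⟪γ n, x⟫_ℂ‖ ^ 2 ≤ s 0 ^ 2 * th δ ^ n * ‖x‖ ^ 2 := by
  set A := gram γ with hAdef
  have hA0 : 0 ≤ A := (ContinuousLinearMap.nonneg_iff_isPositive _).2 (gram_pos hγ)
  set R := CFC.sqrt A with hRdef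
  have hR : R.IsPositive := (ContinuousLinearMap.nonneg_iff_isPositive _).1 (CFC.sqrt_nonneg _)
  have hRR : ∀ x, R (R x) = A x := fun x => by
    have := CFC.sqrt_mul_sqrt_self A hA0
    rw [← hRdef] at this
    rw [← this]
    rfl
  set S := ContinuousLinearMap.adjoint W with hS
  have hWS : ∀ x y, ⟪W x, y⟫_ℂ = ⟪x, S y⟫_ℂ := fun x y =>
    (ContinuousLinearMap.adjoint_inner_right W x y).symm
  have hWS' : ∀ x y, ⟪x, W y⟫_ℂ = ⟪S x, y⟫_ℂ := fun x y =>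
    (ContinuousLinearMap.adjoint_inner_left W y x).symm
  have hRs : ∀ x y, ⟪R x, y⟫_ℂ = ⟪x, R y⟫_ℂ := hR.inner_left_eq_inner_right
  have hRn : ∀ x, HasSum (fun m => ‖⟪γ m, x⟫_ℂ‖ ^ 2) (‖R x‖ ^ 2) := fun x => by
    have := hasSum_inner_gram_self hγ x
    rw [← hAdef, ← hRR, ← hRs, inner_self_eq_norm_sq_to_K] at this
    exact_mod_cast this
  obtain ⟨g1, g2⟩ := gap hδ hδ1 hpos hs A R (W ∘L R ∘L S) (γ 0) (gram_compact hγ) hR hRR
    (fun x y => by
      simp only [ContinuousLinearMap.coe_coe, ContinuousLinearMap.comp_apply]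
      rw [hWS, hRs, hWS'])
    (fun x => by
      simp only [ContinuousLinearMap.comp_apply]
      have h1 := hRn (S x)
      simp only [← hWS, hWγ] at h1
      have h2 := (hasSum_nat_add_iff' 1).2 (hRn x)
      simp only [Finset.range_one, Finset.sum_singleton] at h2
      rw [← h1.unique h2]
      exact pow_le_pow_left₀ (norm_nonneg _) (hW _) 2)
    hA (fun lam hlam => by simpa only [gram_succ hγ] using hB lam hlam)
  have hN : ∀ x, (⟪x, R x⟫_ℂ).re ≤ s 0 * ‖x‖ ^ 2 := by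
    intro x
    have h1 : (⟪x, R x⟫_ℂ).re ≤ ‖x‖ * ‖R x‖ :=
      (Complex.re_le_norm _).trans (norm_inner_le_norm _ _)
    have h2 := g2 x
    have h3 : ‖R x‖ ≤ s 0 * ‖x‖ := by
      by_contra hlt
      push Not at hlt
      have h4 : 0 < ‖R x‖ := lt_of_le_of_lt (mul_nonneg (hpos 0).le (norm_nonneg _)) hlt
      nlinarith [mul_le_mul_of_nonneg_left h1 (hpos 0).le, mul_lt_mul_of_pos_right hlt h4]
    nlinarith [mul_le_mul_of_nonneg_left h3 (norm_nonneg x)]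
  have hiter : ∀ n x, (⟪S^[n] x, R (S^[n] x)⟫_ℂ).re ≤ th δ ^ n * (⟪x, R x⟫_ℂ).re := by
    intro n x
    induction n with
    | zero => simp
    | succ n ih =>
      rw [Function.iterate_succ_apply', ← hWS']
      refine (g1 _).trans ?_
      rw [pow_succ', mul_assoc]
      exact mul_le_mul_of_nonneg_left ih (th_nonneg hδ hδ1)
  have hγS : ∀ n m x, ⟪γ m, S^[n] x⟫_ℂ = ⟪γ (m + n), x⟫_ℂ := by
    intro n
    induction n with
    | zero => simp
    | succ n ih =>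
      intro m x
      rw [Function.iterate_succ_apply', ← hWS, hWγ, ih, add_assoc, add_comm 1 n]
  have h1 := le_hasSum (hRn (S^[n] x)) 0 fun _ _ => sq_nonneg _
  rw [hγS, zero_add] at h1
  calc ‖⟪γ n, x⟫_ℂ‖ ^ 2 ≤ ‖R (S^[n] x)‖ ^ 2 := h1
    _ ≤ s 0 * (⟪S^[n] x, R (S^[n] x)⟫_ℂ).re := g2 _
    _ ≤ s 0 * (th δ ^ n * (⟪x, R x⟫_ℂ).re) := mul_le_mul_of_nonneg_left (hiter n x) (hpos 0).le
    _ ≤ s 0 * (th δ ^ n * (s 0 * ‖x‖ ^ 2)) :=
        mul_le_mul_of_nonneg_left (mul_le_mul_of_nonneg_left (hN x)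
          (pow_nonneg (th_nonneg hδ hδ1) n)) (hpos 0).le
    _ = _ := by ring

end Pool.Agent.MP_301177_an
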