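import Mathlib

namespace Pool.Agent.MP_301177_an

/-- The antilinear Hankel operator `H_u` in Fourier coordinates: `c n` are the Fourier
coefficients of the symbol `u`, `h m` those of the argument. -/
noncomputable def hankel (c h : ℕ → ℂ) : ℕ → ℂ :=
  fun n => ∑' m : ℕ, c (n + m) * (starRingEnd ℂ) (h m)

/-- The shift `S` (multiplication by `e^{ix}`) in Fourier coordinates. -/
def shift (h : ℕ → ℂ) : ℕ → ℂ := fun n => if n = 0 then 0 else h (n - 1)

/-- `lam` is an eigenvalue of the square of `T` acting on square-summable sequences. -/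
def IsEigenvalueOfSquare (T : (ℕ → ℂ) → (ℕ → ℂ)) (lam : ℝ) : Prop :=
  ∃ h : ℕ → ℂ, Summable (fun n => ‖h n‖ ^ 2) ∧ h ≠ 0 ∧ T (T h) = fun n => (lam : ℂ) * h n

/-- `c` is the coefficient sequence of a function of `H^{1/2}_+` such that the positive
eigenvalues of `H_u^2` are the `s (2 j) ^ 2` and those of `K_u^2` are the `s (2 k + 1) ^ 2`. -/
def InTorus (s : ℕ → ℝ) (c : ℕ → ℂ) : Prop :=
  Summable (fun n : ℕ => (1 + (n : ℝ)) * ‖c n‖ ^ 2) ∧
  (∀ lam : ℝ, 0 < lam →
    (IsEigenvalueOfSquare (hankel c) lam ↔ ∃ j : ℕ, lam = s (2 * j) ^ 2)) ∧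
  (∀ lam : ℝ, 0 < lam →
    (IsEigenvalueOfSquare (fun h => hankel c (shift h)) lam ↔ ∃ k : ℕ, lam = s (2 * k + 1) ^ 2))

end Pool.Agent.MP_301177_an
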