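import Mathlib

open Matrix Polynomial
open scoped ComplexOrder MatrixOrder

noncomputable section

namespace Pool.Agent.MP_301177_an

variable {ι : Type} [Fintype ι] [DecidableEq ι]

lemma cauchy_system (r t w : ι → ℂ) (a : ℂ) (ht : Function.Injective t)
    (hrt : ∀ j k, r j + t k ≠ 0) (h : ∀ k, ∑ j, w j / (r j + t k) = a) (j : ι) :
    w j * ∏ l ∈ Finset.univ.erase j, (r l - r j) = -a * ∏ k, (-r j - t k) := by
  let Q : ℂ[X] := C a * (Lagrange.nodal Finset.univ (fun l => -r l) - Lagrange.nodal Finset.univ t)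
    - ∑ i, C (w i) * Lagrange.nodal (Finset.univ.erase i) (fun l => -r l)
  have hdeg : Q.degree < (Finset.univ : Finset ι).card := by
    refine lt_of_le_of_lt (degree_sub_le _ _) (max_lt ?_ ?_)
    · rw [← smul_eq_C_mul]
      refine lt_of_le_of_lt (degree_smul_le _ _) ?_
      have := degree_sub_lt_left (p := Lagrange.nodal Finset.univ (fun l => -r l))
        (q := Lagrange.nodal Finset.univ t)
        (by rw [Lagrange.degree_nodal, Lagrange.degree_nodal]) Lagrange.nodal_ne_zero
        (by rw [Lagrange.nodal_monic.leadingCoeff, Lagrange.nodal_monic.leadingCoeff])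
      rwa [Lagrange.degree_nodal] at this
    · refine lt_of_le_of_lt (degree_sum_le _ _) ?_
      rw [Finset.sup_lt_iff (WithBot.bot_lt_coe _)]
      intro i _
      rw [← smul_eq_C_mul]
      refine lt_of_le_of_lt (degree_smul_le _ _) ?_
      rw [Lagrange.degree_nodal]
      exact_mod_cast Finset.card_erase_lt_of_mem (Finset.mem_univ i)
  have hQ : Q = 0 := by
    refine Polynomial.eq_zero_of_degree_lt_of_eval_index_eq_zero Finset.univ
      (v := t) ht.injOn hdeg fun k _ => ?_
    simp only [Q, eval_sub, eval_mul, eval_C, eval_finsetSum,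
      Lagrange.eval_nodal_at_node (Finset.mem_univ k), Lagrange.eval_nodal, sub_zero]
    rw [← h k, Finset.sum_mul, ← Finset.sum_sub_distrib]
    refine Finset.sum_eq_zero fun i _ => ?_
    rw [← Finset.mul_prod_erase _ _ (Finset.mem_univ i)]
    have := hrt i k
    have e : t k - -r i = r i + t k := by ring
    rw [e]
    field_simp
    ring
  have h1 := congrArg (eval (-r j)) hQ
  have h0 : eval (-r j) (Lagrange.nodal Finset.univ (fun l => -r l)) = 0 :=
    Lagrange.eval_nodal_at_node (v := fun l => -r l) (Finset.mem_univ j)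
  simp only [Q, eval_sub, eval_mul, eval_C, eval_finsetSum, h0, eval_zero] at h1
  rw [Finset.sum_eq_single j] at h1
  · simp only [Lagrange.eval_nodal] at h1
    have e : ∏ l ∈ Finset.univ.erase j, (r l - r j)
        = ∏ l ∈ Finset.univ.erase j, (-r j - -r l) :=
      Finset.prod_congr rfl fun l _ => by ring
    rw [e]
    linear_combination -h1
  · intro i _ hij
    rw [Lagrange.eval_nodal_at_node (v := fun l => -r l)
      (Finset.mem_erase.2 ⟨hij.symm, Finset.mem_univ j⟩), mul_zero]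
  · intro hj
    exact absurd (Finset.mem_univ j) hj

omit [DecidableEq ι] in
lemma herm_swap {M : Matrix ι ι ℂ} (hM : M.IsHermitian) (x y : ι → ℂ) :
    star x ⬝ᵥ (M *ᵥ y) = star (M *ᵥ x) ⬝ᵥ y := by
  rw [star_mulVec, hM.eq, dotProduct_mulVec]

omit [DecidableEq ι] in
lemma psd_of_re {M : Matrix ι ι ℂ} (hM : M.IsHermitian)
    (h : ∀ x, 0 ≤ (star x ⬝ᵥ (M *ᵥ x)).re) : M.PosSemidef := by
  refine PosSemidef.of_dotProduct_mulVec_nonneg hM fun x => ?_
  rw [Complex.nonneg_iff]
  exact ⟨h x, (hM.im_star_dotProduct_mulVec_self x).symm⟩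

lemma psd_sub_of_sq {X T : Matrix ι ι ℂ} (hX : X.PosSemidef) (hT : T.IsHermitian)
    (h : (X * X - T * T).PosSemidef) : (X - T).PosSemidef := by
  have hY : (X - T).IsHermitian := hX.1.sub hT
  rw [hY.posSemidef_iff_eigenvalues_nonneg]
  intro i
  set μ := hY.eigenvalues i with hμ
  set x : ι → ℂ := (hY.eigenvectorBasis i).ofLp with hx
  have hx0 : x ≠ 0 := by
    intro h0
    have := (hY.eigenvectorBasis).orthonormal.ne_zero i
    apply this
    ext k
    exact congrFun h0 k
  have hev : (X - T) *ᵥ x = (μ : ℂ) • x := by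
    have := hY.mulVec_eigenvectorBasis i
    rw [← hμ, ← hx] at this
    rw [this]
    ext k
    simp
  have e : X * X - T * T = X * (X - T) + (X - T) * X - (X - T) * (X - T) := by noncomm_ring
  have h1 := h.dotProduct_mulVec_nonneg x
  rw [e, sub_mulVec, add_mulVec, ← mulVec_mulVec, ← mulVec_mulVec, ← mulVec_mulVec, dotProduct_sub,
    dotProduct_add, herm_swap hY x (X *ᵥ x), hev, mulVec_smul, mulVec_smul, hev] at h1
  simp only [dotProduct_smul, star_smul, smul_dotProduct, smul_eq_mul, Complex.star_def,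
    Complex.conj_ofReal] at h1
  have ha := hX.dotProduct_mulVec_nonneg x
  have hn := dotProduct_star_self_pos_iff.2 hx0
  rw [Complex.nonneg_iff] at h1 ha
  rw [Complex.pos_iff] at hn
  have h2 := h1.1
  simp only [Complex.sub_re, Complex.add_re, Complex.re_ofReal_mul] at h2
  by_contra hneg
  simp only [Pi.zero_apply, not_le] at hneg
  have := mul_nonpos_of_nonpos_of_nonneg hneg.le ha.1
  nlinarith [mul_pos (mul_pos_of_neg_of_neg hneg hneg) hn.1]

omit [DecidableEq ι] in
lemma sqrt_eig {X : Matrix ι ι ℂ} (hX : X.PosSemidef) {τ : ℝ} (hτ : 0 ≤ τ) {f : ι → ℂ}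
    (h : X *ᵥ (X *ᵥ f) = ((τ : ℂ) ^ 2) • f) : X *ᵥ f = (τ : ℂ) • f := by
  set y := X *ᵥ f - (τ : ℂ) • f with hy
  have h1 : X *ᵥ y = -(τ : ℂ) • y := by
    rw [hy, mulVec_sub, mulVec_smul, h]
    ext k
    simp only [Pi.sub_apply, Pi.smul_apply, smul_eq_mul]
    ring
  have h2 := hX.dotProduct_mulVec_nonneg y
  rw [h1, dotProduct_smul, smul_eq_mul, Complex.nonneg_iff] at h2
  by_contra hne
  have hy0 : y ≠ 0 := fun h0 => hne (sub_eq_zero.1 h0)
  have hn := dotProduct_star_self_pos_iff.2 hy0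
  rw [Complex.pos_iff] at hn
  have h3 := h2.1
  rw [neg_mul, Complex.neg_re, Complex.re_ofReal_mul] at h3
  have hτ0 : τ = 0 := by nlinarith [hn.1]
  have h4 : X *ᵥ y = 0 := by rw [h1, hτ0]; simp
  have h5 : y = X *ᵥ f := by rw [hy, hτ0]; simp
  have h6 : star y ⬝ᵥ y = 0 := by
    conv_lhs => enter [2]; rw [h5]
    rw [herm_swap hX.1, h4]
    simp
  rw [h6] at hn
  simp at hn

theorem finite_gap (ρ τ : ι → ℝ) (p : ι → ℂ) (T : Matrix ι ι ℂ) (C M : ℝ)
    (hρ : ∀ j, 0 < ρ j) (hρi : Function.Injective ρ) (hτ : ∀ k, 0 ≤ τ k)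
    (hτi : Function.Injective τ) (hne : ∀ j k, ρ j ≠ τ k) (hp : ∀ j, p j ≠ 0)
    (hF : ∀ k, ∑ j, ‖p j‖ ^ 2 / (ρ j ^ 2 - τ k ^ 2) = 1)
    (hC : ∀ j, ∏ k, (ρ j + τ k) ≤ C * (‖p j‖ * ∏ l ∈ Finset.univ.erase j, |ρ l - ρ j|))
    (hM0 : 0 < M)
    (hM : ∀ x : ι → ℝ, ∑ j, ∑ l, ρ j * ρ l / (ρ j + ρ l) * (x j * x l) ≤ M * ∑ j, ρ j * x j ^ 2)
    (hT : T.IsHermitian)
    (hB : (diagonal (fun j => (ρ j : ℂ)) * diagonal (fun j => (ρ j : ℂ))
      - vecMulVec p (star p) - T * T).PosSemidef) :
    (((1 - 1 / ((1 + C ^ 2) * M) : ℝ) : ℂ) • diagonal (fun j => (ρ j : ℂ)) - T).PosSemidef := by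
  set R : Matrix ι ι ℂ := diagonal (fun j => (ρ j : ℂ)) with hR
  have hRp : R.PosSemidef := PosSemidef.diagonal fun j => by
    simp only [Pi.zero_apply]; exact_mod_cast (hρ j).le
  have hTT : (T * T).PosSemidef := by
    have := posSemidef_conjTranspose_mul_self T
    rwa [hT.eq] at this
  have hBp : (R * R - vecMulVec p (star p)).PosSemidef := by
    have := hB.add hTT
    rwa [sub_add_cancel] at this
  set X := CFC.sqrt (R * R - vecMulVec p (star p)) with hXdef
  have hX : X.PosSemidef := nonneg_iff_posSemidef.1 (CFC.sqrt_nonneg _)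
  have hXX : X * X = R * R - vecMulVec p (star p) :=
    CFC.sqrt_mul_sqrt_self _ (nonneg_iff_posSemidef.2 hBp)
  have hXT : (X - T).PosSemidef := psd_sub_of_sq hX hT (by rwa [hXX])
  have hD : (R - X).PosSemidef := by
    refine psd_sub_of_sq hRp hX.1 ?_
    rw [hXX, sub_sub_cancel]
    exact posSemidef_vecMulVec_self_star p
  set D := R - X with hDdef
  have hden : ∀ j k, (ρ j : ℂ) + τ k ≠ 0 := fun j k => by
    have : 0 < ρ j + τ k := by linarith [hρ j, hτ k]
    exact_mod_cast this.ne'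
  have hden' : ∀ j k, (ρ j : ℂ) - τ k ≠ 0 := fun j k => by
    have : ρ j - τ k ≠ 0 := sub_ne_zero.2 (hne j k)
    exact_mod_cast this
  let f : ι → ι → ℂ := fun k j => p j / ((ρ j : ℂ) ^ 2 - (τ k : ℂ) ^ 2)
  have hpf : ∀ k, star p ⬝ᵥ f k = 1 := by
    intro k
    have := congrArg (fun t : ℝ => (t : ℂ)) (hF k)
    simp only [Complex.ofReal_sum, Complex.ofReal_div, Complex.ofReal_sub, Complex.ofReal_pow,
      Complex.ofReal_one] at this
    rw [← this]
    refine Finset.sum_congr rfl fun j _ => ?_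
    simp only [f, Pi.star_apply, Complex.star_def]
    rw [← Complex.conj_mul' (p j)]
    ring
  have hXf : ∀ k, X *ᵥ f k = (τ k : ℂ) • f k := by
    intro k
    refine sqrt_eig hX (hτ k) ?_
    rw [mulVec_mulVec, hXX, sub_mulVec, vecMulVec_mulVec, hpf, ← mulVec_mulVec]
    ext j
    simp only [hR, mulVec_diagonal, Pi.sub_apply, Pi.smul_apply, MulOpposite.op_one, one_smul,
      smul_eq_mul, f]
    have h1 := hden j k
    have h2 := hden' j k
    have h3 : (ρ j : ℂ) ^ 2 - (τ k : ℂ) ^ 2 ≠ 0 := by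
      rw [sq_sub_sq]; exact mul_ne_zero h1 h2
    field_simp
    ring
  have hDf : ∀ k (x : ι → ℂ), star (D *ᵥ x) ⬝ᵥ f k
      = ∑ j, (star (x j) * p j) / ((ρ j : ℂ) + τ k) := by
    intro k x
    rw [← herm_swap hD.1, hDdef, sub_mulVec, hXf]
    refine Finset.sum_congr rfl fun j _ => ?_
    simp only [hR, mulVec_diagonal, Pi.sub_apply, Pi.smul_apply, smul_eq_mul, f, Pi.star_apply]
    have h1 := hden j k
    have h2 := hden' j k
    rw [sq_sub_sq]
    field_simp
  have hτc : Function.Injective fun k => (τ k : ℂ) := fun a b hab =>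
    hτi (Complex.ofReal_injective hab)
  have hprod : ∀ j, ∏ l ∈ Finset.univ.erase j, ((ρ l : ℂ) - ρ j) ≠ 0 := fun j =>
    Finset.prod_ne_zero_iff.2 fun l hl => by
      have : ρ l - ρ j ≠ 0 := sub_ne_zero.2 fun h => (Finset.mem_erase.1 hl).1 (hρi h)
      exact_mod_cast this
  have hDu : IsUnit D := by
    rw [← mulVec_injective_iff_isUnit]
    have : ∀ x, D *ᵥ x = 0 → x = 0 := by
      intro x hx
      ext j
      have h1 := cauchy_system (fun j => (ρ j : ℂ)) (fun k => (τ k : ℂ))
        (fun j => star (x j) * p j) 0 hτc hden (fun k => by rw [← hDf, hx]; simp) j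
      simp only [neg_zero, zero_mul, mul_eq_zero, hprod j, hp j, or_false, star_eq_zero] at h1
      exact h1
    intro x y hxy
    have := this (x - y) (by rw [mulVec_sub]; exact sub_eq_zero.2 hxy)
    exact sub_eq_zero.1 this
  have hdet : IsUnit D.det := (isUnit_iff_isUnit_det D).1 hDu
  set G := D⁻¹ with hG
  have hGD : G * D = 1 := nonsing_inv_mul D hdet
  have hDG : D * G = 1 := mul_nonsing_inv D hdet
  have hGh : G.IsHermitian := hD.1.inv
  set v := G *ᵥ p with hv
  have hDv : D *ᵥ v = p := by rw [hv, mulVec_mulVec, hDG, one_mulVec]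
  have hvC : ∀ j, ‖v j‖ ≤ C := by
    intro j
    have h1 := cauchy_system (fun j => (ρ j : ℂ)) (fun k => (τ k : ℂ))
      (fun j => star (v j) * p j) 1 hτc hden (fun k => by rw [← hDf, hDv, hpf]) j
    have h2 := congrArg norm h1
    simp only [norm_mul, norm_star, norm_neg, norm_one, one_mul, norm_prod] at h2
    have e1 : ∏ l ∈ Finset.univ.erase j, ‖(ρ l : ℂ) - ρ j‖
        = ∏ l ∈ Finset.univ.erase j, |ρ l - ρ j| :=
      Finset.prod_congr rfl fun l _ => by rw [← Complex.ofReal_sub, Complex.norm_real]; rfl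
    have e2 : ∏ k, ‖-(ρ j : ℂ) - τ k‖ = ∏ k, (ρ j + τ k) :=
      Finset.prod_congr rfl fun k _ => by
        rw [← neg_add', norm_neg, ← Complex.ofReal_add, Complex.norm_real, Real.norm_eq_abs,
          abs_of_pos (by linarith [hρ j, hτ k])]
    rw [e1, e2] at h2
    have h3 := hC j
    rw [← h2, mul_assoc] at h3
    refine le_of_mul_le_mul_right h3 (mul_pos (norm_pos_iff.2 (hp j)) ?_)
    exact Finset.prod_pos fun l hl =>
      abs_pos.2 (sub_ne_zero.2 fun h => (Finset.mem_erase.1 hl).1 (hρi h))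
  have hSyl : G * R + R * G = 1 + vecMulVec v (star v) := by
    have h1 : R * D + D * X = vecMulVec p (star p) := by
      have : vecMulVec p (star p) = R * R - X * X := by rw [hXX]; abel
      rw [this, hDdef]
      noncomm_ring
    have h2 : G * vecMulVec p (star p) * G = vecMulVec v (star v) := by
      rw [mul_vecMulVec, vecMulVec_mul, hv, star_mulVec, hGh.eq]
    have hX' : X = R - D := by rw [hDdef]; abel
    rw [← h2, ← h1, hX']
    have e : G * (R * D + D * (R - D)) * G
        = G * R * (D * G) + (G * D) * R * G - (G * D) * (D * G) := by noncomm_ring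
    rw [e, hGD, hDG]
    noncomm_ring
  have hGe : ∀ j l, ‖G j l‖ ≤ (1 + C ^ 2) / (ρ j + ρ l) := by
    intro j l
    have h1 := congrFun (congrFun hSyl j) l
    simp only [hR, Matrix.add_apply, mul_diagonal, diagonal_mul, vecMulVec_apply, Pi.star_apply] at h1
    have h2 : G j l * ((ρ j + ρ l : ℝ) : ℂ) = (1 : Matrix ι ι ℂ) j l + v j * star (v l) := by
      rw [← h1]; push_cast; ring
    have hpos : 0 < ρ j + ρ l := add_pos (hρ j) (hρ l)
    rw [le_div_iff₀ hpos]
    have h3 := congrArg norm h2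
    rw [norm_mul, Complex.norm_real, Real.norm_eq_abs, abs_of_pos hpos] at h3
    rw [h3]
    refine (norm_add_le _ _).trans (add_le_add ?_ ?_)
    · rw [one_apply]
      split_ifs <;> simp
    · rw [norm_mul, norm_star, sq]
      exact mul_le_mul (hvC j) (hvC l) (norm_nonneg _) ((norm_nonneg _).trans (hvC j))
  set K := (1 + C ^ 2) * M with hK
  have hK0 : 0 < K := by positivity
  have hRGR : (((K : ℝ) : ℂ) • R - R * G * R).PosSemidef := by
    refine psd_of_re ?_ fun x => ?_
    · refine IsHermitian.sub (hRp.smul (by exact_mod_cast hK0.le)).1 ?_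
      have := isHermitian_conjTranspose_mul_mul R hGh
      rwa [hRp.1.eq] at this
    · rw [sub_mulVec, dotProduct_sub, Complex.sub_re, sub_nonneg, smul_mulVec, dotProduct_smul,
        smul_eq_mul, Complex.re_ofReal_mul]
      have e1 : (star x ⬝ᵥ (R *ᵥ x)).re = ∑ j, ρ j * ‖x j‖ ^ 2 := by
        simp only [dotProduct, hR, mulVec_diagonal, Complex.re_sum, Pi.star_apply]
        refine Finset.sum_congr rfl fun j _ => ?_
        have : star (x j) * ((ρ j : ℂ) * x j) = ((ρ j * ‖x j‖ ^ 2 : ℝ) : ℂ) := by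
          push_cast
          rw [← Complex.conj_mul' (x j), Complex.star_def]
          ring
        rw [this, Complex.ofReal_re]
      rw [e1]
      refine (Complex.re_le_norm _).trans ?_
      calc ‖star x ⬝ᵥ ((R * G * R) *ᵥ x)‖
          ≤ ∑ j, ∑ l, (1 + C ^ 2) * (ρ j * ρ l / (ρ j + ρ l) * (‖x j‖ * ‖x l‖)) := by
            simp only [dotProduct, mulVec, Finset.mul_sum]
            refine (norm_sum_le _ _).trans (Finset.sum_le_sum fun j _ => ?_)
            refine (norm_sum_le _ _).trans (Finset.sum_le_sum fun l _ => ?_)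
            simp only [hR, mul_diagonal, diagonal_mul, norm_mul, Pi.star_apply, norm_star,
              Complex.norm_real, Real.norm_eq_abs, abs_of_pos (hρ j), abs_of_pos (hρ l)]
            have h1 := hGe j l
            have h2 := hρ j
            have h3 := hρ l
            calc ‖x j‖ * (ρ j * ‖G j l‖ * ρ l * ‖x l‖)
                ≤ ‖x j‖ * (ρ j * ((1 + C ^ 2) / (ρ j + ρ l)) * ρ l * ‖x l‖) := by gcongr
              _ = _ := by ring
        _ = (1 + C ^ 2) * ∑ j, ∑ l, ρ j * ρ l / (ρ j + ρ l) * (‖x j‖ * ‖x l‖) := by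
            simp only [Finset.mul_sum]
        _ ≤ (1 + C ^ 2) * (M * ∑ j, ρ j * ‖x j‖ ^ 2) :=
            mul_le_mul_of_nonneg_left (hM fun j => ‖x j‖) (by positivity)
        _ = _ := by rw [hK]; ring
  set t : ℂ := ((1 / K : ℝ) : ℂ) with ht
  have htK : t * K = 1 := by
    rw [ht]; push_cast
    have : (K : ℂ) ≠ 0 := by exact_mod_cast hK0.ne'
    field_simp
  have ht0 : 0 ≤ t := by rw [ht]; exact_mod_cast (one_div_pos.2 hK0).le
  have hts : star t = t := by rw [ht]; exact Complex.conj_ofReal _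
  have h1 := hD.conjTranspose_mul_mul_same (1 - t • (G * R))
  have e1 : (1 - t • (G * R))ᴴ * D * (1 - t • (G * R))
      = D - t • R - t • R + (t * t) • (R * G * R) := by
    rw [conjTranspose_sub, conjTranspose_one, conjTranspose_smul, conjTranspose_mul, hGh.eq,
      hRp.1.eq, hts]
    have a1 : R * G * D = R := by rw [Matrix.mul_assoc, hGD, Matrix.mul_one]
    have a2 : D * (G * R) = R := by rw [← Matrix.mul_assoc, hDG, Matrix.one_mul]
    simp only [sub_mul, mul_sub, Matrix.one_mul, Matrix.mul_one, smul_mul_assoc, mul_smul_comm,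
      a1, a2, smul_sub, smul_smul, Matrix.mul_assoc]
    abel
  rw [e1] at h1
  have h2 := hRGR.smul (mul_nonneg ht0 ht0)
  have h3 := (h1.add h2).add hXT
  convert h3 using 1
  rw [smul_sub, smul_smul, mul_assoc t t, htK, mul_one, hDdef]
  have : ((1 - 1 / K : ℝ) : ℂ) = 1 - t := by rw [ht]; push_cast; ring
  rw [this, sub_smul, one_smul]
  abel

end Pool.Agent.MP_301177_an
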