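import Mathlib

open Polynomial

noncomputable section

namespace Pool.Agent.MP_301177_an

lemma lower_P (a b P : ℕ → ℝ) (hab : ∀ k l, k < l → a l < b k) (hba : ∀ k l, l ≤ k → b k < a l)
    (hP : ∀ l, 0 ≤ P l) (hF : ∀ k, HasSum (fun l => P l / (a l - b k)) 1) (N : ℕ) (j : Fin N) :
    ∏ k : Fin N, |a j - b k| ≤ P j * ∏ l ∈ Finset.univ.erase j, |a j - a l| := by
  have hne : ∀ l k, a l ≠ b k := fun l k => by
    rcases lt_or_ge k l with h | h
    · exact (hab k l h).ne
    · exact (hba k l h).ne'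
  have hbi : Set.InjOn (fun k : Fin N => b k) (Finset.univ : Finset (Fin N)) := by
    intro k _ k' _ h
    by_contra hkk
    rcases lt_or_gt_of_ne (Fin.val_ne_of_ne hkk) with h1 | h1
    · linarith [hab k k' h1, hba k' k' le_rfl]
    · linarith [hab k' k h1, hba k k le_rfl]
  set n : ℝ[X] := Lagrange.nodal (Finset.univ.erase j) (fun l : Fin N => a l) with hn
  have hcard : ((Finset.univ : Finset (Fin N)).card : WithBot ℕ) = n.degree + 1 := by
    rw [hn, Lagrange.degree_nodal]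
    exact_mod_cast (Finset.card_erase_add_one (Finset.mem_univ j)).symm
  have hdeg : n.degree < (Finset.univ : Finset (Fin N)).card := by
    rw [hn, Lagrange.degree_nodal]
    exact_mod_cast Finset.card_erase_lt_of_mem (Finset.mem_univ j)
  let c : Fin N → ℝ := fun k =>
    Lagrange.nodalWeight Finset.univ (fun k : Fin N => b k) k * n.eval (b k)
  have hc : ∑ k, c k = 1 := by
    have h1 := Lagrange.leadingCoeff_eq_sum hbi hcard
    rw [hn, Lagrange.nodal_monic.leadingCoeff] at h1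
    rw [h1]
    refine Finset.sum_congr rfl fun k _ => ?_
    simp only [c, Lagrange.nodalWeight, Finset.prod_inv_distrib, hn]
    ring
  have hL : ∀ l, ∑ k, c k * (P l / (a l - b k))
      = P l * (n.eval (a l) / ∏ k : Fin N, (a l - b k)) := by
    intro l
    have h1 := Lagrange.eval_interpolate_not_at_node (s := Finset.univ)
      (v := fun k : Fin N => b k) (x := a l) (fun k => n.eval (b k)) (fun k _ => hne l k)
    rw [← Lagrange.eq_interpolate hbi hdeg,
      Lagrange.eval_nodal (s := Finset.univ) (v := fun k : Fin N => b k)] at h1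
    have h2 : ∏ k : Fin N, (a l - b k) ≠ 0 :=
      Finset.prod_ne_zero_iff.2 fun k _ => sub_ne_zero.2 (hne l k)
    rw [h1, mul_div_cancel_left₀ _ h2, Finset.mul_sum]
    refine Finset.sum_congr rfl fun k _ => ?_
    simp only [c]
    ring
  have hS : HasSum (fun l => P l * (n.eval (a l) / ∏ k : Fin N, (a l - b k))) 1 := by
    have := hasSum_sum (s := Finset.univ) (fun (k : Fin N) _ => (hF k).mul_left (c k))
    simp only [mul_one, hc, hL] at this
    exact this
  have hle := hasSum_le (fun l => ?_) hS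
    (hasSum_ite_eq (j : ℕ) (P j * (n.eval (a j) / ∏ k : Fin N, (a j - b k))))
  · have h2 : 0 < ∏ k : Fin N, |a j - b k| :=
      Finset.prod_pos fun k _ => abs_pos.2 (sub_ne_zero.2 (hne j k))
    have h3 : P j * (n.eval (a j) / ∏ k : Fin N, (a j - b k))
        ≤ P j * ((∏ l ∈ Finset.univ.erase j, |a j - a l|) / ∏ k : Fin N, |a j - b k|) := by
      refine mul_le_mul_of_nonneg_left ((le_abs_self _).trans (le_of_eq ?_)) (hP j)
      rw [abs_div, hn, Lagrange.eval_nodal, Finset.abs_prod, Finset.abs_prod]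
    have h4 := hle.trans h3
    rwa [← mul_div_assoc, le_div_iff₀ h2, one_mul] at h4
  · split_ifs with hl
    · rw [hl]
    · refine mul_nonpos_of_nonneg_of_nonpos (hP l) ?_
      rcases lt_or_ge l N with h | h
      · have : n.eval (a l) = 0 :=
          Lagrange.eval_nodal_at_node (v := fun l : Fin N => a l) (i := ⟨l, h⟩)
            (Finset.mem_erase.2 ⟨fun h' => hl (congrArg Fin.val h'), Finset.mem_univ _⟩)
        rw [this, zero_div]
      · rw [hn, Lagrange.eval_nodal, ← Finset.mul_prod_erase _ _ (Finset.mem_univ j),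
          mul_comm, ← div_div, ← Finset.prod_div_distrib]
        refine div_nonpos_of_nonneg_of_nonpos (Finset.prod_nonneg fun k _ => ?_) ?_
        · have h1 := hab k l (lt_of_lt_of_le k.2 h)
          have h2 := hba k k le_rfl
          exact (div_pos_of_neg_of_neg (by linarith) (by linarith)).le
        · linarith [hab j l (lt_of_lt_of_le j.2 h)]

lemma exists_root (a b P : ℕ → ℝ) (hab : ∀ k l, k < l → a l < b k)
    (hba : ∀ k l, l ≤ k → b k < a l) (hb0 : ∀ k, 0 < b k)
    (hP : ∀ l, 0 < P l) (hF : ∀ k, HasSum (fun l => P l / (a l - b k)) 1) (N : ℕ)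
    (h0 : ∑ l : Fin N, P l / a l ≤ 1) (k : Fin N) :
    ∃ y, 0 ≤ y ∧ y ≤ b k ∧ (∀ j : Fin N, k < j → a j < y) ∧ ∑ l : Fin N, P l / (a l - y) = 1 := by
  have hFN : 1 ≤ ∑ l : Fin N, P l / (a l - b k) := by
    rw [Fin.sum_univ_eq_sum_range (fun l => P l / (a l - b k))]
    have h1 := (hasSum_nat_add_iff' N).2 (hF k)
    have h2 := h1.nonpos fun l => div_nonpos_of_nonneg_of_nonpos (hP _).le
      (by linarith [hab k (l + N) (by omega)])
    linarith
  rcases lt_or_ge ((k : ℕ) + 1) N with hk | hk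
  · let m : Fin N := ⟨k + 1, hk⟩
    have hm : a m < b k := hab k (k + 1) (by omega)
    have hden : ∀ l ∈ Finset.univ.erase m, ∀ y ∈ Set.Icc (a m) (b k), a l - y ≠ 0 := by
      intro l hl y hy
      have hlm : (l : ℕ) ≠ k + 1 := fun h => (Finset.mem_erase.1 hl).1 (Fin.ext h)
      rcases lt_or_gt_of_ne hlm with h | h
      · have := hba k l (by omega)
        linarith [hy.2]
      · have h1 := hab (k + 1) l h
        have h2 := hba (k + 1) (k + 1) le_rfl
        have h3 : a m = a (k + 1) := rfl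
        linarith [hy.1]
    let g : ℝ → ℝ := fun y =>
      (y - a m) * (1 - ∑ l ∈ Finset.univ.erase m, P l / (a l - y)) + P m
    have hg : ContinuousOn g (Set.Icc (a m) (b k)) := by
      refine ContinuousOn.add (ContinuousOn.mul (by fun_prop) (continuousOn_const.sub ?_))
        continuousOn_const
      exact continuousOn_finsetSum _ fun l hl =>
        continuousOn_const.div (by fun_prop) (hden l hl)
    have hgeq : ∀ y, a m < y → g y = (y - a m) * (1 - ∑ l : Fin N, P l / (a l - y)) := by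
      intro y hy
      rw [← Finset.add_sum_erase _ _ (Finset.mem_univ m)]
      have : a m - y ≠ 0 := by linarith
      simp only [g]
      field_simp
      ring
    have h1 : g (b k) ≤ 0 := by
      rw [hgeq _ hm]
      exact mul_nonpos_of_nonneg_of_nonpos (by linarith) (by linarith)
    have h2 : 0 < g (a m) := by simp only [g, sub_self, zero_mul, zero_add]; exact hP _
    obtain ⟨y, hy, hy0⟩ := intermediate_value_Icc' hm.le hg ⟨h1, h2.le⟩
    have hym : a m < y := lt_of_le_of_ne hy.1 fun h => by rw [← h] at hy0; linarith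
    refine ⟨y, ?_, hy.2, fun j hj => ?_, ?_⟩
    · have h3 := hba (k + 1) (k + 1) le_rfl
      have h4 : a m = a (k + 1) := rfl
      linarith [hb0 (k + 1)]
    · rcases eq_or_lt_of_le (show (k : ℕ) + 1 ≤ j from hj) with h | h
      · rw [← h]; exact hym
      · have h3 := hab (k + 1) j h
        have h4 := hba (k + 1) (k + 1) le_rfl
        have h5 : a m = a (k + 1) := rfl
        linarith
    · rw [hgeq y hym, mul_eq_zero] at hy0
      rcases hy0 with h | h <;> linarith
  · let g : ℝ → ℝ := fun y => ∑ l : Fin N, P l / (a l - y)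
    have hg : ContinuousOn g (Set.Icc 0 (b k)) := by
      refine continuousOn_finsetSum _ fun l _ => continuousOn_const.div (by fun_prop) ?_
      intro y hy
      have := hba k l (by have := l.2; omega)
      linarith [hy.2]
    have h1 : g 0 ≤ 1 := by simpa [g] using h0
    obtain ⟨y, hy, hy0⟩ := intermediate_value_Icc (hb0 k).le hg ⟨h1, hFN⟩
    refine ⟨y, hy.1, hy.2, fun j hj => ?_, hy0⟩
    have h2 : (k : ℕ) < j := hj
    have := j.2
    omega

section geom

variable {δ : ℝ} {s : ℕ → ℝ}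

lemma s_pow (hδ : 0 < δ) (hs : ∀ r, s (r + 1) ≤ δ * s r) (a d : ℕ) :
    s (a + d) ≤ δ ^ d * s a := by
  induction d with
  | zero => simp
  | succ d ih =>
    calc s (a + (d + 1)) ≤ δ * s (a + d) := hs (a + d)
      _ ≤ δ * (δ ^ d * s a) := mul_le_mul_of_nonneg_left ih hδ.le
      _ = _ := by ring

lemma s_anti (hδ1 : δ < 1) (hpos : ∀ r, 0 < s r) (hs : ∀ r, s (r + 1) ≤ δ * s r) :
    StrictAnti s :=
  strictAnti_nat_of_succ_lt fun r => by nlinarith [hs r, hpos r]

lemma ratio_lt (hδ : 0 < δ) (hδ1 : δ < 1) (hpos : ∀ r, 0 < s r) (hs : ∀ r, s (r + 1) ≤ δ * s r)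
    {a b e : ℕ} (hab : a < b) (he : a + e ≤ b) :
    s a + s b ≤ Real.exp (2 / (1 - δ) * δ ^ e) * (s a - s b) := by
  obtain ⟨d, rfl⟩ := Nat.exists_eq_add_of_le hab.le
  have h1 := s_pow hδ hs a d
  have h2 : δ ^ d ≤ δ ^ e := pow_le_pow_of_le_one hδ.le hδ1.le (by omega)
  have h3 : δ ^ d ≤ δ := by
    simpa using pow_le_pow_of_le_one hδ.le hδ1.le (show 1 ≤ d by omega)
  have ha := hpos a
  have h4 : (1 - δ) * s a ≤ s a - s (a + d) := by nlinarith
  have h5 : 0 < 1 - δ := by linarith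
  have h6 : s (a + d) ≤ δ ^ e * s a := h1.trans (mul_le_mul_of_nonneg_right h2 ha.le)
  have h7 : 2 * s (a + d) ≤ 2 / (1 - δ) * δ ^ e * (s a - s (a + d)) := by
    calc 2 * s (a + d) ≤ 2 * (δ ^ e * s a) := by linarith
      _ = 2 / (1 - δ) * δ ^ e * ((1 - δ) * s a) := by field_simp
      _ ≤ _ := mul_le_mul_of_nonneg_left h4 (by positivity)
  have h8 := Real.add_one_le_exp (2 / (1 - δ) * δ ^ e)
  have h9 : 0 ≤ s a - s (a + d) := le_trans (by positivity) h4
  nlinarith [mul_le_mul_of_nonneg_right h8 h9]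

lemma ratio_ne (hδ : 0 < δ) (hδ1 : δ < 1) (hpos : ∀ r, 0 < s r) (hs : ∀ r, s (r + 1) ≤ δ * s r)
    {a b e : ℕ} (hab : a ≠ b) (he : e ≤ Nat.dist a b) :
    s a + s b ≤ Real.exp (2 / (1 - δ) * δ ^ e) * |s a - s b| := by
  unfold Nat.dist at he
  rcases lt_or_gt_of_ne hab with h | h
  · exact (ratio_lt hδ hδ1 hpos hs h (by omega)).trans
      (mul_le_mul_of_nonneg_left (le_abs_self _) (Real.exp_pos _).le)
  · rw [add_comm, abs_sub_comm]
    exact (ratio_lt hδ hδ1 hpos hs h (by omega)).trans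
      (mul_le_mul_of_nonneg_left (le_abs_self _) (Real.exp_pos _).le)

lemma geom_dist (hδ : 0 < δ) (hδ1 : δ < 1) (N j : ℕ) :
    ∑ k : Fin N, δ ^ Nat.dist j k ≤ 2 / (1 - δ) := by
  rw [Fin.sum_univ_eq_sum_range (fun k => δ ^ Nat.dist j k)]
  have hg : ∀ n, ∑ i ∈ Finset.range n, δ ^ i ≤ 1 / (1 - δ) := fun n => by
    rw [one_div, ← tsum_geometric_of_lt_one hδ.le hδ1]
    exact (summable_geometric_of_lt_one hδ.le hδ1).sum_le_tsum _ fun i _ => by positivity
  calc ∑ k ∈ Finset.range N, δ ^ Nat.dist j k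
      ≤ ∑ k ∈ Finset.range (j + 1 + N), δ ^ Nat.dist j k :=
        Finset.sum_le_sum_of_subset_of_nonneg (Finset.range_mono (by omega))
          fun _ _ _ => by positivity
    _ = ∑ k ∈ Finset.range (j + 1), δ ^ k + ∑ k ∈ Finset.range N, δ ^ (k + 1) := by
        rw [Finset.sum_range_add, ← Finset.sum_range_reflect (fun k => δ ^ k)]
        congr 1
        · refine Finset.sum_congr rfl fun k hk => ?_
          rw [Finset.mem_range] at hk
          congr 1
          unfold Nat.dist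
          omega
        · refine Finset.sum_congr rfl fun k _ => ?_
          congr 1
          unfold Nat.dist
          omega
    _ ≤ 1 / (1 - δ) + 1 / (1 - δ) := by
        refine add_le_add (hg _) (le_trans (Finset.sum_le_sum fun k _ => ?_) (hg N))
        exact pow_le_pow_of_le_one hδ.le hδ1.le (by omega)
    _ = _ := by ring

lemma prod_ratio (hδ : 0 < δ) (hδ1 : δ < 1) (hpos : ∀ r, 0 < s r)
    (hs : ∀ r, s (r + 1) ≤ δ * s r) {N : ℕ} (j : Fin N) (t : Finset (Fin N)) (g : Fin N → ℕ)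
    (hg : ∀ k ∈ t, 2 * (j : ℕ) ≠ g k ∧ Nat.dist j k ≤ Nat.dist (2 * j) (g k)) :
    ∏ k ∈ t, (s (2 * j) + s (g k))
      ≤ Real.exp (4 / (1 - δ) ^ 2) * ∏ k ∈ t, |s (2 * j) - s (g k)| := by
  have h5 : 0 < 1 - δ := by linarith
  calc ∏ k ∈ t, (s (2 * j) + s (g k))
      ≤ ∏ k ∈ t, (Real.exp (2 / (1 - δ) * δ ^ Nat.dist j k) * |s (2 * j) - s (g k)|) :=
        Finset.prod_le_prod (fun k _ => (add_pos (hpos _) (hpos _)).le)
          fun k hk => ratio_ne hδ hδ1 hpos hs (hg k hk).1 (hg k hk).2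
    _ = Real.exp (2 / (1 - δ) * ∑ k ∈ t, δ ^ Nat.dist j k) * ∏ k ∈ t, |s (2 * j) - s (g k)| := by
        rw [Finset.prod_mul_distrib, ← Real.exp_sum, Finset.mul_sum]
    _ ≤ _ := by
        refine mul_le_mul_of_nonneg_right (Real.exp_le_exp.2 ?_)
          (Finset.prod_nonneg fun k _ => abs_nonneg _)
        have h1 : ∑ k ∈ t, δ ^ Nat.dist j k ≤ 2 / (1 - δ) :=
          (Finset.sum_le_sum_of_subset_of_nonneg (Finset.subset_univ t)
            fun _ _ _ => by positivity).trans (geom_dist hδ hδ1 N j)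
        calc 2 / (1 - δ) * ∑ k ∈ t, δ ^ Nat.dist j k ≤ 2 / (1 - δ) * (2 / (1 - δ)) :=
              mul_le_mul_of_nonneg_left h1 (by positivity)
          _ = _ := by field_simp; norm_num

lemma prod_bound (hδ : 0 < δ) (hδ1 : δ < 1) (hpos : ∀ r, 0 < s r)
    (hs : ∀ r, s (r + 1) ≤ δ * s r) {N : ℕ} (j : Fin N) (τ : Fin N → ℝ) (hτ0 : ∀ k, 0 ≤ τ k)
    (hτ : ∀ k : Fin N, τ k ≤ s (2 * k + 1)) (q : ℝ) (hq : 0 ≤ q)
    (hlow : ∏ k : Fin N, |s (2 * j) ^ 2 - s (2 * k + 1) ^ 2|
      ≤ q ^ 2 * ∏ l ∈ Finset.univ.erase j, |s (2 * j) ^ 2 - s (2 * (l : ℕ)) ^ 2|) :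
    ∏ k, (s (2 * j) + τ k) ≤ Real.exp (4 / (1 - δ) ^ 2) *
      (q * ∏ l ∈ Finset.univ.erase j, |s (2 * (l : ℕ)) - s (2 * j)|) := by
  set E := Real.exp (4 / (1 - δ) ^ 2) with hE
  have hE0 : 0 < E := Real.exp_pos _
  have h1 := prod_ratio hδ hδ1 hpos hs j Finset.univ (fun k => 2 * k + 1) (fun k _ => by
    unfold Nat.dist; omega)
  have h2 := prod_ratio hδ hδ1 hpos hs j (Finset.univ.erase j) (fun k => 2 * k) (fun k hk => by
    have := Fin.val_ne_of_ne (Finset.mem_erase.1 hk).1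
    unfold Nat.dist; omega)
  have e : ∀ a b, |s a ^ 2 - s b ^ 2| = (s a + s b) * |s a - s b| := fun a b => by
    rw [sq_sub_sq, abs_mul, abs_of_pos (add_pos (hpos a) (hpos b))]
  simp only [e, Finset.prod_mul_distrib] at hlow
  have e2 : ∏ l ∈ Finset.univ.erase j, |s (2 * (l : ℕ)) - s (2 * j)|
      = ∏ l ∈ Finset.univ.erase j, |s (2 * j) - s (2 * (l : ℕ))| :=
    Finset.prod_congr rfl fun l _ => abs_sub_comm _ _
  rw [e2]
  rw [← hE] at h1 h2
  set A := ∏ k : Fin N, (s (2 * j) + s (2 * k + 1))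
  set A' := ∏ k : Fin N, |s (2 * j) - s (2 * k + 1)|
  set B := ∏ l ∈ Finset.univ.erase j, (s (2 * j) + s (2 * (l : ℕ)))
  set B' := ∏ l ∈ Finset.univ.erase j, |s (2 * j) - s (2 * (l : ℕ))|
  have hA : 0 ≤ A := Finset.prod_nonneg fun k _ => (add_pos (hpos _) (hpos _)).le
  have hB' : 0 ≤ B' := Finset.prod_nonneg fun k _ => abs_nonneg _
  have h3 : ∏ k, (s (2 * j) + τ k) ≤ A :=
    Finset.prod_le_prod (fun k _ => add_nonneg (hpos _).le (hτ0 k)) fun k _ => by linarith [hτ k]
  refine h3.trans (abs_le_of_sq_le_sq' ?_ (by positivity)).2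
  calc A ^ 2 = A * A := sq A
    _ ≤ A * (E * A') := mul_le_mul_of_nonneg_left h1 hA
    _ = E * (A * A') := by ring
    _ ≤ E * (q ^ 2 * (B * B')) := mul_le_mul_of_nonneg_left hlow hE0.le
    _ ≤ E * (q ^ 2 * (E * B' * B')) := by gcongr
    _ = _ := by ring

lemma schur_term (hδ : 0 < δ) (hpos : ∀ r, 0 < s r) (hs : ∀ r, s (r + 1) ≤ δ * s r)
    {j l : ℕ} (h : j ≤ l) (x y : ℝ) :
    s (2 * j) * s (2 * l) / (s (2 * j) + s (2 * l)) * (x * y)
      ≤ δ ^ Nat.dist j l * (s (2 * j) * x ^ 2 + s (2 * l) * y ^ 2) / 2 := by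
  obtain ⟨d, rfl⟩ := Nat.exists_eq_add_of_le h
  have e : Nat.dist j (j + d) = d := by unfold Nat.dist; omega
  rw [e]
  have h1 := s_pow hδ hs (2 * j) (2 * d)
  rw [← mul_add, mul_comm 2 d, pow_mul] at h1
  have ha := hpos (2 * j)
  have hb := hpos (2 * (j + d))
  set a := s (2 * j)
  set b := s (2 * (j + d))
  set t := δ ^ d
  have ht : 0 < t := pow_pos hδ d
  have h2 : a * b / (a + b) * (x * y) ≤ b * |x * y| := by
    refine (mul_le_mul_of_nonneg_left (le_abs_self _) (by positivity)).trans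
      (mul_le_mul_of_nonneg_right ?_ (abs_nonneg _))
    rw [div_le_iff₀ (by positivity)]
    nlinarith
  refine h2.trans ?_
  rw [abs_mul, ← sq_abs x, ← sq_abs y]
  have hx := abs_nonneg x
  have hy := abs_nonneg y
  set u := |x|
  set w := |y|
  have h3 : t * (b * (u * w)) ≤ t * (t * (a * u ^ 2 + b * w ^ 2) / 2) := by
    nlinarith [mul_nonneg hb.le (sq_nonneg (u - t * w)),
      mul_le_mul_of_nonneg_right h1 (sq_nonneg u)]
  exact le_of_mul_le_mul_left h3 ht

lemma schur (hδ : 0 < δ) (hδ1 : δ < 1) (hpos : ∀ r, 0 < s r) (hs : ∀ r, s (r + 1) ≤ δ * s r)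
    {N : ℕ} (x : Fin N → ℝ) :
    ∑ j : Fin N, ∑ l : Fin N, s (2 * j) * s (2 * l) / (s (2 * j) + s (2 * l)) * (x j * x l)
      ≤ 2 / (1 - δ) * ∑ j : Fin N, s (2 * j) * x j ^ 2 := by
  have h1 : ∀ j l : Fin N, s (2 * j) * s (2 * l) / (s (2 * j) + s (2 * l)) * (x j * x l)
      ≤ δ ^ Nat.dist j l * (s (2 * j) * x j ^ 2) / 2
        + δ ^ Nat.dist l j * (s (2 * l) * x l ^ 2) / 2 := by
    intro j l
    rcases le_total (j : ℕ) l with h | h
    · have := schur_term hδ hpos hs h (x j) (x l)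
      rw [Nat.dist_comm l j]
      linarith
    · have := schur_term hδ hpos hs h (x l) (x j)
      rw [Nat.dist_comm j l, mul_comm (s (2 * j)), add_comm (s (2 * j)), mul_comm (x j)]
      linarith
  refine (Finset.sum_le_sum fun j _ => Finset.sum_le_sum fun l _ => h1 j l).trans ?_
  simp only [Finset.sum_add_distrib]
  rw [Finset.sum_comm (f := fun j l : Fin N => δ ^ Nat.dist l j * (s (2 * l) * x l ^ 2) / 2),
    ← Finset.sum_add_distrib, Finset.mul_sum]
  refine Finset.sum_le_sum fun j _ => ?_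
  rw [← Finset.sum_add_distrib]
  simp only [add_halves]
  rw [← Finset.sum_mul]
  exact mul_le_mul_of_nonneg_right (geom_dist hδ hδ1 N j) (mul_nonneg (hpos _).le (sq_nonneg _))

end geom

end Pool.Agent.MP_301177_an
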