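import Pool.Agent.MP_301177_an.Fin
import Pool.Agent.MP_301177_an.Seq

open Matrix Filter Topology
open scoped ComplexOrder InnerProductSpace

noncomputable section

namespace Pool.Agent.MP_301177_an

def th (δ : ℝ) : ℝ := 1 - 1 / ((1 + Real.exp (4 / (1 - δ) ^ 2) ^ 2) * (2 / (1 - δ)))

lemma th_lt_one {δ : ℝ} (hδ1 : δ < 1) : th δ < 1 := by
  have : 0 < 1 - δ := by linarith
  unfold th
  have : 0 < 1 / ((1 + Real.exp (4 / (1 - δ) ^ 2) ^ 2) * (2 / (1 - δ))) := by positivity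
  linarith

lemma th_nonneg {δ : ℝ} (hδ : 0 < δ) (hδ1 : δ < 1) : 0 ≤ th δ := by
  have h0 : 0 < 1 - δ := by linarith
  unfold th
  rw [sub_nonneg, div_le_one (by positivity)]
  have h1 : 1 ≤ 2 / (1 - δ) := by rw [le_div_iff₀ h0]; linarith
  nlinarith [sq_nonneg (Real.exp (4 / (1 - δ) ^ 2))]

theorem finite_gap_seq {δ : ℝ} {s : ℕ → ℝ} (hδ : 0 < δ) (hδ1 : δ < 1) (hpos : ∀ r, 0 < s r)
    (hs : ∀ r, s (r + 1) ≤ δ * s r) (p : ℕ → ℂ) (hp : ∀ l, p l ≠ 0)
    (hF : ∀ k, HasSum (fun l => ‖p l‖ ^ 2 / (s (2 * l) ^ 2 - s (2 * k + 1) ^ 2)) 1)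
    (N : ℕ) (T : Matrix (Fin N) (Fin N) ℂ) (hT : T.IsHermitian)
    (hB : (diagonal (fun j : Fin N => (s (2 * j) : ℂ)) * diagonal (fun j : Fin N => (s (2 * j) : ℂ))
      - vecMulVec (fun j : Fin N => p j) (star fun j : Fin N => p j) - T * T).PosSemidef) :
    (((th δ : ℝ) : ℂ) • diagonal (fun j : Fin N => (s (2 * j) : ℂ)) - T).PosSemidef := by
  have hanti := s_anti hδ1 hpos hs
  have hsq : ∀ a b, a < b → s b ^ 2 < s a ^ 2 := fun a b h =>
    pow_lt_pow_left₀ (hanti h) (hpos b).le two_ne_zero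
  have hab : ∀ k l, k < l → s (2 * l) ^ 2 < s (2 * k + 1) ^ 2 := fun k l h => hsq _ _ (by omega)
  have hba : ∀ k l, l ≤ k → s (2 * k + 1) ^ 2 < s (2 * l) ^ 2 := fun k l h => hsq _ _ (by omega)
  have h0 : ∑ l : Fin N, ‖p l‖ ^ 2 / s (2 * l) ^ 2 ≤ 1 := by
    have hTT : (T * T).PosSemidef := by
      have := posSemidef_conjTranspose_mul_self T
      rwa [hT.eq] at this
    have hBp := hB.add hTT
    rw [sub_add_cancel] at hBp
    have h1 := hBp.dotProduct_mulVec_nonneg (fun j : Fin N => p j / (s (2 * j) : ℂ) ^ 2)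
    set F := ∑ l : Fin N, ‖p l‖ ^ 2 / s (2 * l) ^ 2 with hFdef
    have e1 : star (fun j : Fin N => p j) ⬝ᵥ (fun j : Fin N => p j / (s (2 * j) : ℂ) ^ 2)
        = (F : ℂ) := by
      rw [hFdef]
      push_cast
      refine Finset.sum_congr rfl fun j _ => ?_
      simp only [Pi.star_apply, Complex.star_def]
      rw [← Complex.conj_mul' (p j)]
      ring
    have e2 : star (fun j : Fin N => p j / (s (2 * j) : ℂ) ^ 2) ⬝ᵥ (fun j : Fin N => p j)
        = (F : ℂ) := by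
      rw [star_dotProduct, e1]
      exact Complex.conj_ofReal _
    have e3 : (diagonal (fun j : Fin N => (s (2 * j) : ℂ))
        * diagonal (fun j : Fin N => (s (2 * j) : ℂ))) *ᵥ
        (fun j : Fin N => p j / (s (2 * j) : ℂ) ^ 2) = fun j : Fin N => p j := by
      ext j
      rw [← mulVec_mulVec, mulVec_diagonal, mulVec_diagonal]
      have : (s (2 * j) : ℂ) ≠ 0 := by exact_mod_cast (hpos _).ne'
      field_simp
    rw [sub_mulVec, vecMulVec_mulVec, e1, e3, dotProduct_sub, e2, op_smul_eq_smul,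
      dotProduct_smul, e2, smul_eq_mul] at h1
    have h2 : 0 ≤ F - F * F := by exact_mod_cast h1
    nlinarith
  choose y y0 y1 y2 y3 using exists_root (fun l => s (2 * l) ^ 2) (fun k => s (2 * k + 1) ^ 2)
    (fun l => ‖p l‖ ^ 2) hab hba (fun k => pow_pos (hpos _) 2)
    (fun l => pow_pos (norm_pos_iff.2 (hp l)) 2) hF N h0
  have hτ : ∀ k : Fin N, Real.sqrt (y k) ≤ s (2 * k + 1) := fun k =>
    Real.sqrt_le_iff.2 ⟨(hpos _).le, y1 k⟩
  have hne : ∀ j k : Fin N, s (2 * j) ^ 2 ≠ y k := by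
    intro j k
    rcases lt_or_ge k j with h | h
    · exact (y2 k j h).ne
    · exact ((y1 k).trans_lt (hba k j h)).ne'
  refine finite_gap (fun j : Fin N => s (2 * j)) (fun k => Real.sqrt (y k)) (fun j => p j) T
    (Real.exp (4 / (1 - δ) ^ 2)) (2 / (1 - δ)) (fun j => hpos _) ?_ (fun k => Real.sqrt_nonneg _)
    ?_ ?_ (fun j => hp j) ?_ ?_ (div_pos two_pos (by linarith)) (schur hδ hδ1 hpos hs) hT hB
  · intro a b h
    have := hanti.injective h
    exact Fin.ext (by omega)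
  · intro a b h
    have h1 : y a = y b := (Real.sqrt_inj (y0 a) (y0 b)).1 h
    by_contra hab'
    rcases lt_or_gt_of_ne hab' with h2 | h2
    · linarith [y2 a b h2, y1 b, hba b b le_rfl]
    · linarith [y2 b a h2, y1 a, hba a a le_rfl]
  · intro j k h
    apply hne j k
    rw [h, Real.sq_sqrt (y0 k)]
  · intro k
    simp only [Real.sq_sqrt (y0 k)]
    exact y3 k
  · intro j
    exact prod_bound hδ hδ1 hpos hs j _ (fun k => Real.sqrt_nonneg _) hτ _ (norm_nonneg _)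
      (lower_P (fun l => s (2 * l) ^ 2) (fun k => s (2 * k + 1) ^ 2) (fun l => ‖p l‖ ^ 2) hab hba
        (fun l => sq_nonneg _) hF N j)

variable {E : Type} [NormedAddCommGroup E] [InnerProductSpace ℂ E] [CompleteSpace E]

omit [CompleteSpace E] in
lemma pos_sqrt_eig {R : E →L[ℂ] E} (hR : R.IsPositive) {τ : ℝ} (hτ : 0 < τ) {f : E}
    (h : R (R f) = ((τ : ℂ) ^ 2) • f) : R f = (τ : ℂ) • f := by
  set y := R f - (τ : ℂ) • f with hy
  have h1 : R y = -(τ : ℂ) • y := by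
    rw [hy, map_sub, map_smul, h, smul_sub, smul_smul, neg_smul, neg_mul, neg_smul, sq]
    abel
  have h2 := hR.re_inner_nonneg_right y
  rw [h1, inner_smul_right, inner_self_eq_norm_sq_to_K] at h2
  have h3 : RCLike.re (-(τ : ℂ) * ((‖y‖ : ℂ)) ^ 2) = -τ * ‖y‖ ^ 2 := by
    have : -(τ : ℂ) * ((‖y‖ : ℂ)) ^ 2 = ((-τ * ‖y‖ ^ 2 : ℝ) : ℂ) := by push_cast; ring
    rw [this]
    exact Complex.ofReal_re _
  have h4 : 0 ≤ -τ * ‖y‖ ^ 2 := h3 ▸ h2
  have h5 : ‖y‖ ^ 2 = 0 := by nlinarith [sq_nonneg ‖y‖]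
  exact sub_eq_zero.1 (norm_eq_zero.1 (pow_eq_zero_iff two_ne_zero |>.1 h5))

theorem gap {δ : ℝ} {s : ℕ → ℝ} (hδ : 0 < δ) (hδ1 : δ < 1) (hpos : ∀ r, 0 < s r)
    (hs : ∀ r, s (r + 1) ≤ δ * s r) (A R T : E →L[ℂ] E) (u : E)
    (hAc : IsCompactOperator A) (hR : R.IsPositive) (hRR : ∀ x, R (R x) = A x)
    (hT : (T : E →ₗ[ℂ] E).IsSymmetric)
    (hTB : ∀ x, ‖T x‖ ^ 2 ≤ ‖R x‖ ^ 2 - ‖⟪u, x⟫_ℂ‖ ^ 2)
    (hA : ∀ lam : ℝ, 0 < lam →
      ((∃ x, x ≠ 0 ∧ A x = (lam : ℂ) • x) ↔ ∃ j, lam = s (2 * j) ^ 2))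
    (hB : ∀ lam : ℝ, 0 < lam →
      ((∃ x, x ≠ 0 ∧ A x - ⟪u, x⟫_ℂ • u = (lam : ℂ) • x) ↔ ∃ k, lam = s (2 * k + 1) ^ 2)) :
    (∀ x, (⟪x, T x⟫_ℂ).re ≤ th δ * (⟪x, R x⟫_ℂ).re) ∧
      ∀ x, ‖R x‖ ^ 2 ≤ s 0 * (⟪x, R x⟫_ℂ).re := by
  have hanti := s_anti hδ1 hpos hs
  have hsqi : ∀ a b, s a ^ 2 = s b ^ 2 → a = b := fun a b h =>
    hanti.injective ((pow_left_inj₀ (hpos a).le (hpos b).le two_ne_zero).1 h)
  have hRs : ∀ x y, ⟪R x, y⟫_ℂ = ⟪x, R y⟫_ℂ := hR.inner_left_eq_inner_right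
  have hTs : ∀ x y, ⟪T x, y⟫_ℂ = ⟪x, T y⟫_ℂ := hT
  have hAs : ∀ x y, ⟪A x, y⟫_ℂ = ⟪x, A y⟫_ℂ := fun x y => by rw [← hRR, ← hRR, hRs, hRs]
  have hAn : ∀ x, ⟪x, A x⟫_ℂ = ((‖R x‖ ^ 2 : ℝ) : ℂ) := fun x => by
    rw [← hRR, ← hRs, inner_self_eq_norm_sq_to_K]; push_cast; rfl
  -- unit eigenvectors
  have hex : ∀ j, ∃ e : E, ‖e‖ = 1 ∧ A e = ((s (2 * j) ^ 2 : ℝ) : ℂ) • e := by
    intro j
    obtain ⟨x, hx, hx'⟩ := (hA _ (pow_pos (hpos _) 2)).2 ⟨j, rfl⟩
    refine ⟨((‖x‖⁻¹ : ℝ) : ℂ) • x, ?_, by rw [map_smul, hx', smul_comm]⟩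
    rw [norm_smul, Complex.norm_real, norm_inv, norm_norm, inv_mul_cancel₀ (norm_ne_zero_iff.2 hx)]
  choose e he1 he using hex
  have hperp : ∀ j y, A y = ((s (2 * j) ^ 2 : ℝ) : ℂ) • y → ⟪u, y⟫_ℂ = 0 → y = 0 := by
    intro j y hy hu
    by_contra hy0
    obtain ⟨k, hk⟩ := (hB _ (pow_pos (hpos (2 * j)) 2)).1 ⟨y, hy0, by rw [hu, hy]; simp⟩
    have := hsqi _ _ hk
    omega
  have hue : ∀ j, ⟪u, e j⟫_ℂ ≠ 0 := fun j h => by
    have := he1 j
    rw [hperp j _ (he j) h] at this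
    simp at this
  have hon : Orthonormal ℂ e := by
    refine ⟨he1, fun i j hij => ?_⟩
    have h1 := hAs (e i) (e j)
    rw [he, he, inner_smul_left, inner_smul_right, Complex.conj_ofReal, ← sub_eq_zero,
      ← sub_mul, mul_eq_zero] at h1
    refine h1.resolve_left fun h => hij ?_
    have := hsqi _ _ (Complex.ofReal_injective (sub_eq_zero.1 h))
    omega
  have hker : ∀ x, (∀ l, ⟪e l, x⟫_ℂ = 0) → A x = 0 := by
    intro x hx
    have hAsym : (A : E →ₗ[ℂ] E).IsSymmetric := hAs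
    have hbot := ContinuousLinearMap.orthogonalComplement_iSup_eigenspaces_eq_bot hAc hAsym
    rw [← Submodule.mem_bot ℂ, ← hbot, ← Submodule.iInf_orthogonal, Submodule.mem_iInf]
    intro μ
    rw [Submodule.mem_orthogonal]
    intro z hz
    rw [Module.End.mem_eigenspace_iff] at hz
    have hz' : A z = μ • z := hz
    rw [← hAs, hz', inner_smul_left]
    by_cases hz0 : z = 0
    · simp [hz0]
    by_cases hμ : μ = 0
    · simp [hμ]
    have h1 := hAn z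
    rw [hz', inner_smul_right, inner_self_eq_norm_sq_to_K] at h1
    have hzn : (‖z‖ : ℂ) ≠ 0 := by exact_mod_cast norm_ne_zero_iff.2 hz0
    have h2 : μ = ((‖R z‖ ^ 2 / ‖z‖ ^ 2 : ℝ) : ℂ) := by
      push_cast at h1 ⊢
      rw [← h1]
      exact (mul_div_cancel_right₀ _ (pow_ne_zero 2 hzn)).symm
    have h3 : 0 < ‖R z‖ ^ 2 / ‖z‖ ^ 2 := by
      refine lt_of_le_of_ne (by positivity) fun h => hμ ?_
      rw [h2, ← h]; simp
    obtain ⟨j, hj⟩ := (hA _ h3).1 ⟨z, hz0, by rw [hz', h2]⟩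
    rw [h2, hj] at hz'
    have h4 := hperp j (⟪u, e j⟫_ℂ • z - ⟪u, z⟫_ℂ • e j)
      (by rw [map_sub, map_smul, map_smul, hz', he, smul_sub, smul_comm, smul_comm ⟪u, z⟫_ℂ])
      (by rw [inner_sub_right, inner_smul_right, inner_smul_right]; ring)
    have h5 := congrArg (fun w => ⟪w, x⟫_ℂ) h4
    simp only [inner_sub_left, inner_smul_left, hx j, mul_zero, sub_zero, inner_zero_left,
      mul_eq_zero, map_eq_zero, hue j, false_or] at h5
    rw [h5, mul_zero]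
  have hexp : ∀ x, ∃ z, R z = 0 ∧ HasSum (fun l => ⟪e l, x⟫_ℂ • e l) (x - z) := by
    intro x
    have h1 : Summable fun l => ⟪e l, x⟫_ℂ • e l :=
      (hon.orthogonalFamily.summable_iff_norm_sq_summable fun l => ⟪e l, x⟫_ℂ).2
        (hon.inner_products_summable x)
    refine ⟨x - ∑' l, ⟪e l, x⟫_ℂ • e l, ?_, by rw [sub_sub_cancel]; exact h1.hasSum⟩
    have h2 : A (x - ∑' l, ⟪e l, x⟫_ℂ • e l) = 0 := by
      refine hker _ fun j => ?_
      have h3 := (innerSL ℂ (e j)).hasSum h1.hasSum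
      simp only [innerSL_apply_apply, inner_smul_right, orthonormal_iff_ite.1 hon] at h3
      have h4 := hasSum_single (f := fun l => ⟪e l, x⟫_ℂ * if j = l then (1 : ℂ) else 0) j
        (fun l hl => by simp [hl.symm])
      rw [inner_sub_right, h3.unique h4]
      simp
    have h3 := hAn (x - ∑' l, ⟪e l, x⟫_ℂ • e l)
    rw [h2, inner_zero_right] at h3
    have h4 : ‖R (x - ∑' l, ⟪e l, x⟫_ℂ • e l)‖ ^ 2 = 0 := by exact_mod_cast h3.symm
    exact norm_eq_zero.1 ((pow_eq_zero_iff two_ne_zero).1 h4)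
  have hz0 : ∀ z, R z = 0 → T z = 0 ∧ ⟪u, z⟫_ℂ = 0 := by
    intro z hz
    have h1 := hTB z
    rw [hz, norm_zero] at h1
    constructor
    · exact norm_eq_zero.1 (by nlinarith [norm_nonneg (T z), sq_nonneg ‖⟪u, z⟫_ℂ‖])
    · exact norm_eq_zero.1 (by nlinarith [norm_nonneg ⟪u, z⟫_ℂ, sq_nonneg ‖T z‖])
  have hRe : ∀ j, R (e j) = (s (2 * j) : ℂ) • e j := fun j =>
    pos_sqrt_eig hR (hpos _) (by rw [hRR, he]; push_cast; rfl)
  let p : ℕ → ℂ := fun l => ⟪e l, u⟫_ℂ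
  have hp : ∀ l, p l ≠ 0 := fun l h => hue l (inner_eq_zero_symm.1 h)
  have hF : ∀ k, HasSum (fun l => ‖p l‖ ^ 2 / (s (2 * l) ^ 2 - s (2 * k + 1) ^ 2)) 1 := by
    intro k
    obtain ⟨f, hf0, hf⟩ := (hB _ (pow_pos (hpos (2 * k + 1)) 2)).2 ⟨k, rfl⟩
    have hq : ⟪u, f⟫_ℂ ≠ 0 := by
      intro h
      obtain ⟨j, hj⟩ := (hA _ (pow_pos (hpos (2 * k + 1)) 2)).1 ⟨f, hf0, by
        rw [← hf, h]; simp⟩
      have := hsqi _ _ hj
      omega
    obtain ⟨z, hz, hsum⟩ := hexp f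
    have h1 := (innerSL ℂ u).hasSum hsum
    simp only [innerSL_apply_apply, inner_smul_right, inner_sub_right, (hz0 z hz).2,
      sub_zero] at h1
    have h2 := h1.div_const ⟪u, f⟫_ℂ
    rw [div_self hq] at h2
    rw [← Complex.hasSum_ofReal, Complex.ofReal_one]
    refine (congrArg (fun F => HasSum F (1 : ℂ)) (funext fun l => ?_)).mpr h2
    have h3 := congrArg (fun w => ⟪e l, w⟫_ℂ) hf
    simp only [inner_sub_right, inner_smul_right] at h3
    rw [← hAs, he, inner_smul_left, Complex.conj_ofReal] at h3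
    have h4 : ((s (2 * l) ^ 2 - s (2 * k + 1) ^ 2 : ℝ) : ℂ) ≠ 0 := by
      have : s (2 * l) ^ 2 - s (2 * k + 1) ^ 2 ≠ 0 := sub_ne_zero.2 fun h => by
        have := hsqi _ _ h
        omega
      exact_mod_cast this
    have h5 : ⟪u, e l⟫_ℂ = (starRingEnd ℂ) (p l) := (inner_conj_symm _ _).symm
    rw [Complex.ofReal_div, div_eq_div_iff h4 hq, h5]
    push_cast at h3 ⊢
    rw [← Complex.conj_mul' (p l)]
    simp only [p]
    linear_combination (-(starRingEnd ℂ) ⟪e l, u⟫_ℂ) * h3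
  -- finite sections
  let V : (N : ℕ) → (Fin N → ℂ) → E := fun N x => ∑ j : Fin N, x j • e j
  have hon' : ∀ N, Orthonormal ℂ fun j : Fin N => e j := fun N => hon.comp _ Fin.val_injective
  have hmat : ∀ (N : ℕ) (Y : E →L[ℂ] E) (x : Fin N → ℂ),
      (Matrix.of fun j l : Fin N => ⟪e j, Y (e l)⟫_ℂ) *ᵥ x = fun j : Fin N => ⟪e j, Y (V N x)⟫_ℂ := by
    intro N Y x
    ext j
    simp only [mulVec, dotProduct, of_apply, V, map_sum, map_smul, inner_sum, inner_smul_right,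
      mul_comm]
  have hdot : ∀ (N : ℕ) (x : Fin N → ℂ) (w : E),
      star x ⬝ᵥ (fun j : Fin N => ⟪e j, w⟫_ℂ) = ⟪V N x, w⟫_ℂ := by
    intro N x w
    simp only [dotProduct, V, sum_inner, inner_smul_left, Pi.star_apply, Complex.star_def]
  have hdiag : ∀ N : ℕ, diagonal (fun j : Fin N => (s (2 * j) : ℂ))
      = Matrix.of fun j l : Fin N => ⟪e j, R (e l)⟫_ℂ := by
    intro N
    ext j l
    rw [of_apply, hRe, inner_smul_right, orthonormal_iff_ite.1 (hon' N), diagonal_apply]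
    split_ifs with h
    · rw [h, mul_one]
    · rw [mul_zero]
  have hRV : ∀ (N : ℕ) (x : Fin N → ℂ), R (V N x) = V N fun j => (s (2 * j) : ℂ) * x j := by
    intro N x
    simp only [V, map_sum, map_smul, hRe, smul_smul, mul_comm]
  have hVV : ∀ (N : ℕ) (x y : Fin N → ℂ), ⟪V N x, V N y⟫_ℂ = star x ⬝ᵥ y := by
    intro N x y
    rw [← hdot]
    congr 1
    ext j
    exact (hon' N).inner_right_fintype y j
  have hfin : ∀ (N : ℕ) (x : Fin N → ℂ),
      (⟪V N x, T (V N x)⟫_ℂ).re ≤ th δ * (⟪V N x, R (V N x)⟫_ℂ).re := by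
    intro N x
    set TN : Matrix (Fin N) (Fin N) ℂ := Matrix.of fun j l : Fin N => ⟪e j, T (e l)⟫_ℂ with hTN
    have hTh : TN.IsHermitian := by
      ext j l
      simp only [hTN, conjTranspose_apply, of_apply, Complex.star_def, inner_conj_symm, hTs]
    have hDh : (diagonal (fun j : Fin N => (s (2 * j) : ℂ))).IsHermitian :=
      (PosSemidef.diagonal fun j => by
        simp only [Pi.zero_apply]; exact_mod_cast (hpos _).le).1
    have h1 := finite_gap_seq hδ hδ1 hpos hs p hp hF N TN hTh (by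
      refine psd_of_re (IsHermitian.sub (IsHermitian.sub ?_
        (posSemidef_vecMulVec_self_star _).1) ?_) fun y => ?_
      · have := isHermitian_conjTranspose_mul_self (diagonal (fun j : Fin N => (s (2 * j) : ℂ)))
        rwa [hDh.eq] at this
      · have := isHermitian_conjTranspose_mul_self TN
        rwa [hTh.eq] at this
      · rw [sub_mulVec, sub_mulVec, dotProduct_sub, dotProduct_sub, ← mulVec_mulVec,
          ← mulVec_mulVec, herm_swap hDh, herm_swap hTh, vecMulVec_mulVec, op_smul_eq_smul,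
          dotProduct_smul, smul_eq_mul]
        have e1 : star (diagonal (fun j : Fin N => (s (2 * j) : ℂ)) *ᵥ y) ⬝ᵥ
            (diagonal (fun j : Fin N => (s (2 * j) : ℂ)) *ᵥ y) = ((‖R (V N y)‖ ^ 2 : ℝ) : ℂ) := by
          have : diagonal (fun j : Fin N => (s (2 * j) : ℂ)) *ᵥ y
              = fun j : Fin N => (s (2 * j) : ℂ) * y j := by
            ext j; rw [mulVec_diagonal]
          rw [this, ← hVV, ← hRV, inner_self_eq_norm_sq_to_K]
          push_cast; rfl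
        have e2 : star y ⬝ᵥ (fun j : Fin N => p j) = ⟪V N y, u⟫_ℂ := hdot N y u
        have e3 : star (fun j : Fin N => p j) ⬝ᵥ y = ⟪u, V N y⟫_ℂ := by
          rw [star_dotProduct, e2]; exact inner_conj_symm _ _
        have e4 : ⟪u, V N y⟫_ℂ * ⟪V N y, u⟫_ℂ = ((‖⟪u, V N y⟫_ℂ‖ ^ 2 : ℝ) : ℂ) := by
          rw [← inner_conj_symm (V N y) u, Complex.mul_conj']; push_cast; rfl
        have e5 : star (TN *ᵥ y) ⬝ᵥ (TN *ᵥ y)
            = ((∑ j : Fin N, ‖⟪e j, T (V N y)⟫_ℂ‖ ^ 2 : ℝ) : ℂ) := by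
          rw [hTN, hmat]
          push_cast
          refine Finset.sum_congr rfl fun j _ => ?_
          simp only [Pi.star_apply, Complex.star_def]
          rw [Complex.conj_mul']
        rw [e1, e2, e3, e4, e5, ← Complex.ofReal_sub, ← Complex.ofReal_sub, Complex.ofReal_re]
        have h2 := (hon' N).sum_inner_products_le (s := Finset.univ) (T (V N y))
        linarith [hTB (V N y)])
    have h2 := h1.re_dotProduct_nonneg x
    rw [sub_mulVec, smul_mulVec, dotProduct_sub, dotProduct_smul, hdiag, hTN, hmat, hmat, hdot,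
      hdot, smul_eq_mul] at h2
    have h3 : 0 ≤ ((th δ : ℂ) * ⟪V N x, R (V N x)⟫_ℂ - ⟪V N x, T (V N x)⟫_ℂ).re := h2
    rw [Complex.sub_re, Complex.re_ofReal_mul] at h3
    linarith
  have hfin2 : ∀ (N : ℕ) (x : Fin N → ℂ),
      ‖R (V N x)‖ ^ 2 ≤ s 0 * (⟪V N x, R (V N x)⟫_ℂ).re := by
    intro N x
    have e1 : ‖R (V N x)‖ ^ 2 = (⟪R (V N x), R (V N x)⟫_ℂ).re := by
      rw [inner_self_eq_norm_sq_to_K]
      norm_cast
    rw [e1, hRV, hVV, hVV]
    simp only [dotProduct, Complex.re_sum, Finset.mul_sum, Pi.star_apply, Complex.star_def]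
    refine Finset.sum_le_sum fun j _ => ?_
    have a1 : (starRingEnd ℂ) ((s (2 * j) : ℂ) * x j) * ((s (2 * j) : ℂ) * x j)
        = ((s (2 * j) * (s (2 * j) * ‖x j‖ ^ 2) : ℝ) : ℂ) := by
      rw [map_mul, Complex.conj_ofReal]
      push_cast
      rw [← Complex.conj_mul' (x j)]
      ring
    have a2 : (starRingEnd ℂ) (x j) * ((s (2 * j) : ℂ) * x j)
        = ((s (2 * j) * ‖x j‖ ^ 2 : ℝ) : ℂ) := by
      push_cast
      rw [← Complex.conj_mul' (x j)]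
      ring
    rw [a1, a2, Complex.ofReal_re, Complex.ofReal_re]
    exact mul_le_mul_of_nonneg_right (hanti.antitone (Nat.zero_le _))
      (mul_nonneg (hpos _).le (sq_nonneg _))
  have hlim : ∀ x, ∃ z, R z = 0 ∧
      Tendsto (fun N => V N fun j => ⟪e j, x⟫_ℂ) atTop (𝓝 (x - z)) := by
    intro x
    obtain ⟨z, hz, hsum⟩ := hexp x
    refine ⟨z, hz, hsum.tendsto_sum_nat.congr fun N => ?_⟩
    exact (Fin.sum_univ_eq_sum_range (fun l => ⟪e l, x⟫_ℂ • e l) N).symm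
  have hzq : ∀ (Y : E →L[ℂ] E), (∀ x y, ⟪Y x, y⟫_ℂ = ⟪x, Y y⟫_ℂ) → ∀ x z, Y z = 0 →
      ⟪x - z, Y (x - z)⟫_ℂ = ⟪x, Y x⟫_ℂ := by
    intro Y hY x z hz
    rw [map_sub, hz, sub_zero, inner_sub_left, ← hY z x, hz, inner_zero_left, sub_zero]
  constructor
  · intro x
    obtain ⟨z, hz, ht⟩ := hlim x
    rw [← hzq T hTs x z (hz0 z hz).1, ← hzq R hRs x z hz]
    have c1 : Continuous fun w : E => (⟪w, T w⟫_ℂ).re := by fun_prop
    have c2 : Continuous fun w : E => th δ * (⟪w, R w⟫_ℂ).re := by fun_prop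
    exact le_of_tendsto_of_tendsto' ((c1.tendsto _).comp ht) ((c2.tendsto _).comp ht)
      fun N => hfin N _
  · intro x
    obtain ⟨z, hz, ht⟩ := hlim x
    have : R x = R (x - z) := by rw [map_sub, hz, sub_zero]
    rw [← hzq R hRs x z hz]
    conv_lhs => rw [this]
    have c1 : Continuous fun w : E => ‖R w‖ ^ 2 := by fun_prop
    have c2 : Continuous fun w : E => s 0 * (⟪w, R w⟫_ℂ).re := by fun_prop
    exact le_of_tendsto_of_tendsto' ((c1.tendsto _).comp ht) ((c2.tendsto _).comp ht)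
      fun N => hfin2 N _

end Pool.Agent.MP_301177_an
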