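import Pool.Agent.MP_301177_an.Defs
import Pool.Agent.MP_301177_an.Abs

open Filter Topology InnerProductSpace
open scoped InnerProductSpace

noncomputable section

namespace Pool.Agent.MP_301177_an

abbrev L2 : Type := lp (fun _ : ℕ => ℂ) 2

lemma mem_iff (h : ℕ → ℂ) : Memℓp h 2 ↔ Summable fun n => ‖h n‖ ^ 2 := by
  rw [memℓp_gen_iff (by norm_num)]
  simp

lemma hasSum_sq (f : L2) : HasSum (fun n => ‖f n‖ ^ 2) (‖f‖ ^ 2) := by
  have := lp.hasSum_norm (by norm_num) f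
  simpa using this

def bshiftL : L2 →ₗ[ℂ] L2 where
  toFun f := ⟨fun n => f (n + 1),
    (mem_iff _).2 ((summable_nat_add_iff 1).2 (hasSum_sq f).summable)⟩
  map_add' _ _ := rfl
  map_smul' _ _ := rfl

lemma bshiftL_norm (f : L2) : ‖bshiftL f‖ ≤ ‖f‖ := by
  have h1 : HasSum (fun n => ‖f (n + 1)‖ ^ 2) (‖bshiftL f‖ ^ 2) := hasSum_sq (bshiftL f)
  have h2 := (hasSum_nat_add_iff' 1).2 (hasSum_sq f)
  have h3 := h1.unique h2
  simp only [Finset.range_one, Finset.sum_singleton] at h3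
  refine (abs_le_of_sq_le_sq' ?_ (norm_nonneg _)).2
  linarith [sq_nonneg ‖f 0‖]

def bshift : L2 →L[ℂ] L2 := bshiftL.mkContinuous 1 fun f => by simpa using bshiftL_norm f

lemma inner_single (n : ℕ) (f : L2) : ⟪(lp.single 2 n (1 : ℂ) : L2), f⟫_ℂ = f n := by
  rw [lp.inner_single_left]
  simp

lemma hankel_eq {d : ℕ → ℂ} {γ : ℕ → L2} (hγ : ∀ m n, γ m n = d (n + m)) (x : L2) (m : ℕ) :
    hankel d x m = (starRingEnd ℂ) ⟪γ m, x⟫_ℂ := by
  rw [inner_conj_symm, lp.inner_eq_tsum]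
  unfold hankel
  congr 1
  ext n
  rw [RCLike.inner_apply, hγ, add_comm]

lemma hankel_sq {d : ℕ → ℂ} {γ : ℕ → L2} (hγ : ∀ m n, γ m n = d (n + m))
    (hs : Summable fun m => ‖γ m‖ ^ 2) (x : L2) : hankel d (hankel d x) = gram γ x := by
  ext n
  have h1 := hasSum_inner_gram hs x (lp.single 2 n (1 : ℂ))
  simp only [inner_single, hγ] at h1
  rw [← h1.tsum_eq]
  conv_lhs => unfold hankel
  congr 1
  ext m
  have := hankel_eq hγ x m
  unfold hankel at this
  rw [this, Complex.conj_conj, mul_comm]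

lemma eig_iff {d : ℕ → ℂ} {γ : ℕ → L2} (hγ : ∀ m n, γ m n = d (n + m))
    (hs : Summable fun m => ‖γ m‖ ^ 2) (lam : ℝ) :
    IsEigenvalueOfSquare (hankel d) lam ↔ ∃ x, x ≠ 0 ∧ gram γ x = (lam : ℂ) • x := by
  constructor
  · rintro ⟨h, h1, h2, h3⟩
    refine ⟨⟨h, (mem_iff h).2 h1⟩, fun h0 => h2 (congrArg Subtype.val h0), lp.ext ?_⟩
    rw [← hankel_sq hγ hs]
    exact h3
  · rintro ⟨x, h1, h2⟩
    refine ⟨x, (hasSum_sq x).summable, fun h0 => h1 (lp.ext h0), ?_⟩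
    rw [hankel_sq hγ hs, h2]
    rfl

lemma hankel_shift (c h : ℕ → ℂ) : hankel c (shift h) = hankel (fun n => c (n + 1)) h := by
  ext n
  unfold hankel
  rw [← (add_left_injective 1).tsum_eq]
  · simp [shift, add_assoc]
  · intro m hm
    cases m with
    | zero => simp [shift] at hm
    | succ m => exact ⟨m, rfl⟩

lemma coeff_decay {δ : ℝ} {s : ℕ → ℝ} (hδ : 0 < δ) (hδ1 : δ < 1) (hpos : ∀ r, 0 < s r)
    (hs : ∀ r, s (r + 1) ≤ δ * s r) {c : ℕ → ℂ} (hc : InTorus s c) (n : ℕ) :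
    ‖c n‖ ^ 2 ≤ s 0 ^ 2 * th δ ^ n := by
  obtain ⟨h1, h2, h3⟩ := hc
  have hc2 : Summable fun n => ‖c n‖ ^ 2 :=
    Summable.of_nonneg_of_le (fun n => sq_nonneg _)
      (fun n => le_mul_of_one_le_left (sq_nonneg _) (by
        linarith [(Nat.cast_nonneg n : (0 : ℝ) ≤ n)])) h1
  let γ : ℕ → L2 := fun m => ⟨fun n => c (n + m), (mem_iff _).2 ((summable_nat_add_iff m).2 hc2)⟩
  have hγ : Summable fun m => ‖γ m‖ ^ 2 := by
    refine summable_of_sum_range_le (c := ∑' n : ℕ, (1 + (n : ℝ)) * ‖c n‖ ^ 2)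
      (fun m => sq_nonneg _) fun M => ?_
    have a1 : ∀ m, HasSum (fun k => if m ≤ k then ‖c k‖ ^ 2 else 0) (‖γ m‖ ^ 2) := by
      intro m
      rw [← hasSum_nat_add_iff' m, Finset.sum_eq_zero, sub_zero]
      · simpa using hasSum_sq (γ m)
      · intro k hk
        rw [Finset.mem_range] at hk
        rw [if_neg (by omega)]
    refine hasSum_le (fun k => ?_) (hasSum_sum fun m _ => a1 m) h1.hasSum
    rw [← Finset.sum_filter, Finset.sum_const, nsmul_eq_mul]
    refine mul_le_mul_of_nonneg_right ?_ (sq_nonneg _)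
    have : ((Finset.range M).filter fun m => m ≤ k).card ≤ 1 + k := by
      refine (Finset.card_le_card (t := Finset.range (1 + k)) fun m hm => ?_).trans (by simp)
      rw [Finset.mem_filter] at hm
      rw [Finset.mem_range]
      omega
    exact_mod_cast this
  have h4 := decay hδ hδ1 hpos hs γ hγ bshift (fun x => bshiftL_norm x)
    (fun m => lp.ext (funext fun n => by
      change c (n + 1 + m) = c (n + (m + 1))
      congr 1
      omega))
    (fun lam hlam => by rw [← eig_iff (d := c) (fun m n => rfl) hγ]; exact h2 lam hlam)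
    (fun lam hlam => by
      rw [← eig_iff (d := fun n => c (n + 1)) (fun m n => rfl) ((summable_nat_add_iff 1).2 hγ),
        ← h3 lam hlam]
      simp only [hankel_shift])
    n (lp.single 2 0 (1 : ℂ))
  rw [norm_inner_symm, inner_single, lp.norm_single (by norm_num), norm_one, one_pow,
    mul_one] at h4
  simpa [γ] using h4

theorem main (δ : ℝ) (hδ : 0 < δ) (hδ1 : δ < 1) :
    ∃ ρ : ℝ, 0 < ρ ∧ ∃ C : ℝ, ∀ s : ℕ → ℝ, (∀ r, 0 < s r) → (∀ r, s (r + 1) ≤ δ * s r) →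
      ∀ c : ℕ → ℂ, InTorus s c →
        ∃ f : ℂ → ℂ, DifferentiableOn ℂ f (Metric.ball 0 (1 + ρ)) ∧
          (∀ z ∈ Metric.ball (0 : ℂ) 1, HasSum (fun n => c n * z ^ n) (f z)) ∧
          ∀ z ∈ Metric.ball (0 : ℂ) (1 + ρ), ‖f z‖ ≤ C * s 0 := by
  have t0 := th_nonneg hδ hδ1
  have t1 := th_lt_one hδ1
  set η := (1 + th δ) / 2 with hη
  have η0 : 0 < η := by linarith
  have η1 : η < 1 := by linarith
  have hθη : th δ ≤ η ^ 2 := by nlinarith [sq_nonneg (1 - th δ)]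
  set q := (1 + η) / 2 with hq
  have q0 : 0 ≤ q := by linarith
  have q1 : q < 1 := by linarith
  have hρ : 0 < q / η - 1 := by
    rw [sub_pos, lt_div_iff₀ η0]; linarith
  refine ⟨q / η - 1, hρ, (1 - q)⁻¹, fun s hpos hs c hc => ?_⟩
  have hcn : ∀ n, ‖c n‖ ≤ s 0 * η ^ n := fun n => by
    refine (abs_le_of_sq_le_sq' ((coeff_decay hδ hδ1 hpos hs hc n).trans ?_)
      (mul_pos (hpos 0) (pow_pos η0 n)).le).2
    rw [mul_pow, ← pow_mul, mul_comm n 2, pow_mul]
    exact mul_le_mul_of_nonneg_left (pow_le_pow_left₀ t0 hθη n) (sq_nonneg _)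
  have hbd : ∀ n, ∀ z ∈ Metric.ball (0 : ℂ) (1 + (q / η - 1)), ‖c n * z ^ n‖ ≤ s 0 * q ^ n := by
    intro n z hz
    rw [mem_ball_zero_iff, add_sub_cancel] at hz
    rw [norm_mul, norm_pow]
    calc ‖c n‖ * ‖z‖ ^ n ≤ s 0 * η ^ n * (q / η) ^ n :=
          mul_le_mul (hcn n) (pow_le_pow_left₀ (norm_nonneg _) hz.le n) (by positivity)
            (mul_pos (hpos 0) (pow_pos η0 n)).le
      _ = s 0 * q ^ n := by rw [mul_assoc, ← mul_pow, mul_div_cancel₀ _ η0.ne']
  have hq : HasSum (fun n => s 0 * q ^ n) (s 0 * (1 - q)⁻¹) :=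
    (hasSum_geometric_of_lt_one q0 q1).mul_left _
  refine ⟨fun z => ∑' n, c n * z ^ n, ?_, fun z hz => ?_, fun z hz => ?_⟩
  · exact Complex.differentiableOn_tsum_of_summable_norm hq.summable
      (fun n => by fun_prop) Metric.isOpen_ball fun n z hz => hbd n z hz
  · exact (Summable.of_norm_bounded hq.summable fun n =>
      hbd n z (Metric.ball_subset_ball (by linarith) hz)).hasSum
  · rw [mul_comm]
    exact tsum_of_norm_bounded hq fun n => hbd n z hz

end Pool.Agent.MP_301177_an
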