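import Pool.Agent.MP_301177_an.Defs

open scoped ComplexOrder

namespace Pool.Agent.MP_301177_an

/-- Both Hankel matrices `(c (i + j))` and `(c (i + j + 1))` are positive semidefinite (all
their finite sections are): the point of the torus whose angles all vanish. -/
def ZeroAngle (c : ℕ → ℂ) : Prop :=
  (∀ N : ℕ, (Matrix.of fun i j : Fin N => c ((i : ℕ) + (j : ℕ))).PosSemidef) ∧
  (∀ N : ℕ, (Matrix.of fun i j : Fin N => c ((i : ℕ) + (j : ℕ) + 1)).PosSemidef)

/-- The power series with coefficients `c` extends holomorphically to the disc `|z| < R`. -/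
def ExtendsTo (c : ℕ → ℂ) (R : ℝ) : Prop :=
  ∃ f : ℂ → ℂ, DifferentiableOn ℂ f (Metric.ball 0 R) ∧
    ∀ z ∈ Metric.ball (0 : ℂ) 1, HasSum (fun n => c n * z ^ n) (f z)

/-- The power series with coefficients `c` continues holomorphically to a neighbourhood of the
point `ζ`. -/
def RegularAt (c : ℕ → ℂ) (ζ : ℂ) : Prop :=
  ∃ ε : ℝ, 0 < ε ∧ ∃ g : ℂ → ℂ, DifferentiableOn ℂ g (Metric.ball ζ ε) ∧
    ∀ z ∈ Metric.ball ζ ε, ‖z‖ < 1 → HasSum (fun n => c n * z ^ n) (g z)

/-- The unit circle is the natural boundary of the power series with coefficients `c`. -/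
def NaturalBoundary (c : ℕ → ℂ) : Prop := ∀ ζ : ℂ, ‖ζ‖ = 1 → ¬ RegularAt c ζ

/-- The squared `H^{1/2}` distance of `c` and `d` is at most `ε`. -/
def Close (ε : ℝ) (c d : ℕ → ℂ) : Prop :=
  ∀ N : ℕ, ∑ n ∈ Finset.range N, (1 + (n : ℝ)) * ‖c n - d n‖ ^ 2 ≤ ε

end Pool.Agent.MP_301177_an
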