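import Pool.Agent.MP_301177_an.Main
import Pool.Agent.MP_301177_an.ZDefs

section
open Filter Topology InnerProductSpace
open scoped InnerProductSpace ComplexConjugate

noncomputable section

namespace Pool.Agent.MP_301177_an

variable {E : Type} [NormedAddCommGroup E] [InnerProductSpace ℂ E] [CompleteSpace E]

theorem eigsys (A : E →L[ℂ] E) (hAc : IsCompactOperator A) (hA0 : A.IsPositive) (u : E)
    (a : ℕ → ℝ) (ha : ∀ j, 0 < a j) (hinj : Function.Injective a)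
    (hA : ∀ lam : ℝ, 0 < lam → ((∃ x, x ≠ 0 ∧ A x = (lam : ℂ) • x) ↔ ∃ j, lam = a j))
    (hperp : ∀ j y, A y = (a j : ℂ) • y → ⟪u, y⟫_ℂ = 0 → y = 0) :
    ∃ e : ℕ → E, Orthonormal ℂ e ∧ (∀ j, A (e j) = (a j : ℂ) • e j) ∧ (∀ j, ⟪u, e j⟫_ℂ ≠ 0) ∧
      (∀ j y, A y = (a j : ℂ) • y → ∃ t : ℂ, y = t • e j) ∧
      ∀ x, ∃ z, A z = 0 ∧ HasSum (fun l => ⟪e l, x⟫_ℂ • e l) (x - z) := by
  have hAs : ∀ x y, ⟪A x, y⟫_ℂ = ⟪x, A y⟫_ℂ := hA0.inner_left_eq_inner_right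
  have hex : ∀ j, ∃ e : E, ‖e‖ = 1 ∧ A e = (a j : ℂ) • e := by
    intro j
    obtain ⟨x, hx, hx'⟩ := (hA _ (ha j)).2 ⟨j, rfl⟩
    refine ⟨((‖x‖⁻¹ : ℝ) : ℂ) • x, ?_, by rw [map_smul, hx', smul_comm]⟩
    rw [norm_smul, Complex.norm_real, norm_inv, norm_norm, inv_mul_cancel₀ (norm_ne_zero_iff.2 hx)]
  choose e he1 he using hex
  have hue : ∀ j, ⟪u, e j⟫_ℂ ≠ 0 := fun j h => by
    have := he1 j
    rw [hperp j _ (he j) h] at this
    simp at this
  have hon : Orthonormal ℂ e := by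
    refine ⟨he1, fun i j hij => ?_⟩
    have h1 := hAs (e i) (e j)
    rw [he, he, inner_smul_left, inner_smul_right, Complex.conj_ofReal, ← sub_eq_zero,
      ← sub_mul, mul_eq_zero] at h1
    refine h1.resolve_left fun h => hij ?_
    exact hinj (Complex.ofReal_injective (sub_eq_zero.1 h))
  have hsimple : ∀ j y, A y = (a j : ℂ) • y → ∃ t : ℂ, y = t • e j := by
    intro j z hz'
    have h4 := hperp j (⟪u, e j⟫_ℂ • z - ⟪u, z⟫_ℂ • e j)
      (by rw [map_sub, map_smul, map_smul, hz', he, smul_sub, smul_comm, smul_comm ⟪u, z⟫_ℂ])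
      (by rw [inner_sub_right, inner_smul_right, inner_smul_right]; ring)
    refine ⟨(⟪u, e j⟫_ℂ)⁻¹ * ⟪u, z⟫_ℂ, ?_⟩
    rw [mul_smul, ← sub_eq_zero.1 h4, smul_smul, inv_mul_cancel₀ (hue j), one_smul]
  have hker : ∀ x, (∀ l, ⟪e l, x⟫_ℂ = 0) → A x = 0 := by
    intro x hx
    have hAsym : (A : E →ₗ[ℂ] E).IsSymmetric := hAs
    have hbot := ContinuousLinearMap.orthogonalComplement_iSup_eigenspaces_eq_bot hAc hAsym
    rw [← Submodule.mem_bot ℂ, ← hbot, ← Submodule.iInf_orthogonal, Submodule.mem_iInf]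
    intro μ
    rw [Submodule.mem_orthogonal]
    intro z hz
    rw [Module.End.mem_eigenspace_iff] at hz
    have hz' : A z = μ • z := hz
    rw [← hAs, hz', inner_smul_left]
    by_cases hz0 : z = 0
    · simp [hz0]
    by_cases hμ : μ = 0
    · simp [hμ]
    have h0 : ((⟪z, A z⟫_ℂ).re : ℂ) = ⟪z, A z⟫_ℂ := by
      rw [← Complex.conj_eq_iff_re, inner_conj_symm, hAs]
    have h00 : 0 ≤ (⟪z, A z⟫_ℂ).re := hA0.re_inner_nonneg_right z
    set t := (⟪z, A z⟫_ℂ).re with ht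
    rw [hz', inner_smul_right, inner_self_eq_norm_sq_to_K] at h0
    have hzn : (‖z‖ : ℂ) ≠ 0 := by exact_mod_cast norm_ne_zero_iff.2 hz0
    have h2 : μ = ((t / ‖z‖ ^ 2 : ℝ) : ℂ) := by
      push_cast
      rw [h0]
      exact (mul_div_cancel_right₀ _ (pow_ne_zero 2 hzn)).symm
    have h3 : 0 < t / ‖z‖ ^ 2 := by
      refine lt_of_le_of_ne (by positivity) fun h => hμ ?_
      rw [h2, ← h]; simp
    obtain ⟨j, hj⟩ := (hA _ h3).1 ⟨z, hz0, by rw [hz', h2]⟩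
    rw [h2, hj] at hz'
    obtain ⟨t', ht'⟩ := hsimple j z hz'
    rw [ht', inner_smul_left, hx j, mul_zero, mul_zero]
  refine ⟨e, hon, he, hue, hsimple, fun x => ?_⟩
  have h1 : Summable fun l => ⟪e l, x⟫_ℂ • e l :=
    (hon.orthogonalFamily.summable_iff_norm_sq_summable fun l => ⟪e l, x⟫_ℂ).2
      (hon.inner_products_summable x)
  refine ⟨x - ∑' l, ⟪e l, x⟫_ℂ • e l, ?_, by rw [sub_sub_cancel]; exact h1.hasSum⟩
  refine hker _ fun j => ?_
  have h3 := (innerSL ℂ (e j)).hasSum h1.hasSum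
  simp only [innerSL_apply_apply, inner_smul_right, orthonormal_iff_ite.1 hon] at h3
  have h4 := hasSum_single (f := fun l => ⟪e l, x⟫_ℂ * if j = l then (1 : ℂ) else 0) j
    (fun l hl => by simp [hl.symm])
  rw [inner_sub_right, h3.unique h4]
  simp

omit [CompleteSpace E] in
theorem takagi (H : E → E) (hsym : ∀ x y, ⟪y, H x⟫_ℂ = ⟪x, H y⟫_ℂ) (A : E →L[ℂ] E)
    (hHH : ∀ x, H (H x) = A x) (ρ : ℕ → ℝ) (hρ : ∀ j, 0 < ρ j) (e : ℕ → E)
    (hon : Orthonormal ℂ e) (he : ∀ j, A (e j) = ((ρ j ^ 2 : ℝ) : ℂ) • e j)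
    (hsimple : ∀ j y, A y = ((ρ j ^ 2 : ℝ) : ℂ) • y → ∃ t : ℂ, y = t • e j)
    (hexp : ∀ x, ∃ z, A z = 0 ∧ HasSum (fun l => ⟪e l, x⟫_ℂ • e l) (x - z)) :
    ∃ lam : ℕ → ℂ, (∀ j, ‖lam j‖ = ρ j) ∧ (∀ j, H (e j) = lam j • e j) ∧
      ∀ x y, HasSum (fun j => lam j * conj ⟪e j, x⟫_ℂ * conj ⟪e j, y⟫_ℂ) ⟪y, H x⟫_ℂ := by
  have hsm : ∀ (t : ℂ) x, H (t • x) = conj t • H x := fun t x =>
    ext_inner_left ℂ fun y => by rw [hsym, inner_smul_left, inner_smul_right, hsym]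
  have hn : ∀ z, ((‖H z‖ ^ 2 : ℝ) : ℂ) = ⟪z, A z⟫_ℂ := fun z => by
    rw [← hHH, hsym, inner_self_eq_norm_sq_to_K]; push_cast; rfl
  have h1 : ∀ j, ∃ t : ℂ, H (e j) = t • e j := fun j =>
    hsimple j _ (by rw [← hHH, hHH (e j), he, hsm, Complex.conj_ofReal])
  choose lam hlam using h1
  refine ⟨lam, fun j => ?_, hlam, fun x y => ?_⟩
  · have h2 := hn (e j)
    rw [he, hlam, inner_smul_right, inner_self_eq_norm_sq_to_K, norm_smul, hon.1 j] at h2
    have h3 : ‖lam j‖ ^ 2 = ρ j ^ 2 := by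
      have : ((‖lam j‖ ^ 2 : ℝ) : ℂ) = ((ρ j ^ 2 : ℝ) : ℂ) := by simpa using h2
      exact_mod_cast this
    exact (pow_left_inj₀ (norm_nonneg _) (hρ j).le two_ne_zero).1 h3
  · obtain ⟨z, hz, hs⟩ := hexp x
    have hz0 : H z = 0 := by
      have h2 := hn z
      rw [hz, inner_zero_right] at h2
      have h3 : ‖H z‖ ^ 2 = 0 := by exact_mod_cast h2
      exact norm_eq_zero.1 ((pow_eq_zero_iff two_ne_zero).1 h3)
    have h2 := Complex.hasSum_conj'.2 ((innerSL ℂ (H y)).hasSum hs)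
    simp only [innerSL_apply_apply, inner_smul_right, map_mul, inner_conj_symm] at h2
    rw [inner_sub_left, hsym y z, hz0, inner_zero_right, sub_zero, hsym] at h2
    refine (congrArg (fun F => HasSum F ⟪y, H x⟫_ℂ) (funext fun j => ?_)).mpr h2
    rw [hsym y (e j), hlam, inner_smul_right, inner_conj_symm, inner_conj_symm]
    ring

/-- The quadratic form with eigenvalues `ρ` in the orthonormal system `e`. -/
def qf (ρ : ℕ → ℝ) (e : ℕ → E) (x : E) : ℝ := ∑' j, ρ j * ‖⟪e j, x⟫_ℂ‖ ^ 2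

omit [CompleteSpace E] in
lemma qf_summable {ρ : ℕ → ℝ} (hρ : ∀ j, 0 < ρ j) (ha : Antitone ρ) {e : ℕ → E}
    (hon : Orthonormal ℂ e) (x : E) : Summable fun j => ρ j * ‖⟪e j, x⟫_ℂ‖ ^ 2 :=
  Summable.of_nonneg_of_le (fun j => mul_nonneg (hρ j).le (sq_nonneg _))
    (fun j => mul_le_mul_of_nonneg_right (ha (Nat.zero_le j)) (sq_nonneg _))
    ((hon.inner_products_summable x).mul_left (ρ 0))

omit [CompleteSpace E] in
lemma qf_nonneg {ρ : ℕ → ℝ} (hρ : ∀ j, 0 < ρ j) (e : ℕ → E) (x : E) : 0 ≤ qf ρ e x :=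
  tsum_nonneg fun j => mul_nonneg (hρ j).le (sq_nonneg _)

omit [CompleteSpace E] in
lemma mixed_cs {ρ : ℕ → ℝ} (hρ : ∀ j, 0 < ρ j) (ha : Antitone ρ) {e : ℕ → E}
    (hon : Orthonormal ℂ e) {lam : ℕ → ℂ} (hlam : ∀ j, ‖lam j‖ = ρ j) {x y : E} {t : ℂ}
    (h : HasSum (fun j => lam j * conj ⟪e j, x⟫_ℂ * conj ⟪e j, y⟫_ℂ) t) :
    ‖t‖ ^ 2 ≤ qf ρ e x * qf ρ e y := by
  have h1 := (h.tendsto_sum_nat.norm).pow 2
  refine le_of_tendsto' h1 fun N => ?_
  have h2 : ‖∑ j ∈ Finset.range N, lam j * conj ⟪e j, x⟫_ℂ * conj ⟪e j, y⟫_ℂ‖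
      ≤ ∑ j ∈ Finset.range N, ρ j * ‖⟪e j, x⟫_ℂ‖ * ‖⟪e j, y⟫_ℂ‖ :=
    (norm_sum_le _ _).trans (le_of_eq (Finset.sum_congr rfl fun j _ => by
      rw [norm_mul, norm_mul, hlam, Complex.norm_conj, Complex.norm_conj]))
  have h3 := Finset.sum_sq_le_sum_mul_sum_of_sq_le_mul (Finset.range N)
    (r := fun j => ρ j * ‖⟪e j, x⟫_ℂ‖ * ‖⟪e j, y⟫_ℂ‖) (f := fun j => ρ j * ‖⟪e j, x⟫_ℂ‖ ^ 2)
    (g := fun j => ρ j * ‖⟪e j, y⟫_ℂ‖ ^ 2) (fun j _ => mul_nonneg (hρ j).le (sq_nonneg _))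
    (fun j _ => mul_nonneg (hρ j).le (sq_nonneg _)) (fun j _ => le_of_eq (by ring))
  refine (pow_le_pow_left₀ (norm_nonneg _) h2 2).trans (h3.trans ?_)
  exact mul_le_mul
    ((qf_summable hρ ha hon x).sum_le_tsum _ fun j _ => mul_nonneg (hρ j).le (sq_nonneg _))
    ((qf_summable hρ ha hon y).sum_le_tsum _ fun j _ => mul_nonneg (hρ j).le (sq_nonneg _))
    (Finset.sum_nonneg fun j _ => mul_nonneg (hρ j).le (sq_nonneg _)) (qf_nonneg hρ e x)

omit [CompleteSpace E] in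
lemma inner_finsum {e : ℕ → E} (hon : Orthonormal ℂ e) (w : ℕ → ℂ) (N j : ℕ) :
    ⟪e j, ∑ i ∈ Finset.range N, w i • e i⟫_ℂ = if j < N then w j else 0 := by
  simp only [inner_sum, inner_smul_right, orthonormal_iff_ite.1 hon, mul_ite, mul_one, mul_zero,
    Finset.sum_ite_eq, Finset.mem_range]

omit [CompleteSpace E] in
lemma dual_qf {ρ : ℕ → ℝ} (hρ : ∀ j, 0 < ρ j) (ha : Antitone ρ) {e : ℕ → E}
    (hon : Orthonormal ℂ e) {lam : ℕ → ℂ} (hlam : ∀ j, ‖lam j‖ = ρ j) {x v : E} {M : ℝ}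
    (hM : 0 ≤ M)
    (h : ∀ y, HasSum (fun j => lam j * conj ⟪e j, x⟫_ℂ * conj ⟪e j, y⟫_ℂ) ⟪y, v⟫_ℂ)
    (hb : ∀ y, ‖⟪y, v⟫_ℂ‖ ^ 2 ≤ M * qf ρ e y) : qf ρ e x ≤ M := by
  refine (qf_summable hρ ha hon x).tsum_le_of_sum_range_le fun N => ?_
  set Q := ∑ j ∈ Finset.range N, ρ j * ‖⟪e j, x⟫_ℂ‖ ^ 2 with hQ
  set w : ℕ → ℂ := fun j => lam j / ρ j * conj ⟪e j, x⟫_ℂ with hw
  set y := ∑ i ∈ Finset.range N, w i • e i with hy
  have hρc : ∀ j, (ρ j : ℂ) ≠ 0 := fun j => by exact_mod_cast (hρ j).ne'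
  have h1 : qf ρ e y = Q := by
    rw [qf, tsum_eq_sum (s := Finset.range N)]
    · refine Finset.sum_congr rfl fun j hj => ?_
      rw [hy, inner_finsum hon, if_pos (Finset.mem_range.1 hj), hw]
      simp only [norm_mul, norm_div, hlam, Complex.norm_conj, Complex.norm_real, Real.norm_eq_abs,
        abs_of_pos (hρ j), div_self (hρ j).ne', one_mul]
    · intro j hj
      rw [hy, inner_finsum hon, if_neg (by simpa using hj)]
      simp
  have h2 : ⟪y, v⟫_ℂ = (Q : ℂ) := by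
    rw [← (h y).tsum_eq, tsum_eq_sum (s := Finset.range N), hQ]
    · push_cast
      refine Finset.sum_congr rfl fun j hj => ?_
      rw [hy, inner_finsum hon, if_pos (Finset.mem_range.1 hj), hw]
      simp only [map_mul, map_div₀, Complex.conj_ofReal, Complex.conj_conj]
      have a1 := Complex.mul_conj' (lam j)
      have a2 := Complex.mul_conj' ⟪e j, x⟫_ℂ
      rw [hlam] at a1
      field_simp [hρc j]
      rw [← a1, ← a2]
      ring
    · intro j hj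
      rw [hy, inner_finsum hon, if_neg (by simpa using hj)]
      simp
  have h3 := hb y
  have hQ0 : 0 ≤ Q := Finset.sum_nonneg fun j _ => mul_nonneg (hρ j).le (sq_nonneg _)
  rw [h1, h2, Complex.norm_real, Real.norm_eq_abs, sq_abs] at h3
  by_contra hlt
  push Not at hlt
  nlinarith

omit [CompleteSpace E] in
lemma qf_le {ρ : ℕ → ℝ} (hρ : ∀ j, 0 < ρ j) (ha : Antitone ρ) {e : ℕ → E}
    (hon : Orthonormal ℂ e) (y : E) (j : ℕ) (h : ∀ i, i < j → ⟪e i, y⟫_ℂ = 0) :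
    qf ρ e y ≤ ρ j * ‖y‖ ^ 2 := by
  refine le_trans ?_ (mul_le_mul_of_nonneg_left (hon.tsum_inner_products_le y) (hρ j).le)
  rw [← tsum_mul_left]
  refine (qf_summable hρ ha hon y).tsum_le_tsum (fun i => ?_)
    ((hon.inner_products_summable y).mul_left _)
  rcases lt_or_ge i j with hi | hi
  · rw [h i hi]; simp
  · exact mul_le_mul_of_nonneg_right (ha hi) (sq_nonneg _)

omit [CompleteSpace E] in
lemma exists_vec {ρ : ℕ → ℝ} (ha : Antitone ρ) {e : ℕ → E}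
    (hon : Orthonormal ℂ e) (n : ℕ) (g : ℕ → E) :
    ∃ x : E, x ≠ 0 ∧ (∀ i, i < n → ⟪g i, x⟫_ℂ = 0) ∧ ρ n * ‖x‖ ^ 2 ≤ qf ρ e x := by
  let L : (Fin (n + 1) → ℂ) →ₗ[ℂ] (Fin n → ℂ) :=
    Matrix.mulVecLin (Matrix.of fun (i : Fin n) (l : Fin (n + 1)) => ⟪g i, e l⟫_ℂ)
  obtain ⟨t, ht, ht0⟩ := Submodule.exists_mem_ne_zero_of_ne_bot
    (LinearMap.ker_ne_bot_of_finrank_lt (f := L) (by simp))
  let w : ℕ → ℂ := fun l => if h : l < n + 1 then t ⟨l, h⟩ else 0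
  have hw : ∀ l : Fin (n + 1), w l = t l := fun l => dif_pos l.2
  set x := ∑ i ∈ Finset.range (n + 1), w i • e i with hx
  have hxe : ∀ j, ⟪e j, x⟫_ℂ = if j < n + 1 then w j else 0 := inner_finsum hon w (n + 1)
  refine ⟨x, fun h0 => ht0 (funext fun l => ?_), fun i hi => ?_, ?_⟩
  · have := hxe l
    rw [h0, inner_zero_right, if_pos l.2, hw] at this
    exact this.symm
  · have h1 := congrFun (LinearMap.mem_ker.1 ht) ⟨i, hi⟩
    simp only [L, Matrix.mulVecLin_apply, Matrix.mulVec, dotProduct, Matrix.of_apply,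
      Pi.zero_apply] at h1
    rw [hx, inner_sum, ← Fin.sum_univ_eq_sum_range (fun l => ⟪g i, w l • e l⟫_ℂ), ← h1]
    refine Finset.sum_congr rfl fun l _ => ?_
    rw [inner_smul_right, hw, mul_comm]
  · have h1 : ‖x‖ ^ 2 = ∑ i ∈ Finset.range (n + 1), ‖w i‖ ^ 2 := by
      have := hon.orthogonalFamily.norm_sum w (Finset.range (n + 1))
      simpa [hx] using this
    rw [qf, tsum_eq_sum (s := Finset.range (n + 1)), h1, Finset.mul_sum]
    · refine Finset.sum_le_sum fun j hj => ?_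
      rw [hxe, if_pos (Finset.mem_range.1 hj)]
      exact mul_le_mul_of_nonneg_right (ha (Nat.lt_succ_iff.1 (Finset.mem_range.1 hj)))
        (sq_nonneg _)
    · intro j hj
      rw [hxe, if_neg (by simpa using hj)]
      simp

omit [CompleteSpace E] in
lemma qf_eq_pos {ρ : ℕ → ℝ} (hρ : ∀ j, 0 < ρ j) {e : ℕ → E} (G A : E →L[ℂ] E)
    (hG : G.IsPositive) (hGG : ∀ x, G (G x) = A x)
    (he : ∀ j, A (e j) = ((ρ j ^ 2 : ℝ) : ℂ) • e j)
    (hexp : ∀ x, ∃ z, A z = 0 ∧ HasSum (fun l => ⟪e l, x⟫_ℂ • e l) (x - z)) (x : E) :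
    qf ρ e x = (⟪x, G x⟫_ℂ).re := by
  have hGs : ∀ x y, ⟪G x, y⟫_ℂ = ⟪x, G y⟫_ℂ := hG.inner_left_eq_inner_right
  have hGe : ∀ j, G (e j) = (ρ j : ℂ) • e j := fun j =>
    pos_sqrt_eig hG (hρ j) (by rw [hGG, he]; push_cast; rfl)
  obtain ⟨z, hz, hs⟩ := hexp x
  have hz0 : G z = 0 := by
    rw [← inner_self_eq_zero (𝕜 := ℂ), hGs, hGG, hz, inner_zero_right]
  have h1 := Complex.hasSum_re ((innerSL ℂ x).hasSum (G.hasSum hs))
  simp only [innerSL_apply_apply, map_smul, map_sub, hz0, sub_zero, hGe, smul_eq_mul] at h1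
  refine HasSum.tsum_eq ((congrArg (fun F => HasSum F (⟪x, G x⟫_ℂ).re) (funext fun j => ?_)).mpr h1)
  rw [← inner_conj_symm x (e j), mul_left_comm, Complex.mul_conj', Complex.re_ofReal_mul]
  norm_cast

end Pool.Agent.MP_301177_an

end

end

section
open Filter Topology InnerProductSpace Polynomial
open scoped InnerProductSpace ComplexConjugate ComplexOrder

noncomputable section

namespace Pool.Agent.MP_301177_an

lemma upper_P (a b P : ℕ → ℝ) (hab : ∀ k l, k < l → a l < b k) (hba : ∀ k l, l ≤ k → b k < a l)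
    (hb0 : ∀ k, 0 < b k) (hP : ∀ l, 0 ≤ P l) (hF : ∀ k, HasSum (fun l => P l / (a l - b k)) 1)
    {y : ℝ} (hy : y ≤ 1) (h0 : HasSum (fun l => P l / a l) y) (N : ℕ) (j : Fin N) :
    P j * ((∏ l ∈ Finset.univ.erase j, |a j - a l|) * (a j - a N))
      ≤ a j * ∏ k : Fin N, |a j - b k| := by
  have ha0 : ∀ l, 0 < a l := fun l => (hb0 l).trans (hba l l le_rfl)
  have hne : ∀ l k, a l ≠ b k := fun l k => by
    rcases lt_or_ge k l with h | h
    · exact (hab k l h).ne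
    · exact (hba k l h).ne'
  let v : Option (Fin N) → ℝ := fun o => o.elim 0 fun k => b k
  have hvi : Set.InjOn v (Finset.univ : Finset (Option (Fin N))) := by
    rintro (_ | k) _ (_ | k') _ h
    · rfl
    · exact absurd h (hb0 k').ne
    · exact absurd h (hb0 k).ne'
    · by_contra hkk
      have h' : b k = b k' := h
      rcases lt_or_gt_of_ne (Fin.val_ne_of_ne fun h2 => hkk (congrArg some h2)) with h1 | h1
      · linarith [hab k k' h1, hba k' k' le_rfl]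
      · linarith [hab k' k h1, hba k k le_rfl]
  have hnv : ∀ l o, a l ≠ v o := by
    rintro l (_ | k)
    · exact (ha0 l).ne'
    · exact hne l k
  set n : ℝ[X] := Lagrange.nodal (Finset.univ.erase j) (fun l : Fin N => a l) * (X - C (a N))
    with hn
  have hnm : n.Monic := Lagrange.nodal_monic.mul (monic_X_sub_C _)
  have hnd : n.degree = (N : ℕ) := by
    rw [hn, degree_mul, Lagrange.degree_nodal, degree_X_sub_C]
    have := Finset.card_erase_add_one (Finset.mem_univ j)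
    rw [Finset.card_univ, Fintype.card_fin] at this
    exact_mod_cast this
  have hcard : ((Finset.univ : Finset (Option (Fin N))).card : WithBot ℕ) = n.degree + 1 := by
    rw [hnd, Finset.card_univ, Fintype.card_option, Fintype.card_fin]
    norm_cast
  have hdeg : n.degree < (Finset.univ : Finset (Option (Fin N))).card := by
    rw [hnd, Finset.card_univ, Fintype.card_option, Fintype.card_fin]
    exact_mod_cast Nat.lt_succ_self N
  have hev : ∀ x, n.eval x = (∏ l ∈ Finset.univ.erase j, (x - a (l : Fin N))) * (x - a N) := by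
    intro x
    rw [hn, eval_mul, Lagrange.eval_nodal]
    simp
  let c : Option (Fin N) → ℝ := fun k => Lagrange.nodalWeight Finset.univ v k * n.eval (v k)
  have hc : ∑ k, c k = 1 := by
    have h1 := Lagrange.leadingCoeff_eq_sum hvi hcard
    rw [hnm.leadingCoeff] at h1
    rw [h1]
    refine Finset.sum_congr rfl fun k _ => ?_
    simp only [c, Lagrange.nodalWeight, Finset.prod_inv_distrib]
    ring
  have hL : ∀ l, ∑ k, c k * (P l / (a l - v k))
      = P l * (n.eval (a l) / (a l * ∏ k : Fin N, (a l - b k))) := by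
    intro l
    have h1 := Lagrange.eval_interpolate_not_at_node (s := Finset.univ)
      (v := v) (x := a l) (fun k => n.eval (v k)) (fun k _ => hnv l k)
    rw [← Lagrange.eq_interpolate hvi hdeg, Lagrange.eval_nodal (s := Finset.univ) (v := v),
      Fintype.prod_option] at h1
    have h3 : (a l - v none) * ∏ k : Fin N, (a l - v (some k)) = a l * ∏ k : Fin N, (a l - b k) := by
      simp [v]
    have h2 : a l * ∏ k : Fin N, (a l - b k) ≠ 0 :=
      mul_ne_zero (ha0 l).ne' (Finset.prod_ne_zero_iff.2 fun k _ => sub_ne_zero.2 (hne l k))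
    rw [h1, h3, mul_div_cancel_left₀ _ h2, Finset.mul_sum]
    refine Finset.sum_congr rfl fun k _ => ?_
    simp only [c]
    ring
  have hsign : ∀ x, (∀ k : Fin N, x < b k) → x ≤ a N → 0 ≤ n.eval x / ∏ k : Fin N, (x - b k) := by
    intro x hx hxa
    rw [hev, ← Finset.prod_erase_mul _ _ (Finset.mem_univ j), mul_div_mul_comm,
      ← Finset.prod_div_distrib]
    refine mul_nonneg (Finset.prod_nonneg fun k _ => ?_) ?_
    · exact (div_pos_of_neg_of_neg (by linarith [hx k, hba k k le_rfl]) (by linarith [hx k])).le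
    · exact div_nonneg_of_nonpos (by linarith) (by linarith [hx j])
  have hc0 : 0 ≤ c none := by
    have h1 : c none = n.eval 0 / ∏ k : Fin N, (0 - b k) := by
      have h2 : (Finset.univ : Finset (Option (Fin N))).erase none
          = Finset.univ.map Function.Embedding.some := by
        ext o
        cases o <;> simp
      simp only [c, Lagrange.nodalWeight, h2, Finset.prod_map, Finset.prod_inv_distrib]
      simp only [v, Option.elim, Function.Embedding.some_apply]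
      ring
    rw [h1]
    exact hsign 0 (fun k => hb0 k) (ha0 N).le
  have hS : HasSum (fun l => P l * (n.eval (a l) / (a l * ∏ k : Fin N, (a l - b k))))
      (1 - c none * (1 - y)) := by
    have h1 : ∀ o : Option (Fin N), HasSum (fun l => P l / (a l - v o)) (o.elim y fun _ => 1) := by
      rintro (_ | k)
      · simpa [v] using h0
      · exact hF k
    have := hasSum_sum (s := Finset.univ) (fun (k : Option (Fin N)) _ => (h1 k).mul_left (c k))
    simp only [hL] at this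
    rw [Fintype.sum_option] at this hc
    simp only [Option.elim, mul_one] at this
    have h2 : c none * y + ∑ k : Fin N, c (some k) = 1 - c none * (1 - y) := by linarith
    rwa [h2] at this
  have hle := le_hasSum hS j fun l hl => by
    refine mul_nonneg (hP l) ?_
    rcases lt_or_ge l N with h | h
    · have : n.eval (a l) = 0 := by
        rw [hev, Finset.prod_eq_zero (i := (⟨l, h⟩ : Fin N))
          (Finset.mem_erase.2 ⟨fun h' => hl (congrArg Fin.val h'), Finset.mem_univ _⟩) (by simp),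
          zero_mul]
      rw [this, zero_div]
    · rw [mul_comm (a l), ← div_div]
      refine div_nonneg (hsign _ (fun k => hab k l (lt_of_lt_of_le k.2 h)) ?_) (ha0 l).le
      rcases h.eq_or_lt with h | h
      · rw [h]
      · linarith [hab N l h, hba N N le_rfl]
  have hjN : 0 < a j - a N := by linarith [hab j N j.2, hba j j le_rfl]
  have hpos : 0 ≤ n.eval (a j) / (a j * ∏ k : Fin N, (a j - b k)) := by
    rw [mul_comm (a j), ← div_div, hev, ← Finset.prod_erase_mul _ _ (Finset.mem_univ j),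
      mul_div_mul_comm, ← Finset.prod_div_distrib]
    refine div_nonneg (mul_nonneg (Finset.prod_nonneg fun k hk => ?_) ?_) (ha0 j).le
    · rcases lt_or_gt_of_ne (Fin.val_ne_of_ne (Finset.mem_erase.1 hk).1) with h | h
      · exact (div_pos_of_neg_of_neg (by linarith [hab k j h, hba k k le_rfl])
          (by linarith [hab k j h])).le
      · exact (div_pos (by linarith [hab j k h, hba j j le_rfl])
          (by linarith [hba k j h.le])).le
    · exact (div_pos hjN (by linarith [hba j j le_rfl])).le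
  have h2 : 0 < a j * ∏ k : Fin N, |a j - b k| :=
    mul_pos (ha0 j) (Finset.prod_pos fun k _ => abs_pos.2 (sub_ne_zero.2 (hne j k)))
  rw [← abs_of_nonneg hpos, abs_div, hev, abs_mul, abs_mul, Finset.abs_prod, Finset.abs_prod,
    abs_of_pos hjN, abs_of_pos (ha0 j), ← mul_div_assoc, div_le_iff₀ h2] at hle
  refine hle.trans ?_
  have : 0 ≤ c none * (1 - y) := mul_nonneg hc0 (by linarith)
  nlinarith

lemma P_le (a b P P' : ℕ → ℝ) (hab : ∀ k l, k < l → a l < b k) (hba : ∀ k l, l ≤ k → b k < a l)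
    (hb0 : ∀ k, 0 < b k) (ha : Tendsto a atTop (𝓝 0)) (hP : ∀ l, 0 ≤ P l) (hP' : ∀ l, 0 ≤ P' l)
    (hF : ∀ k, HasSum (fun l => P l / (a l - b k)) 1)
    (hF' : ∀ k, HasSum (fun l => P' l / (a l - b k)) 1)
    {y : ℝ} (hy : y ≤ 1) (h0 : HasSum (fun l => P l / a l) y) (j : ℕ) : P j ≤ P' j := by
  have ha0 : ∀ l, 0 < a l := fun l => (hb0 l).trans (hba l l le_rfl)
  have h1 : Tendsto (fun N => P j * (a j - a N)) atTop (𝓝 (P j * (a j - 0))) :=
    (ha.const_sub _).const_mul _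
  have h2 : P j * (a j - 0) ≤ a j * P' j := by
    refine le_of_tendsto h1 ((eventually_gt_atTop j).mono fun N hN => ?_)
    have h3 := upper_P a b P hab hba hb0 hP hF hy h0 N ⟨j, hN⟩
    have h4 := lower_P a b P' hab hba hP' hF' N ⟨j, hN⟩
    have h5 : 0 < ∏ l ∈ Finset.univ.erase (⟨j, hN⟩ : Fin N), |a j - a l| := by
      refine Finset.prod_pos fun l hl => abs_pos.2 (sub_ne_zero.2 ?_)
      rcases lt_or_gt_of_ne (Fin.val_ne_of_ne (Finset.mem_erase.1 hl).1) with h | h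
      · exact ((hab l j h).trans (hba l l le_rfl)).ne
      · exact ((hab j l h).trans (hba j j le_rfl)).ne'
    have h6 := h3.trans (mul_le_mul_of_nonneg_left h4 (ha0 j).le)
    refine le_of_mul_le_mul_right ?_ h5
    nlinarith
  have := ha0 j
  nlinarith

lemma logconv_real (m : ℕ → ℝ) (h0 : ∀ k, 0 ≤ m k) (hc : ∀ k, m (k + 1) ^ 2 ≤ m k * m (k + 2))
    {a C : ℝ} (ha : 0 < a) (hb : ∀ k, m k ≤ C * a ^ k) (k : ℕ) : m (k + 1) ≤ a * m k := by
  by_contra hlt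
  push Not at hlt
  have hk : 0 < m k := by
    refine lt_of_le_of_ne (h0 k) fun h => ?_
    have h1 := hc k
    rw [← h] at h1 hlt
    nlinarith
  set t := m (k + 1) / m k with ht
  have hta : a < t := by rw [ht, lt_div_iff₀ hk]; exact hlt
  have ht0 : 0 < t := ha.trans hta
  have h1 : ∀ n, 0 < m (k + n) ∧ t * m (k + n) ≤ m (k + n + 1) := by
    intro n
    induction n with
    | zero => exact ⟨hk, by rw [ht, add_zero, div_mul_cancel₀ _ hk.ne']⟩
    | succ n ih =>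
      have h2 : 0 < m (k + n + 1) := lt_of_lt_of_le (mul_pos ht0 ih.1) ih.2
      refine ⟨h2, ?_⟩
      have h3 := hc (k + n)
      refine le_of_mul_le_mul_left ?_ ih.1
      change m (k + n) * (t * m (k + n + 1)) ≤ m (k + n) * m (k + n + 2)
      nlinarith [ih.2]
  have h2 : ∀ n, t ^ n * m k ≤ m (k + n) := by
    intro n
    induction n with
    | zero => simp
    | succ n ih =>
      refine le_trans ?_ (h1 n).2
      rw [pow_succ', mul_assoc]
      exact mul_le_mul_of_nonneg_left ih ht0.le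
  have h3 := tendsto_pow_atTop_atTop_of_one_lt ((one_lt_div ha).2 hta)
  obtain ⟨n, hn⟩ := (h3.eventually_gt_atTop (C * a ^ k / m k)).exists
  rw [div_pow, div_lt_div_iff₀ hk (pow_pos ha n)] at hn
  have h4 := (h2 n).trans (hb (k + n))
  rw [pow_add] at h4
  linarith

variable {E : Type} [NormedAddCommGroup E] [InnerProductSpace ℂ E] [CompleteSpace E]

lemma pos_cs {G : E →L[ℂ] E} (hG : G.IsPositive) (x y : E) :
    (⟪x, G y⟫_ℂ).re ^ 2 ≤ (⟪x, G x⟫_ℂ).re * (⟪y, G y⟫_ℂ).re := by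
  have hA0 : 0 ≤ G := (ContinuousLinearMap.nonneg_iff_isPositive _).2 hG
  set R := CFC.sqrt G with hRdef
  have hR : R.IsPositive := (ContinuousLinearMap.nonneg_iff_isPositive _).1 (CFC.sqrt_nonneg _)
  have hRR : ∀ x, R (R x) = G x := fun x => by
    have := CFC.sqrt_mul_sqrt_self G hA0
    rw [← hRdef] at this
    rw [← this]
    rfl
  have hRs : ∀ x y, ⟪R x, y⟫_ℂ = ⟪x, R y⟫_ℂ := hR.inner_left_eq_inner_right
  have hn : ∀ x, (⟪x, G x⟫_ℂ).re = ‖R x‖ ^ 2 := fun x => by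
    rw [← hRR, ← hRs, inner_self_eq_norm_sq_to_K]
    norm_cast
  rw [hn, hn, ← hRR, ← hRs, ← mul_pow, ← sq_abs]
  exact pow_le_pow_left₀ (abs_nonneg _)
    ((Complex.abs_re_le_norm _).trans (norm_inner_le_norm _ _)) 2

lemma logconv (G S : E →L[ℂ] E) (hGS : ∀ x y, ⟪S x, G y⟫_ℂ = ⟪x, G (S y)⟫_ℂ)
    (hG : G.IsPositive) (hG1 : (G ∘L S).IsPositive) {θ : ℝ} (hθ : 0 ≤ θ) (hθ1 : θ < 1) (x : E)
    (hb : ∀ a, θ < a → a < 1 → ∃ C, ∀ k, ‖⟪x, G (S^[k] x)⟫_ℂ‖ ≤ C * a ^ k) (k : ℕ) :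
    (⟪x, G (S^[k + 1] x)⟫_ℂ).re ≤ θ * (⟪x, G (S^[k] x)⟫_ℂ).re := by
  have hp : ∀ p x y, ⟪S^[p] x, G y⟫_ℂ = ⟪x, G (S^[p] y)⟫_ℂ := by
    intro p
    induction p with
    | zero => intro x y; rfl
    | succ p ih =>
      intro x y
      rw [Function.iterate_succ_apply', hGS, ih, Function.iterate_succ_apply]
  have hpr : ∀ p r, ⟪S^[p] x, G (S^[r] x)⟫_ℂ = ⟪x, G (S^[p + r] x)⟫_ℂ := fun p r => by
    rw [hp, Function.iterate_add_apply]
  have hpr1 : ∀ p r, ⟪S^[p] x, (G ∘L S) (S^[r] x)⟫_ℂ = ⟪x, G (S^[p + r + 1] x)⟫_ℂ := fun p r => by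
    rw [ContinuousLinearMap.comp_apply, ← Function.iterate_succ_apply' S, hpr]
    rfl
  set m : ℕ → ℝ := fun k => (⟪x, G (S^[k] x)⟫_ℂ).re with hm
  have h0 : ∀ k, 0 ≤ m k := by
    intro k
    obtain ⟨p, rfl | rfl⟩ := Nat.even_or_odd' k
    · have := hG.re_inner_nonneg_right (S^[p] x)
      rw [hpr, ← two_mul] at this
      exact this
    · have := hG1.re_inner_nonneg_right (S^[p] x)
      rw [hpr1, ← two_mul] at this
      exact this
  have hc : ∀ k, m (k + 1) ^ 2 ≤ m k * m (k + 2) := by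
    intro k
    obtain ⟨p, rfl | rfl⟩ := Nat.even_or_odd' k
    · have := pos_cs hG (S^[p] x) (S^[p + 1] x)
      rw [hpr, hpr, hpr, show p + (p + 1) = 2 * p + 1 by ring, show p + p = 2 * p by ring,
        show p + 1 + (p + 1) = 2 * p + 2 by ring] at this
      exact this
    · have := pos_cs hG1 (S^[p] x) (S^[p + 1] x)
      rw [hpr1, hpr1, hpr1, show p + (p + 1) + 1 = 2 * p + 1 + 1 by ring,
        show p + p + 1 = 2 * p + 1 by ring,
        show p + 1 + (p + 1) + 1 = 2 * p + 1 + 2 by ring] at this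
      exact this
  have h1 : Tendsto (fun a : ℝ => a * m k) (𝓝[>] θ) (𝓝 (θ * m k)) :=
    ((continuous_mul_const _).tendsto θ).mono_left nhdsWithin_le_nhds
  refine ge_of_tendsto h1 ?_
  filter_upwards [Ioo_mem_nhdsGT hθ1] with a ha
  obtain ⟨C, hC⟩ := hb a ha.1 ha.2
  exact logconv_real m h0 hc (lt_of_le_of_lt hθ ha.1)
    (fun k => (Complex.re_le_norm _).trans (hC k)) k

end Pool.Agent.MP_301177_an

end

end

section
open Filter Topology InnerProductSpace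
open scoped InnerProductSpace ComplexConjugate ComplexOrder

noncomputable section

namespace Pool.Agent.MP_301177_an

variable {E : Type} [NormedAddCommGroup E] [InnerProductSpace ℂ E] [CompleteSpace E]

/-- Spectral data of a pair of symmetric antilinear operators `H`, `K`. -/
structure Data (s : ℕ → ℝ) (H K : E → E) (A B : E →L[ℂ] E) (δ : E) where
  e : ℕ → E
  f : ℕ → E
  lam : ℕ → ℂ
  mu : ℕ → ℂ
  p : ℕ → ℂ
  κ : ℕ → ℂ
  he : Orthonormal ℂ e
  hf : Orthonormal ℂ f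
  hlam : ∀ j, ‖lam j‖ = s (2 * j)
  hmu : ∀ k, ‖mu k‖ = s (2 * k + 1)
  hH : ∀ x y, HasSum (fun j => lam j * conj ⟪e j, x⟫_ℂ * conj ⟪e j, y⟫_ℂ) ⟪y, H x⟫_ℂ
  hK : ∀ x y, HasSum (fun j => mu j * conj ⟪f j, x⟫_ℂ * conj ⟪f j, y⟫_ℂ) ⟪y, K x⟫_ℂ
  hAe : ∀ j, A (e j) = ((s (2 * j) ^ 2 : ℝ) : ℂ) • e j
  hBf : ∀ j, B (f j) = ((s (2 * j + 1) ^ 2 : ℝ) : ℂ) • f j
  hexp : ∀ x, ∃ z, A z = 0 ∧ HasSum (fun l => ⟪e l, x⟫_ℂ • e l) (x - z)
  hexpf : ∀ x, ∃ z, B z = 0 ∧ HasSum (fun l => ⟪f l, x⟫_ℂ • f l) (x - z)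
  hp0 : ∀ j, p j ≠ 0
  hpδ : ∀ j, ‖p j‖ ^ 2 = s (2 * j) ^ 2 * ‖⟪e j, δ⟫_ℂ‖ ^ 2
  hF : ∀ k, HasSum (fun l => ‖p l‖ ^ 2 / (s (2 * l) ^ 2 - s (2 * k + 1) ^ 2)) 1
  hfx : ∀ x k, HasSum (fun j => κ k * (conj (p j) * ⟪e j, x⟫_ℂ /
    ((s (2 * j) ^ 2 - s (2 * k + 1) ^ 2 : ℝ) : ℂ))) ⟪f k, x⟫_ℂ
  hκ : ∀ k, HasSum (fun j => ‖κ k‖ ^ 2 * (‖p j‖ ^ 2 / (s (2 * j) ^ 2 - s (2 * k + 1) ^ 2) ^ 2)) 1
  hp : ∀ j, p j = ⟪e j, H δ⟫_ℂ
  hHe : ∀ j, H (e j) = lam j • e j
  hpl : ∀ j, p j = lam j * conj ⟪e j, δ⟫_ℂ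
  hκ0 : ∀ k, κ k ≠ 0
  hAB : ∀ x, B x = A x - ⟪H δ, x⟫_ℂ • H δ
  hA0 : A.IsPositive
  hB0 : B.IsPositive
  hef : ∀ j k, ⟪f k, e j⟫_ℂ = κ k * (conj (p j) / ((s (2 * j) ^ 2 - s (2 * k + 1) ^ 2 : ℝ) : ℂ))

theorem pair_data {s : ℕ → ℝ} (hpos : ∀ r, 0 < s r) (hanti : StrictAnti s) (H K : E → E)
    (A B : E →L[ℂ] E) (δ : E) (hHs : ∀ x y, ⟪y, H x⟫_ℂ = ⟪x, H y⟫_ℂ)
    (hKs : ∀ x y, ⟪y, K x⟫_ℂ = ⟪x, K y⟫_ℂ) (hHH : ∀ x, H (H x) = A x) (hKK : ∀ x, K (K x) = B x)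
    (hAc : IsCompactOperator A) (hBc : IsCompactOperator B) (hA0 : A.IsPositive)
    (hB0 : B.IsPositive) (hAB : ∀ x, B x = A x - ⟪H δ, x⟫_ℂ • H δ)
    (hA : ∀ lam : ℝ, 0 < lam →
      ((∃ x, x ≠ 0 ∧ A x = (lam : ℂ) • x) ↔ ∃ j, lam = s (2 * j) ^ 2))
    (hB : ∀ lam : ℝ, 0 < lam →
      ((∃ x, x ≠ 0 ∧ B x = (lam : ℂ) • x) ↔ ∃ k, lam = s (2 * k + 1) ^ 2)) :
    Nonempty (Data s H K A B δ) := by
  set u := H δ with hu
  have hsqi : ∀ a b, s a ^ 2 = s b ^ 2 → a = b := fun a b h =>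
    hanti.injective ((pow_left_inj₀ (hpos a).le (hpos b).le two_ne_zero).1 h)
  have hAs : ∀ x y, ⟪A x, y⟫_ℂ = ⟪x, A y⟫_ℂ := hA0.inner_left_eq_inner_right
  have hBs : ∀ x y, ⟪B x, y⟫_ℂ = ⟪x, B y⟫_ℂ := hB0.inner_left_eq_inner_right
  obtain ⟨e, he, hAe, hue, hse, hexp⟩ := eigsys A hAc hA0 u (fun j => s (2 * j) ^ 2)
    (fun j => pow_pos (hpos _) 2) (fun i j h => by have := hsqi _ _ h; omega) hA
    (fun j y hy huy => by
      by_contra hy0
      obtain ⟨k, hk⟩ := (hB _ (pow_pos (hpos (2 * j)) 2)).1 ⟨y, hy0, by rw [hAB, huy, hy]; simp⟩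
      have := hsqi _ _ hk
      omega)
  obtain ⟨f, hf, hBf, huf, hsf, hexpf⟩ := eigsys B hBc hB0 u (fun j => s (2 * j + 1) ^ 2)
    (fun j => pow_pos (hpos _) 2) (fun i j h => by have := hsqi _ _ h; omega) hB
    (fun j y hy huy => by
      by_contra hy0
      obtain ⟨k, hk⟩ := (hA _ (pow_pos (hpos (2 * j + 1)) 2)).1
        ⟨y, hy0, by rw [← hy, hAB, huy]; simp⟩
      have := hsqi _ _ hk
      omega)
  obtain ⟨lam, hlam, hHe, hH⟩ := takagi H hHs A hHH (fun j => s (2 * j)) (fun j => hpos _) e he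
    hAe hse hexp
  obtain ⟨mu, hmu, -, hK⟩ := takagi K hKs B hKK (fun j => s (2 * j + 1)) (fun j => hpos _) f hf
    hBf hsf hexpf
  have hne : ∀ j k, s (2 * j) ^ 2 - s (2 * k + 1) ^ 2 ≠ 0 := fun j k => sub_ne_zero.2 fun h => by
    have := hsqi _ _ h
    omega
  have hnec : ∀ j k, ((s (2 * j) ^ 2 - s (2 * k + 1) ^ 2 : ℝ) : ℂ) ≠ 0 := fun j k => by
    exact_mod_cast hne j k
  have hz0 : ∀ z, A z = 0 → ⟪u, z⟫_ℂ = 0 := by
    intro z hz
    have h1 := hB0.re_inner_nonneg_right z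
    rw [hAB, hz, zero_sub, inner_neg_right, inner_smul_right, ← inner_conj_symm z u,
      Complex.mul_conj'] at h1
    have h2 : 0 ≤ -‖⟪u, z⟫_ℂ‖ ^ 2 := by
      have h3 : RCLike.re (-((‖⟪u, z⟫_ℂ‖ : ℂ) ^ 2)) = -‖⟪u, z⟫_ℂ‖ ^ 2 := by
        rw [← Complex.ofReal_pow, ← Complex.ofReal_neg]
        exact Complex.ofReal_re _
      exact h3 ▸ h1
    exact norm_eq_zero.1 (by nlinarith [norm_nonneg ⟪u, z⟫_ℂ])
  have hfz : ∀ k z, A z = 0 → ⟪f k, z⟫_ℂ = 0 := by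
    intro k z hz
    have h1 := hBs (f k) z
    rw [hBf, hAB, hz, hz0 z hz, zero_smul, sub_zero, inner_zero_right, inner_smul_left,
      Complex.conj_ofReal, mul_eq_zero] at h1
    refine h1.resolve_left ?_
    exact_mod_cast (pow_pos (hpos _) 2).ne'
  have hef : ∀ j k, ⟪f k, e j⟫_ℂ = ⟪f k, u⟫_ℂ * (⟪u, e j⟫_ℂ /
      ((s (2 * j) ^ 2 - s (2 * k + 1) ^ 2 : ℝ) : ℂ)) := by
    intro j k
    have h1 := hBs (f k) (e j)
    rw [hBf, hAB, hAe, inner_sub_right, inner_smul_left, inner_smul_right, inner_smul_right,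
      Complex.conj_ofReal] at h1
    rw [← mul_div_assoc, eq_div_iff (hnec j k)]
    push_cast at h1 ⊢
    linear_combination -h1
  have hfx : ∀ x k, HasSum (fun j => ⟪f k, u⟫_ℂ * (conj ⟪e j, u⟫_ℂ * ⟪e j, x⟫_ℂ /
      ((s (2 * j) ^ 2 - s (2 * k + 1) ^ 2 : ℝ) : ℂ))) ⟪f k, x⟫_ℂ := by
    intro x k
    obtain ⟨z, hz, hs⟩ := hexp x
    have h1 := (innerSL ℂ (f k)).hasSum hs
    simp only [innerSL_apply_apply, inner_smul_right, inner_sub_right, hfz k z hz, sub_zero] at h1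
    refine (congrArg (fun F => HasSum F ⟪f k, x⟫_ℂ) (funext fun j => ?_)).mpr h1
    rw [hef, inner_conj_symm]
    ring
  refine ⟨⟨e, f, lam, mu, fun j => ⟪e j, u⟫_ℂ, fun k => ⟪f k, u⟫_ℂ, he, hf, hlam, hmu, hH, hK,
    hAe, hBf, hexp, hexpf, fun j h => hue j (inner_eq_zero_symm.1 h), fun j => ?_, fun k => ?_,
    hfx, fun k => ?_, fun j => rfl, hHe,
    fun j => by rw [hu, hHs, hHe, inner_smul_right, inner_conj_symm],
    fun k h => huf k (inner_eq_zero_symm.1 h), hAB, hA0, hB0,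
    fun j k => by rw [hef, inner_conj_symm]⟩⟩
  · rw [hu, hHs, hHe, inner_smul_right, norm_mul, hlam, mul_pow, norm_inner_symm]
  · have hq : ⟪f k, u⟫_ℂ ≠ 0 := fun h => huf k (inner_eq_zero_symm.1 h)
    have h2 := (hfx u k).div_const ⟪f k, u⟫_ℂ
    rw [div_self hq] at h2
    rw [← Complex.hasSum_ofReal, Complex.ofReal_one]
    refine (congrArg (fun F => HasSum F (1 : ℂ)) (funext fun l => ?_)).mpr h2
    rw [mul_div_cancel_left₀ _ hq, Complex.conj_mul']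
    push_cast
    rfl
  · have h2 := hfx (f k) k
    rw [inner_self_eq_norm_sq_to_K, hf.1 k] at h2
    rw [← Complex.hasSum_ofReal]
    have h3 : ((1 : ℝ) : ℂ) = (RCLike.ofReal (1 : ℝ) : ℂ) ^ 2 := by simp
    rw [h3]
    refine (congrArg (fun F => HasSum F ((RCLike.ofReal (1 : ℝ) : ℂ) ^ 2))
      (funext fun l => ?_)).mpr h2
    rw [← inner_conj_symm (e l) (f k), hef, ← inner_conj_symm u (e l), map_mul, map_div₀,
      Complex.conj_ofReal, Complex.conj_conj]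
    have a1 := Complex.mul_conj' ⟪f k, u⟫_ℂ
    have a2 := Complex.mul_conj' ⟪e l, u⟫_ℂ
    rw [Complex.ofReal_mul, Complex.ofReal_div, Complex.ofReal_pow, Complex.ofReal_pow,
      Complex.ofReal_pow, ← a1, ← a2]
    ring

variable {s : ℕ → ℝ} {H K H' K' : E → E} {A B A' B' : E →L[ℂ] E} {δ : E}

omit [CompleteSpace E] in
lemma Data.norm_p (hpos : ∀ r, 0 < s r) (hanti : StrictAnti s) (hs0 : Tendsto s atTop (𝓝 0))
    (hδ : ‖δ‖ = 1) (D : Data s H K A B δ) (D' : Data s H' K' A' B' δ) (j : ℕ) :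
    ‖D.p j‖ ^ 2 ≤ ‖D'.p j‖ ^ 2 := by
  have h1 := D.he.tsum_inner_products_le δ
  rw [hδ, one_pow] at h1
  refine P_le (fun l => s (2 * l) ^ 2) (fun k => s (2 * k + 1) ^ 2) (fun l => ‖D.p l‖ ^ 2)
    (fun l => ‖D'.p l‖ ^ 2)
    (fun k l h => pow_lt_pow_left₀ (hanti (by omega)) (hpos _).le two_ne_zero)
    (fun k l h => pow_lt_pow_left₀ (hanti (by omega)) (hpos _).le two_ne_zero)
    (fun k => pow_pos (hpos _) 2) ?_ (fun l => sq_nonneg _) (fun l => sq_nonneg _) D.hF D'.hF h1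
    ?_ j
  · have h2 := (hs0.comp (tendsto_id.const_mul_atTop' (r := 2) two_pos)).pow 2
    simpa using h2
  · refine (congrArg (fun F => HasSum F (∑' i, ‖⟪D.e i, δ⟫_ℂ‖ ^ 2)) (funext fun l => ?_)).mpr
      (D.he.inner_products_summable δ).hasSum
    rw [D.hpδ, mul_div_cancel_left₀ _ (pow_pos (hpos _) 2).ne']

lemma Data.transfer (D : Data s H K A B δ) (D' : Data s H' K' A' B' δ)
    (hp : ∀ j, ‖D.p j‖ = ‖D'.p j‖) (x : E) :
    ∃ x' : E, (∀ j, ‖⟪D'.e j, x'⟫_ℂ‖ = ‖⟪D.e j, x⟫_ℂ‖) ∧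
      ∀ k, ‖⟪D'.f k, x'⟫_ℂ‖ = ‖⟪D.f k, x⟫_ℂ‖ := by
  let w : ℕ → ℂ := fun j => conj (D.p j) / conj (D'.p j) * ⟪D.e j, x⟫_ℂ
  have hw : ∀ j, ‖w j‖ = ‖⟪D.e j, x⟫_ℂ‖ := fun j => by
    simp only [w, norm_mul, norm_div, Complex.norm_conj, hp j,
      div_self (norm_ne_zero_iff.2 (D'.hp0 j)), one_mul]
  have h1 : Summable fun l => w l • D'.e l :=
    (D'.he.orthogonalFamily.summable_iff_norm_sq_summable w).2
      (by simpa only [hw] using D.he.inner_products_summable x)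
  have h2 : ∀ j, ⟪D'.e j, ∑' l, w l • D'.e l⟫_ℂ = w j := by
    intro j
    have h3 := (innerSL ℂ (D'.e j)).hasSum h1.hasSum
    simp only [innerSL_apply_apply, inner_smul_right, orthonormal_iff_ite.1 D'.he] at h3
    have h4 := hasSum_single (f := fun l => w l * if j = l then (1 : ℂ) else 0) j
      (fun l hl => by simp [hl.symm])
    rw [h3.unique h4]
    simp
  refine ⟨∑' l, w l • D'.e l, fun j => by rw [h2, hw], fun k => ?_⟩
  have hκ : ‖D.κ k‖ = ‖D'.κ k‖ := by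
    have a1 := (D.hκ k).tsum_eq
    have a2 := (D'.hκ k).tsum_eq
    simp only [hp] at a1
    rw [tsum_mul_left] at a1 a2
    refine (pow_left_inj₀ (norm_nonneg _) (norm_nonneg _) two_ne_zero).1 ?_
    refine mul_right_cancel₀ ?_ (a1.trans a2.symm)
    intro h0
    rw [h0, mul_zero] at a1
    exact zero_ne_one a1
  rw [← (D.hfx x k).tsum_eq, ← (D'.hfx _ k).tsum_eq, tsum_mul_left, tsum_mul_left, norm_mul,
    norm_mul, hκ]
  congr 3
  ext j
  have : conj (D'.p j) ≠ 0 := (map_ne_zero _).2 (D'.hp0 j)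
  rw [h2]
  simp only [w]
  field_simp

omit [CompleteSpace E] in
lemma Data.decay (hpos : ∀ r, 0 < s r) (hanti : StrictAnti s) (D : Data s H K A B δ)
    (S : E → E) (hS : ∀ y, K y = H (S y)) {θ : ℝ} (hθ : 0 ≤ θ)
    (h : ∀ x, qf (fun k => s (2 * k + 1)) D.f x ≤ θ * qf (fun j => s (2 * j)) D.e x) (n : ℕ) :
    ‖⟪δ, H (S^[n] δ)⟫_ℂ‖ ≤ qf (fun j => s (2 * j)) D.e δ * θ ^ n := by
  have a1 : Antitone fun j => s (2 * j) := fun i j h => hanti.antitone (by omega)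
  have a2 : Antitone fun j => s (2 * j + 1) := fun i j h => hanti.antitone (by omega)
  have q0 : ∀ x, 0 ≤ qf (fun j => s (2 * j)) D.e x := qf_nonneg (fun j => hpos _) _
  have h1 : ∀ y, qf (fun j => s (2 * j)) D.e (S y) ≤ θ ^ 2 * qf (fun j => s (2 * j)) D.e y := by
    intro y
    refine dual_qf (fun j => hpos _) a1 D.he D.hlam (mul_nonneg (sq_nonneg _) (q0 y))
      (D.hH (S y)) fun w => ?_
    rw [← hS]
    refine (mixed_cs (fun j => hpos _) a2 D.hf D.hmu (D.hK y w)).trans ?_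
    refine (mul_le_mul (h y) (h w) (qf_nonneg (fun j => hpos _) _ _)
      (mul_nonneg hθ (q0 y))).trans (le_of_eq (by ring))
  have h2 : ∀ n, qf (fun j => s (2 * j)) D.e (S^[n] δ)
      ≤ (θ ^ n) ^ 2 * qf (fun j => s (2 * j)) D.e δ := by
    intro n
    induction n with
    | zero => simp
    | succ n ih =>
      rw [Function.iterate_succ_apply']
      refine (h1 _).trans ((mul_le_mul_of_nonneg_left ih (sq_nonneg _)).trans (le_of_eq ?_))
      ring
  refine (abs_le_of_sq_le_sq' ?_ (mul_nonneg (q0 δ) (pow_nonneg hθ n))).2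
  refine (mixed_cs (fun j => hpos _) a1 D.he D.hlam (D.hH _ δ)).trans ?_
  refine (mul_le_mul_of_nonneg_right (h2 n) (q0 δ)).trans (le_of_eq (by ring))

omit [CompleteSpace E] in
lemma Data.gaps (hpos : ∀ r, 0 < s r) (hanti : StrictAnti s) (D : Data s H K A B δ)
    (S : E → E) (W : E →L[ℂ] E) (hW : ∀ x, ‖W x‖ ≤ ‖x‖) (hWS : ∀ x y, ⟪W x, y⟫_ℂ = ⟪x, S y⟫_ℂ)
    (hSW : ∀ x, ⟪δ, x⟫_ℂ = 0 → S (W x) = x) {θ : ℝ} (hθ : 0 ≤ θ)
    (h : ∀ x, qf (fun k => s (2 * k + 1)) D.f x ≤ θ * qf (fun j => s (2 * j)) D.e x)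
    (h' : ∀ x, qf (fun j => s (2 * j)) D.e (S x) ≤ θ * qf (fun k => s (2 * k + 1)) D.f x)
    (r : ℕ) : s (r + 1) ≤ θ * s r := by
  have a1 : Antitone fun j => s (2 * j) := fun i j h => hanti.antitone (by omega)
  have a2 : Antitone fun j => s (2 * j + 1) := fun i j h => hanti.antitone (by omega)
  obtain ⟨j, rfl | rfl⟩ := Nat.even_or_odd' r
  · obtain ⟨x, hx0, hx, hq⟩ := exists_vec a2 D.hf j D.e
    have h1 := qf_le (fun j => hpos _) a1 D.he x j hx
    have h2 := hq.trans ((h x).trans (mul_le_mul_of_nonneg_left h1 hθ))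
    rw [← mul_assoc] at h2
    exact le_of_mul_le_mul_right h2 (pow_pos (norm_pos_iff.2 hx0) 2)
  · obtain ⟨x, hx0, hx, hq⟩ := exists_vec a1 D.he (j + 1)
      (fun i => if i < j then S (D.f i) else δ)
    have h0 : ⟪δ, x⟫_ℂ = 0 := by simpa using hx j (Nat.lt_succ_self j)
    have h1 := qf_le (fun j => hpos _) a2 D.hf (W x) j fun i hi => by
      have := hx i (by omega)
      rw [if_pos hi] at this
      rw [inner_eq_zero_symm, hWS, inner_eq_zero_symm, this]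
    have h3 := h' (W x)
    rw [hSW x h0] at h3
    have h4 := mul_le_mul_of_nonneg_left (pow_le_pow_left₀ (norm_nonneg _) (hW x) 2)
      (hpos (2 * j + 1)).le
    have h2 := hq.trans (h3.trans (mul_le_mul_of_nonneg_left (h1.trans h4) hθ))
    rw [← mul_assoc] at h2
    exact le_of_mul_le_mul_right h2 (pow_pos (norm_pos_iff.2 hx0) 2)

end Pool.Agent.MP_301177_an

end

end

section
open Filter Topology InnerProductSpace
open scoped InnerProductSpace ComplexConjugate ComplexOrder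

noncomputable section

namespace Pool.Agent.MP_301177_an

lemma exists_gam {c : ℕ → ℂ} (h1 : Summable fun n : ℕ => (1 + (n : ℝ)) * ‖c n‖ ^ 2) :
    ∃ γ : ℕ → L2, (∀ m n, γ m n = c (n + m)) ∧ Summable fun m => ‖γ m‖ ^ 2 := by
  have hc2 : Summable fun n => ‖c n‖ ^ 2 :=
    Summable.of_nonneg_of_le (fun n => sq_nonneg _)
      (fun n => le_mul_of_one_le_left (sq_nonneg _) (by
        linarith [(Nat.cast_nonneg n : (0 : ℝ) ≤ n)])) h1
  let γ : ℕ → L2 := fun m => ⟨fun n => c (n + m), (mem_iff _).2 ((summable_nat_add_iff m).2 hc2)⟩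
  refine ⟨γ, fun m n => rfl, ?_⟩
  refine summable_of_sum_range_le (c := ∑' n : ℕ, (1 + (n : ℝ)) * ‖c n‖ ^ 2)
    (fun m => sq_nonneg _) fun M => ?_
  have a1 : ∀ m, HasSum (fun k => if m ≤ k then ‖c k‖ ^ 2 else 0) (‖γ m‖ ^ 2) := by
    intro m
    rw [← hasSum_nat_add_iff' m, Finset.sum_eq_zero, sub_zero]
    · simpa using hasSum_sq (γ m)
    · intro k hk
      rw [Finset.mem_range] at hk
      rw [if_neg (by omega)]
  refine hasSum_le (fun k => ?_) (hasSum_sum fun m _ => a1 m) h1.hasSum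
  rw [← Finset.sum_filter, Finset.sum_const, nsmul_eq_mul]
  refine mul_le_mul_of_nonneg_right ?_ (sq_nonneg _)
  have : ((Finset.range M).filter fun m => m ≤ k).card ≤ 1 + k := by
    refine (Finset.card_le_card (t := Finset.range (1 + k)) fun m hm => ?_).trans (by simp)
    rw [Finset.mem_filter] at hm
    rw [Finset.mem_range]
    omega
  exact_mod_cast this

lemma inner_sq_le (a x : L2) : ‖⟪a, x⟫_ℂ‖ ^ 2 ≤ ‖a‖ ^ 2 * ‖x‖ ^ 2 := by
  rw [← mul_pow]
  exact pow_le_pow_left₀ (norm_nonneg _) (norm_inner_le_norm _ _) 2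

lemma exists_G {γ : ℕ → L2} (hs : Summable fun m => ‖γ m‖ ^ 2) :
    ∃ G : L2 →L[ℂ] L2, ∀ x n, G x n = ⟪γ n, x⟫_ℂ := by
  let L : L2 →ₗ[ℂ] L2 :=
    { toFun := fun x => ⟨fun n => ⟪γ n, x⟫_ℂ,
        (mem_iff _).2 (hasSum_inner_gram_self hs x).summable⟩
      map_add' := fun x y => lp.ext (funext fun n => inner_add_right _ _ _)
      map_smul' := fun t x => lp.ext (funext fun n => inner_smul_right _ _ _) }
  refine ⟨L.mkContinuous (Real.sqrt (∑' m, ‖γ m‖ ^ 2)) fun x => ?_, fun x n => rfl⟩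
  refine (abs_le_of_sq_le_sq' ?_ (by positivity)).2
  rw [mul_pow, Real.sq_sqrt (tsum_nonneg fun m => sq_nonneg _)]
  exact hasSum_le (fun n => inner_sq_le (γ n) x) (hasSum_sq (L x)) (hs.hasSum.mul_right _)

lemma exists_H {d : ℕ → ℂ} {γ : ℕ → L2} (hγ : ∀ m n, γ m n = d (n + m))
    (hs : Summable fun m => ‖γ m‖ ^ 2) :
    ∃ H : L2 → L2, (∀ x n, H x n = conj ⟪γ n, x⟫_ℂ) ∧ (∀ x y, ⟪y, H x⟫_ℂ = ⟪x, H y⟫_ℂ) ∧
      ∀ x, H (H x) = gram γ x := by
  let H : L2 → L2 := fun x => ⟨fun n => conj ⟪γ n, x⟫_ℂ, (mem_iff _).2 (by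
    simpa only [Complex.norm_conj] using (hasSum_inner_gram_self hs x).summable)⟩
  have hH : ∀ x : L2, (H x : ℕ → ℂ) = hankel d x := fun x =>
    funext fun n => (hankel_eq hγ x n).symm
  have h1 : ∀ y : L2, HasSum (fun m => conj (y m) • γ m) (H y) := by
    intro y
    have h2 : Summable fun m => conj (y m) • γ m := by
      refine Summable.of_norm_bounded ((hasSum_sq y).summable.add hs) fun m => ?_
      rw [norm_smul, Complex.norm_conj]
      nlinarith [sq_nonneg (‖y m‖ - ‖γ m‖), mul_nonneg (norm_nonneg (y m)) (norm_nonneg (γ m))]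
    have h3 : H y = ∑' m, conj (y m) • γ m := by
      refine lp.ext (funext fun n => ?_)
      have h4 := (innerSL ℂ (lp.single 2 n (1 : ℂ) : L2)).hasSum h2.hasSum
      simp only [innerSL_apply_apply, inner_smul_right, inner_single, hγ] at h4
      rw [← h4.tsum_eq, hH]
      unfold hankel
      simp only [mul_comm]
    rw [h3]
    exact h2.hasSum
  refine ⟨H, fun x n => rfl, fun x y => ?_, fun x => lp.ext ?_⟩
  · have h2 := (innerSL ℂ x).hasSum (h1 y)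
    simp only [innerSL_apply_apply, inner_smul_right] at h2
    refine (lp.hasSum_inner y (H x)).unique ?_
    refine (congrArg (fun F => HasSum F ⟪x, H y⟫_ℂ) (funext fun m => ?_)).mpr h2
    rw [RCLike.inner_apply, ← inner_conj_symm x (γ m), mul_comm]
  · rw [hH, hH, hankel_sq hγ hs]

/-- The forward shift on square-summable sequences. -/
def fshift : L2 →L[ℂ] L2 := ContinuousLinearMap.adjoint bshift

/-- The first basis vector. -/
def dlt : L2 := lp.single 2 0 (1 : ℂ)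

lemma hWS (x y : L2) : ⟪bshift x, y⟫_ℂ = ⟪x, fshift y⟫_ℂ :=
  (ContinuousLinearMap.adjoint_inner_right bshift x y).symm

lemma hSW (x y : L2) : ⟪fshift x, y⟫_ℂ = ⟪x, bshift y⟫_ℂ :=
  ContinuousLinearMap.adjoint_inner_left bshift y x

lemma bshift_apply (x : L2) (n : ℕ) : bshift x n = x (n + 1) := rfl

lemma inner_dlt (x : L2) : ⟪dlt, x⟫_ℂ = x 0 := inner_single 0 x

lemma norm_dlt : ‖dlt‖ = 1 := by
  rw [dlt, lp.norm_single (by norm_num), norm_one]

lemma fshift_bshift (x : L2) (hx : ⟪dlt, x⟫_ℂ = 0) : fshift (bshift x) = x := by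
  refine ext_inner_left ℂ fun y => ?_
  rw [← hWS]
  rw [inner_dlt] at hx
  have h1 := (hasSum_nat_add_iff' 1).2 (lp.hasSum_inner (𝕜 := ℂ) y x)
  simp only [Finset.range_one, Finset.sum_singleton, hx, inner_zero_right, sub_zero] at h1
  exact (lp.hasSum_inner (𝕜 := ℂ) (bshift y) (bshift x)).unique h1

lemma bshift_gam {d : ℕ → ℂ} {γ : ℕ → L2} (hγ : ∀ m n, γ m n = d (n + m)) (m : ℕ) :
    bshift (γ m) = γ (m + 1) :=
  lp.ext (funext fun n => by
    rw [bshift_apply, hγ, hγ]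
    congr 1
    omega)

lemma gam_iter {d : ℕ → ℂ} {γ : ℕ → L2} (hγ : ∀ m n, γ m n = d (n + m)) (n : ℕ) :
    ∀ m x, ⟪γ m, fshift^[n] x⟫_ℂ = ⟪γ (m + n), x⟫_ℂ := by
  induction n with
  | zero => simp
  | succ n ih =>
    intro m x
    rw [Function.iterate_succ_apply', ← hWS, bshift_gam hγ, ih, add_assoc, add_comm 1 n]

theorem torus_data {s : ℕ → ℝ} (hpos : ∀ r, 0 < s r) (hanti : StrictAnti s) {c : ℕ → ℂ}
    (hc : InTorus s c) :
    ∃ (γ : ℕ → L2) (H K : L2 → L2), (∀ m n, γ m n = c (n + m)) ∧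
      (Summable fun m => ‖γ m‖ ^ 2) ∧ (∀ y, K y = H (fshift y)) ∧
      (∀ n, ⟪dlt, H (fshift^[n] dlt)⟫_ℂ = c n) ∧
      Nonempty (Data s H K (gram γ) (gram fun m => γ (m + 1)) dlt) ∧
      (∀ x, bshift (H x) = K x) ∧ ∀ n, ⟪dlt, bshift^[n] (H dlt)⟫_ℂ = c n := by
  obtain ⟨h1, h2, h3⟩ := hc
  obtain ⟨γ, hγ, hs⟩ := exists_gam h1
  have hγ1 : ∀ m n, γ (m + 1) n = c (n + m + 1) := fun m n => hγ _ _
  have hs1 : Summable fun m => ‖γ (m + 1)‖ ^ 2 := (summable_nat_add_iff 1).2 hs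
  obtain ⟨H, hH, hHs, hHH⟩ := exists_H hγ hs
  obtain ⟨K, hK, hKs, hKK⟩ := exists_H (d := fun n => c (n + 1)) hγ1 hs1
  have hu : H dlt = γ 0 := lp.ext (funext fun n => by
    rw [hH, inner_conj_symm, inner_dlt, hγ, hγ, add_comm])
  refine ⟨γ, H, K, hγ, hs, fun y => lp.ext (funext fun n => ?_), fun n => ?_, ?_,
    fun x => lp.ext (funext fun n => by rw [bshift_apply, hH, hK]), fun n => ?_⟩
  · rw [hK, hH, ← hWS, bshift_gam hγ]
  · rw [inner_dlt, hH, gam_iter hγ, inner_conj_symm, inner_dlt, hγ, zero_add, zero_add]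
  · refine pair_data hpos hanti H K _ _ dlt hHs hKs hHH hKK (gram_compact hs) (gram_compact hs1)
      (gram_pos hs) (gram_pos hs1) (fun x => by rw [hu, gram_succ hs])
      (fun lam hlam => by rw [← eig_iff hγ hs]; exact h2 lam hlam) (fun lam hlam => ?_)
    rw [← eig_iff (d := fun n => c (n + 1)) hγ1 hs1, ← h3 lam hlam]
    simp only [hankel_shift]
  · have h4 : ∀ n, bshift^[n] (γ 0) = γ n := fun n => by
      induction n with
      | zero => rfl
      | succ n ih => rw [Function.iterate_succ_apply', ih, bshift_gam hγ]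
    rw [hu, h4, inner_dlt, hγ, zero_add]

lemma G_pos {d : ℕ → ℂ} {γ : ℕ → L2} (hγ : ∀ m n, γ m n = d (n + m))
    (hs : Summable fun m => ‖γ m‖ ^ 2) (G : L2 →L[ℂ] L2) (hG : ∀ x n, G x n = ⟪γ n, x⟫_ℂ)
    (hd : ∀ N : ℕ, (Matrix.of fun i j : Fin N => d (i + j)).PosSemidef) :
    G.IsPositive ∧ ∀ x, G (G x) = gram γ x := by
  have hreal : ∀ n, conj (d n) = d n := by
    intro n
    have := (hd (n + 1)).1.apply 0 (Fin.last n)
    simpa using this
  constructor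
  · rw [ContinuousLinearMap.isPositive_iff_complex]
    intro x
    have h0 : 0 ≤ ⟪x, G x⟫_ℂ := by
      have h1 := (lp.hasSum_single (p := 2) (by simp) x).tendsto_sum_nat
      have c1 : Continuous fun w : L2 => ⟪w, G w⟫_ℂ := by fun_prop
      refine ge_of_tendsto' ((c1.tendsto _).comp h1) fun N => ?_
      have h2 := (hd N).dotProduct_mulVec_nonneg fun i : Fin N => x i
      refine h2.trans (le_of_eq ?_)
      simp only [Function.comp, ← Fin.sum_univ_eq_sum_range (fun i => (lp.single 2 i (x i) : L2)),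
        sum_inner, dotProduct, Matrix.mulVec, Matrix.of_apply, Pi.star_apply]
      refine Finset.sum_congr rfl fun i _ => ?_
      rw [lp.inner_single_left, hG, inner_sum, RCLike.inner_apply, mul_comm]
      congr 1
      refine Finset.sum_congr rfl fun j _ => ?_
      rw [lp.inner_single_right, RCLike.inner_apply, hγ, hreal, mul_comm, add_comm]
    have h3 : ⟪G x, x⟫_ℂ = ⟪x, G x⟫_ℂ := by
      rw [← inner_conj_symm, Complex.conj_eq_iff_im]
      exact (Complex.nonneg_iff.1 h0).2.symm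
    rw [h3]
    exact ⟨Complex.conj_eq_iff_re.1 (by rw [inner_conj_symm, h3]), (Complex.nonneg_iff.1 h0).1⟩
  · intro x
    refine lp.ext (funext fun n => ?_)
    have h1 := hasSum_inner_gram hs x (lp.single 2 n (1 : ℂ))
    simp only [inner_single, hγ] at h1
    rw [hG]
    refine (lp.hasSum_inner (𝕜 := ℂ) (γ n) (G x)).unique ?_
    refine (congrArg (fun F => HasSum F (gram γ x n)) (funext fun m => ?_)).mpr h1
    rw [RCLike.inner_apply, hG, hγ, hreal, add_comm]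

lemma coeff_bound {c : ℕ → ℂ} {R : ℝ} (hR : 0 < R) (h : ExtendsTo c R) {a : ℝ} (ha : R⁻¹ < a) :
    ∃ C, 0 ≤ C ∧ ∀ n, ‖c n‖ ≤ C * a ^ n := by
  obtain ⟨f, hf, hs⟩ := h
  have ha0 : 0 < a := (inv_pos.2 hR).trans ha
  have h1 : a⁻¹ < R := inv_lt_of_inv_lt₀ hR ha
  obtain ⟨r, hr1, hr2⟩ := exists_between h1
  have hr0 : 0 < r := (inv_pos.2 ha0).trans hr1
  have h2 := (hf.mono (Metric.closedBall_subset_ball (x := (0 : ℂ)) hr2) :
    DifferentiableOn ℂ f (Metric.closedBall 0 ((⟨r, hr0.le⟩ : NNReal) : ℝ))).hasFPowerSeriesOnBall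
      (by exact hr0)
  have h3 : HasFPowerSeriesAt f (FormalMultilinearSeries.ofScalars ℂ c) 0 := by
    rw [hasFPowerSeriesAt_iff]
    filter_upwards [Metric.ball_mem_nhds (0 : ℂ) one_pos] with z hz
    simpa [mul_comm] using hs z hz
  have h4 := h3.eq_formalMultilinearSeries h2.hasFPowerSeriesAt
  let b : NNReal := ⟨a⁻¹, (inv_pos.2 ha0).le⟩
  have h5 : (b : ENNReal) < (FormalMultilinearSeries.ofScalars ℂ c).radius := by
    rw [h4]
    exact lt_of_lt_of_le (ENNReal.coe_lt_coe.2 hr1) h2.r_le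
  obtain ⟨C, hC0, hC⟩ := FormalMultilinearSeries.norm_mul_pow_le_of_lt_radius _ h5
  refine ⟨C, hC0.le, fun n => ?_⟩
  have h6 := hC n
  rw [FormalMultilinearSeries.ofScalars_norm] at h6
  have h7 : ‖c n‖ * (a⁻¹) ^ n ≤ C := h6
  rwa [inv_pow, ← div_eq_mul_inv, div_le_iff₀ (pow_pos ha0 n)] at h7

lemma moment_bound {d : ℕ → ℂ} {γ : ℕ → L2} (hγ : ∀ m n, γ m n = d (n + m))
    (G : L2 →L[ℂ] L2) (hG : ∀ x n, G x n = ⟪γ n, x⟫_ℂ) {a C : ℝ} (ha : 0 ≤ a) (ha1 : a < 1)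
    (hC : 0 ≤ C) (hd : ∀ n, ‖d n‖ ≤ C * a ^ n) (x : L2) (k : ℕ) :
    ‖⟪x, G (fshift^[k] x)⟫_ℂ‖ ≤ ‖x‖ * (C * (1 - a ^ 2)⁻¹ * ‖x‖) * a ^ k := by
  have h0 : a ^ 2 < 1 := by nlinarith
  have hg := hasSum_geometric_of_lt_one (sq_nonneg a) h0
  have hi : 0 ≤ (1 - a ^ 2)⁻¹ := inv_nonneg.2 (by linarith)
  have h1 : ∀ m, ‖γ m‖ ^ 2 ≤ (C * a ^ m) ^ 2 * (1 - a ^ 2)⁻¹ := by
    intro m
    refine hasSum_le (fun n => ?_) (hasSum_sq (γ m)) (hg.mul_left _)
    rw [hγ]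
    refine (pow_le_pow_left₀ (norm_nonneg _) (hd _) 2).trans (le_of_eq (by ring))
  have h2 : ‖G (fshift^[k] x)‖ ≤ C * (1 - a ^ 2)⁻¹ * ‖x‖ * a ^ k := by
    refine (abs_le_of_sq_le_sq' ?_ (by positivity)).2
    refine (hasSum_le (fun n => ?_) (hasSum_sq _)
      (hg.mul_left ((C * a ^ k) ^ 2 * (1 - a ^ 2)⁻¹ * ‖x‖ ^ 2))).trans (le_of_eq (by ring))
    rw [hG, gam_iter hγ]
    refine (inner_sq_le _ _).trans ((mul_le_mul_of_nonneg_right (h1 _) (sq_nonneg _)).trans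
      (le_of_eq (by ring)))
  refine (norm_inner_le_norm _ _).trans ?_
  rw [mul_assoc]
  exact mul_le_mul_of_nonneg_left h2 (norm_nonneg _)

theorem zero_angle_main {s : ℕ → ℝ} (hpos : ∀ r, 0 < s r) (hanti : StrictAnti s) {c₀ : ℕ → ℂ}
    (h₀ : InTorus s c₀) (hz : ZeroAngle c₀) {R : ℝ} (hR : 1 < R) (hext : ExtendsTo c₀ R) :
    (∀ r, s (r + 1) ≤ R⁻¹ * s r) ∧ ∀ c, InTorus s c → ∀ n, ‖c n‖ ≤ ‖c₀ 0‖ * R⁻¹ ^ n := by
  have hR0 : 0 < R := one_pos.trans hR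
  have hθ : 0 ≤ R⁻¹ := (inv_pos.2 hR0).le
  have hθ1 : R⁻¹ < 1 := inv_lt_one_of_one_lt₀ hR
  obtain ⟨γ, H, K, hγ, hs, -, -, ⟨D⟩, -⟩ := torus_data hpos hanti h₀
  have hγ1 : ∀ m n, γ (m + 1) n = c₀ (n + m + 1) := fun m n => hγ _ _
  have hs1 : Summable fun m => ‖γ (m + 1)‖ ^ 2 := (summable_nat_add_iff 1).2 hs
  obtain ⟨G, hG⟩ := exists_G hs
  have hG1 : ∀ x n, (G ∘L fshift) x n = ⟪γ (n + 1), x⟫_ℂ := fun x n => by
    rw [ContinuousLinearMap.comp_apply, hG, ← hWS, bshift_gam hγ]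
  obtain ⟨p0, s0⟩ := G_pos hγ hs G hG hz.1
  obtain ⟨p1, s1⟩ := G_pos (d := fun n => c₀ (n + 1)) hγ1 hs1 _ hG1 hz.2
  have hGS : ∀ x y, ⟪fshift x, G y⟫_ℂ = ⟪x, G (fshift y)⟫_ℂ := by
    intro x y
    rw [hSW]
    congr 1
    exact lp.ext (funext fun n => by rw [bshift_apply, hG, ← hG1]; rfl)
  have q0 := qf_eq_pos (ρ := fun j => s (2 * j)) (fun j => hpos _) G _ p0 s0 D.hAe D.hexp
  have q1 := qf_eq_pos (ρ := fun j => s (2 * j + 1)) (fun j => hpos _) _ _ p1 s1 D.hBf D.hexpf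
  have hl := fun x => logconv G fshift hGS p0 p1 hθ hθ1 x fun a ha ha1 => by
    obtain ⟨C, hC0, hC⟩ := coeff_bound hR0 hext ha
    exact ⟨_, moment_bound hγ G hG (hθ.trans ha.le) ha1 hC0 hC x⟩
  have g0 : ∀ x, qf (fun k => s (2 * k + 1)) D.f x ≤ R⁻¹ * qf (fun j => s (2 * j)) D.e x := by
    intro x
    rw [q0, q1]
    exact hl x 0
  have g1 : ∀ x, qf (fun j => s (2 * j)) D.e (fshift x)
      ≤ R⁻¹ * qf (fun k => s (2 * k + 1)) D.f x := by
    intro x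
    rw [q0, q1, hGS]
    exact hl x 1
  have hgap := D.gaps hpos hanti fshift bshift (fun x => bshiftL_norm x) hWS fshift_bshift hθ g0 g1
  refine ⟨hgap, fun c hc n => ?_⟩
  have hs0 : Tendsto s atTop (𝓝 0) := by
    have h1 : ∀ r, s r ≤ R⁻¹ ^ r * s 0 := fun r => by
      induction r with
      | zero => simp
      | succ r ih =>
        rw [pow_succ', mul_assoc]
        exact (hgap r).trans (mul_le_mul_of_nonneg_left ih hθ)
    have h2 := (tendsto_pow_atTop_nhds_zero_of_lt_one hθ hθ1).mul_const (s 0)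
    rw [zero_mul] at h2
    exact squeeze_zero (fun r => (hpos r).le) h1 h2
  obtain ⟨γ', H', K', -, -, hK', hc', ⟨D'⟩, -⟩ := torus_data hpos hanti hc
  have hp : ∀ j, ‖D'.p j‖ = ‖D.p j‖ := fun j =>
    (pow_left_inj₀ (norm_nonneg _) (norm_nonneg _) two_ne_zero).1
      (le_antisymm (D'.norm_p hpos hanti hs0 norm_dlt D j) (D.norm_p hpos hanti hs0 norm_dlt D' j))
  have h1 := D'.decay hpos hanti fshift hK' hθ (fun x => by
    obtain ⟨x', a1, a2⟩ := D'.transfer D hp x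
    have := g0 x'
    simpa only [qf, a1, a2] using this) n
  have h2 : qf (fun j => s (2 * j)) D'.e dlt = qf (fun j => s (2 * j)) D.e dlt := by
    refine tsum_congr fun j => ?_
    have a1 := D'.hpδ j
    rw [hp, D.hpδ] at a1
    rw [mul_left_cancel₀ (pow_pos (hpos _) 2).ne' a1]
  rw [hc', h2, q0, inner_dlt, hG] at h1
  refine h1.trans (mul_le_mul_of_nonneg_right ((Complex.re_le_norm _).trans (le_of_eq ?_))
    (pow_nonneg hθ n))
  rw [norm_inner_symm, inner_dlt, hγ]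

end Pool.Agent.MP_301177_an

end

end
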