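import Pool.Agent.MP_301177_an.Zero1

section
open Filter Topology

noncomputable section

namespace Pool.Agent.MP_301177_an

/-- residues of the truncated interpolation problem -/
def pn_ZX1a (a b : ℕ → ℝ) (N j : ℕ) : ℝ :=
  (a j - b j) * ∏ k ∈ (Finset.range N).erase j, (a j - b k) / (a j - a k)

lemma anti_ZX1a (a b : ℕ → ℝ) (hab : ∀ k l, k < l → a l < b k)
    (hba : ∀ k l, l ≤ k → b k < a l) {k l : ℕ} (h : k < l) : a l < a k :=
  (hab k l h).trans (hba k k le_rfl)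

lemma pos_ZX1a (a b : ℕ → ℝ) (hab : ∀ k l, k < l → a l < b k)
    (hba : ∀ k l, l ≤ k → b k < a l) (N j : ℕ) : 0 < pn_ZX1a a b N j := by
  refine mul_pos (sub_pos.2 (hba j j le_rfl)) (Finset.prod_pos fun k hk => ?_)
  rcases lt_or_gt_of_ne (Finset.mem_erase.1 hk).1 with h | h
  · exact div_pos_of_neg_of_neg (sub_neg.2 (hab k j h)) (sub_neg.2 (anti_ZX1a a b hab hba h))
  · exact div_pos (sub_pos.2 (hba k j h.le)) (sub_pos.2 (anti_ZX1a a b hab hba h))

lemma succ_ZX1a (a b : ℕ → ℝ) (hab : ∀ k l, k < l → a l < b k)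
    (hba : ∀ k l, l ≤ k → b k < a l) {N j : ℕ} (h : j < N) :
    pn_ZX1a a b N j ≤ pn_ZX1a a b (N + 1) j := by
  have h1 : (Finset.range (N + 1)).erase j = insert N ((Finset.range N).erase j) := by
    rw [Finset.range_add_one, Finset.erase_insert_of_ne (by omega)]
  have h2 : pn_ZX1a a b (N + 1) j = pn_ZX1a a b N j * ((a j - b N) / (a j - a N)) := by
    unfold pn_ZX1a
    rw [h1, Finset.prod_insert (by simp)]
    ring
  rw [h2]
  refine le_mul_of_one_le_right (pos_ZX1a a b hab hba N j).le ?_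
  rw [le_div_iff₀ (sub_pos.2 (anti_ZX1a a b hab hba h))]
  linarith [hba N N le_rfl]

lemma lagr_ZX1a (a b : ℕ → ℝ) (hab : ∀ k l, k < l → a l < b k)
    (hba : ∀ k l, l ≤ k → b k < a l) (N : ℕ) (x : ℝ) (hx : ∀ l, x ≠ a l) :
    ∑ l ∈ Finset.range N, pn_ZX1a a b N l / (a l - x)
      = 1 - ∏ k ∈ Finset.range N, (x - b k) / (x - a k) := by
  have hai : Set.InjOn a (Finset.range N : Finset ℕ) := by
    intro k _ k' _ h
    by_contra hkk
    rcases lt_or_gt_of_ne hkk with h1 | h1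
    · linarith [anti_ZX1a a b hab hba h1]
    · linarith [anti_ZX1a a b hab hba h1]
  set p : Polynomial ℝ := Lagrange.nodal (Finset.range N) a - Lagrange.nodal (Finset.range N) b
    with hp
  have hdeg : p.degree < (Finset.range N).card := by
    have h1 := Polynomial.degree_sub_lt_left
      (p := Lagrange.nodal (Finset.range N) a) (q := Lagrange.nodal (Finset.range N) b)
      (by rw [Lagrange.degree_nodal, Lagrange.degree_nodal]) Lagrange.nodal_ne_zero
      (by rw [Lagrange.nodal_monic.leadingCoeff, Lagrange.nodal_monic.leadingCoeff])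
    rwa [Lagrange.degree_nodal] at h1
  have h1 := Lagrange.eval_interpolate_not_at_node (s := Finset.range N)
    (v := a) (x := x) (fun k => p.eval (a k)) (fun k _ => hx k)
  rw [← Lagrange.eq_interpolate hai hdeg, Lagrange.eval_nodal] at h1
  have h2 : ∏ k ∈ Finset.range N, (x - a k) ≠ 0 :=
    Finset.prod_ne_zero_iff.2 fun k _ => sub_ne_zero.2 (hx k)
  have h3 : p.eval x = ∏ k ∈ Finset.range N, (x - a k) - ∏ k ∈ Finset.range N, (x - b k) := by
    rw [hp, Polynomial.eval_sub, Lagrange.eval_nodal, Lagrange.eval_nodal]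
  have h4 : ∑ l ∈ Finset.range N, pn_ZX1a a b N l / (a l - x)
      = ∑ i ∈ Finset.range N,
        Lagrange.nodalWeight (Finset.range N) a i * (x - a i)⁻¹ * p.eval (a i) := by
    refine Finset.sum_congr rfl fun l hl => ?_
    have h5 : p.eval (a l) = -((a l - b l) * ∏ k ∈ (Finset.range N).erase l, (a l - b k)) := by
      rw [hp, Polynomial.eval_sub, Lagrange.eval_nodal_at_node hl, Lagrange.eval_nodal,
        Finset.mul_prod_erase _ (fun k => a l - b k) hl, zero_sub]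
    have h6 : (x - a l)⁻¹ = -(a l - x)⁻¹ := by rw [← inv_neg, neg_sub]
    rw [h5, h6, pn_ZX1a, Lagrange.nodalWeight, Finset.prod_div_distrib, Finset.prod_inv_distrib]
    ring
  rw [h4, Finset.prod_div_distrib, eq_sub_iff_add_eq, ← eq_sub_iff_add_eq', div_eq_iff h2]
  rw [h3] at h1
  linarith

theorem exists_P (a b : ℕ → ℝ) (hab : ∀ k l, k < l → a l < b k) (hba : ∀ k l, l ≤ k → b k < a l)
    (hb0 : ∀ k, 0 < b k) :
    ∃ P : ℕ → ℝ, (∀ l, 0 < P l) ∧ (∀ N, ∑ l ∈ Finset.range N, P l / a l ≤ 1) ∧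
      ∀ k, HasSum (fun l => P l / (a l - b k)) 1 := by
  have ha0 : ∀ l, 0 < a l := fun l => (hb0 l).trans (hba l l le_rfl)
  have hne : ∀ k l, b k ≠ a l := fun k l => by
    rcases lt_or_ge k l with h | h
    · exact (hab k l h).ne'
    · exact (hba k l h).ne
  let Q : ℕ → ℕ → ℝ := fun N j => if j < N then pn_ZX1a a b N j else 0
  have hQ0 : ∀ N j, 0 ≤ Q N j := fun N j => by
    simp only [Q]
    split_ifs
    · exact (pos_ZX1a a b hab hba N j).le
    · exact le_rfl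
  have hQm : ∀ j, Monotone fun N => Q N j := fun j => by
    refine monotone_nat_of_le_succ fun N => ?_
    by_cases h : j < N
    · simp only [Q, if_pos h, if_pos (Nat.lt_succ_of_lt h)]
      exact succ_ZX1a a b hab hba h
    · have : Q N j = 0 := if_neg h
      rw [this]
      exact hQ0 _ _
  have hQs : ∀ N (x : ℝ), ∑ l ∈ Finset.range N, Q N l / (a l - x)
      = ∑ l ∈ Finset.range N, pn_ZX1a a b N l / (a l - x) := fun N x =>
    Finset.sum_congr rfl fun l hl => by simp only [Q, if_pos (Finset.mem_range.1 hl)]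
  have hQ1 : ∀ N, ∑ l ∈ Finset.range N, Q N l / a l ≤ 1 := fun N => by
    have h1 := hQs N 0
    rw [lagr_ZX1a a b hab hba N 0 (fun l => (ha0 l).ne)] at h1
    simp only [sub_zero] at h1
    rw [h1]
    have : 0 ≤ ∏ k ∈ Finset.range N, (0 - b k) / (0 - a k) :=
      Finset.prod_nonneg fun k _ =>
        (div_pos_of_neg_of_neg (by linarith [hb0 k]) (by linarith [ha0 k])).le
    linarith
  have hQb : ∀ j, BddAbove (Set.range fun N => Q N j) := fun j => by
    refine ⟨a j, ?_⟩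
    rintro _ ⟨N, rfl⟩
    by_cases h : j < N
    · have h1 := Finset.single_le_sum (f := fun l => Q N l / a l)
        (fun l _ => div_nonneg (hQ0 N l) (ha0 l).le) (Finset.mem_range.2 h)
      have h2 := h1.trans (hQ1 N)
      exact (div_le_one (ha0 j)).1 h2
    · have : Q N j = 0 := if_neg h
      simp only [this]
      exact (ha0 j).le
  let P : ℕ → ℝ := fun j => ⨆ N, Q N j
  have hT : ∀ j, Tendsto (fun N => Q N j) atTop (𝓝 (P j)) := fun j =>
    tendsto_atTop_ciSup (hQm j) (hQb j)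
  have hQP : ∀ N j, Q N j ≤ P j := fun N j => le_ciSup (hQb j) N
  have hP : ∀ l, 0 < P l := fun l => by
    refine lt_of_lt_of_le ?_ (hQP (l + 1) l)
    simp only [Q, if_pos (Nat.lt_succ_self l)]
    exact pos_ZX1a a b hab hba _ _
  have hP1 : ∀ M, ∑ l ∈ Finset.range M, P l / a l ≤ 1 := fun M => by
    refine le_of_tendsto (tendsto_finsetSum (Finset.range M)
      fun l _ => (hT l).div_const (a l)) ?_
    filter_upwards [eventually_ge_atTop M] with N hN
    refine le_trans (Finset.sum_le_sum_of_subset_of_nonneg (Finset.range_mono hN)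
      fun l _ _ => div_nonneg (hQ0 N l) (ha0 l).le) (hQ1 N)
  refine ⟨P, hP, hP1, fun k => ?_⟩
  have hS1 : Summable fun l => P l / a l :=
    summable_of_sum_range_le (fun l => div_nonneg (hP l).le (ha0 l).le) hP1
  have hS2 : Summable P := by
    refine Summable.of_nonneg_of_le (fun l => (hP l).le) (fun l => ?_) (hS1.mul_left (a 0))
    have h1 : a l ≤ a 0 := by
      rcases Nat.eq_zero_or_pos l with h | h
      · rw [h]
      · exact (anti_ZX1a a b hab hba h).le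
    rw [← mul_div_assoc, le_div_iff₀ (ha0 l), mul_comm (a 0)]
    exact mul_le_mul_of_nonneg_left h1 (hP l).le
  set ε : ℝ := min (a k - b k) (b k - a (k + 1)) with hε
  have hε0 : 0 < ε := lt_min (sub_pos.2 (hba k k le_rfl)) (sub_pos.2 (hab k (k + 1) (by omega)))
  have hεl : ∀ l, ε ≤ |a l - b k| := fun l => by
    rcases lt_or_ge k l with h | h
    · have h1 : a l ≤ a (k + 1) := by
        rcases eq_or_lt_of_le (show k + 1 ≤ l from h) with h2 | h2
        · rw [h2]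
        · exact (anti_ZX1a a b hab hba h2).le
      refine (min_le_right _ _).trans (le_trans ?_ (neg_le_abs _))
      linarith
    · have h1 : a k ≤ a l := by
        rcases eq_or_lt_of_le h with h2 | h2
        · rw [h2]
        · exact (anti_ZX1a a b hab hba h2).le
      refine (min_le_left _ _).trans (le_trans ?_ (le_abs_self _))
      linarith
  have hbd : ∀ (l : ℕ) (y : ℝ), 0 ≤ y → y ≤ P l → ‖y / (a l - b k)‖ ≤ P l / ε := by
    intro l y h0 h1
    rw [Real.norm_eq_abs, abs_div, abs_of_nonneg h0]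
    exact div_le_div₀ (hP l).le h1 hε0 (hεl l)
  have hS3 : Summable fun l => P l / (a l - b k) :=
    Summable.of_norm_bounded (hS2.div_const ε) fun l => hbd l _ (hP l).le le_rfl
  have hD := tendsto_tsum_of_dominated_convergence (𝓕 := atTop)
    (f := fun N l => Q N l / (a l - b k)) (g := fun l => P l / (a l - b k))
    (bound := fun l => P l / ε) (hS2.div_const ε) (fun l => (hT l).div_const _)
    (Eventually.of_forall fun N l => hbd l _ (hQ0 N l) (hQP N l))
  have hE : ∀ᶠ N in atTop, ∑' l, Q N l / (a l - b k) = 1 := by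
    filter_upwards [eventually_gt_atTop k] with N hN
    rw [tsum_eq_sum (s := Finset.range N) (fun l hl => by
      have : Q N l = 0 := if_neg (fun h => hl (Finset.mem_range.2 h))
      rw [this, zero_div]), hQs, lagr_ZX1a a b hab hba N (b k) (hne k),
      Finset.prod_eq_zero (Finset.mem_range.2 hN) (by rw [sub_self, zero_div]), sub_zero]
  have hU : ∑' l, P l / (a l - b k) = 1 :=
    tendsto_nhds_unique hD (tendsto_const_nhds.congr' (hE.mono fun N h => h.symm))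
  exact hU ▸ hS3.hasSum

end Pool.Agent.MP_301177_an

end

end

section
open Filter Topology

noncomputable section

namespace Pool.Agent.MP_301177_an

theorem root_mem (a b P : ℕ → ℝ) (hab : ∀ k l, k < l → a l < b k)
    (hba : ∀ k l, l ≤ k → b k < a l) (hP : ∀ l, 0 < P l) (ha0 : Tendsto a atTop (𝓝 0))
    (hF : ∀ k, HasSum (fun l => P l / (a l - b k)) 1) (lam : ℝ) (hlam : 0 < lam)
    (hne : ∀ l, a l ≠ lam) (h : HasSum (fun l => P l / (a l - lam)) 1) : ∃ k, lam = b k := by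
  have hanti : StrictAnti a := by
    apply strictAnti_nat_of_succ_lt
    intro l
    exact (hab l (l + 1) (Nat.lt_succ_self l)).trans (hba l l le_rfl)
  have hex : ∃ n, a n < lam := by
    obtain ⟨n, hn⟩ := (ha0.eventually (gt_mem_nhds hlam)).exists
    exact ⟨n, hn⟩
  classical
  have hn : a (Nat.find hex) < lam := Nat.find_spec hex
  have hmin : ∀ m, m < Nat.find hex → lam < a m := by
    intro m hm
    have h1 : ¬ a m < lam := Nat.find_min hex hm
    exact lt_of_le_of_ne (not_lt.mp h1) (hne m).symm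
  rcases Nat.eq_zero_or_pos (Nat.find hex) with h0 | hpos
  · exfalso
    rw [h0] at hn
    have hle : ∀ l, P l / (a l - lam) ≤ 0 := by
      intro l
      have h1 : a l ≤ a 0 := hanti.antitone (Nat.zero_le l)
      exact div_nonpos_of_nonneg_of_nonpos (hP l).le (by linarith)
    have h2 : (1 : ℝ) ≤ 0 := hasSum_le hle h hasSum_zero
    linarith
  · obtain ⟨k, hk⟩ : ∃ k, Nat.find hex = k + 1 := ⟨Nat.find hex - 1, by omega⟩
    refine ⟨k, ?_⟩
    rw [hk] at hn hmin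
    have hden : ∀ l, 0 < (a l - lam) * (a l - b k) := by
      intro l
      rcases le_or_gt l k with hl | hl
      · have h1 : lam < a l := hmin l (Nat.lt_succ_of_le hl)
        have h2 : b k < a l := hba k l hl
        exact mul_pos (by linarith) (by linarith)
      · have h1 : a l ≤ a (k + 1) := hanti.antitone hl
        have h2 : a l < b k := hab k l hl
        exact mul_pos_of_neg_of_neg (by linarith) (by linarith)
    have hsub := h.sub (hF k)
    rw [sub_self] at hsub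
    have hterm : ∀ l, P l / (a l - lam) - P l / (a l - b k)
        = (lam - b k) * (P l / ((a l - lam) * (a l - b k))) := by
      intro l
      have h1 : a l - lam ≠ 0 := left_ne_zero_of_mul (hden l).ne'
      have h2 : a l - b k ≠ 0 := right_ne_zero_of_mul (hden l).ne'
      field_simp
      ring
    simp only [hterm] at hsub
    by_contra hc
    have hc' : lam - b k ≠ 0 := sub_ne_zero.mpr hc
    have h3 := hsub.mul_left (lam - b k)⁻¹
    simp only [← mul_assoc, inv_mul_cancel₀ hc', one_mul, mul_zero] at h3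
    have h4 := (hasSum_zero_iff_of_nonneg (fun l => (div_pos (hP l) (hden l)).le)).mp h3
    have h5 := congrFun h4 0
    exact (div_pos (hP 0) (hden 0)).ne' h5

end Pool.Agent.MP_301177_an

end

end

section
open Filter Topology InnerProductSpace
open scoped InnerProductSpace

noncomputable section

namespace Pool.Agent.MP_301177_an

variable {E : Type} [NormedAddCommGroup E] [InnerProductSpace ℂ E] [CompleteSpace E]

theorem douglas (D T : E →L[ℂ] E) (hD : D.IsPositive) (hT : T.IsPositive)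
    (hDi : ∀ x, D x = 0 → x = 0) (h : ∀ x, ‖T x‖ ≤ ‖D (D x)‖) :
    ∃ A : E →L[ℂ] E, A.IsPositive ∧ (∀ x, ‖A x‖ ≤ ‖x‖) ∧ ∀ x, D (A (D x)) = T x := by
  have hT0 : 0 ≤ T := (ContinuousLinearMap.nonneg_iff_isPositive _).2 hT
  have hDs : ∀ x y, ⟪D x, y⟫_ℂ = ⟪x, D y⟫_ℂ := hD.inner_left_eq_inner_right
  have hTs : ∀ x y, ⟪T x, y⟫_ℂ = ⟪x, T y⟫_ℂ := hT.inner_left_eq_inner_right
  have hre : ∀ x : E, RCLike.re ⟪x, x⟫_ℂ = ‖x‖ ^ 2 := fun x => inner_self_eq_norm_sq x
  have hDD : (D * D).IsPositive := by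
    refine ⟨fun x y => ?_, fun x => ?_⟩
    · exact (hDs (D x) y).trans (hDs x (D y))
    · have e : (D * D).reApplyInnerSelf x = RCLike.re ⟪D (D x), x⟫_ℂ := rfl
      rw [e, hDs, hre]
      positivity
  have hD0 : 0 ≤ D * D := (ContinuousLinearMap.nonneg_iff_isPositive _).2 hDD
  have h1 : T * T ≤ (D * D) * (D * D) := by
    refine (ContinuousLinearMap.le_def _ _).2 ⟨fun x y => ?_, fun x => ?_⟩
    · have e1 : ∀ z, (D * D * (D * D) - T * T) z = D (D (D (D z))) - T (T z) := fun z => rfl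
      simp only [ContinuousLinearMap.coe_coe, e1, inner_sub_left, inner_sub_right, hDs, hTs]
    · have e : (D * D * (D * D) - T * T).reApplyInnerSelf x =
          RCLike.re ⟪D (D (D (D x))) - T (T x), x⟫_ℂ := rfl
      rw [e, inner_sub_left, map_sub, hDs, hDs (D (D x)), hTs, hre, hre, sub_nonneg]
      exact pow_le_pow_left₀ (norm_nonneg _) (h x) 2
  have h2 : T ≤ D * D := by
    have := CFC.sqrt_le_sqrt _ _ h1
    rwa [CFC.sqrt_mul_self T hT0, CFC.sqrt_mul_self (D * D) hD0] at this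
  obtain ⟨U, hU, hUU⟩ : ∃ U : E →L[ℂ] E, U.IsPositive ∧ ∀ x, U (U x) = T x :=
    ⟨CFC.sqrt T, (ContinuousLinearMap.nonneg_iff_isPositive _).1 (CFC.sqrt_nonneg _),
      fun x => congrArg (fun S : E →L[ℂ] E => S x) (CFC.sqrt_mul_sqrt_self T hT0)⟩
  have hUs : ∀ x y, ⟪U x, y⟫_ℂ = ⟪x, U y⟫_ℂ := hU.inner_left_eq_inner_right
  have h3 : ∀ x, ‖(U : E →ₗ[ℂ] E) x‖ ≤ 1 * ‖(D : E →ₗ[ℂ] E) x‖ := fun x => by
    have h4 := ((ContinuousLinearMap.le_def _ _).1 h2).2 x
    have e : (D * D - T).reApplyInnerSelf x = RCLike.re ⟪D (D x) - T x, x⟫_ℂ := rfl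
    rw [e, inner_sub_left, map_sub, hDs, ← hUU, hUs, hre, hre, sub_nonneg] at h4
    rw [one_mul]
    exact (pow_le_pow_iff_left₀ (norm_nonneg _) (norm_nonneg _) two_ne_zero).1 h4
  have hd : DenseRange (D : E →ₗ[ℂ] E) := by
    refine (Submodule.dense_iff_topologicalClosure_eq_top
      (s := LinearMap.range (D : E →ₗ[ℂ] E))).2 ?_
    rw [Submodule.topologicalClosure_eq_top_iff, Submodule.eq_bot_iff]
    intro x hx
    refine hDi x (inner_self_eq_zero (𝕜 := ℂ).1 ?_)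
    rw [← hDs]
    exact hx _ ⟨D x, rfl⟩
  obtain ⟨Q, hQ, hQn⟩ : ∃ Q : E →L[ℂ] E, (∀ x, Q (D x) = U x) ∧ ‖Q‖ ≤ 1 :=
    ⟨(U : E →ₗ[ℂ] E).extendOfNorm (D : E →ₗ[ℂ] E), LinearMap.extendOfNorm_eq hd ⟨1, h3⟩,
      LinearMap.opNorm_extendOfNorm_le hd zero_le_one h3⟩
  refine ⟨ContinuousLinearMap.adjoint Q ∘L Q, ContinuousLinearMap.isPositive_adjoint_comp_self Q,
    fun x => ?_, fun x => ext_inner_left ℂ fun y => ?_⟩
  · refine (ContinuousLinearMap.le_opNorm _ x).trans (mul_le_of_le_one_left (norm_nonneg _) ?_)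
    rw [ContinuousLinearMap.norm_adjoint_comp_self]
    exact mul_le_one₀ hQn (norm_nonneg _) hQn
  · rw [← hDs, ContinuousLinearMap.comp_apply, ContinuousLinearMap.adjoint_inner_right, hQ, hQ,
      hUs, hUU]

end Pool.Agent.MP_301177_an

end

end

section
open Filter Topology InnerProductSpace
open scoped InnerProductSpace

noncomputable section

namespace Pool.Agent.MP_301177_an

variable {E : Type} [NormedAddCommGroup E] [InnerProductSpace ℂ E] [CompleteSpace E]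

omit [CompleteSpace E] in
theorem step_ZX2b (A : E →L[ℂ] E) (hA : A.IsPositive) (hA1 : ∀ x, ‖A x‖ ≤ ‖x‖) (y : E) :
    ‖y - A y‖ ^ 2 ≤ ‖y‖ ^ 2 - ‖A y‖ ^ 2 := by
  have h1 := hA.re_inner_nonneg_left (y - A y)
  have h2 : ⟪A (A y), y⟫_ℂ = ⟪A y, A y⟫_ℂ := hA.inner_left_eq_inner_right _ _
  have h3 : RCLike.re ⟪A (A y), A y⟫_ℂ ≤ ‖A y‖ ^ 2 :=
    (re_inner_le_norm _ _).trans (by nlinarith [hA1 (A y), norm_nonneg (A y)])
  rw [map_sub, inner_sub_left, inner_sub_right, inner_sub_right, h2, map_sub, map_sub, map_sub,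
    inner_self_eq_norm_sq, inner_re_symm] at h1
  rw [norm_sub_sq (𝕜 := ℂ)]
  linarith

omit [CompleteSpace E] in
theorem range_ZX2b (A : E →L[ℂ] E) (hA : A.IsPositive) (hA1 : ∀ x, ‖A x‖ ≤ ‖x‖) (x : E) :
    Tendsto (fun N => A^[N] (x - A x)) atTop (𝓝 0) := by
  have ha : Antitone fun N => ‖A^[N] x‖ ^ 2 := antitone_nat_of_succ_le fun N => by
    rw [Function.iterate_succ_apply']
    exact pow_le_pow_left₀ (norm_nonneg _) (hA1 _) 2
  have h1 := tendsto_atTop_ciInf ha ⟨0, by rintro _ ⟨N, rfl⟩; positivity⟩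
  have h2 := h1.sub (h1.comp (tendsto_add_atTop_nat 1))
  rw [sub_self] at h2
  have h3 : Tendsto (fun N => ‖A^[N] (x - A x)‖ ^ 2) atTop (𝓝 0) := by
    refine squeeze_zero (fun N => by positivity) (fun N => ?_) h2
    have h4 : A^[N] (x - A x) = A^[N] x - A (A^[N] x) := by
      rw [iterate_map_sub, ← Function.iterate_succ_apply, Function.iterate_succ_apply']
    rw [h4, Function.comp_apply, Function.iterate_succ_apply']
    exact step_ZX2b A hA hA1 _
  rw [tendsto_zero_iff_norm_tendsto_zero]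
  simpa using h3.sqrt

theorem stab (A : E →L[ℂ] E) (hA : A.IsPositive) (hA1 : ∀ x, ‖A x‖ ≤ ‖x‖)
    (hfix : ∀ x, A x = x → x = 0) (x : E) : Tendsto (fun N => A^[N] x) atTop (𝓝 0) := by
  have hn : ∀ N z, ‖A^[N] z‖ ≤ ‖z‖ := fun N z => by
    induction N with
    | zero => exact le_rfl
    | succ N ih => rw [Function.iterate_succ_apply']; exact (hA1 _).trans ih
  set U : Submodule ℂ E := LinearMap.range ((LinearMap.id : E →ₗ[ℂ] E) - (A : E →ₗ[ℂ] E)) with hU
  have hd : Dense (U : Set E) := by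
    rw [Submodule.dense_iff_topologicalClosure_eq_top, Submodule.topologicalClosure_eq_top_iff,
      Submodule.eq_bot_iff]
    intro v hv
    refine hfix v (sub_eq_zero.1 ?_).symm
    have h1 : ⟪(v - A v) - A (v - A v), v⟫_ℂ = 0 := hv _ ⟨v - A v, rfl⟩
    rw [inner_sub_left (v - A v), hA.inner_left_eq_inner_right, ← inner_sub_right] at h1
    exact inner_self_eq_zero.1 h1
  rw [Metric.tendsto_atTop]
  intro ε hε
  obtain ⟨_, ⟨y, rfl⟩, hy⟩ := Metric.mem_closure_iff.1 (hd x) (ε / 2) (half_pos hε)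
  obtain ⟨N, hN⟩ := Metric.tendsto_atTop.1 (range_ZX2b A hA hA1 y) (ε / 2) (half_pos hε)
  refine ⟨N, fun n hn' => ?_⟩
  have h1 := hN n hn'
  have h2 : dist (A^[n] x) (A^[n] (y - A y)) < ε / 2 := by
    rw [dist_eq_norm, ← iterate_map_sub]
    rw [dist_eq_norm] at hy
    exact (hn _ _).trans_lt hy
  linarith [dist_triangle (A^[n] x) (A^[n] (y - A y)) 0]

end Pool.Agent.MP_301177_an

end

end

section
open Filter Topology InnerProductSpace
open scoped InnerProductSpace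

noncomputable section

namespace Pool.Agent.MP_301177_an

variable {E : Type} [NormedAddCommGroup E] [InnerProductSpace ℂ E] [CompleteSpace E]

omit [CompleteSpace E] in
theorem eig_swap (X Y : E →L[ℂ] E) (lam : ℂ) (hlam : lam ≠ 0) :
    (∃ x, x ≠ 0 ∧ X (Y x) = lam • x) ↔ ∃ y, y ≠ 0 ∧ Y (X y) = lam • y := by
  have key : ∀ X Y : E →L[ℂ] E, (∃ x, x ≠ 0 ∧ X (Y x) = lam • x) →
      ∃ y, y ≠ 0 ∧ Y (X y) = lam • y := by
    rintro X Y ⟨x, hx, h⟩
    refine ⟨Y x, fun h0 => hx ?_, by rw [h, map_smul]⟩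
    rw [h0, map_zero] at h
    exact (smul_eq_zero.1 h.symm).resolve_left hlam
  exact ⟨key X Y, key Y X⟩

end Pool.Agent.MP_301177_an

end

end

section
open Filter Topology InnerProductSpace
open scoped InnerProductSpace ComplexOrder

noncomputable section

namespace Pool.Agent.MP_301177_an

theorem iter_ZX3 {A : L2 →L[ℂ] L2} (hA : A.IsPositive) (n : ℕ) (x y : L2) :
    ⟪A^[n] x, y⟫_ℂ = ⟪x, A^[n] y⟫_ℂ := by
  induction n generalizing y with
  | zero => rfl
  | succ n ih =>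
    rw [Function.iterate_succ_apply', hA.inner_left_eq_inner_right, ih,
      Function.iterate_succ_apply]

theorem lim_ZX3 {R A : L2 →L[ℂ] L2} {v : L2} (hA : A.IsPositive)
    (hRA : ∀ x, R x - A (R (A x)) = ⟪v, x⟫_ℂ • v)
    (hst : ∀ x, Tendsto (fun N => A^[N] x) atTop (𝓝 0)) (x y : L2) :
    Tendsto (fun N => ∑ n ∈ Finset.range N, ⟪y, A^[n] v⟫_ℂ * ⟪A^[n] v, x⟫_ℂ) atTop
      (𝓝 ⟪y, R x⟫_ℂ) := by
  have h : ∀ N, ∑ n ∈ Finset.range N, ⟪y, A^[n] v⟫_ℂ * ⟪A^[n] v, x⟫_ℂ =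
      ⟪y, R x⟫_ℂ - ⟪A^[N] y, R (A^[N] x)⟫_ℂ := by
    intro N
    induction N with
    | zero => simp
    | succ N ih =>
      have e := congrArg (fun z => ⟪A^[N] y, z⟫_ℂ) (hRA (A^[N] x))
      simp only [inner_sub_right, inner_smul_right] at e
      rw [Finset.sum_range_succ, ih, Function.iterate_succ_apply', Function.iterate_succ_apply',
        hA.inner_left_eq_inner_right, ← iter_ZX3 hA N y v, iter_ZX3 hA N v x]
      linear_combination -e
  simp only [h]
  have h1 := (hst y).inner (𝕜 := ℂ) ((R.continuous.tendsto 0).comp (hst x))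
  rw [inner_zero_left] at h1
  simpa using tendsto_const_nhds.sub h1

theorem exV_ZX3 {R : L2 →L[ℂ] L2} {g : ℕ → L2}
    (h : ∀ x y, Tendsto (fun N => ∑ n ∈ Finset.range N, ⟪y, g n⟫_ℂ * ⟪g n, x⟫_ℂ) atTop
      (𝓝 ⟪y, R x⟫_ℂ)) :
    ∃ V : L2 →L[ℂ] L2, (∀ x n, V x n = ⟪g n, x⟫_ℂ) ∧ ∀ x y, ⟪V y, V x⟫_ℂ = ⟪y, R x⟫_ℂ := by
  have h1 : ∀ x, HasSum (fun n => ‖⟪g n, x⟫_ℂ‖ ^ 2) (⟪x, R x⟫_ℂ).re := by
    intro x
    rw [hasSum_iff_tendsto_nat_of_nonneg fun n => sq_nonneg _]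
    refine ((Complex.continuous_re.tendsto _).comp (h x x)).congr fun N => ?_
    simp only [Function.comp, Complex.re_sum]
    refine Finset.sum_congr rfl fun n _ => ?_
    rw [← inner_conj_symm x (g n), Complex.conj_mul']
    norm_cast
  let V0 : L2 →ₗ[ℂ] L2 :=
    { toFun := fun x => ⟨fun n => ⟪g n, x⟫_ℂ, (mem_iff _).2 (h1 x).summable⟩
      map_add' := fun x y => lp.ext (funext fun n => inner_add_right _ _ _)
      map_smul' := fun a x => lp.ext (funext fun n => inner_smul_right _ _ _) }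
  have hb : ∀ x, ‖V0 x‖ ≤ (‖R‖ + 1) * ‖x‖ := by
    intro x
    have e : ‖V0 x‖ ^ 2 = (⟪x, R x⟫_ℂ).re := (hasSum_sq (V0 x)).unique (h1 x)
    have a1 : (⟪x, R x⟫_ℂ).re ≤ ‖x‖ * (‖R‖ * ‖x‖) :=
      (Complex.re_le_norm _).trans ((norm_inner_le_norm _ _).trans
        (mul_le_mul_of_nonneg_left (R.le_opNorm x) (norm_nonneg _)))
    refine (abs_le_of_sq_le_sq' ?_ (by positivity)).2
    rw [e]
    nlinarith [norm_nonneg R, sq_nonneg ‖x‖, mul_nonneg (norm_nonneg R) (sq_nonneg ‖x‖),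
      sq_nonneg (‖R‖ * ‖x‖)]
  refine ⟨V0.mkContinuous _ hb, fun _ _ => rfl, fun x y => ?_⟩
  refine tendsto_nhds_unique ?_ (h x y)
  refine (lp.hasSum_inner (𝕜 := ℂ) (V0 y) (V0 x)).tendsto_sum_nat.congr fun N => ?_
  refine Finset.sum_congr rfl fun n _ => ?_
  rw [RCLike.inner_apply, mul_comm, ← inner_conj_symm y (g n)]
  rfl

theorem eig_ZX3 {R B V : L2 →L[ℂ] L2} {g : ℕ → L2} {d : ℕ → ℂ} (hB : B.IsPositive)
    (hV : ∀ x n, V x n = ⟪g n, x⟫_ℂ) (hVR : ∀ x y, ⟪V y, V x⟫_ℂ = ⟪y, R x⟫_ℂ)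
    (hd : ∀ m n, V (B (g m)) n = d (n + m)) (hs : Summable fun m => ‖V (B (g m))‖ ^ 2)
    (lam : ℝ) (hlam : 0 < lam) :
    IsEigenvalueOfSquare (hankel d) lam ↔ ∃ x, x ≠ 0 ∧ B (R (B (R x))) = (lam : ℂ) • x := by
  set W := ContinuousLinearMap.adjoint V with hW
  have h1 : ∀ x y, ⟪V x, y⟫_ℂ = ⟪x, W y⟫_ℂ := fun x y =>
    (ContinuousLinearMap.adjoint_inner_right V x y).symm
  have h2 : ∀ x y, ⟪x, V y⟫_ℂ = ⟪W x, y⟫_ℂ := fun x y =>
    (ContinuousLinearMap.adjoint_inner_left V y x).symm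
  have hWV : ∀ x, W (V x) = R x := fun x =>
    ext_inner_left ℂ fun y => by rw [← h1, hVR]
  have hg : ∀ x, gram (fun m => V (B (g m))) x = V ((B ∘L R ∘L B ∘L W) x) := by
    intro x
    refine ext_inner_left ℂ fun y => (hasSum_inner_gram hs x y).unique ?_
    have e : ⟪y, V ((B ∘L R ∘L B ∘L W) x)⟫_ℂ = ⟪V (B (W y)), V (B (W x))⟫_ℂ := by
      rw [hVR, h2, hB.inner_left_eq_inner_right]
      rfl
    rw [e]
    refine (congrArg (fun F => HasSum F _) (funext fun m => ?_)).mp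
      (lp.hasSum_inner (𝕜 := ℂ) (V (B (W y))) (V (B (W x))))
    rw [RCLike.inner_apply, hV, hV, inner_conj_symm, h1, h2, hB.inner_left_eq_inner_right,
      hB.inner_left_eq_inner_right]
  rw [eig_iff hd hs]
  simp only [hg]
  rw [eig_swap V _ _ (by exact_mod_cast hlam.ne')]
  simp only [ContinuousLinearMap.comp_apply, hWV]

theorem psd_ZX3 {B : L2 →L[ℂ] L2} (hB : B.IsPositive) {N : ℕ} (u : Fin N → L2) :
    (Matrix.of fun i j => ⟪u i, B (u j)⟫_ℂ).PosSemidef := by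
  refine Matrix.PosSemidef.of_dotProduct_mulVec_nonneg ?_ fun x => ?_
  · ext i j
    simp only [Matrix.conjTranspose_apply, Matrix.of_apply, RCLike.star_def, inner_conj_symm]
    exact hB.inner_left_eq_inner_right _ _
  · refine (hB.inner_nonneg_right (∑ j, x j • u j)).trans (le_of_eq ?_)
    simp only [map_sum, map_smul, sum_inner, inner_sum, inner_smul_left, inner_smul_right,
      dotProduct, Matrix.mulVec, Matrix.of_apply, Pi.star_apply, RCLike.star_def, Finset.mul_sum]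
    rw [Finset.sum_comm]
    exact Finset.sum_congr rfl fun i _ => Finset.sum_congr rfl fun j _ => by ring

theorem sum_ZX3 {ρ : ℕ → ℝ} (hρ : ∀ j, 0 ≤ ρ j) (hρ2 : Summable fun j => ρ j ^ 2)
    {R V : L2 →L[ℂ] L2} {g : ℕ → L2} (hR : ∀ x n, R x n = (ρ n : ℂ) * x n)
    (hV : ∀ x n, V x n = ⟪g n, x⟫_ℂ) (hVR : ∀ x y, ⟪V y, V x⟫_ℂ = ⟪y, R x⟫_ℂ) :
    Summable fun m => ‖V (g m)‖ ^ 2 := by
  have hn : ∀ x, ‖V x‖ ^ 2 = (⟪x, R x⟫_ℂ).re := fun x => by
    rw [← hVR, inner_self_eq_norm_sq_to_K]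
    norm_cast
  have a1 : ∀ x : L2, HasSum (fun j => ρ j * ‖x j‖ ^ 2) (‖V x‖ ^ 2) := fun x => by
    rw [hn]
    refine (congrArg (fun F => HasSum F _) (funext fun j => ?_)).mp
      (Complex.hasSum_re (lp.hasSum_inner (𝕜 := ℂ) x (R x)))
    rw [RCLike.inner_apply, hR, mul_assoc, Complex.mul_conj']
    norm_cast
  have a2 : ∀ j, HasSum (fun m => ‖g m j‖ ^ 2) (ρ j) := fun j => by
    have h := hasSum_sq (V (lp.single 2 j (1 : ℂ)))
    rw [hn, inner_single, hR, lp.single_apply_self, mul_one, Complex.ofReal_re] at h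
    refine (congrArg (fun F => HasSum F _) (funext fun m => ?_)).mp h
    rw [hV, norm_inner_symm, inner_single]
  refine summable_of_sum_range_le (c := ∑' j, ρ j ^ 2) (fun m => sq_nonneg _) fun M => ?_
  refine hasSum_le (fun j => ?_) (hasSum_sum fun m _ => a1 (g m)) hρ2.hasSum
  rw [← Finset.mul_sum, sq]
  exact mul_le_mul_of_nonneg_left (sum_le_hasSum _ (fun m _ => sq_nonneg _) (a2 j)) (hρ j)

theorem wt_ZX3 {c : ℕ → ℂ} {γ : ℕ → L2} (hγ : ∀ m n, γ m n = c (n + m))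
    (hs : Summable fun m => ‖γ m‖ ^ 2) : Summable fun n : ℕ => (1 + (n : ℝ)) * ‖c n‖ ^ 2 := by
  refine summable_of_sum_range_le (c := ∑' m, ‖γ m‖ ^ 2) (fun m => by positivity) fun N => ?_
  have e := Finset.sum_range_diag_flip N fun m k => ‖c (k + m)‖ ^ 2
  have e' : ∑ n ∈ Finset.range N, (1 + (n : ℝ)) * ‖c n‖ ^ 2 =
      ∑ m ∈ Finset.range N, ∑ k ∈ Finset.range (m + 1), ‖c (m - k + k)‖ ^ 2 := by
    refine Finset.sum_congr rfl fun n _ => ?_
    rw [Finset.sum_congr rfl fun k hk => by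
      rw [Nat.sub_add_cancel (Nat.lt_succ_iff.1 (Finset.mem_range.1 hk))]]
    simp [add_comm]
  rw [e', e]
  refine le_trans (Finset.sum_le_sum fun m _ => ?_)
    (hs.sum_le_tsum _ fun m _ => sq_nonneg _)
  simp only [← hγ]
  exact sum_le_hasSum _ (fun k _ => sq_nonneg _) (hasSum_sq (γ m))

theorem model_to_hankel (ρ : ℕ → ℝ) (hρ : ∀ j, 0 ≤ ρ j) (hρ2 : Summable fun j => ρ j ^ 2)
    (R A : L2 →L[ℂ] L2) (v : L2) (hR : ∀ x n, R x n = (ρ n : ℂ) * x n) (hA : A.IsPositive)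
    (hRA : ∀ x, R x - A (R (A x)) = ⟪v, x⟫_ℂ • v)
    (hst : ∀ x, Tendsto (fun N => A^[N] x) atTop (𝓝 0)) :
    ∃ c : ℕ → ℂ, Summable (fun n : ℕ => (1 + (n : ℝ)) * ‖c n‖ ^ 2) ∧ ZeroAngle c ∧
      (∀ lam : ℝ, 0 < lam →
        (IsEigenvalueOfSquare (hankel c) lam ↔ ∃ x, x ≠ 0 ∧ R (R x) = (lam : ℂ) • x)) ∧
      (∀ lam : ℝ, 0 < lam → (IsEigenvalueOfSquare (fun h => hankel c (shift h)) lam ↔
        ∃ x, x ≠ 0 ∧ A (R (A (R x))) = (lam : ℂ) • x)) := by
  obtain ⟨V, hV, hVR⟩ := exV_ZX3 (g := fun n => A^[n] v) (lim_ZX3 hA hRA hst)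
  have hs := sum_ZX3 hρ hρ2 hR hV hVR
  have hc : ∀ n m, ⟪A^[n] v, A^[m] v⟫_ℂ = ⟪v, A^[n + m] v⟫_ℂ := fun n m => by
    rw [iter_ZX3 hA, Function.iterate_add_apply]
  have hc' : ∀ n m, ⟪A^[n] v, A (A^[m] v)⟫_ℂ = ⟪v, A^[n + m + 1] v⟫_ℂ := fun n m => by
    rw [add_assoc, ← hc, Function.iterate_succ_apply']
  have h1 : (1 : L2 →L[ℂ] L2).IsPositive := ContinuousLinearMap.isPositive_one
  refine ⟨fun n => ⟪v, A^[n] v⟫_ℂ, wt_ZX3 (fun m n => by rw [hV, hc]) hs,
    ⟨fun N => ?_, fun N => ?_⟩, fun lam hlam => ?_, fun lam hlam => ?_⟩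
  · simpa only [one_apply_eq_self, hc] using
      psd_ZX3 h1 fun i : Fin N => A^[i] v
  · simpa only [hc'] using psd_ZX3 hA fun i : Fin N => A^[i] v
  · exact eig_ZX3 h1 hV hVR (fun m n => by rw [one_apply_eq_self, hV, hc]) hs lam hlam
  · simp only [hankel_shift]
    refine eig_ZX3 hA hV hVR (fun m n => by rw [hV, hc']) ?_ lam hlam
    simpa only [Function.iterate_succ_apply'] using (summable_nat_add_iff 1).2 hs

end Pool.Agent.MP_301177_an

end

end

section
open Filter Topology InnerProductSpace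
open scoped InnerProductSpace ComplexOrder

noncomputable section

namespace Pool.Agent.MP_301177_an

theorem exists_diag (d : ℕ → ℝ) (M : ℝ) (hd0 : ∀ n, 0 ≤ d n) (hd : ∀ n, d n ≤ M) :
    ∃ D : L2 →L[ℂ] L2, D.IsPositive ∧ ∀ x n, D x n = (d n : ℂ) * x n := by
  have hle : ∀ (x : L2) n, ‖(d n : ℂ) * x n‖ ^ 2 ≤ M ^ 2 * ‖x n‖ ^ 2 := fun x n => by
    rw [norm_mul, mul_pow, Complex.norm_real, Real.norm_of_nonneg (hd0 n)]
    exact mul_le_mul_of_nonneg_right (pow_le_pow_left₀ (hd0 n) (hd n) 2) (sq_nonneg _)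
  have hM : 0 ≤ M := (hd0 0).trans (hd 0)
  let D : L2 →ₗ[ℂ] L2 :=
    { toFun := fun x => ⟨fun n => (d n : ℂ) * x n, (mem_iff _).2
        (((hasSum_sq x).summable.mul_left (M ^ 2)).of_nonneg_of_le (fun n => sq_nonneg _) (hle x))⟩
      map_add' := fun x y => lp.ext (funext fun n => mul_add (d n : ℂ) (x n) (y n))
      map_smul' := fun c x => lp.ext (funext fun n => mul_left_comm (d n : ℂ) c (x n)) }
  have hD : ∀ x n, D x n = (d n : ℂ) * x n := fun _ _ => rfl
  have hb : ∀ x, ‖D x‖ ≤ M * ‖x‖ := fun x => by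
    have h1 := hasSum_le (hle x) (hasSum_sq (D x)) ((hasSum_sq x).mul_left (M ^ 2))
    refine (abs_le_of_sq_le_sq' ?_ (by positivity)).2
    rwa [mul_pow]
  refine ⟨D.mkContinuous M hb, ⟨fun x y => ?_, fun x => ?_⟩, hD⟩
  · change ⟪D x, y⟫_ℂ = ⟪x, D y⟫_ℂ
    rw [lp.inner_eq_tsum, lp.inner_eq_tsum]
    refine tsum_congr fun n => ?_
    simp only [hD, RCLike.inner_apply, map_mul, Complex.conj_ofReal]
    ring
  · change 0 ≤ RCLike.re ⟪D x, x⟫_ℂ
    refine hasSum_le (fun n => ?_) hasSum_zero (RCLike.hasSum_re ℂ (lp.hasSum_inner (D x) x))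
    have h1 : ⟪D x n, x n⟫_ℂ = ((d n * ‖x n‖ ^ 2 : ℝ) : ℂ) := by
      rw [hD, ← smul_eq_mul, inner_smul_left, inner_self_eq_norm_sq_to_K, Complex.conj_ofReal]
      simp
    rw [h1, RCLike.re_to_complex, Complex.ofReal_re]
    exact mul_nonneg (hd0 n) (sq_nonneg _)

theorem eig_diag (a : ℕ → ℝ) (B : L2 →L[ℂ] L2) (hB : ∀ x n, B x n = (a n : ℂ) * x n) (lam : ℝ) :
    (∃ x, x ≠ 0 ∧ B x = (lam : ℂ) • x) ↔ ∃ j, lam = a j := by
  constructor
  · rintro ⟨x, hx, h⟩
    obtain ⟨j, hj⟩ : ∃ j, x j ≠ 0 := by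
      by_contra h0
      push Not at h0
      exact hx (lp.ext (funext h0))
    have h1 : B x j = (lam : ℂ) * x j := by rw [h]; rfl
    rw [hB] at h1
    exact ⟨j, Complex.ofReal_injective (mul_right_cancel₀ hj h1).symm⟩
  · rintro ⟨j, rfl⟩
    refine ⟨lp.single 2 j (1 : ℂ), fun h => ?_, lp.ext (funext fun n => ?_)⟩
    · have h1 := congrArg (fun f : L2 => f j) h
      simp at h1
    · change B _ n = (a j : ℂ) * (lp.single 2 j (1 : ℂ) : L2) n
      rw [hB]
      rcases eq_or_ne n j with rfl | h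
      · rfl
      · rw [lp.single_apply_ne _ _ _ h, mul_zero, mul_zero]

theorem fix_zero (ρ : ℕ → ℝ) (hρ : ∀ j, 0 < ρ j) (hanti : StrictAnti ρ)
    (R A : L2 →L[ℂ] L2) (v : L2) (hv : ∀ n, v n ≠ 0) (hR : ∀ x n, R x n = (ρ n : ℂ) * x n)
    (hA : A.IsPositive) (hRA : ∀ x, R x - A (R (A x)) = ⟪v, x⟫_ℂ • v) (x : L2) (hx : A x = x) :
    x = 0 := by
  classical
  have step : ∀ y, A y = y → ⟪v, y⟫_ℂ = 0 ∧ A (R y) = R y := fun y hy => by
    have h1 := hRA y
    rw [hy] at h1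
    have h2 : ⟪y, A (R y)⟫_ℂ = ⟪y, R y⟫_ℂ := by
      have := hA.1 y (R y)
      simp only [ContinuousLinearMap.coe_coe, hy] at this
      exact this.symm
    have h3 := congrArg (fun z => ⟪y, z⟫_ℂ) h1
    simp only [inner_sub_right, h2, sub_self, inner_smul_right] at h3
    have h4 : ⟪v, y⟫_ℂ = 0 := by
      rcases mul_eq_zero.1 h3.symm with h | h
      · exact h
      · exact inner_eq_zero_symm.1 h
    rw [h4, zero_smul, sub_eq_zero] at h1
    exact ⟨h4, h1.symm⟩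
  have hit : ∀ n : ℕ, A (R^[n] x) = R^[n] x ∧ ∀ j, (R^[n] x) j = (ρ j : ℂ) ^ n * x j := by
    intro n
    induction n with
    | zero => exact ⟨hx, fun j => by simp⟩
    | succ n ih =>
      rw [Function.iterate_succ_apply']
      exact ⟨(step _ ih.1).2, fun j => by rw [hR, ih.2, pow_succ]; ring⟩
  by_contra h0
  have hex : ∃ j, x j ≠ 0 := by
    by_contra h1
    push Not at h1
    exact h0 (lp.ext (funext h1))
  set j₀ := Nat.find hex
  have hj₀ : x j₀ ≠ 0 := Nat.find_spec hex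
  have hlt : ∀ j < j₀, x j = 0 := fun j hj => not_not.1 (Nat.find_min hex hj)
  let t : ℕ → ℂ := fun j => ⟪v j, x j⟫_ℂ
  have hs : Summable fun j => ‖t j‖ := summable_norm_iff.2 (lp.summable_inner v x)
  have hz : ∀ n : ℕ, ∑' j, ((ρ j / ρ j₀ : ℝ) : ℂ) ^ n * t j = 0 := fun n => by
    have h1 := (step _ (hit n).1).1
    rw [lp.inner_eq_tsum] at h1
    have h2 : ∀ j, ((ρ j / ρ j₀ : ℝ) : ℂ) ^ n * t j =
        ((ρ j₀ : ℂ) ^ n)⁻¹ * ⟪v j, (R^[n] x) j⟫_ℂ := fun j => by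
      rw [(hit n).2, ← smul_eq_mul ((ρ j : ℂ) ^ n), inner_smul_right, Complex.ofReal_div, div_pow]
      ring
    simp only [h2]
    rw [tsum_mul_left, h1, mul_zero]
  have hlim := tendsto_tsum_of_dominated_convergence (𝓕 := atTop)
    (f := fun (n : ℕ) j => ((ρ j / ρ j₀ : ℝ) : ℂ) ^ n * t j)
    (g := fun j => if j = j₀ then t j₀ else 0) hs (fun j => ?_) (.of_forall fun n j => ?_)
  · simp only [hz, tsum_ite_eq] at hlim
    have h1 : t j₀ = 0 := tendsto_nhds_unique hlim tendsto_const_nhds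
    simp only [t, RCLike.inner_apply, mul_eq_zero, map_eq_zero] at h1
    exact h1.elim hj₀ (hv j₀)
  · rcases lt_trichotomy j j₀ with h | h | h
    · simp [t, hlt j h, h.ne]
    · simp [h, (hρ j₀).ne']
    · rw [if_neg h.ne']
      have h1 : ‖((ρ j / ρ j₀ : ℝ) : ℂ)‖ < 1 := by
        rw [Complex.norm_real, Real.norm_of_nonneg (div_pos (hρ j) (hρ j₀)).le,
          div_lt_one (hρ j₀)]
        exact hanti h
      simpa using (tendsto_pow_atTop_nhds_zero_of_norm_lt_one h1).mul_const (t j)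
  · rcases lt_or_ge j j₀ with h | h
    · simp [t, hlt j h]
    · rw [norm_mul, norm_pow, Complex.norm_real, Real.norm_of_nonneg (div_pos (hρ j) (hρ j₀)).le]
      exact mul_le_of_le_one_left (norm_nonneg _) (pow_le_one₀ (div_pos (hρ j) (hρ j₀)).le
        ((div_le_one (hρ j₀)).2 (hanti.antitone h)))

end Pool.Agent.MP_301177_an

end

end

section
open Filter Topology InnerProductSpace
open scoped InnerProductSpace ComplexOrder

noncomputable section

namespace Pool.Agent.MP_301177_an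

theorem eig_rank_one (a P : ℕ → ℝ) (ha : StrictAnti a) (ha0 : Tendsto a atTop (𝓝 0))
    (hP : ∀ l, 0 < P l) (p : L2) (hp : ∀ n, p n = (Real.sqrt (P n) : ℂ)) (B : L2 →L[ℂ] L2)
    (hB : ∀ x n, B x n = (a n : ℂ) * x n - ⟪p, x⟫_ℂ * p n) (lam : ℝ) (hlam : 0 < lam) :
    (∃ x, x ≠ 0 ∧ B x = (lam : ℂ) • x) ↔
      (∀ l, a l ≠ lam) ∧ HasSum (fun l => P l / (a l - lam)) 1 := by
  have s0 : ∀ n, (Real.sqrt (P n) : ℂ) ≠ 0 := fun n =>
    Complex.ofReal_ne_zero.2 (Real.sqrt_pos.2 (hP n)).ne'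
  have s2 : ∀ n, (Real.sqrt (P n) : ℂ) * Real.sqrt (P n) = P n := fun n => by
    rw [← Complex.ofReal_mul, Real.mul_self_sqrt (hP n).le]
  have hs : ∀ x : L2, HasSum (fun n => (Real.sqrt (P n) : ℂ) * x n) ⟪p, x⟫_ℂ := fun x => by
    have h := lp.hasSum_inner (𝕜 := ℂ) p x
    simpa only [RCLike.inner_apply, hp, Complex.conj_ofReal, mul_comm] using h
  constructor
  · rintro ⟨x, x0, hx⟩
    have e : ∀ n, ((a n : ℂ) - lam) * x n = ⟪p, x⟫_ℂ * Real.sqrt (P n) := fun n => by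
      have h1 : B x n = lam * x n := by rw [hx]; rfl
      rw [hB, hp] at h1
      linear_combination h1
    have t0 : ⟪p, x⟫_ℂ ≠ 0 := fun t0 => by
      obtain ⟨n, hn⟩ : ∃ n, x n ≠ 0 := by
        by_contra h
        push Not at h
        exact x0 (lp.ext (funext h))
      have k : ∀ m, x m ≠ 0 → a m = lam := fun m hm => by
        have h1 := e m
        rw [t0, zero_mul] at h1
        exact_mod_cast sub_eq_zero.1 ((mul_eq_zero.1 h1).resolve_right hm)
      have h2 := (hs x).unique (hasSum_single n fun m hm => by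
        by_contra h
        exact hm (ha.injective ((k m (right_ne_zero_of_mul h)).trans (k n hn).symm)))
      rw [t0] at h2
      exact mul_ne_zero (s0 n) hn h2.symm
    have ne : ∀ l, a l ≠ lam := fun l h => by
      have h1 := e l
      rw [h, sub_self, zero_mul] at h1
      exact mul_ne_zero t0 (s0 l) h1.symm
    refine ⟨ne, Complex.hasSum_ofReal.1 ?_⟩
    have h1 := (hs x).div_const ⟪p, x⟫_ℂ
    rw [div_self t0] at h1
    have h2 : (fun l => ((P l / (a l - lam) : ℝ) : ℂ)) =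
        fun n => (Real.sqrt (P n) : ℂ) * x n / ⟪p, x⟫_ℂ := funext fun l => by
      have h3 : (a l : ℂ) - lam ≠ 0 := by exact_mod_cast sub_ne_zero.2 (ne l)
      push_cast
      rw [div_eq_div_iff h3 t0, ← s2]
      linear_combination (-(Real.sqrt (P l) : ℂ)) * e l
    rw [h2]
    exact h1
  · rintro ⟨ne, h⟩
    have ne' : ∀ l, (a l : ℂ) - lam ≠ 0 := fun l => by exact_mod_cast sub_ne_zero.2 (ne l)
    have m : Memℓp (fun n => (Real.sqrt (P n) : ℂ) / ((a n : ℂ) - lam)) 2 := by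
      refine (mem_iff _).2 (Summable.of_norm_bounded_eventually_nat
        ((hasSum_sq p).summable.div_const ((lam / 2) ^ 2)) ?_)
      filter_upwards [ha0.eventually (gt_mem_nhds (half_pos hlam))] with n hn
      have h1 : lam / 2 ≤ ‖(a n : ℂ) - lam‖ := by
        rw [← Complex.ofReal_sub, Complex.norm_real, Real.norm_eq_abs, abs_sub_comm]
        exact le_trans (by linarith) (le_abs_self _)
      rw [Real.norm_of_nonneg (sq_nonneg _), norm_div, div_pow, hp]
      gcongr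
    have h1 : ⟪p, (⟨_, m⟩ : L2)⟫_ℂ = 1 := by
      refine (hs _).unique ?_
      have h2 : (fun n => (Real.sqrt (P n) : ℂ) * (⟨_, m⟩ : L2) n) =
          fun l => ((P l / (a l - lam) : ℝ) : ℂ) := funext fun l => by
        push_cast
        rw [← s2, mul_div_assoc]
      rw [h2]
      exact Complex.hasSum_ofReal.2 h
    refine ⟨⟨_, m⟩, fun h0 => by simp [h0] at h1, lp.ext (funext fun n => ?_)⟩
    rw [hB, h1, hp]
    show (a n : ℂ) * ((Real.sqrt (P n) : ℂ) / ((a n : ℂ) - lam)) - 1 * Real.sqrt (P n) =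
      lam * ((Real.sqrt (P n) : ℂ) / ((a n : ℂ) - lam))
    have := ne' n
    field_simp
    ring

end Pool.Agent.MP_301177_an

end

end

section
open Filter Topology InnerProductSpace
open scoped InnerProductSpace ComplexOrder

noncomputable section

namespace Pool.Agent.MP_301177_an

theorem sqrt_ZX5 {E : Type} [NormedAddCommGroup E] [InnerProductSpace ℂ E] [CompleteSpace E]
    (B : E →L[ℂ] E) (hB : 0 ≤ B) : ∃ T : E →L[ℂ] E, T.IsPositive ∧ ∀ x, T (T x) = B x :=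
  ⟨CFC.sqrt B, (ContinuousLinearMap.nonneg_iff_isPositive _).1 (CFC.sqrt_nonneg _), fun x =>
    congrArg (fun S : E →L[ℂ] E => S x) (CFC.sqrt_mul_sqrt_self B hB)⟩

theorem exists_model (ρ P : ℕ → ℝ) (hρ : ∀ j, 0 < ρ j) (hanti : StrictAnti ρ)
    (hρ0 : Tendsto ρ atTop (𝓝 0)) (hP : ∀ j, 0 < P j)
    (h1 : ∀ N, ∑ l ∈ Finset.range N, P l / ρ l ^ 2 ≤ 1) :
    ∃ (R A : L2 →L[ℂ] L2) (v : L2), (∀ x n, R x n = (ρ n : ℂ) * x n) ∧ A.IsPositive ∧
      (∀ x, R x - A (R (A x)) = ⟪v, x⟫_ℂ • v) ∧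
      (∀ x, Tendsto (fun N => A^[N] x) atTop (𝓝 0)) ∧
      (∀ lam : ℝ, 0 < lam → ((∃ x, x ≠ 0 ∧ R (R x) = (lam : ℂ) • x) ↔ ∃ j, lam = ρ j ^ 2)) ∧
      (∀ lam : ℝ, 0 < lam → ((∃ x, x ≠ 0 ∧ A (R (A (R x))) = (lam : ℂ) • x) ↔
        (∀ l, ρ l ^ 2 ≠ lam) ∧ HasSum (fun l => P l / (ρ l ^ 2 - lam)) 1)) := by
  obtain ⟨D, hD, hDa⟩ := exists_diag (fun n => √(ρ n)) √(ρ 0) (fun _ => Real.sqrt_nonneg _)
    fun n => Real.sqrt_le_sqrt (hanti.antitone (Nat.zero_le n))
  obtain ⟨R, hR, hRa⟩ := exists_diag ρ (ρ 0) (fun n => (hρ n).le)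
    fun n => hanti.antitone (Nat.zero_le n)
  have hs : ∀ n, ((√(ρ n) : ℝ) : ℂ) ≠ 0 := fun n =>
    Complex.ofReal_ne_zero.2 (Real.sqrt_pos.2 (hρ n)).ne'
  have hDD : ∀ x, D (D x) = R x := fun x => lp.ext (funext fun n => by
    rw [hDa, hDa, hRa, ← mul_assoc, ← Complex.ofReal_mul, Real.mul_self_sqrt (hρ n).le])
  have hDi : ∀ x, D x = 0 → x = 0 := fun x h => lp.ext (funext fun n => by
    have := hDa x n
    rw [h] at this
    exact (mul_eq_zero.1 this.symm).resolve_left (hs n))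
  have hw0 : ∀ n, ‖((√(P n) / ρ n : ℝ) : ℂ)‖ ^ 2 = P n / ρ n ^ 2 := fun n => by
    rw [Complex.norm_real, Real.norm_eq_abs, sq_abs, div_pow, Real.sq_sqrt (hP n).le]
  have hw1 : ∀ n, 0 ≤ P n / ρ n ^ 2 := fun n => div_nonneg (hP n).le (sq_nonneg _)
  obtain ⟨w, hw⟩ : ∃ w : L2, ∀ n, w n = ((√(P n) / ρ n : ℝ) : ℂ) :=
    ⟨⟨fun n => ((√(P n) / ρ n : ℝ) : ℂ), (mem_iff _).2 (by
      simp only [hw0]
      exact summable_of_sum_range_le hw1 h1)⟩, fun _ => rfl⟩
  have hw2 : ‖w‖ ≤ 1 := by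
    have h2 := hasSum_sq w
    simp only [hw, hw0] at h2
    have h3 := h2.tsum_eq ▸ Real.tsum_le_of_sum_range_le hw1 h1
    exact (sq_le_one_iff₀ (norm_nonneg _)).1 h3
  have hp : ∀ n, R w n = (√(P n) : ℂ) := fun n => by
    rw [hRa, hw, ← Complex.ofReal_mul, mul_div_cancel₀ _ (hρ n).ne']
  obtain ⟨B, hB⟩ : ∃ B : L2 →L[ℂ] L2, ∀ x, B x = R (R x) - ⟪R w, x⟫_ℂ • R w :=
    ⟨R ∘L R - rankOne ℂ (R w) (R w), fun _ => rfl⟩
  have hq : ∀ x, ⟪B x, x⟫_ℂ = ((‖R x‖ ^ 2 - ‖⟪R w, x⟫_ℂ‖ ^ 2 : ℝ) : ℂ) := fun x => by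
    rw [hB, inner_sub_left, inner_smul_left, hR.inner_left_eq_inner_right (R x),
      inner_self_eq_norm_sq_to_K, Complex.conj_mul']
    push_cast
    rfl
  have hq2 : ∀ x, ‖⟪R w, x⟫_ℂ‖ ≤ ‖R x‖ := fun x => by
    rw [hR.inner_left_eq_inner_right]
    exact (norm_inner_le_norm _ _).trans (mul_le_of_le_one_left (norm_nonneg _) hw2)
  have hB0 : 0 ≤ B := (ContinuousLinearMap.nonneg_iff_isPositive _).2
    ((ContinuousLinearMap.isPositive_iff_complex B).2 fun x => by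
      rw [hq]
      exact ⟨rfl, sub_nonneg.2 (pow_le_pow_left₀ (norm_nonneg _) (hq2 x) 2)⟩)
  obtain ⟨T, hT, hTT⟩ := sqrt_ZX5 B hB0
  obtain ⟨A, hA, hA1, hAD⟩ := douglas D T hD hT hDi fun x => by
    have h2 := hq x
    rw [← hTT, hT.inner_left_eq_inner_right, inner_self_eq_norm_sq_to_K] at h2
    have h3 : ‖T x‖ ^ 2 = ‖R x‖ ^ 2 - ‖⟪R w, x⟫_ℂ‖ ^ 2 :=
      Complex.ofReal_injective (by rw [← h2, Complex.ofReal_pow]; rfl)
    rw [hDD]
    exact (abs_le_of_sq_le_sq' (by linarith [sq_nonneg ‖⟪R w, x⟫_ℂ‖]) (norm_nonneg _)).2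
  have hZ : ∀ x, R (D x) - A (R (A (D x))) - ⟪D w, D x⟫_ℂ • D w = 0 := fun x => hDi _ (by
    rw [map_sub, map_sub, map_smul, ← hD.inner_left_eq_inner_right, ← hDD (A (D x)), hAD, hAD, hTT,
      hB, ← hDD (D x), hDD, hDD, hDD, sub_sub_cancel, sub_self])
  have hRA : ∀ x, R x - A (R (A x)) = ⟪D w, x⟫_ℂ • D w := fun x => sub_eq_zero.1 (hDi _
    (ext_inner_right ℂ fun y => by
      have h2 := congrArg (fun z => ⟪x, z⟫_ℂ) (hZ y)
      simp only [inner_sub_right, inner_smul_right, inner_zero_right] at h2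
      rw [hD.inner_left_eq_inner_right, inner_zero_left, inner_sub_left, inner_sub_left,
        inner_smul_left, inner_conj_symm, hR.inner_left_eq_inner_right,
        hA.inner_left_eq_inner_right, hR.inner_left_eq_inner_right, hA.inner_left_eq_inner_right,
        mul_comm, h2]))
  refine ⟨R, A, D w, hRa, hA, hRA, stab A hA hA1 (fix_zero ρ hρ hanti R A (D w) (fun n => ?_) hRa
    hA hRA), fun lam _ => eig_diag (fun n => ρ n ^ 2) (R ∘L R) (fun x n => ?_) lam,
    fun lam hlam => ?_⟩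
  · rw [hDa, hw]
    exact mul_ne_zero (hs n) (Complex.ofReal_ne_zero.2
      (div_pos (Real.sqrt_pos.2 (hP n)) (hρ n)).ne')
  · rw [ContinuousLinearMap.comp_apply, hRa, hRa]
    push_cast
    ring
  · have h2 := eig_swap (A ∘L D ∘L D ∘L A ∘L D) D lam (Complex.ofReal_ne_zero.2 hlam.ne')
    simp only [ContinuousLinearMap.comp_apply, hAD, hTT] at h2
    simp only [← hDD, hAD]
    rw [← eig_rank_one (fun n => ρ n ^ 2) P
      (fun i j h => pow_lt_pow_left₀ (hanti h) (hρ j).le two_ne_zero)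
      (by simpa using hρ0.pow 2) hP (R w) hp B (fun x n => ?_) lam hlam, ← h2]
    rw [hB, lp.coeFn_sub, Pi.sub_apply, lp.coeFn_smul, Pi.smul_apply, smul_eq_mul, hRa, hRa]
    push_cast
    ring

end Pool.Agent.MP_301177_an

end

end

section
open Filter Topology InnerProductSpace
open scoped InnerProductSpace ComplexOrder

noncomputable section

namespace Pool.Agent.MP_301177_an

lemma tendsto_s {s : ℕ → ℝ} (hpos : ∀ r, 0 < s r) (hsum : Summable fun r => s r ^ 2) :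
    Tendsto s atTop (𝓝 0) := by
  have h1 := hsum.tendsto_atTop_zero.sqrt
  simpa only [Real.sqrt_sq (hpos _).le, Real.sqrt_zero] using h1

lemma summable_even {s : ℕ → ℝ} (hsum : Summable fun r => s r ^ 2) :
    Summable fun j => s (2 * j) ^ 2 :=
  hsum.comp_injective (i := fun j => 2 * j) fun a b h => by simpa using h

lemma tendsto_even {s : ℕ → ℝ} (hs0 : Tendsto s atTop (𝓝 0)) :
    Tendsto (fun j => s (2 * j)) atTop (𝓝 0) :=
  hs0.comp (tendsto_id.const_mul_atTop' (r := 2) two_pos)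

theorem exists_zero {s : ℕ → ℝ} (hpos : ∀ r, 0 < s r) (hanti : StrictAnti s)
    (hsum : Summable fun r => s r ^ 2) : ∃ c, InTorus s c ∧ ZeroAngle c := by
  have hab : ∀ k l, k < l → s (2 * l) ^ 2 < s (2 * k + 1) ^ 2 := fun k l h =>
    pow_lt_pow_left₀ (hanti (by omega)) (hpos _).le two_ne_zero
  have hba : ∀ k l, l ≤ k → s (2 * k + 1) ^ 2 < s (2 * l) ^ 2 := fun k l h =>
    pow_lt_pow_left₀ (hanti (by omega)) (hpos _).le two_ne_zero
  have h0 := tendsto_even (tendsto_s hpos hsum)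
  obtain ⟨P, hP, hP1, hF⟩ := exists_P (fun l => s (2 * l) ^ 2) (fun k => s (2 * k + 1) ^ 2) hab hba
    fun k => pow_pos (hpos _) 2
  obtain ⟨R, A, v, hR, hA, hRA, hst, e1, e2⟩ := exists_model (fun j => s (2 * j)) P
    (fun j => hpos _) (fun i j h => hanti (by omega)) h0 hP hP1
  obtain ⟨c, c1, c2, c3, c4⟩ := model_to_hankel (fun j => s (2 * j)) (fun j => (hpos _).le)
    (summable_even hsum) R A v hR hA hRA hst
  refine ⟨c, ⟨c1, fun lam hlam => (c3 lam hlam).trans (e1 lam hlam), fun lam hlam =>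
    ((c4 lam hlam).trans (e2 lam hlam)).trans ⟨fun h => ?_, ?_⟩⟩, c2⟩
  · exact root_mem (fun l => s (2 * l) ^ 2) (fun k => s (2 * k + 1) ^ 2) P hab hba hP
      (by simpa using h0.pow 2) hF lam hlam h.1 h.2
  · rintro ⟨k, rfl⟩
    refine ⟨fun l => ?_, hF k⟩
    rcases lt_or_ge k l with h | h
    · exact (hab k l h).ne
    · exact (hba k l h).ne'

end Pool.Agent.MP_301177_an

end

end
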