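import Pool.Agent.MP_301177_an.Zero2

section
open Filter Topology InnerProductSpace
open scoped InnerProductSpace ComplexConjugate

noncomputable section

namespace Pool.Agent.MP_301177_an

/-- The space `H^{1/2}_+` is identified isometrically with square-summable sequences `x` by
`x n = sqrt (1 + n) * c n`; `coeffOf x` is the sequence `c` of Fourier coefficients. -/
noncomputable def coeffOf (x : lp (fun _ : ℕ => ℂ) 2) : ℕ → ℂ :=
  fun n => x n / (Real.sqrt (1 + (n : ℝ)) : ℂ)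

/-- The torus with singular values `s`, as a subset of `H^{1/2}_+`. -/
def torus (s : ℕ → ℝ) : Set (lp (fun _ : ℕ => ℂ) 2) := {x | InTorus s (coeffOf x)}

/-- The points of the torus that have the unit circle as natural boundary. -/
def naturalBoundary (s : ℕ → ℝ) : Set (torus s) :=
  {x | ∀ ζ : ℂ, ‖ζ‖ = 1 → ¬ RegularAt (coeffOf x) ζ}

open Classical in
/-- The diagonal operator with a bounded diagonal `d`. -/
def dg (d : ℕ → ℂ) : L2 →L[ℂ] L2 :=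
  if h : ∃ D : L2 →L[ℂ] L2, ∀ x n, D x n = d n * x n then h.choose else 0

lemma dg_apply {d : ℕ → ℂ} {M : ℝ} (hd : ∀ n, ‖d n‖ ≤ M) (x : L2) (n : ℕ) :
    dg d x n = d n * x n := by
  have hM : 0 ≤ M := (norm_nonneg _).trans (hd 0)
  have h1 : ∀ (x : L2) n, ‖d n * x n‖ ^ 2 ≤ M ^ 2 * ‖x n‖ ^ 2 := fun x n => by
    rw [norm_mul, mul_pow]
    exact mul_le_mul_of_nonneg_right (pow_le_pow_left₀ (norm_nonneg _) (hd n) 2) (sq_nonneg _)
  let L : L2 →ₗ[ℂ] L2 :=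
    { toFun := fun x => ⟨fun n => d n * x n, (mem_iff _).2 (Summable.of_nonneg_of_le
        (fun n => sq_nonneg _) (h1 x) ((hasSum_sq x).summable.mul_left _))⟩
      map_add' := fun x y => lp.ext (funext fun n => mul_add _ _ _)
      map_smul' := fun t x => lp.ext (funext fun n => mul_left_comm _ _ _) }
  have h : ∃ D : L2 →L[ℂ] L2, ∀ x n, D x n = d n * x n := by
    refine ⟨L.mkContinuous M fun x => ?_, fun x n => rfl⟩
    refine (abs_le_of_sq_le_sq' ?_ (by positivity)).2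
    rw [mul_pow]
    exact hasSum_le (h1 x) (hasSum_sq (L x)) ((hasSum_sq x).mul_left _)
  rw [dg, dif_pos h]
  exact h.choose_spec x n

lemma dg_inner {d : ℕ → ℂ} {M : ℝ} (hd : ∀ n, ‖d n‖ ≤ M) (x y : L2) :
    ⟪dg d x, y⟫_ℂ = ⟪x, dg (fun n => conj (d n)) y⟫_ℂ := by
  rw [lp.inner_eq_tsum, lp.inner_eq_tsum]
  refine tsum_congr fun n => ?_
  rw [RCLike.inner_apply, RCLike.inner_apply, dg_apply hd,
    dg_apply (M := M) (fun n => by rw [Complex.norm_conj]; exact hd n), map_mul]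
  ring

lemma dg_norm {d : ℕ → ℂ} (hd : ∀ n, ‖d n‖ = 1) (x : L2) : ‖dg d x‖ = ‖x‖ := by
  refine (pow_left_inj₀ (norm_nonneg _) (norm_nonneg _) two_ne_zero).1
    ((hasSum_sq (dg d x)).unique ?_)
  simpa only [dg_apply (fun n => (hd n).le), norm_mul, hd, one_mul] using hasSum_sq x

/-- The diagonal operator of the singular values of the Hankel operator. -/
def Rr (s : ℕ → ℝ) : L2 →L[ℂ] L2 := dg fun j => (s (2 * j) : ℂ)

/-- The diagonal operator of the singular values of the shifted Hankel operator. -/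
def Sg (s : ℕ → ℝ) : L2 →L[ℂ] L2 := dg fun k => (s (2 * k + 1) : ℂ)

lemma Rr_apply {s : ℕ → ℝ} (hpos : ∀ r, 0 < s r) (hanti : StrictAnti s) (x : L2) (n : ℕ) :
    Rr s x n = (s (2 * n) : ℂ) * x n :=
  dg_apply (M := s 0) (fun n => by
    rw [Complex.norm_real, Real.norm_eq_abs, abs_of_pos (hpos _)]
    exact hanti.antitone (Nat.zero_le _)) x n

lemma Sg_apply {s : ℕ → ℝ} (hpos : ∀ r, 0 < s r) (hanti : StrictAnti s) (x : L2) (n : ℕ) :
    Sg s x n = (s (2 * n + 1) : ℂ) * x n :=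
  dg_apply (M := s 0) (fun n => by
    rw [Complex.norm_real, Real.norm_eq_abs, abs_of_pos (hpos _)]
    exact hanti.antitone (Nat.zero_le _)) x n

/-- An operator model of the torus. -/
structure Model (s : ℕ → ℝ) where
  Q : L2 →L[ℂ] L2
  Qs : L2 →L[ℂ] L2
  v : L2
  hadj : ∀ x y, ⟪Q x, y⟫_ℂ = ⟪x, Qs y⟫_ℂ
  hQ : ∀ x, ‖Q x‖ ≤ ‖x‖
  hQs : ∀ x, ‖Qs x‖ ≤ ‖x‖
  hst : ∀ x, Qs (Q x) = x → x = 0
  h1 : ∀ x, Q (Rr s (Qs x)) = Sg s x
  h2 : ∀ x, Qs (Sg s (Q x)) = Rr s x - ⟪v, x⟫_ℂ • v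

/-- The contraction of the model for the angles `α`, `β`. -/
def Model.op {s : ℕ → ℝ} (M : Model s) (α β : ℕ → ℂ) : L2 →L[ℂ] L2 :=
  M.Qs ∘L dg β ∘L M.Q ∘L dg fun n => conj (α n)

/-- Its adjoint. -/
def Model.ops {s : ℕ → ℝ} (M : Model s) (α β : ℕ → ℂ) : L2 →L[ℂ] L2 :=
  dg α ∘L M.Qs ∘L dg (fun n => conj (β n)) ∘L M.Q

/-- The coefficients of the point of the torus with angles `α`, `β`. -/
def Model.coef {s : ℕ → ℝ} (M : Model s) (α β : ℕ → ℂ) (n : ℕ) : ℂ :=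
  ⟪dg α M.v, (M.op α β)^[n] M.v⟫_ℂ

lemma Model.op_apply {s : ℕ → ℝ} (M : Model s) (α β : ℕ → ℂ) (x : L2) :
    M.op α β x = M.Qs (dg β (M.Q (dg (fun n => conj (α n)) x))) := rfl

lemma Model.ops_apply {s : ℕ → ℝ} (M : Model s) (α β : ℕ → ℂ) (x : L2) :
    M.ops α β x = dg α (M.Qs (dg (fun n => conj (β n)) (M.Q x))) := rfl

lemma Model.hadj' {s : ℕ → ℝ} (M : Model s) (x y : L2) : ⟪M.Qs x, y⟫_ℂ = ⟪x, M.Q y⟫_ℂ := by
  rw [← inner_conj_symm, ← M.hadj, inner_conj_symm]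

lemma Model.op_adj {s : ℕ → ℝ} (M : Model s) {α β : ℕ → ℂ} (hα : ∀ n, ‖α n‖ = 1)
    (hβ : ∀ n, ‖β n‖ = 1) (x y : L2) : ⟪M.op α β x, y⟫_ℂ = ⟪x, M.ops α β y⟫_ℂ := by
  rw [op_apply, ops_apply, M.hadj', dg_inner (fun n => (hβ n).le), M.hadj,
    dg_inner (M := 1) (fun n => by rw [Complex.norm_conj, hα])]
  simp only [Complex.conj_conj]

/-- The orbit of `y` under `A` decays geometrically. -/
def Geo {E : Type} [NormedAddCommGroup E] [InnerProductSpace ℂ E] (A : E →L[ℂ] E) (y : E) : Prop :=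
  ∃ C a : ℝ, 0 ≤ a ∧ a < 1 ∧ ∀ n, ‖A^[n] y‖ ≤ C * a ^ n

/-- `A` and its adjoint `As` solve the two Stein equations and are weakly stable. -/
structure Stein (R A As : L2 →L[ℂ] L2) (v v' : L2) : Prop where
  adj : ∀ x y, ⟪A x, y⟫_ℂ = ⟪x, As y⟫_ℂ
  e1 : ∀ x, R x - A (R (As x)) = ⟪v, x⟫_ℂ • v
  e2 : ∀ x, R x - As (R (A x)) = ⟪v', x⟫_ℂ • v'
  t1 : ∀ x y, Tendsto (fun N => ⟪As^[N] y, R (As^[N] x)⟫_ℂ) atTop (𝓝 0)
  t2 : ∀ x y, Tendsto (fun N => ⟪A^[N] y, R (A^[N] x)⟫_ℂ) atTop (𝓝 0)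

end Pool.Agent.MP_301177_an

end

end

section
open Filter Topology InnerProductSpace
open scoped InnerProductSpace ComplexConjugate ComplexOrder

noncomputable section

namespace Pool.Agent.MP_301177_an

lemma ext_single (f g : L2 →L[ℂ] L2)
    (h : ∀ j, f (lp.single 2 j (1 : ℂ)) = g (lp.single 2 j (1 : ℂ))) (x : L2) : f x = g x := by
  have h1 := lp.hasSum_single (p := 2) (by simp) x
  have h2 : ∀ j, (lp.single 2 j (x j) : L2) = x j • (lp.single 2 j (1 : ℂ) : L2) := fun j => by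
    rw [← lp.single_smul, smul_eq_mul, mul_one]
  refine (f.hasSum h1).unique ?_
  simpa only [h2, map_smul, h] using g.hasSum h1

lemma exists_W {e : ℕ → L2} (he : Orthonormal ℂ e) :
    ∃ W Ws : L2 →L[ℂ] L2, (∀ x y, ⟪W x, y⟫_ℂ = ⟪x, Ws y⟫_ℂ) ∧ (∀ y j, Ws y j = ⟪e j, y⟫_ℂ) ∧
      (∀ x, Ws (W x) = x) ∧ (∀ j, W (lp.single 2 j (1 : ℂ)) = e j) ∧
      ∀ x, HasSum (fun j => x j • e j) (W x) := by
  let V := he.orthogonalFamily.linearIsometry
  have h1 : ∀ x y, ⟪V.toContinuousLinearMap x, y⟫_ℂ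
      = ⟪x, ContinuousLinearMap.adjoint V.toContinuousLinearMap y⟫_ℂ := fun x y =>
    (ContinuousLinearMap.adjoint_inner_right _ x y).symm
  have h2 : ∀ j, V.toContinuousLinearMap (lp.single 2 j (1 : ℂ)) = e j := fun j =>
    (he.orthogonalFamily.linearIsometry_apply_single (i := j) (1 : ℂ)).trans (one_smul _ _)
  refine ⟨V.toContinuousLinearMap, ContinuousLinearMap.adjoint V.toContinuousLinearMap, h1,
    fun y j => ?_, fun x => ext_inner_left ℂ fun y => ?_, h2, fun x => ?_⟩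
  · rw [← inner_single, ← h1, h2]
  · rw [← h1]
    exact V.inner_map_map y x
  · simpa using he.orthogonalFamily.hasSum_linearIsometry x

lemma spec_W {e : ℕ → L2} {W Ws A T : L2 →L[ℂ] L2} {a : ℕ → ℝ}
    (hWs : ∀ y j, Ws y j = ⟪e j, y⟫_ℂ) (hW : ∀ x, HasSum (fun j => x j • e j) (W x))
    (hT : ∀ x n, T x n = (a n : ℂ) * x n) (hA : ∀ j, A (e j) = ((a j ^ 2 : ℝ) : ℂ) • e j)
    (hexp : ∀ x, ∃ z, A z = 0 ∧ HasSum (fun l => ⟪e l, x⟫_ℂ • e l) (x - z)) (y : L2) :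
    W (T (T (Ws y))) = A y := by
  obtain ⟨z, hz, hs⟩ := hexp y
  have h1 := A.hasSum hs
  rw [map_sub, hz, sub_zero] at h1
  refine (hW _).unique ((congrArg (fun F => HasSum F (A y)) (funext fun j => ?_)).mpr h1)
  rw [hT, hT, hWs, map_smul, hA, smul_smul]
  congr 1
  push_cast
  ring

lemma dense_of_inj (D : L2 →L[ℂ] L2) (hDs : ∀ x y, ⟪D x, y⟫_ℂ = ⟪x, D y⟫_ℂ)
    (hDi : ∀ x, D x = 0 → x = 0) : DenseRange (D : L2 →ₗ[ℂ] L2) := by
  refine (Submodule.dense_iff_topologicalClosure_eq_top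
    (s := LinearMap.range (D : L2 →ₗ[ℂ] L2))).2 ?_
  rw [Submodule.topologicalClosure_eq_top_iff, Submodule.eq_bot_iff]
  intro x hx
  refine hDi x (inner_self_eq_zero (𝕜 := ℂ).1 ?_)
  rw [← hDs]
  exact hx _ ⟨D x, rfl⟩

lemma Data.qf_mono {E : Type} [NormedAddCommGroup E] [InnerProductSpace ℂ E] [CompleteSpace E]
    {s : ℕ → ℝ} {H K : E → E} {A B : E →L[ℂ] E} {δ : E}
    (hpos : ∀ r, 0 < s r) (D : Data s H K A B δ) (x : E) :
    qf (fun k => s (2 * k + 1)) D.f x ≤ qf (fun j => s (2 * j)) D.e x := by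
  have hA0 : 0 ≤ A := (ContinuousLinearMap.nonneg_iff_isPositive _).2 D.hA0
  have hB0 : 0 ≤ B := (ContinuousLinearMap.nonneg_iff_isPositive _).2 D.hB0
  have hBA : B ≤ A := by
    rw [ContinuousLinearMap.le_def]
    have : A - B = rankOne ℂ (H δ) (H δ) := by
      ext1 x
      rw [sub_apply, D.hAB, sub_sub_cancel]
      rfl
    rw [this]
    exact isPositive_rankOne_self _
  have h1 := ((ContinuousLinearMap.le_def _ _).1 (CFC.sqrt_le_sqrt _ _ hBA)).re_inner_nonneg_right x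
  rw [qf_eq_pos (ρ := fun j => s (2 * j)) (fun j => hpos _) (CFC.sqrt A) A
      ((ContinuousLinearMap.nonneg_iff_isPositive _).1 (CFC.sqrt_nonneg _))
      (fun x => congrArg (fun S : E →L[ℂ] E => S x) (CFC.sqrt_mul_sqrt_self A hA0)) D.hAe D.hexp,
    qf_eq_pos (ρ := fun j => s (2 * j + 1)) (fun j => hpos _) (CFC.sqrt B) B
      ((ContinuousLinearMap.nonneg_iff_isPositive _).1 (CFC.sqrt_nonneg _))
      (fun x => congrArg (fun S : E →L[ℂ] E => S x) (CFC.sqrt_mul_sqrt_self B hB0)) D.hBf D.hexpf]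
  rw [sub_apply, inner_sub_right, map_sub] at h1
  exact sub_nonneg.1 h1

lemma exists_sqrt_diag {a : ℕ → ℝ} (ha : ∀ n, 0 < a n) {M : ℝ} (hM : ∀ n, a n ≤ M) :
    ∃ D : L2 →L[ℂ] L2, (∀ x n, D x n = (√(a n) : ℂ) * x n) ∧ (∀ x y, ⟪D x, y⟫_ℂ = ⟪x, D y⟫_ℂ) ∧
      (∀ x, D x = 0 → x = 0) ∧ (∀ x n, D (D x) n = (a n : ℂ) * x n) ∧
      ∀ x, ‖D x‖ ^ 2 = ∑' n, a n * ‖x n‖ ^ 2 := by
  obtain ⟨D, hD, hDa⟩ := exists_diag (fun n => √(a n)) √M (fun _ => Real.sqrt_nonneg _)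
    fun n => Real.sqrt_le_sqrt (hM n)
  refine ⟨D, hDa, hD.inner_left_eq_inner_right, fun x h => lp.ext (funext fun n => ?_),
    fun x n => ?_, fun x => ?_⟩
  · have := hDa x n
    rw [h] at this
    exact (mul_eq_zero.1 this.symm).resolve_left
      (Complex.ofReal_ne_zero.2 (Real.sqrt_pos.2 (ha n)).ne')
  · rw [hDa, hDa, ← mul_assoc, ← Complex.ofReal_mul, Real.mul_self_sqrt (ha n).le]
  · rw [← (hasSum_sq (D x)).tsum_eq]
    refine tsum_congr fun n => ?_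
    rw [hDa, norm_mul, mul_pow, Complex.norm_real, Real.norm_eq_abs, sq_abs,
      Real.sq_sqrt (ha n).le]

theorem exists_repr {s : ℕ → ℝ} (hpos : ∀ r, 0 < s r) (hanti : StrictAnti s) {c : ℕ → ℂ}
    (hc : InTorus s c) : ∃ (M : Model s) (α β : ℕ → ℂ), (∀ n, ‖α n‖ = 1) ∧ (∀ n, ‖β n‖ = 1) ∧
      ∀ n, c n = M.coef α β n := by
  obtain ⟨γ, H, K, -, -, -, -, ⟨D⟩, hSH, hcn⟩ := torus_data hpos hanti hc
  obtain ⟨W, Ws, hW, hWs, hWW, hWe, hWsum⟩ := exists_W D.he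
  obtain ⟨U, Us, hU, hUs, hUU, -, hUsum⟩ := exists_W D.hf
  obtain ⟨Dr, hDr, hDrs, hDri, hDrr, hDrn⟩ := exists_sqrt_diag (a := fun j => s (2 * j))
    (fun j => hpos _) (M := s 0) fun n => hanti.antitone (Nat.zero_le _)
  obtain ⟨Ds, hDs, hDss, -, hDsr, hDsn⟩ := exists_sqrt_diag (a := fun j => s (2 * j + 1))
    (fun j => hpos _) (M := s 0) fun n => hanti.antitone (Nat.zero_le _)
  have hW' : ∀ x y, ⟪Ws x, y⟫_ℂ = ⟪x, W y⟫_ℂ := fun x y => by
    rw [← inner_conj_symm, ← hW, inner_conj_symm]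
  have hU' : ∀ x y, ⟪Us x, y⟫_ℂ = ⟪x, U y⟫_ℂ := fun x y => by
    rw [← inner_conj_symm, ← hU, inner_conj_symm]
  have hRr : ∀ x, Dr (Dr x) = Rr s x := fun x =>
    lp.ext (funext fun n => by rw [hDrr, Rr_apply hpos hanti])
  have hSg : ∀ x, Ds (Ds x) = Sg s x := fun x =>
    lp.ext (funext fun n => by rw [hDsr, Sg_apply hpos hanti])
  have hd := dense_of_inj Dr hDrs hDri
  set L := Ds ∘L Us ∘L W with hL
  have hLa : ∀ x, L x = Ds (Us (W x)) := fun x => rfl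
  have h3 : ∀ x, ‖(L : L2 →ₗ[ℂ] L2) x‖ ≤ 1 * ‖(Dr : L2 →ₗ[ℂ] L2) x‖ := fun x => by
    rw [one_mul]
    refine (pow_le_pow_iff_left₀ (norm_nonneg _) (norm_nonneg _) two_ne_zero).1 ?_
    have := D.qf_mono hpos (W x)
    simp only [qf, ← hWs, ← hUs, hWW] at this
    rw [ContinuousLinearMap.coe_coe, ContinuousLinearMap.coe_coe, hLa, hDsn, hDrn]
    exact this
  obtain ⟨Q, hQ, hQn⟩ : ∃ Q : L2 →L[ℂ] L2, (∀ x, Q (Dr x) = L x) ∧ ‖Q‖ ≤ 1 :=
    ⟨(L : L2 →ₗ[ℂ] L2).extendOfNorm (Dr : L2 →ₗ[ℂ] L2), LinearMap.extendOfNorm_eq hd ⟨1, h3⟩,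
      LinearMap.opNorm_extendOfNorm_le hd zero_le_one h3⟩
  set Qs := ContinuousLinearMap.adjoint Q with hQs
  have hadj : ∀ x y, ⟪Q x, y⟫_ℂ = ⟪x, Qs y⟫_ℂ := fun x y =>
    (ContinuousLinearMap.adjoint_inner_right Q x y).symm
  have hDQ : ∀ y, Dr (Qs y) = Ws (U (Ds y)) := fun y => ext_inner_left ℂ fun x => by
    rw [← hDrs, ← hadj, hQ, hLa, hDss, hU', hW]
  have hproj : ∀ x, Us (W (Ws x)) = Us x := fun x => lp.ext (funext fun k => by
    rw [hUs, hUs]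
    refine (D.hfx _ k).unique ?_
    simpa only [← hWs, hWW] using D.hfx x k)
  have hproj' : ∀ y, W (Ws (U y)) = U y := fun y => ext_inner_left ℂ fun x => by
    rw [← hW', ← hW, ← hU', ← hU', hproj]
  have h1 : ∀ x, Q (Rr s (Qs x)) = Sg s x := fun x => by
    rw [← hRr, hQ, hLa, hDQ, hproj, hUU, hSg]
  have hA := spec_W hWs hWsum (Rr_apply hpos hanti) D.hAe D.hexp
  have hB := spec_W hUs hUsum (Sg_apply hpos hanti) D.hBf D.hexpf
  have hρ : ∀ j, ((s (2 * j) : ℝ) : ℂ) ≠ 0 := fun j => Complex.ofReal_ne_zero.2 (hpos _).ne'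
  have hσ : ∀ j, ((s (2 * j + 1) : ℝ) : ℂ) ≠ 0 := fun j => Complex.ofReal_ne_zero.2 (hpos _).ne'
  have hρ' : ∀ j, ((√(s (2 * j)) : ℝ) : ℂ) ≠ 0 := fun j =>
    Complex.ofReal_ne_zero.2 (Real.sqrt_pos.2 (hpos _)).ne'
  have hρ2 : ∀ j, ((√(s j) : ℝ) : ℂ) * ((√(s j) : ℝ) : ℂ) = s j := fun j => by
    rw [← Complex.ofReal_mul, Real.mul_self_sqrt (hpos _).le]
  let α : ℕ → ℂ := fun j => s (2 * j) * ⟪D.e j, dlt⟫_ℂ / D.p j
  let β : ℕ → ℂ := fun k => D.mu k / s (2 * k + 1) * (conj (D.κ k) / D.κ k)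
  have hα : ∀ j, ‖α j‖ = 1 := fun j => by
    simp only [α]
    rw [norm_div, div_eq_one_iff_eq (norm_ne_zero_iff.2 (D.hp0 j)), D.hpl, norm_mul, norm_mul,
      D.hlam, Complex.norm_conj, Complex.norm_real, Real.norm_eq_abs, abs_of_pos (hpos _)]
  have hβ : ∀ j, ‖β j‖ = 1 := fun j => by
    simp only [β]
    rw [norm_mul, norm_div, norm_div, D.hmu, Complex.norm_conj, Complex.norm_real,
      Real.norm_eq_abs, abs_of_pos (hpos _), div_self (hpos _).ne',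
      div_self (norm_ne_zero_iff.2 (D.hκ0 j)), one_mul]
  have hα' : ∀ j, ‖conj (α j)‖ ≤ 1 := fun j => by rw [Complex.norm_conj, hα]
  have hαα : ∀ j, α j * conj (α j) = 1 := fun j => by rw [Complex.mul_conj', hα]; simp
  set v := dg (fun j => conj (α j)) (Dr (Ws dlt)) with hv
  have hαv : dg α v = Dr (Ws dlt) := lp.ext (funext fun j => by
    rw [dg_apply (fun n => (hα n).le), hv, dg_apply hα', ← mul_assoc, hαα, one_mul])
  have hDv : Dr v = Ws (H dlt) := lp.ext (funext fun j => by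
    rw [hDr, hv, dg_apply hα', hDr, hWs, hWs, ← D.hp]
    have a1 : α j * D.p j = s (2 * j) * ⟪D.e j, dlt⟫_ℂ := div_mul_cancel₀ _ (D.hp0 j)
    have a2 := hρ2 (2 * j)
    have a3 := hαα j
    linear_combination (conj (α j) * ⟪D.e j, dlt⟫_ℂ) * a2 - conj (α j) * a1 + D.p j * a3)
  have hu : W (Ws (H dlt)) = H dlt := ext_inner_left ℂ fun y => by
    have a1 := (innerSL ℂ y).hasSum (hWsum (Ws (H dlt)))
    simp only [innerSL_apply_apply, inner_smul_right, hWs, ← D.hp] at a1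
    refine a1.unique ?_
    have a2 := D.hH dlt y
    simp only [← D.hpl] at a2
    simpa only [inner_conj_symm] using a2
  have h2 : ∀ x, Qs (Sg s (Q x)) = Rr s x - ⟪v, x⟫_ℂ • v := by
    intro x
    refine hd.induction_on x (isClosed_eq (by fun_prop) (by fun_prop)) fun y => ?_
    rw [ContinuousLinearMap.coe_coe, ← sub_eq_zero]
    refine hDri _ ?_
    rw [map_sub, map_sub, map_smul, hDQ, hQ, hLa, ← hSg, hSg, hSg, hB, D.hAB, map_sub, map_smul,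
      ← hA, hWW, hWW, ← hRr (Dr y), hRr, hRr, ← hDrs, hDv, hW', sub_self]
  have hv0 : ∀ n, v n ≠ 0 := fun n h => D.hp0 n (by rw [D.hp, ← hWs, ← hDv, hDr, h, mul_zero])
  have hQ1 : ∀ x, ‖Q x‖ ≤ ‖x‖ := fun x =>
    (Q.le_opNorm x).trans (mul_le_of_le_one_left (norm_nonneg _) hQn)
  have hQ2 : ∀ x, ‖Qs x‖ ≤ ‖x‖ := fun x =>
    (Qs.le_opNorm x).trans (mul_le_of_le_one_left (norm_nonneg _) (by
      rw [hQs, LinearIsometryEquiv.norm_map]; exact hQn))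
  let M : Model s := ⟨Q, Qs, v, hadj, hQ1, hQ2,
    fix_zero (fun j => s (2 * j)) (fun j => hpos _) (fun i j h => hanti (by omega)) (Rr s)
      (Qs ∘L Q) v hv0 (Rr_apply hpos hanti) (ContinuousLinearMap.isPositive_adjoint_comp_self Q)
      (fun x => by
        rw [ContinuousLinearMap.comp_apply, ContinuousLinearMap.comp_apply, h1, h2,
          sub_sub_cancel]), h1, h2⟩
  have hS : ∀ y, (bshift ∘L W ∘L Dr) y = (W ∘L Dr ∘L M.op α β) y := by
    refine ext_single _ _ fun j => ?_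
    have b1 : Dr (lp.single 2 j (1 : ℂ)) = (√(s (2 * j)) : ℂ) • (lp.single 2 j (1 : ℂ) : L2) :=
      lp.ext (funext fun n => by
        rw [hDr, lp.coeFn_smul, Pi.smul_apply, smul_eq_mul, lp.single_apply]
        by_cases h : n = j
        · rw [h]
        · rw [Pi.single_eq_of_ne h, mul_zero, mul_zero])
    have b2 : dg (fun n => conj (α n)) (lp.single 2 j (1 : ℂ))
        = (conj (α j) / √(s (2 * j))) • Dr (lp.single 2 j (1 : ℂ)) := by
      rw [b1, smul_smul, div_mul_cancel₀ _ (hρ' j)]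
      refine lp.ext (funext fun n => ?_)
      rw [dg_apply hα', lp.coeFn_smul, Pi.smul_apply, smul_eq_mul, lp.single_apply]
      by_cases h : n = j
      · rw [h]
      · rw [Pi.single_eq_of_ne h, mul_zero, mul_zero]
    have hl0 : D.lam j ≠ 0 := norm_ne_zero_iff.1 (by rw [D.hlam]; exact (hpos _).ne')
    have b3 : bshift (D.e j) = (D.lam j)⁻¹ • K (D.e j) := by
      rw [← hSH, D.hHe, map_smul, smul_smul, inv_mul_cancel₀ hl0, one_smul]
    change bshift (W (Dr _)) = W (Dr (Qs (dg β (Q (dg (fun n => conj (α n)) _)))))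
    rw [hDQ, hproj', b2, map_smul Q, hQ, hLa, hWe, b1, map_smul, map_smul, hWe, b3, smul_smul]
    refine ext_inner_left ℂ fun x => ?_
    have a1 := (innerSL ℂ x).hasSum (hUsum (Ds (dg β ((conj (α j) / √(s (2 * j))) •
      Ds (Us (D.e j))))))
    simp only [innerSL_apply_apply, inner_smul_right] at a1
    rw [inner_smul_right]
    refine ((D.hK (D.e j) x).mul_left _).unique
      ((congrArg (fun F => HasSum F _) (funext fun k => ?_)).mpr a1)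
    rw [hDs, dg_apply (fun n => (hβ n).le), lp.coeFn_smul, Pi.smul_apply, smul_eq_mul, hDs, hUs,
      D.hef, inner_conj_symm x]
    have c1 : conj (D.p j) ≠ 0 := (map_ne_zero _).2 (D.hp0 j)
    have c2 := D.hκ0 k
    have c3 := hσ k
    have c4 := hρ' j
    simp only [α, β, map_mul, map_div₀, Complex.conj_ofReal, Complex.conj_conj]
    generalize ((s (2 * j) ^ 2 - s (2 * k + 1) ^ 2 : ℝ) : ℂ) = d
    have c5 := hρ2 (2 * j)
    have c6 := hρ2 (2 * k + 1)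
    have c7 := D.hpl j
    rw [inner_conj_symm] at c7
    generalize ((√(s (2 * j)) : ℝ) : ℂ) = r at c4 c5 ⊢
    generalize ((√(s (2 * k + 1)) : ℝ) : ℂ) = t at c6 ⊢
    have c8 : t ≠ 0 := fun h => c3 (by rw [← c6, h, mul_zero])
    rw [← c5, ← c6, inner_conj_symm]
    generalize conj (D.p j) = q at c1 ⊢
    rw [c7, div_eq_mul_inv _ d, div_eq_mul_inv _ d]
    field_simp
  refine ⟨M, α, β, hα, hβ, fun n => ?_⟩
  have h4 : ∀ n, bshift^[n] (H dlt) = W (Dr ((M.op α β)^[n] v)) := fun n => by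
    induction n with
    | zero => rw [Function.iterate_zero_apply, Function.iterate_zero_apply, hDv, hu]
    | succ n ih =>
      rw [Function.iterate_succ_apply', Function.iterate_succ_apply', ih]
      exact hS _
  rw [← hcn, h4, ← hW', ← hDrs, ← hαv]
  rfl

end Pool.Agent.MP_301177_an

end

end

section
open Filter Topology InnerProductSpace
open scoped InnerProductSpace ComplexConjugate ComplexOrder

noncomputable section

namespace Pool.Agent.MP_301177_an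

theorem iter_ZY2 {B Bs : L2 →L[ℂ] L2} (hB : ∀ x y, ⟪B x, y⟫_ℂ = ⟪x, Bs y⟫_ℂ) (n : ℕ) (x y : L2) :
    ⟪B^[n] x, y⟫_ℂ = ⟪x, Bs^[n] y⟫_ℂ := by
  induction n generalizing y with
  | zero => rfl
  | succ n ih => rw [Function.iterate_succ_apply', hB, ih, Function.iterate_succ_apply]

theorem adj_ZY2 {B Bs : L2 →L[ℂ] L2} (hB : ∀ x y, ⟪B x, y⟫_ℂ = ⟪x, Bs y⟫_ℂ) (x y : L2) :
    ⟪Bs x, y⟫_ℂ = ⟪x, B y⟫_ℂ := by
  rw [← inner_conj_symm, ← hB, inner_conj_symm]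

theorem lim_ZY2 {R B Bs : L2 →L[ℂ] L2} {u : L2} (hB : ∀ x y, ⟪B x, y⟫_ℂ = ⟪x, Bs y⟫_ℂ)
    (hRA : ∀ x, R x - B (R (Bs x)) = ⟪u, x⟫_ℂ • u)
    (hst : ∀ x y, Tendsto (fun N => ⟪Bs^[N] y, R (Bs^[N] x)⟫_ℂ) atTop (𝓝 0)) (x y : L2) :
    Tendsto (fun N => ∑ n ∈ Finset.range N, ⟪y, B^[n] u⟫_ℂ * ⟪B^[n] u, x⟫_ℂ) atTop
      (𝓝 ⟪y, R x⟫_ℂ) := by
  have h : ∀ N, ∑ n ∈ Finset.range N, ⟪y, B^[n] u⟫_ℂ * ⟪B^[n] u, x⟫_ℂ =
      ⟪y, R x⟫_ℂ - ⟪Bs^[N] y, R (Bs^[N] x)⟫_ℂ := by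
    intro N
    induction N with
    | zero => simp
    | succ N ih =>
      have e := congrArg (fun z => ⟪Bs^[N] y, z⟫_ℂ) (hRA (Bs^[N] x))
      simp only [inner_sub_right, inner_smul_right] at e
      rw [Finset.sum_range_succ, ih, Function.iterate_succ_apply', Function.iterate_succ_apply',
        adj_ZY2 hB, ← iter_ZY2 (adj_ZY2 hB) N y u, iter_ZY2 hB N u x]
      linear_combination -e
  simp only [h]
  simpa using tendsto_const_nhds.sub (hst x y)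

theorem eig_ZY2 {R B Bs U V : L2 →L[ℂ] L2} {g : ℕ → L2} {d : ℕ → ℂ}
    (hB : ∀ x y, ⟪B x, y⟫_ℂ = ⟪x, Bs y⟫_ℂ)
    (hU : ∀ x n, U x n = ⟪g n, x⟫_ℂ) (hUR : ∀ x y, ⟪U y, U x⟫_ℂ = ⟪y, R x⟫_ℂ)
    (hVR : ∀ x y, ⟪V y, V x⟫_ℂ = ⟪y, R x⟫_ℂ)
    (hd : ∀ m n, V (B (g m)) n = d (n + m)) (hs : Summable fun m => ‖V (B (g m))‖ ^ 2)
    (lam : ℝ) (hlam : 0 < lam) :
    IsEigenvalueOfSquare (hankel d) lam ↔ ∃ x, x ≠ 0 ∧ B (R (Bs (R x))) = (lam : ℂ) • x := by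
  set W := ContinuousLinearMap.adjoint V with hW
  have h1 : ∀ x y, ⟪V x, y⟫_ℂ = ⟪x, W y⟫_ℂ := fun x y =>
    (ContinuousLinearMap.adjoint_inner_right V x y).symm
  have h2 : ∀ x y, ⟪x, V y⟫_ℂ = ⟪W x, y⟫_ℂ := fun x y =>
    (ContinuousLinearMap.adjoint_inner_left V y x).symm
  have hWV : ∀ x, W (V x) = R x := fun x =>
    ext_inner_left ℂ fun y => by rw [← h1, hVR]
  have hg : ∀ x, gram (fun m => V (B (g m))) x = V ((B ∘L R ∘L Bs ∘L W) x) := by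
    intro x
    refine ext_inner_left ℂ fun y => (hasSum_inner_gram hs x y).unique ?_
    have e : ⟪y, V ((B ∘L R ∘L Bs ∘L W) x)⟫_ℂ = ⟪U (Bs (W y)), U (Bs (W x))⟫_ℂ := by
      rw [hUR, h2, adj_ZY2 hB]
      rfl
    rw [e]
    refine (congrArg (fun F => HasSum F _) (funext fun m => ?_)).mp
      (lp.hasSum_inner (𝕜 := ℂ) (U (Bs (W y))) (U (Bs (W x))))
    rw [RCLike.inner_apply, hU, hU, inner_conj_symm, h1, h2, hB, adj_ZY2 hB]
  rw [eig_iff hd hs]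
  simp only [hg]
  rw [eig_swap V _ _ (by exact_mod_cast hlam.ne')]
  simp only [ContinuousLinearMap.comp_apply, hWV]

theorem pair_ZY2 {f : ℕ × ℕ → ℝ} (hf : ∀ z, 0 ≤ f z) {a : ℕ → ℝ} {S : ℝ}
    (h1 : ∀ j, HasSum (fun m => f (j, m)) (a j)) (h2 : HasSum a S) : HasSum f S := by
  have h3 : Summable f := (summable_prod_of_nonneg hf).2 ⟨fun j => (h1 j).summable, by
    simpa only [fun j => (h1 j).tsum_eq] using h2.summable⟩
  rw [h2.unique (h3.hasSum.prod_fiberwise h1)]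
  exact h3.hasSum

theorem sum_ZY2 {ρ : ℕ → ℝ} (hρ : ∀ j, 0 ≤ ρ j) (hρ2 : Summable fun j => ρ j ^ 2)
    {R U V : L2 →L[ℂ] L2} {g : ℕ → L2} (hR : ∀ x n, R x n = (ρ n : ℂ) * x n)
    (hU : ∀ x n, U x n = ⟪g n, x⟫_ℂ) (hUR : ∀ x y, ⟪U y, U x⟫_ℂ = ⟪y, R x⟫_ℂ)
    (hVR : ∀ x y, ⟪V y, V x⟫_ℂ = ⟪y, R x⟫_ℂ) :
    HasSum (fun m => ‖V (g m)‖ ^ 2) (∑' j, ρ j ^ 2) := by
  have hn : ∀ {V : L2 →L[ℂ] L2}, (∀ x y, ⟪V y, V x⟫_ℂ = ⟪y, R x⟫_ℂ) → ∀ x,
      ‖V x‖ ^ 2 = (⟪x, R x⟫_ℂ).re := fun hV x => by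
    rw [← hV, inner_self_eq_norm_sq_to_K]
    norm_cast
  have a1 : ∀ x : L2, HasSum (fun j => ρ j * ‖x j‖ ^ 2) (‖V x‖ ^ 2) := fun x => by
    rw [hn hVR]
    refine (congrArg (fun F => HasSum F _) (funext fun j => ?_)).mp
      (Complex.hasSum_re (lp.hasSum_inner (𝕜 := ℂ) x (R x)))
    rw [RCLike.inner_apply, hR, mul_assoc, Complex.mul_conj']
    norm_cast
  have a2 : ∀ j, HasSum (fun m => ‖g m j‖ ^ 2) (ρ j) := fun j => by
    have h := hasSum_sq (U (lp.single 2 j (1 : ℂ)))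
    rw [hn hUR, inner_single, hR, lp.single_apply_self, mul_one, Complex.ofReal_re] at h
    refine (congrArg (fun F => HasSum F _) (funext fun m => ?_)).mp h
    rw [hU, norm_inner_symm, inner_single]
  have a3 := pair_ZY2 (f := fun z => ρ z.1 * ‖g z.2 z.1‖ ^ 2)
    (fun z => mul_nonneg (hρ _) (sq_nonneg _)) (a := fun j => ρ j ^ 2)
    (fun j => by rw [sq (ρ j)]; exact (a2 j).mul_left _) hρ2.hasSum
  exact ((Equiv.prodComm ℕ ℕ).hasSum_iff.2 a3).prod_fiberwise fun m => a1 (g m)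

theorem wt_ZY2 {c : ℕ → ℂ} {γ : ℕ → L2} (hγ : ∀ m n, γ m n = c (n + m)) {S : ℝ}
    (hs : HasSum (fun m => ‖γ m‖ ^ 2) S) :
    HasSum (fun n : ℕ => (1 + (n : ℝ)) * ‖c n‖ ^ 2) S := by
  have a1 := pair_ZY2 (f := fun z => ‖c (z.1 + z.2)‖ ^ 2) (fun z => sq_nonneg _)
    (fun m => by simpa only [hγ, add_comm m] using hasSum_sq (γ m)) hs
  refine (Finset.HasAntidiagonal.sigmaAntidiagonalEquivProd.hasSum_iff.2 a1).sigma fun n => ?_
  have e : ∀ z : Finset.HasAntidiagonal.antidiagonal n, ((fun z : ℕ × ℕ => ‖c (z.1 + z.2)‖ ^ 2) ∘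
      Finset.HasAntidiagonal.sigmaAntidiagonalEquivProd) ⟨n, z⟩ = ‖c n‖ ^ 2 := fun z =>
    congrArg (fun k => ‖c k‖ ^ 2) (Finset.HasAntidiagonal.mem_antidiagonal.1 z.2)
  simp only [e]
  have h := hasSum_fintype fun _ : Finset.HasAntidiagonal.antidiagonal n => ‖c n‖ ^ 2
  rwa [Finset.sum_const, Finset.card_univ, Fintype.card_coe, Finset.Nat.card_antidiagonal,
    nsmul_eq_mul, Nat.cast_succ, add_comm (n : ℝ)] at h

theorem stein_hankel (ρ : ℕ → ℝ) (hρ : ∀ j, 0 ≤ ρ j) (hρ2 : Summable fun j => ρ j ^ 2)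
    (R A As : L2 →L[ℂ] L2) (v v' : L2) (hR : ∀ x n, R x n = (ρ n : ℂ) * x n)
    (h : Stein R A As v v') :
    HasSum (fun n : ℕ => (1 + (n : ℝ)) * ‖⟪v', A^[n] v⟫_ℂ‖ ^ 2) (∑' j, ρ j ^ 2) ∧
      (∀ lam : ℝ, 0 < lam → (IsEigenvalueOfSquare (hankel fun n => ⟪v', A^[n] v⟫_ℂ) lam ↔
        ∃ x, x ≠ 0 ∧ R (R x) = (lam : ℂ) • x)) ∧
      (∀ lam : ℝ, 0 < lam →
        (IsEigenvalueOfSquare (fun h => hankel (fun n => ⟪v', A^[n] v⟫_ℂ) (shift h)) lam ↔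
          ∃ x, x ≠ 0 ∧ A (R (As (R x))) = (lam : ℂ) • x)) := by
  obtain ⟨U, hU, hUR⟩ := exV_ZX3 (g := fun n => A^[n] v) (lim_ZY2 h.adj h.e1 h.t1)
  obtain ⟨V, hV, hVR⟩ := exV_ZX3 (g := fun n => As^[n] v') (lim_ZY2 (adj_ZY2 h.adj) h.e2 h.t2)
  have hs := sum_ZY2 hρ hρ2 hR hU hUR hVR
  have hc : ∀ n m, ⟪As^[n] v', A^[m] v⟫_ℂ = ⟪v', A^[n + m] v⟫_ℂ := fun n m => by
    rw [iter_ZY2 (adj_ZY2 h.adj), Function.iterate_add_apply]
  have hc' : ∀ n m, ⟪As^[n] v', A (A^[m] v)⟫_ℂ = ⟪v', A^[n + m + 1] v⟫_ℂ := fun n m => by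
    rw [add_assoc, ← hc, Function.iterate_succ_apply']
  refine ⟨wt_ZY2 (c := fun n => ⟪v', A^[n] v⟫_ℂ) (fun m n => by rw [hV, hc]) hs,
    fun lam hlam => ?_, fun lam hlam => ?_⟩
  · exact eig_ZY2 (B := 1) (Bs := 1) (fun _ _ => rfl) hU hUR hVR
      (fun m n => by rw [one_apply_eq_self, hV, hc]) hs.summable lam hlam
  · simp only [hankel_shift]
    refine eig_ZY2 h.adj hU hUR hVR (fun m n => by rw [hV, hc']) ?_ lam hlam
    simpa only [Function.iterate_succ_apply'] using (summable_nat_add_iff 1).2 hs.summable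

end Pool.Agent.MP_301177_an

end

end

section
open Filter Topology InnerProductSpace
open scoped InnerProductSpace ComplexConjugate ComplexOrder

noncomputable section

namespace Pool.Agent.MP_301177_an

theorem weak_ZY3 (Z : L2 →L[ℂ] L2) (hZi : ∀ x, Z x = 0 → x = 0) (u : ℕ → L2) (B : ℝ)
    (hB : ∀ N, ‖u N‖ ≤ B) (h : Tendsto (fun N => ‖Z (u N)‖) atTop (𝓝 0)) (w : L2) :
    Tendsto (fun N => ⟪w, u N⟫_ℂ) atTop (𝓝 0) := by
  have hB0 : 0 ≤ B := (norm_nonneg _).trans (hB 0)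
  have hd : Dense (LinearMap.range ((ContinuousLinearMap.adjoint Z : L2 →L[ℂ] L2) :
      L2 →ₗ[ℂ] L2) : Set L2) := by
    rw [Submodule.dense_iff_topologicalClosure_eq_top, Submodule.topologicalClosure_eq_top_iff,
      Submodule.eq_bot_iff]
    intro v hv
    refine hZi v (inner_self_eq_zero (𝕜 := ℂ).1 ?_)
    rw [← ContinuousLinearMap.adjoint_inner_left]
    exact hv _ ⟨Z v, rfl⟩
  rw [tendsto_zero_iff_norm_tendsto_zero, Metric.tendsto_atTop]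
  intro ε hε
  obtain ⟨_, ⟨y, rfl⟩, hy⟩ := Metric.mem_closure_iff.1 (hd w) (ε / 2 / (B + 1)) (by positivity)
  have h1 : Tendsto (fun N => ‖y‖ * ‖Z (u N)‖) atTop (𝓝 0) := by
    simpa using h.const_mul ‖y‖
  obtain ⟨N, hN⟩ := eventually_atTop.1 (h1.eventually (gt_mem_nhds (half_pos hε)))
  refine ⟨N, fun n hn => ?_⟩
  rw [dist_eq_norm, ContinuousLinearMap.coe_coe, lt_div_iff₀ (by positivity)] at hy
  have e : ⟪w, u n⟫_ℂ = ⟪w - ContinuousLinearMap.adjoint Z y, u n⟫_ℂ + ⟪y, Z (u n)⟫_ℂ := by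
    rw [inner_sub_left, ContinuousLinearMap.adjoint_inner_left, sub_add_cancel]
  have h2 := norm_inner_le_norm (𝕜 := ℂ) (w - ContinuousLinearMap.adjoint Z y) (u n)
  have h3 := norm_inner_le_norm (𝕜 := ℂ) y (Z (u n))
  have h4 := hN n hn
  have h5 : ‖w - ContinuousLinearMap.adjoint Z y‖ * ‖u n‖ ≤
      ‖w - ContinuousLinearMap.adjoint Z y‖ * (B + 1) :=
    mul_le_mul_of_nonneg_left (by linarith [hB n]) (norm_nonneg _)
  rw [Real.dist_eq, sub_zero, abs_norm, e]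
  linarith [norm_add_le ⟪w - ContinuousLinearMap.adjoint Z y, u n⟫_ℂ ⟪y, Z (u n)⟫_ℂ]

theorem comp_ZY3 (ρ : ℕ → ℝ) (hρ0 : Tendsto ρ atTop (𝓝 0)) (R : L2 →L[ℂ] L2)
    (hR : ∀ x n, R x n = (ρ n : ℂ) * x n) (u : ℕ → L2) (B : ℝ) (hB : ∀ N, ‖u N‖ ≤ B)
    (h : ∀ j, Tendsto (fun N => u N j) atTop (𝓝 0)) :
    Tendsto (fun N => ‖R (u N)‖ ^ 2) atTop (𝓝 0) := by
  rw [Metric.tendsto_atTop]
  intro ε hε
  have h0 : Tendsto (fun j => ρ j ^ 2) atTop (𝓝 0) := by simpa using hρ0.pow 2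
  set δ : ℝ := ε / 2 / (B ^ 2 + 1) with hδ
  have hδ0 : 0 < δ := by positivity
  obtain ⟨J, hJ⟩ := eventually_atTop.1 (h0.eventually (gt_mem_nhds hδ0))
  have h1 : Tendsto (fun N => ∑ j ∈ Finset.range J, ρ j ^ 2 * ‖u N j‖ ^ 2) atTop (𝓝 0) := by
    have := tendsto_finsetSum (Finset.range J) fun j _ =>
      ((h j).norm.pow 2).const_mul (ρ j ^ 2)
    simpa using this
  obtain ⟨N, hN⟩ := eventually_atTop.1 (h1.eventually (gt_mem_nhds (half_pos hε)))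
  refine ⟨N, fun n hn => ?_⟩
  have h2 : HasSum (fun j => if j ∈ Finset.range J then ρ j ^ 2 * ‖u n j‖ ^ 2 else 0)
      (∑ j ∈ Finset.range J, ρ j ^ 2 * ‖u n j‖ ^ 2) := by
    rw [← Finset.sum_congr rfl fun j (hj : j ∈ Finset.range J) =>
      if_pos (t := ρ j ^ 2 * ‖u n j‖ ^ 2) (e := 0) hj]
    exact hasSum_sum_of_ne_finset_zero fun j hj => if_neg hj
  have h3 := hasSum_le (fun j => ?_) (hasSum_sq (R (u n)))
    (h2.add ((hasSum_sq (u n)).mul_left δ))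
  · have h4 := hN n hn
    have h5 : ‖u n‖ ^ 2 ≤ B ^ 2 + 1 :=
      (pow_le_pow_left₀ (norm_nonneg _) (hB n) 2).trans (by linarith)
    have h6 : δ * (B ^ 2 + 1) = ε / 2 := div_mul_cancel₀ _ (by positivity)
    rw [Real.dist_eq, sub_zero, abs_of_nonneg (sq_nonneg _)]
    linarith [mul_le_mul_of_nonneg_left h5 hδ0.le]
  · rw [hR, norm_mul, mul_pow, Complex.norm_real, Real.norm_eq_abs, sq_abs]
    split_ifs with hj
    · exact le_add_of_nonneg_right (by positivity)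
    · rw [zero_add]
      exact mul_le_mul_of_nonneg_right (hJ j (by simpa using hj)).le (sq_nonneg _)

theorem weak_stab (ρ : ℕ → ℝ) (hρ0 : Tendsto ρ atTop (𝓝 0))
    (R A Z : L2 →L[ℂ] L2) (hR : ∀ x n, R x n = (ρ n : ℂ) * x n)
    (hZ : ∀ x, ‖A x‖ ^ 2 + ‖Z x‖ ^ 2 ≤ ‖x‖ ^ 2) (hZi : ∀ x, Z x = 0 → x = 0) (x y : L2) :
    Tendsto (fun N => ⟪A^[N] y, R (A^[N] x)⟫_ℂ) atTop (𝓝 0) := by
  have hA1 : ∀ z, ‖A z‖ ≤ ‖z‖ := fun z =>
    (abs_le_of_sq_le_sq' (by linarith [hZ z, sq_nonneg ‖Z z‖]) (norm_nonneg _)).2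
  have hn : ∀ z N, ‖A^[N] z‖ ≤ ‖z‖ := fun z N => by
    induction N with
    | zero => exact le_rfl
    | succ N ih => rw [Function.iterate_succ_apply']; exact (hA1 _).trans ih
  have ha : Antitone fun N => ‖A^[N] x‖ ^ 2 := antitone_nat_of_succ_le fun N => by
    rw [Function.iterate_succ_apply']
    exact pow_le_pow_left₀ (norm_nonneg _) (hA1 _) 2
  have h1 := tendsto_atTop_ciInf ha ⟨0, by rintro _ ⟨N, rfl⟩; positivity⟩
  have h2 := h1.sub (h1.comp (tendsto_add_atTop_nat 1))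
  rw [sub_self] at h2
  have h3 : Tendsto (fun N => ‖Z (A^[N] x)‖ ^ 2) atTop (𝓝 0) := by
    refine squeeze_zero (fun N => by positivity) (fun N => ?_) h2
    rw [Function.comp_apply, Function.iterate_succ_apply']
    linarith [hZ (A^[N] x)]
  have h4 : Tendsto (fun N => ‖Z (A^[N] x)‖) atTop (𝓝 0) := by simpa using h3.sqrt
  have h5 := comp_ZY3 ρ hρ0 R hR (fun N => A^[N] x) ‖x‖ (hn x) fun j => by
    simpa only [inner_single] using weak_ZY3 Z hZi _ ‖x‖ (hn x) h4 (lp.single 2 j (1 : ℂ))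
  have h6 : Tendsto (fun N => ‖y‖ * ‖R (A^[N] x)‖) atTop (𝓝 0) := by
    simpa using h5.sqrt.const_mul ‖y‖
  rw [tendsto_zero_iff_norm_tendsto_zero]
  exact squeeze_zero (fun N => norm_nonneg _) (fun N => (norm_inner_le_norm _ _).trans
    (mul_le_mul_of_nonneg_right (hn y N) (norm_nonneg _))) h6

end Pool.Agent.MP_301177_an

end

end

section
open Filter Topology InnerProductSpace
open scoped InnerProductSpace ComplexConjugate ComplexOrder

noncomputable section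

namespace Pool.Agent.MP_301177_an

lemma key_ZY4a {s : ℕ → ℝ} (M : Model s) (y : L2) :
    ‖M.Q y‖ ^ 2 + ‖y - M.Qs (M.Q y)‖ ^ 2 ≤ ‖y‖ ^ 2 := by
  have h1 : RCLike.re ⟪y, M.Qs (M.Q y)⟫_ℂ = ‖M.Q y‖ ^ 2 := by
    rw [← M.hadj, inner_self_eq_norm_sq]
  have h2 := pow_le_pow_left₀ (norm_nonneg _) (M.hQs (M.Q y)) 2
  rw [@norm_sub_sq ℂ, h1]
  linarith

lemma cn_ZY4a {α : ℕ → ℂ} (hα : ∀ n, ‖α n‖ = 1) (n : ℕ) : ‖conj (α n)‖ = 1 := by
  rw [Complex.norm_conj, hα]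

lemma mc_ZY4a {α : ℕ → ℂ} (hα : ∀ n, ‖α n‖ = 1) (n : ℕ) : α n * conj (α n) = 1 := by
  rw [Complex.mul_conj, Complex.normSq_eq_norm_sq, hα]
  simp

/-- Conjugating a diagonal operator by inverse diagonal operators. -/
lemma cancel_ZY4a {a b d : ℕ → ℂ} (ha : ∀ n, ‖a n‖ = 1) (hb : ∀ n, ‖b n‖ = 1)
    (hab : ∀ n, a n * b n = 1) {D : L2 →L[ℂ] L2} (hD : ∀ x n, D x n = d n * x n) (y : L2) :
    dg a (D (dg b y)) = D y := by
  refine lp.ext (funext fun n => ?_)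
  rw [dg_apply fun n => (ha n).le, hD, dg_apply fun n => (hb n).le, hD]
  linear_combination d n * y n * hab n

lemma op_ZY4a {s : ℕ → ℝ} (M : Model s) {α β : ℕ → ℂ} (hα : ∀ n, ‖α n‖ = 1)
    (hβ : ∀ n, ‖β n‖ = 1) : ∃ Z : L2 →L[ℂ] L2,
      (∀ x, ‖M.op α β x‖ ^ 2 + ‖Z x‖ ^ 2 ≤ ‖x‖ ^ 2) ∧ ∀ x, Z x = 0 → x = 0 := by
  refine ⟨(ContinuousLinearMap.id ℂ L2 - M.Qs ∘L M.Q) ∘L dg fun n => conj (α n), fun x => ?_,
    fun x hx => ?_⟩
  · have h1 := key_ZY4a M (dg (fun n => conj (α n)) x)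
    rw [dg_norm (cn_ZY4a hα)] at h1
    have h2 : ‖M.op α β x‖ ≤ ‖M.Q (dg (fun n => conj (α n)) x)‖ :=
      (M.hQs _).trans (dg_norm hβ _).le
    exact le_trans (add_le_add (pow_le_pow_left₀ (norm_nonneg _) h2 2) le_rfl) h1
  · have h1 := M.hst _ (sub_eq_zero.1 hx).symm
    rw [← norm_eq_zero, ← dg_norm (cn_ZY4a hα)]
    exact norm_eq_zero.2 h1

lemma ops_ZY4a {s : ℕ → ℝ} (M : Model s) {α β : ℕ → ℂ} (hα : ∀ n, ‖α n‖ = 1)
    (hβ : ∀ n, ‖β n‖ = 1) : ∃ Z : L2 →L[ℂ] L2,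
      (∀ x, ‖M.ops α β x‖ ^ 2 + ‖Z x‖ ^ 2 ≤ ‖x‖ ^ 2) ∧ ∀ x, Z x = 0 → x = 0 := by
  refine ⟨ContinuousLinearMap.id ℂ L2 - M.Qs ∘L M.Q, fun x => ?_,
    fun x hx => M.hst _ (sub_eq_zero.1 hx).symm⟩
  have h2 : ‖M.ops α β x‖ ≤ ‖M.Q x‖ :=
    (dg_norm hα _).le.trans ((M.hQs _).trans (dg_norm (cn_ZY4a hβ) _).le)
  exact le_trans (add_le_add (pow_le_pow_left₀ (norm_nonneg _) h2 2) le_rfl) (key_ZY4a M x)

theorem Model.stein {s : ℕ → ℝ} (hpos : ∀ r, 0 < s r) (hanti : StrictAnti s)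
    (hs0 : Tendsto s atTop (𝓝 0)) (M : Model s) {α β : ℕ → ℂ} (hα : ∀ n, ‖α n‖ = 1)
    (hβ : ∀ n, ‖β n‖ = 1) : Stein (Rr s) (M.op α β) (M.ops α β) M.v (dg α M.v) := by
  have h0 : Tendsto (fun j => s (2 * j)) atTop (𝓝 0) :=
    hs0.comp (tendsto_id.const_mul_atTop' two_pos)
  have hR := Rr_apply hpos hanti
  have hS := Sg_apply hpos hanti
  obtain ⟨Z, z1, z2⟩ := op_ZY4a M hα hβ
  obtain ⟨Z', z1', z2'⟩ := ops_ZY4a M hα hβ
  refine ⟨M.op_adj hα hβ, fun x => ?_, fun x => ?_, weak_stab _ h0 _ _ Z' hR z1' z2',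
    weak_stab _ h0 _ _ Z hR z1 z2⟩
  · rw [M.op_apply, M.ops_apply,
      cancel_ZY4a (cn_ZY4a hα) hα (fun n => by rw [mul_comm, mc_ZY4a hα]) hR, M.h1,
      cancel_ZY4a hβ (cn_ZY4a hβ) (mc_ZY4a hβ) hS, M.h2, sub_sub_cancel]
  · rw [M.op_apply, M.ops_apply, M.h1,
      cancel_ZY4a (cn_ZY4a hβ) hβ (fun n => by rw [mul_comm, mc_ZY4a hβ]) hS, M.h2, map_sub,
      cancel_ZY4a hα (cn_ZY4a hα) (mc_ZY4a hα) hR, sub_sub_cancel, map_smul,
      dg_inner fun n => (hα n).le]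

theorem Model.op_lt {s : ℕ → ℝ} (M : Model s) {α β : ℕ → ℂ} (hα : ∀ n, ‖α n‖ = 1)
    (hβ : ∀ n, ‖β n‖ = 1) (x : L2) (hx : x ≠ 0) : ‖M.op α β x‖ < ‖x‖ := by
  obtain ⟨Z, z1, z2⟩ := op_ZY4a M hα hβ
  have h1 : 0 < ‖Z x‖ := norm_pos_iff.2 fun h => hx (z2 x h)
  refine lt_of_pow_lt_pow_left₀ 2 (norm_nonneg _) ?_
  nlinarith [z1 x]

end Pool.Agent.MP_301177_an

end

end

section
open Filter Topology InnerProductSpace
open scoped InnerProductSpace ComplexConjugate ComplexOrder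

noncomputable section

namespace Pool.Agent.MP_301177_an

theorem Model.coef_mem {s : ℕ → ℝ} (hpos : ∀ r, 0 < s r) (hanti : StrictAnti s)
    (hsum : Summable fun r => s r ^ 2) (M : Model s) {α β : ℕ → ℂ} (hα : ∀ n, ‖α n‖ = 1)
    (hβ : ∀ n, ‖β n‖ = 1) :
    InTorus s (M.coef α β) ∧
      HasSum (fun n : ℕ => (1 + (n : ℝ)) * ‖M.coef α β n‖ ^ 2) (∑' j, s (2 * j) ^ 2) := by
  have St := M.stein hpos hanti (tendsto_s hpos hsum) hα hβ
  obtain ⟨a1, a2, a3⟩ := stein_hankel (fun j => s (2 * j)) (fun j => (hpos _).le)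
    (summable_even hsum) _ _ _ _ _ (Rr_apply hpos hanti) St
  refine ⟨⟨a1.summable, fun lam hl => (a2 lam hl).trans ?_, fun lam hl => (a3 lam hl).trans ?_⟩, a1⟩
  · refine eig_diag (fun j => s (2 * j) ^ 2) (Rr s ∘L Rr s) (fun x n => ?_) lam
    rw [ContinuousLinearMap.comp_apply, Rr_apply hpos hanti, Rr_apply hpos hanti]
    push_cast
    ring
  · have key : ∀ y, M.op α β (Rr s (M.ops α β y)) = M.Qs (Sg s (M.Q y)) := fun y => by
      rw [M.h2, ← St.e1, sub_sub_cancel]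
    simp only [key]
    refine (eig_swap M.Qs (Sg s ∘L M.Q ∘L Rr s) lam (by exact_mod_cast hl.ne')).trans ?_
    simp only [ContinuousLinearMap.comp_apply, M.h1]
    refine eig_diag (fun k => s (2 * k + 1) ^ 2) (Sg s ∘L Sg s) (fun x n => ?_) lam
    rw [ContinuousLinearMap.comp_apply, Sg_apply hpos hanti, Sg_apply hpos hanti]
    push_cast
    ring

theorem dg_one_ZY4b (x : L2) : dg (fun _ => 1) x = x :=
  lp.ext (funext fun n => by rw [dg_apply (M := 1) (fun _ => by simp), one_mul])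

theorem Model.coef_zero {s : ℕ → ℝ} (M : Model s) :
    ZeroAngle (M.coef (fun _ => 1) (fun _ => 1)) := by
  have e : M.op (fun _ => 1) (fun _ => 1) = M.Qs ∘L M.Q := by
    ext1 x
    simp only [Model.op_apply, map_one, dg_one_ZY4b, ContinuousLinearMap.comp_apply]
  have hA : (M.Qs ∘L M.Q).IsPositive := by
    refine ⟨fun x y => ?_, fun x => ?_⟩
    · change ⟪M.Qs (M.Q x), y⟫_ℂ = ⟪x, M.Qs (M.Q y)⟫_ℂ
      rw [M.hadj', M.hadj]
    · change 0 ≤ RCLike.re ⟪M.Qs (M.Q x), x⟫_ℂ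
      rw [M.hadj']
      exact inner_self_nonneg
  have e1 : M.coef (fun _ => 1) (fun _ => 1) = fun n => ⟪M.v, (M.Qs ∘L M.Q)^[n] M.v⟫_ℂ :=
    funext fun n => by rw [Model.coef, e, dg_one_ZY4b]
  rw [e1]
  generalize M.Qs ∘L M.Q = A at hA
  generalize M.v = v
  have hc : ∀ n m, ⟪A^[n] v, A^[m] v⟫_ℂ = ⟪v, A^[n + m] v⟫_ℂ := fun n m => by
    rw [iter_ZX3 hA, Function.iterate_add_apply]
  have hc' : ∀ n m, ⟪A^[n] v, A (A^[m] v)⟫_ℂ = ⟪v, A^[n + m + 1] v⟫_ℂ := fun n m => by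
    rw [add_assoc, ← hc, Function.iterate_succ_apply']
  have h1 : (1 : L2 →L[ℂ] L2).IsPositive := ContinuousLinearMap.isPositive_one
  refine ⟨fun N => ?_, fun N => ?_⟩
  · simpa only [one_apply_eq_self, hc] using psd_ZX3 h1 fun i : Fin N => A^[i] v
  · simpa only [hc'] using psd_ZX3 hA fun i : Fin N => A^[i] v

end Pool.Agent.MP_301177_an

end

end

section
open Filter Topology InnerProductSpace
open scoped InnerProductSpace ComplexConjugate ComplexOrder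

noncomputable section

namespace Pool.Agent.MP_301177_an

section
variable {E : Type} [NormedAddCommGroup E] [InnerProductSpace ℂ E] [CompleteSpace E]

/-- The generating function of an orbit. -/
def rs_ZY5 (A : E →L[ℂ] E) (y : E) (z : ℂ) : E := ∑' n, z ^ n • A^[n] y

omit [CompleteSpace E] in
lemma bd_ZY5 {A : E →L[ℂ] E} {y : E} {C a R : ℝ} (hb : ∀ n, ‖A^[n] y‖ ≤ C * a ^ n) {z : ℂ}
    (hz : ‖z‖ ≤ R) (n : ℕ) : ‖z ^ n • A^[n] y‖ ≤ C * (a * R) ^ n := by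
  rw [norm_smul, norm_pow, mul_pow, ← mul_assoc, mul_comm]
  exact mul_le_mul (hb n) (pow_le_pow_left₀ (norm_nonneg _) hz n) (by positivity)
    ((norm_nonneg _).trans (hb n))

lemma sum_ZY5 {A : E →L[ℂ] E} {y : E} {C a : ℝ} (ha : 0 ≤ a) (hb : ∀ n, ‖A^[n] y‖ ≤ C * a ^ n)
    {z : ℂ} (hz : a * ‖z‖ < 1) : rs_ZY5 A y z - z • A (rs_ZY5 A y z) = y ∧
      ∀ h : E, HasSum (fun n => ⟪h, A^[n] y⟫_ℂ * z ^ n) ⟪h, rs_ZY5 A y z⟫_ℂ := by
  have hs : Summable fun n => z ^ n • A^[n] y :=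
    Summable.of_norm_bounded ((summable_geometric_of_lt_one (by positivity) hz).mul_left C)
      (bd_ZY5 hb le_rfl)
  refine ⟨?_, fun h => ?_⟩
  · have h1 := (A.hasSum hs.hasSum).const_smul z
    simp only [map_smul, smul_smul, ← pow_succ', ← Function.iterate_succ_apply' A] at h1
    have h2 := hs.tsum_eq_zero_add
    rw [h1.tsum_eq] at h2
    rw [rs_ZY5, sub_eq_iff_eq_add]
    simpa using h2
  · have h1 := (innerSL ℂ h).hasSum hs.hasSum
    simp only [innerSL_apply_apply, inner_smul_right] at h1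
    simpa only [mul_comm, rs_ZY5] using h1

lemma diff_ZY5 {A : E →L[ℂ] E} {y : E} {C a R : ℝ} (ha : 0 ≤ a) (hR : 0 ≤ R) (h1 : a * R < 1)
    (hb : ∀ n, ‖A^[n] y‖ ≤ C * a ^ n) (h : E) :
    DifferentiableOn ℂ (fun z => ⟪h, rs_ZY5 A y z⟫_ℂ) (Metric.ball 0 R) :=
  (innerSL ℂ h).differentiable.comp_differentiableOn
    (Complex.differentiableOn_tsum_of_summable_norm
      ((summable_geometric_of_lt_one (by positivity) h1).mul_left C)
      (fun n => by fun_prop) Metric.isOpen_ball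
      fun n z hz => bd_ZY5 hb (mem_ball_zero_iff.1 hz).le n)

omit [CompleteSpace E] in
lemma rate_ZY5 {A : E →L[ℂ] E} {y : E} {C a : ℝ} (ha : 0 ≤ a) (hb : ∀ n, ‖A^[n] y‖ ≤ C * a ^ n) :
    0 ≤ C ∧ ∀ q, a ≤ q → ∀ n, ‖A^[n] y‖ ≤ C * q ^ n := by
  have h0 : 0 ≤ C := by simpa using (norm_nonneg _).trans (hb 0)
  exact ⟨h0, fun q hq n => (hb n).trans
    (mul_le_mul_of_nonneg_left (pow_le_pow_left₀ ha hq n) h0)⟩

omit [CompleteSpace E] in
lemma fin_ZY5 {A A' : E →L[ℂ] E} {g h y : E} (hA' : ∀ x, A' x = A x + ⟪h, x⟫_ℂ • g)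
    {Cg Cy C q : ℝ} (h0 : 0 < q) (h1 : q < 1) (hg : ∀ n, ‖A^[n] g‖ ≤ Cg * q ^ n)
    (hy : ∀ n, ‖A^[n] y‖ ≤ Cy * q ^ n) (hC : 0 ≤ C)
    (ht : ∀ n, ‖⟪h, A'^[n] y⟫_ℂ‖ ≤ C * q ^ n) : Geo A' y := by
  have g0 := (rate_ZY5 h0.le hg).1
  have y0 := (rate_ZY5 h0.le hy).1
  obtain ⟨K, K0, hK⟩ : ∃ K : ℝ, 0 ≤ K ∧ K * (1 - q) * q = C * Cg := by
    have : 0 < 1 - q := by linarith
    exact ⟨C * Cg / ((1 - q) * q), by positivity, by field_simp⟩
  have key : ∀ n k : ℕ, ‖A^[k] (A'^[n] y)‖ ≤ (Cy + n * (K * (1 - q))) * q ^ (n + k) := by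
    intro n
    induction n with
    | zero => simpa using hy
    | succ n ih =>
      intro k
      have e : A^[k] (A'^[n + 1] y) = A^[k + 1] (A'^[n] y) + ⟪h, A'^[n] y⟫_ℂ • A^[k] g := by
        rw [Function.iterate_succ_apply', hA', Function.iterate_succ_apply,
          ← FunLike.coe_pow_eq_iterate, map_add, map_smul]
      rw [e]
      refine (norm_add_le _ _).trans ?_
      rw [norm_smul]
      refine (add_le_add (ih (k + 1))
        (mul_le_mul (ht n) (hg k) (norm_nonneg _) (by positivity))).trans (le_of_eq ?_)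
      push_cast
      linear_combination (-(q ^ n * q ^ k)) * hK
  refine ⟨Cy + K, (1 + (1 - q)) * q, by nlinarith, by nlinarith, fun n => ?_⟩
  have h2 := key n 0
  have h3 := one_add_mul_le_pow (a := 1 - q) (by linarith) n
  have h4 : (0 : ℝ) ≤ n * (1 - q) := mul_nonneg n.cast_nonneg (by linarith)
  rw [mul_pow, ← mul_assoc]
  refine le_trans h2 (mul_le_mul_of_nonneg_right ?_ (by positivity))
  refine le_trans ?_ (mul_le_mul_of_nonneg_left h3 (by positivity))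
  nlinarith [mul_nonneg y0 h4]

end

theorem geo_perturb {E : Type} [NormedAddCommGroup E] [InnerProductSpace ℂ E] [CompleteSpace E]
    (A A' : E →L[ℂ] E) (g h : E) (hA' : ∀ x, A' x = A x + ⟪h, x⟫_ℂ • g)
    (hA : ∀ x, ‖A x‖ ≤ ‖x‖) (hlt : ∀ x, x ≠ 0 → ‖A' x‖ < ‖x‖) (hg : Geo A g) {y : E}
    (hy : Geo A y) : Geo A' y := by
  obtain ⟨Cg, ag, g0, g1, g2⟩ := hg
  obtain ⟨Cy, ay, y0, y1, y2⟩ := hy
  obtain ⟨a, a0, a1, hg, hy⟩ : ∃ a : ℝ, 0 ≤ a ∧ a < 1 ∧ (∀ n, ‖A^[n] g‖ ≤ Cg * a ^ n) ∧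
      ∀ n, ‖A^[n] y‖ ≤ Cy * a ^ n :=
    ⟨max ag ay, le_max_of_le_left g0, max_lt g1 y1, (rate_ZY5 g0 g2).2 _ (le_max_left _ _),
      (rate_ZY5 y0 y2).2 _ (le_max_right _ _)⟩
  obtain ⟨R, R1, R2⟩ : ∃ R : ℝ, 1 < R ∧ a * R < 1 := by
    have : 0 < 1 + a := by linarith
    refine ⟨2 / (1 + a), (one_lt_div this).2 (by linarith), ?_⟩
    rw [← mul_div_assoc, div_lt_one this]
    linarith
  have hz1 : ∀ z : ℂ, ‖z‖ ≤ 1 → a * ‖z‖ < 1 := fun z hz => by nlinarith [norm_nonneg z]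
  have db := diff_ZY5 a0 (by linarith) R2 hg h
  have da := diff_ZY5 a0 (by linarith) R2 hy h
  have dd : DifferentiableOn ℂ (fun z => 1 - z * ⟪h, rs_ZY5 A g z⟫_ℂ) (Metric.ball 0 R) :=
    (differentiableOn_const _).sub (differentiableOn_id.mul db)
  have hU := dd.continuousOn.isOpen_inter_preimage Metric.isOpen_ball
    (isOpen_compl_singleton (x := (0 : ℂ)))
  obtain ⟨δ, δ0, hδ⟩ := (isCompact_closedBall (0 : ℂ) 1).exists_thickening_subset_open hU (by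
    intro z hz
    rw [mem_closedBall_zero_iff] at hz
    refine ⟨mem_ball_zero_iff.2 (by linarith), fun hd => ?_⟩
    have hd' : 1 - z * ⟪h, rs_ZY5 A g z⟫_ℂ = 0 := hd
    have e1 := (sum_ZY5 a0 hg (hz1 z hz)).1
    obtain ⟨x, hx⟩ : ∃ x, x = rs_ZY5 A g z := ⟨_, rfl⟩
    rw [← hx] at e1 hd'
    have e2 : x = z • A' x := by
      rw [hA', smul_add, smul_smul, ← sub_eq_zero.1 hd', one_smul, ← e1]
      abel
    have e3 : x ≠ 0 := fun h0 => by simp [h0] at hd'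
    have e4 := hlt x e3
    have e5 := congrArg norm e2
    rw [norm_smul] at e5
    nlinarith [norm_nonneg (A' x)])
  rw [thickening_closedBall δ0 zero_le_one] at hδ
  have hA1 : ∀ x, ‖A' x‖ ≤ ‖x‖ := fun x => by
    by_cases h0 : x = 0
    · simp [h0]
    · exact (hlt x h0).le
  have hX : ∀ n, ‖A'^[n] y‖ ≤ ‖y‖ * 1 ^ n := fun n => by
    rw [one_pow, mul_one]
    induction n with
    | zero => exact le_rfl
    | succ n ih =>
      rw [Function.iterate_succ_apply']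
      exact (hA1 _).trans ih
  have hE : ExtendsTo (fun n => ⟪h, A'^[n] y⟫_ℂ) (δ + 1) := by
    refine ⟨fun z => ⟪h, rs_ZY5 A y z⟫_ℂ / (1 - z * ⟪h, rs_ZY5 A g z⟫_ℂ),
      (da.mono fun z hz => (hδ hz).1).div (dd.mono fun z hz => (hδ hz).1) fun z hz => (hδ hz).2,
      fun z hz => ?_⟩
    have hd : 1 - z * ⟪h, rs_ZY5 A g z⟫_ℂ ≠ 0 :=
      (hδ (Metric.ball_subset_ball (by linarith) hz)).2
    rw [mem_ball_zero_iff] at hz
    obtain ⟨e1, e2⟩ := sum_ZY5 zero_le_one hX (z := z) (by linarith)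
    have e3 := (sum_ZY5 a0 hg (hz1 z hz.le)).1
    have e4 := (sum_ZY5 a0 hy (hz1 z hz.le)).1
    refine (congrArg (HasSum _) ?_).mp (e2 h)
    beta_reduce
    generalize rs_ZY5 A' y z = X at e1 ⊢
    generalize rs_ZY5 A g z = G at e3 hd ⊢
    generalize rs_ZY5 A y z = Y at e4 ⊢
    obtain ⟨w, hw⟩ : ∃ w, w = X - Y - (z * ⟪h, X⟫_ℂ) • G := ⟨_, rfl⟩
    have e5 : w = z • A w := by
      rw [hA'] at e1
      rw [hw, map_sub, map_sub, map_smul]
      linear_combination (norm := module) e1 - e4 - (z * ⟪h, X⟫_ℂ) • e3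
    have e6 := congrArg norm e5
    rw [norm_smul] at e6
    have e7 : w = 0 := by
      have := mul_le_mul_of_nonneg_left (hA w) (norm_nonneg z)
      refine norm_eq_zero.1 (le_antisymm ?_ (norm_nonneg w))
      nlinarith [norm_nonneg w]
    have e8 := congrArg (fun v => ⟪h, v⟫_ℂ) (hw.symm.trans e7)
    simp only [inner_sub_right, inner_smul_right, inner_zero_right] at e8
    rw [eq_div_iff hd]
    linear_combination e8
  obtain ⟨r, r1, r2⟩ := exists_between (inv_lt_one_of_one_lt₀ (by linarith : 1 < δ + 1))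
  obtain ⟨C, C0, hC⟩ := coeff_bound (by linarith) hE r1
  have r0 : 0 < r := lt_trans (by positivity) r1
  exact fin_ZY5 hA' (q := max a r) (lt_max_of_lt_right r0) (max_lt a1 r2)
    ((rate_ZY5 a0 hg).2 _ (le_max_left _ _)) ((rate_ZY5 a0 hy).2 _ (le_max_left _ _)) C0
    fun n => (hC n).trans
      (mul_le_mul_of_nonneg_left (pow_le_pow_left₀ r0.le (le_max_right _ _) n) C0)

end Pool.Agent.MP_301177_an

end

end

section
open Filter Topology InnerProductSpace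
open scoped InnerProductSpace ComplexConjugate ComplexOrder

noncomputable section

namespace Pool.Agent.MP_301177_an

theorem iter_ZY6a {A As : L2 →L[ℂ] L2} (adj : ∀ x y, ⟪A x, y⟫_ℂ = ⟪x, As y⟫_ℂ) (n : ℕ)
    (x y : L2) : ⟪A^[n] x, y⟫_ℂ = ⟪x, As^[n] y⟫_ℂ := by
  induction n generalizing y with
  | zero => rfl
  | succ n ih => rw [Function.iterate_succ_apply', adj, ih, Function.iterate_succ_apply]

theorem adj_ZY6a {A As : L2 →L[ℂ] L2} (adj : ∀ x y, ⟪A x, y⟫_ℂ = ⟪x, As y⟫_ℂ) (x y : L2) :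
    ⟪As x, y⟫_ℂ = ⟪x, A y⟫_ℂ := by
  rw [← inner_conj_symm, ← adj, inner_conj_symm]

theorem lim_ZY6a {R A As : L2 →L[ℂ] L2} {v : L2} (adj : ∀ x y, ⟪A x, y⟫_ℂ = ⟪x, As y⟫_ℂ)
    (e1 : ∀ x, R x - A (R (As x)) = ⟪v, x⟫_ℂ • v)
    (t1 : ∀ x y, Tendsto (fun N => ⟪As^[N] y, R (As^[N] x)⟫_ℂ) atTop (𝓝 0)) (x y : L2) :
    Tendsto (fun N => ∑ n ∈ Finset.range N, ⟪y, A^[n] v⟫_ℂ * ⟪A^[n] v, x⟫_ℂ) atTop
      (𝓝 ⟪y, R x⟫_ℂ) := by
  have h : ∀ N, ∑ n ∈ Finset.range N, ⟪y, A^[n] v⟫_ℂ * ⟪A^[n] v, x⟫_ℂ =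
      ⟪y, R x⟫_ℂ - ⟪As^[N] y, R (As^[N] x)⟫_ℂ := by
    intro N
    induction N with
    | zero => simp
    | succ N ih =>
      have e := congrArg (fun z => ⟪As^[N] y, z⟫_ℂ) (e1 (As^[N] x))
      simp only [inner_sub_right, inner_smul_right] at e
      rw [Finset.sum_range_succ, ih, Function.iterate_succ_apply', Function.iterate_succ_apply',
        adj_ZY6a adj, ← iter_ZY6a (adj_ZY6a adj) N y v, iter_ZY6a adj N v x]
      linear_combination -e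
  simp only [h]
  simpa using tendsto_const_nhds.sub (t1 x y)

theorem sq_ZY6a {R : L2 →L[ℂ] L2} {g : ℕ → L2} {x : L2}
    (h : Tendsto (fun N => ∑ n ∈ Finset.range N, ⟪x, g n⟫_ℂ * ⟪g n, x⟫_ℂ) atTop
      (𝓝 ⟪x, R x⟫_ℂ)) : HasSum (fun n => ‖⟪g n, x⟫_ℂ‖ ^ 2) (⟪x, R x⟫_ℂ).re := by
  rw [hasSum_iff_tendsto_nat_of_nonneg fun n => sq_nonneg _]
  refine ((Complex.continuous_re.tendsto _).comp h).congr fun N => ?_
  simp only [Function.comp, Complex.re_sum]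
  refine Finset.sum_congr rfl fun n _ => ?_
  rw [← inner_conj_symm x (g n), Complex.conj_mul']
  norm_cast

theorem stein_geo {R A As : L2 →L[ℂ] L2} {v v' : L2} (h : Stein R A As v v') {C a : ℝ}
    (ha0 : 0 ≤ a) (ha1 : a < 1) (hc : ∀ n, ‖⟪v', A^[n] v⟫_ℂ‖ ≤ C * a ^ n) : Geo A v := by
  have hD : 0 ≤ C ^ 2 * (1 - a)⁻¹ := mul_nonneg (sq_nonneg _) (inv_nonneg.2 (by linarith))
  refine ⟨1 + C ^ 2 * (1 - a)⁻¹, √a, Real.sqrt_nonneg _,
    (Real.sqrt_lt' one_pos).2 (by simpa using ha1), fun n => ?_⟩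
  have h1 := le_hasSum (sq_ZY6a (lim_ZY6a h.adj h.e1 h.t1 (A^[n] v) (A^[n] v))) n
    fun _ _ => sq_nonneg _
  have h2 := sq_ZY6a (lim_ZY6a (adj_ZY6a h.adj) h.e2 h.t2 (A^[n] v) (A^[n] v))
  have h3 := hasSum_le (fun m => ?_) h2
    ((hasSum_geometric_of_lt_one ha0 ha1).mul_left (C ^ 2 * a ^ (2 * n)))
  · refine le_of_pow_le_pow_left₀ (n := 4) (by norm_num) (by positivity) ?_
    have e1 : ‖⟪A^[n] v, A^[n] v⟫_ℂ‖ ^ 2 = ‖A^[n] v‖ ^ 4 := by
      rw [inner_self_eq_norm_sq_to_K, norm_pow, RCLike.norm_ofReal, abs_norm]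
      ring
    have e2 : (√a ^ n) ^ 4 = a ^ (2 * n) := by
      rw [← pow_mul, show n * 4 = 2 * (2 * n) by ring, pow_mul, Real.sq_sqrt ha0]
    have h4 : 1 + C ^ 2 * (1 - a)⁻¹ ≤ (1 + C ^ 2 * (1 - a)⁻¹) ^ 4 :=
      le_self_pow₀ (by linarith) (by norm_num)
    have h5 : 0 ≤ a ^ (2 * n) := pow_nonneg ha0 _
    rw [mul_pow, e2, ← e1]
    nlinarith [mul_le_mul_of_nonneg_right h4 h5]
  · rw [iter_ZY6a (adj_ZY6a h.adj), ← Function.iterate_add_apply]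
    refine (pow_le_pow_left₀ (norm_nonneg _) (hc _) 2).trans ?_
    have h4 : a ^ m ≤ 1 := pow_le_one₀ ha0 ha1.le
    have h5 : 0 ≤ C ^ 2 * a ^ (2 * n) * a ^ m := by positivity
    calc (C * a ^ (m + n)) ^ 2 = C ^ 2 * a ^ (2 * n) * a ^ m * a ^ m := by ring
      _ ≤ _ := mul_le_of_le_one_right h5 h4

theorem stein_geo_range {R A As : L2 →L[ℂ] L2} {v v' : L2} (h : Stein R A As v v')
    (hv : Geo A v) (x : L2) : Geo A (R x) := by
  obtain ⟨C, a, ha0, ha1, hc⟩ := hv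
  have hC : 0 ≤ C := by simpa using (norm_nonneg _).trans (hc 0)
  have hi : 0 ≤ (1 - a)⁻¹ := inv_nonneg.2 (by linarith)
  refine ⟨‖x‖ * C ^ 2 * (1 - a)⁻¹, a, ha0, ha1, fun n => ?_⟩
  generalize hy : A^[n] (R x) = y
  have h1 := (lim_ZY6a h.adj h.e1 h.t1 x (As^[n] y)).norm
  rw [iter_ZY6a (adj_ZY6a h.adj), hy, inner_self_eq_norm_sq_to_K, norm_pow, RCLike.norm_ofReal,
    abs_norm] at h1
  have h2 : ‖y‖ ^ 2 ≤ ‖y‖ * ‖x‖ * C ^ 2 * a ^ n * (1 - a)⁻¹ := by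
    refine le_of_tendsto' h1 fun N => (norm_sum_le _ _).trans ?_
    refine le_trans (Finset.sum_le_sum fun m _ => ?_) (sum_le_hasSum _ (fun m _ => by positivity)
      ((hasSum_geometric_of_lt_one ha0 ha1).mul_left (‖y‖ * ‖x‖ * C ^ 2 * a ^ n)))
    rw [iter_ZY6a (adj_ZY6a h.adj), ← Function.iterate_add_apply, norm_mul]
    have k1 : ‖⟪y, A^[n + m] v⟫_ℂ‖ ≤ ‖y‖ * (C * a ^ (n + m)) :=
      (norm_inner_le_norm _ _).trans (mul_le_mul_of_nonneg_left (hc _) (norm_nonneg _))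
    have k2 : ‖⟪A^[m] v, x⟫_ℂ‖ ≤ C * ‖x‖ :=
      (norm_inner_le_norm _ _).trans (mul_le_mul_of_nonneg_right
        ((hc m).trans (mul_le_of_le_one_right hC (pow_le_one₀ ha0 ha1.le))) (norm_nonneg _))
    refine (mul_le_mul k1 k2 (norm_nonneg _) (by positivity)).trans (le_of_eq ?_)
    ring
  have h3 : 0 ≤ ‖x‖ * C ^ 2 * (1 - a)⁻¹ * a ^ n := by positivity
  by_contra hn
  rw [not_le] at hn
  nlinarith [mul_lt_mul_of_pos_left hn (h3.trans_lt hn)]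

end Pool.Agent.MP_301177_an

end

end

section
open Filter Topology InnerProductSpace
open scoped InnerProductSpace ComplexConjugate ComplexOrder

noncomputable section

namespace Pool.Agent.MP_301177_an

theorem geo_smul_ZY6b {A : L2 →L[ℂ] L2} {y : L2} (h : Geo A y) (t : ℂ) : Geo A (t • y) := by
  obtain ⟨C, a, h0, h1, h⟩ := h
  refine ⟨‖t‖ * C, a, h0, h1, fun n => ?_⟩
  have e : A^[n] (t • y) = t • A^[n] y := by
    induction n with
    | zero => rfl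
    | succ n ih => rw [Function.iterate_succ_apply', Function.iterate_succ_apply', ih, map_smul]
  rw [e, norm_smul, mul_assoc]
  exact mul_le_mul_of_nonneg_left (h n) (norm_nonneg _)

theorem geo_map_ZY6b {A : L2 →L[ℂ] L2} {y : L2} (h : Geo A y) : Geo A (A y) := by
  obtain ⟨C, a, h0, h1, h⟩ := h
  refine ⟨C * a, a, h0, h1, fun n => ?_⟩
  rw [← Function.iterate_succ_apply]
  exact (h (n + 1)).trans_eq (by ring)

theorem dg_upd_ZY6b {d d' : ℕ → ℂ} (hd : ∀ n, ‖d n‖ = 1) (hd' : ∀ n, ‖d' n‖ = 1) {j : ℕ}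
    (h : ∀ n, n ≠ j → d' n = d n) (x : L2) :
    dg d' x = dg d x + ((d' j - d j) * x j) • (lp.single 2 j 1 : L2) := by
  refine lp.ext (funext fun n => ?_)
  rw [lp.coeFn_add, lp.coeFn_smul, Pi.add_apply, Pi.smul_apply, dg_apply (fun n => (hd n).le),
    dg_apply (fun n => (hd' n).le), smul_eq_mul]
  by_cases e : n = j
  · subst e
    rw [lp.single_apply_self]
    ring
  · rw [lp.single_apply_ne _ _ _ e, h n e]
    ring

theorem diag_single_ZY6b {D : L2 →L[ℂ] L2} {d : ℕ → ℂ} (hD : ∀ x n, D x n = d n * x n) (j : ℕ) :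
    D (lp.single 2 j 1) = d j • (lp.single 2 j 1 : L2) := by
  refine lp.ext (funext fun n => ?_)
  rw [lp.coeFn_smul, Pi.smul_apply, hD, smul_eq_mul]
  by_cases e : n = j
  · rw [e]
  · rw [lp.single_apply_ne _ _ _ e, mul_zero, mul_zero]

theorem op_le_ZY6b {s : ℕ → ℝ} (M : Model s) {α β : ℕ → ℂ} (hα : ∀ n, ‖α n‖ = 1)
    (hβ : ∀ n, ‖β n‖ = 1) (x : L2) : ‖M.op α β x‖ ≤ ‖x‖ := by
  by_cases hx : x = 0
  · simp [hx]
  · exact (M.op_lt hα hβ x hx).le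

theorem left_ZY6b {s : ℕ → ℝ} (hpos : ∀ r, 0 < s r) (hanti : StrictAnti s)
    (hs0 : Tendsto s atTop (𝓝 0)) (M : Model s) {α α' β : ℕ → ℂ} (hα : ∀ n, ‖α n‖ = 1)
    (hα' : ∀ n, ‖α' n‖ = 1) (hβ : ∀ n, ‖β n‖ = 1) {j : ℕ} (e : ∀ n, n ≠ j → α' n = α n)
    (h : Geo (M.op α β) M.v) : Geo (M.op α' β) M.v := by
  have hc : ∀ n, ‖conj (α n)‖ = 1 := fun n => by rw [Complex.norm_conj, hα]
  have hc' : ∀ n, ‖conj (α' n)‖ = 1 := fun n => by rw [Complex.norm_conj, hα']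
  refine geo_perturb (M.op α β) (M.op α' β) (M.Qs (dg β (M.Q (lp.single 2 j 1))))
    ((α' j - α j) • (lp.single 2 j 1 : L2)) (fun x => ?_) (op_le_ZY6b M hα hβ)
    (M.op_lt hα' hβ) ?_ h
  · rw [M.op_apply, M.op_apply, dg_upd_ZY6b hc hc' (j := j) (fun n hn => by rw [e n hn]),
      inner_smul_left, inner_single, map_sub]
    simp only [map_add, map_smul]
  · have h1 := geo_map_ZY6b (stein_geo_range (M.stein hpos hanti hs0 hα hβ) h (lp.single 2 j 1))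
    rw [diag_single_ZY6b (Rr_apply hpos hanti), map_smul, M.op_apply,
      diag_single_ZY6b (dg_apply fun n => (hc n).le), map_smul, map_smul, map_smul, smul_smul] at h1
    have h2 := geo_smul_ZY6b h1 ((s (2 * j) : ℂ) * conj (α j))⁻¹
    rwa [smul_smul, inv_mul_cancel₀, one_smul] at h2
    exact mul_ne_zero (Complex.ofReal_ne_zero.2 (hpos _).ne')
      (norm_ne_zero_iff.1 (by rw [hc]; exact one_ne_zero))

theorem right_ZY6b {s : ℕ → ℝ} (hpos : ∀ r, 0 < s r) (hanti : StrictAnti s)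
    (hs0 : Tendsto s atTop (𝓝 0)) (M : Model s) {α β β' : ℕ → ℂ} (hα : ∀ n, ‖α n‖ = 1)
    (hβ : ∀ n, ‖β n‖ = 1) (hβ' : ∀ n, ‖β' n‖ = 1) {k : ℕ} (e : ∀ n, n ≠ k → β' n = β n)
    (h : Geo (M.op α β) M.v) : Geo (M.op α β') M.v := by
  have hc : ∀ n, ‖conj (α n)‖ = 1 := fun n => by rw [Complex.norm_conj, hα]
  refine geo_perturb (M.op α β) (M.op α β') ((β' k - β k) • M.Qs (lp.single 2 k 1))
    (dg α (M.Qs (lp.single 2 k 1))) (fun x => ?_) (op_le_ZY6b M hα hβ) (M.op_lt hα hβ') ?_ h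
  · rw [M.op_apply, M.op_apply, dg_upd_ZY6b hβ hβ' e, dg_inner (fun n => (hα n).le), M.hadj',
      inner_single, map_add, map_smul, smul_smul, mul_comm]
  · have h1 := geo_map_ZY6b (stein_geo_range (M.stein hpos hanti hs0 hα hβ) h
      (dg α (M.Qs (lp.single 2 k 1))))
    have h2 : ∀ y : L2, dg (fun n => conj (α n)) (Rr s (dg α y)) = Rr s y := fun y => by
      refine lp.ext (funext fun n => ?_)
      rw [dg_apply (fun n => (hc n).le), Rr_apply hpos hanti, Rr_apply hpos hanti,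
        dg_apply (fun n => (hα n).le)]
      have h3 : conj (α n) * α n = 1 := by rw [Complex.conj_mul', hα]; simp
      linear_combination (s (2 * n) : ℂ) * y n * h3
    rw [M.op_apply, h2, M.h1, diag_single_ZY6b (Sg_apply hpos hanti), map_smul,
      diag_single_ZY6b (dg_apply fun n => (hβ n).le), smul_smul, map_smul] at h1
    have h3 := geo_smul_ZY6b h1 ((s (2 * k + 1) : ℂ) * β k)⁻¹
    rw [smul_smul, inv_mul_cancel₀, one_smul] at h3
    · exact geo_smul_ZY6b h3 _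
    exact mul_ne_zero (Complex.ofReal_ne_zero.2 (hpos _).ne')
      (norm_ne_zero_iff.1 (by rw [hβ]; exact one_ne_zero))

theorem Model.geo_one {s : ℕ → ℝ} (hpos : ∀ r, 0 < s r) (hanti : StrictAnti s)
    (hs0 : Tendsto s atTop (𝓝 0)) (M : Model s) {α β : ℕ → ℂ} (hα : ∀ n, ‖α n‖ = 1)
    (hβ : ∀ n, ‖β n‖ = 1) (N : ℕ)
    (h : Geo (M.op (fun j => if j < N then α j else 1) (fun k => if k < N then β k else 1)) M.v) :
    Geo (M.op (fun _ => 1) (fun _ => 1)) M.v := by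
  have hn : ∀ {γ : ℕ → ℂ}, (∀ n, ‖γ n‖ = 1) → ∀ K n, ‖if n < K then γ n else 1‖ = 1 :=
    fun hγ K n => by split_ifs <;> simp [hγ]
  have he : ∀ (γ : ℕ → ℂ) (K n : ℕ), n ≠ K →
      (if n < K then γ n else 1) = if n < K + 1 then γ n else 1 := fun γ K n hK =>
    if_congr (by omega) rfl rfl
  induction N with
  | zero => simpa using h
  | succ N ih =>
    exact ih (right_ZY6b hpos hanti hs0 M (hn hα N) (hn hβ (N + 1)) (hn hβ N) (he β N)
      (left_ZY6b hpos hanti hs0 M (hn hα (N + 1)) (hn hα N) (hn hβ (N + 1)) (he α N) h))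

end Pool.Agent.MP_301177_an

end

end

section
open Filter Topology InnerProductSpace
open scoped InnerProductSpace ComplexConjugate ComplexOrder

noncomputable section

namespace Pool.Agent.MP_301177_an

theorem par_ZY7 (a b : ℂ) : 0 ≤ 2 * ‖a‖ ^ 2 + 2 * ‖b‖ ^ 2 - ‖a - b‖ ^ 2 := by
  have h1 := norm_sub_le a b
  have h2 := pow_le_pow_left₀ (norm_nonneg _) h1 2
  nlinarith [sq_nonneg (‖a‖ - ‖b‖)]

theorem l2_tendsto (x : ℕ → L2) (y : L2) (h : ∀ n, Tendsto (fun N => x N n) atTop (𝓝 (y n)))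
    (hn : ∀ N, ‖x N‖ = ‖y‖) : Tendsto x atTop (𝓝 y) := by
  rw [Metric.tendsto_nhds]
  intro ε hε
  have h0 : 4 * ‖y‖ ^ 2 - ε ^ 2 < 4 * ‖y‖ ^ 2 := by nlinarith
  obtain ⟨m, hm⟩ := (((hasSum_sq y).mul_left 4).tendsto_sum_nat.eventually
    (lt_mem_nhds h0)).exists
  have h1 : Tendsto (fun N => ∑ n ∈ Finset.range m,
      (2 * ‖x N n‖ ^ 2 + 2 * ‖y n‖ ^ 2 - ‖x N n - y n‖ ^ 2)) atTop
      (𝓝 (∑ n ∈ Finset.range m, 4 * ‖y n‖ ^ 2)) := by
    refine tendsto_finsetSum _ fun n _ => ?_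
    have h2 := ((((h n).norm.pow 2).const_mul 2).add_const (2 * ‖y n‖ ^ 2)).sub
      (((h n).sub_const (y n)).norm.pow 2)
    have e : 2 * ‖y n‖ ^ 2 + 2 * ‖y n‖ ^ 2 - ‖y n - y n‖ ^ 2 = 4 * ‖y n‖ ^ 2 := by
      rw [sub_self, norm_zero]; ring
    rwa [e] at h2
  filter_upwards [h1.eventually (lt_mem_nhds hm)] with N hN
  have h3 := (((hasSum_sq (x N)).mul_left 2).add ((hasSum_sq y).mul_left 2)).sub
    (hasSum_sq (x N - y))
  have h4 : ∑ n ∈ Finset.range m, (2 * ‖x N n‖ ^ 2 + 2 * ‖y n‖ ^ 2 - ‖x N n - y n‖ ^ 2) ≤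
      2 * ‖x N‖ ^ 2 + 2 * ‖y‖ ^ 2 - ‖x N - y‖ ^ 2 :=
    sum_le_hasSum _ (fun n _ => par_ZY7 _ _) h3
  rw [hn] at h4
  rw [dist_eq_norm]
  exact lt_of_pow_lt_pow_left₀ 2 hε.le (by linarith)

theorem cut_norm_ZY7 {d : ℕ → ℂ} (hd : ∀ n, ‖d n‖ = 1) (N j : ℕ) :
    ‖if j < N then d j else 1‖ = 1 := by
  split_ifs
  · exact hd j
  · exact norm_one

theorem dg_tendsto_ZY7 {d : ℕ → ℂ} (hd : ∀ n, ‖d n‖ = 1) {x : ℕ → L2} {y : L2}
    (hx : Tendsto x atTop (𝓝 y)) :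
    Tendsto (fun N => dg (fun j => if j < N then d j else 1) (x N)) atTop (𝓝 (dg d y)) := by
  have h1 : Tendsto (fun N => dg (fun j => if j < N then d j else 1) y) atTop (𝓝 (dg d y)) := by
    refine l2_tendsto _ _ (fun n => ?_)
      (fun N => (dg_norm (cut_norm_ZY7 hd N) y).trans (dg_norm hd y).symm)
    refine tendsto_const_nhds.congr' ?_
    filter_upwards [eventually_gt_atTop n] with N hN
    rw [dg_apply (fun n => (hd n).le), dg_apply (fun j => (cut_norm_ZY7 hd N j).le), if_pos hN]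
  have h2 : Tendsto (fun N => dg (fun j => if j < N then d j else 1) (x N - y)) atTop (𝓝 0) := by
    rw [tendsto_zero_iff_norm_tendsto_zero]
    refine (tendsto_iff_norm_sub_tendsto_zero.1 hx).congr fun N => ?_
    rw [dg_norm (cut_norm_ZY7 hd N)]
  have h3 := h2.add h1
  rw [zero_add] at h3
  refine h3.congr fun N => ?_
  rw [← map_add, sub_add_cancel]

theorem Model.coef_tendsto {s : ℕ → ℝ} (M : Model s) {α β : ℕ → ℂ} (hα : ∀ n, ‖α n‖ = 1)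
    (hβ : ∀ n, ‖β n‖ = 1) (n : ℕ) :
    Tendsto (fun N => M.coef (fun j => if j < N then α j else 1)
      (fun k => if k < N then β k else 1) n) atTop (𝓝 (M.coef α β n)) := by
  have h1 : Tendsto (fun N => (M.op (fun j => if j < N then α j else 1)
      (fun k => if k < N then β k else 1))^[n] M.v) atTop (𝓝 ((M.op α β)^[n] M.v)) := by
    induction n with
    | zero => exact tendsto_const_nhds
    | succ n ih =>
      have hc : ∀ j, ‖conj (α j)‖ = 1 := fun j => by rw [Complex.norm_conj, hα]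
      have h2 := (M.Qs.continuous.tendsto _).comp
        (dg_tendsto_ZY7 hβ ((M.Q.continuous.tendsto _).comp (dg_tendsto_ZY7 hc ih)))
      rw [Function.iterate_succ_apply', M.op_apply]
      refine h2.congr fun N => ?_
      rw [Function.iterate_succ_apply', M.op_apply]
      simp only [Function.comp_apply, apply_ite conj, map_one]
  exact (dg_tendsto_ZY7 hα tendsto_const_nhds).inner h1

end Pool.Agent.MP_301177_an

end

end

section
open Filter Topology InnerProductSpace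
open scoped InnerProductSpace ComplexConjugate ComplexOrder

noncomputable section

namespace Pool.Agent.MP_301177_an

lemma extends_of_bound {c : ℕ → ℂ} {C a R : ℝ} (ha : 0 ≤ a) (hR : 1 ≤ R) (haR : a * R < 1)
    (h : ∀ n, ‖c n‖ ≤ C * a ^ n) : ExtendsTo c R := by
  have hC : 0 ≤ C := by simpa using (norm_nonneg _).trans (h 0)
  have hbd : ∀ n, ∀ z ∈ Metric.ball (0 : ℂ) R, ‖c n * z ^ n‖ ≤ C * (a * R) ^ n := by
    intro n z hz
    rw [mem_ball_zero_iff] at hz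
    rw [norm_mul, norm_pow, mul_pow, ← mul_assoc]
    exact mul_le_mul (h n) (pow_le_pow_left₀ (norm_nonneg _) hz.le n) (by positivity)
      (by positivity)
  have hq := (summable_geometric_of_lt_one (mul_nonneg ha (by linarith)) haR).mul_left C
  refine ⟨fun z => ∑' n, c n * z ^ n, ?_, fun z hz => ?_⟩
  · exact Complex.differentiableOn_tsum_of_summable_norm hq
      (fun n => by fun_prop) Metric.isOpen_ball fun n z hz => hbd n z hz
  · exact (Summable.of_norm_bounded hq fun n =>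
      hbd n z (Metric.ball_subset_ball hR hz)).hasSum

lemma analytic_iff (c : ℕ → ℂ) :
    (∃ R : ℝ, 1 < R ∧ ExtendsTo c R) ↔ ∃ C a : ℝ, 0 ≤ a ∧ a < 1 ∧ ∀ n, ‖c n‖ ≤ C * a ^ n := by
  constructor
  · rintro ⟨R, hR, h⟩
    obtain ⟨a, ha, ha1⟩ := exists_between (inv_lt_one_of_one_lt₀ hR)
    obtain ⟨C, -, hC⟩ := coeff_bound (one_pos.trans hR) h ha
    exact ⟨C, a, ((inv_pos.2 (one_pos.trans hR)).trans ha).le, ha1, hC⟩
  · rintro ⟨C, a, ha, ha1, h⟩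
    have h1 : 1 < 2 / (1 + a) := by rw [lt_div_iff₀ (by linarith)]; linarith
    refine ⟨2 / (1 + a), h1, extends_of_bound ha h1.le ?_ h⟩
    rw [← mul_div_assoc, div_lt_one (by linarith)]
    linarith

lemma analytic_iff_nat (c : ℕ → ℂ) :
    (∃ R : ℝ, 1 < R ∧ ExtendsTo c R) ↔
      ∃ m : ℕ, ∀ n, ‖c n‖ ≤ (m : ℝ) * (1 - 1 / ((m : ℝ) + 1)) ^ n := by
  rw [analytic_iff]
  constructor
  · rintro ⟨C, a, ha, ha1, h⟩
    obtain ⟨m, hm⟩ := exists_nat_ge (max C (1 / (1 - a)))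
    refine ⟨m, fun n => (h n).trans (mul_le_mul ((le_max_left _ _).trans hm)
      (pow_le_pow_left₀ ha ?_ n) (pow_nonneg ha n) (Nat.cast_nonneg m))⟩
    have h1 := (le_max_right _ _).trans hm
    rw [div_le_iff₀ (by linarith)] at h1
    have h2 : 1 / ((m : ℝ) + 1) ≤ 1 - a := by
      rw [div_le_iff₀ (by positivity)]
      nlinarith
    linarith
  · rintro ⟨m, h⟩
    refine ⟨m, _, ?_, ?_, h⟩
    · rw [sub_nonneg, div_le_one (by positivity)]
      linarith [(Nat.cast_nonneg m : (0 : ℝ) ≤ m)]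
    · have : 0 < 1 / ((m : ℝ) + 1) := by positivity
      linarith

lemma sqrt_ne (n : ℕ) : ((√(1 + (n : ℝ)) : ℝ) : ℂ) ≠ 0 :=
  Complex.ofReal_ne_zero.2 (Real.sqrt_pos.2 (by positivity)).ne'

lemma norm_coeffOf (x : L2) (n : ℕ) : (1 + (n : ℝ)) * ‖coeffOf x n‖ ^ 2 = ‖x n‖ ^ 2 := by
  rw [coeffOf, norm_div, div_pow, Complex.norm_real, Real.norm_eq_abs, sq_abs,
    Real.sq_sqrt (by positivity), mul_div_cancel₀ _ (by positivity)]

lemma exists_coeffOf {c : ℕ → ℂ} (h : Summable fun n : ℕ => (1 + (n : ℝ)) * ‖c n‖ ^ 2) :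
    ∃ x : L2, coeffOf x = c := by
  refine ⟨⟨fun n => (√(1 + (n : ℝ)) : ℂ) * c n, (mem_iff _).2 (h.congr fun n => ?_)⟩,
    funext fun n => mul_div_cancel_left₀ _ (sqrt_ne n)⟩
  rw [norm_mul, mul_pow, Complex.norm_real, Real.norm_eq_abs, sq_abs, Real.sq_sqrt (by positivity)]

/-- The points of the torus that extend holomorphically to no disc of radius `R > 1`. -/
def nonAnalytic (s : ℕ → ℝ) : Set (torus s) :=
  {x | ¬ ∃ R : ℝ, 1 < R ∧ ExtendsTo (coeffOf x) R}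

lemma nonAnalytic_gdelta (s : ℕ → ℝ) : IsGδ (nonAnalytic s) := by
  have h : nonAnalytic s = ⋂ m : ℕ, ⋃ n : ℕ,
      {x : torus s | (m : ℝ) * (1 - 1 / ((m : ℝ) + 1)) ^ n < ‖coeffOf x n‖} := by
    ext x
    simp only [nonAnalytic, analytic_iff_nat, Set.mem_ofPred_eq, Set.mem_iInter, Set.mem_iUnion,
      not_exists, not_forall, not_le]
  rw [h]
  refine IsGδ.iInter_of_isOpen fun m => isOpen_iUnion fun n => isOpen_lt continuous_const ?_
  simp only [coeffOf, ← inner_single]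
  fun_prop

theorem dense_main {s : ℕ → ℝ} (hpos : ∀ r, 0 < s r) (hanti : StrictAnti s)
    (hsum : Summable fun r => s r ^ 2) (hgap : ∀ δ : ℝ, δ < 1 → ∃ r, δ * s r < s (r + 1)) :
    (nonAnalytic s).Nonempty ∧ Dense (nonAnalytic s) ∧ IsGδ (nonAnalytic s) := by
  have hz : ∀ c, InTorus s c → ZeroAngle c → ¬ ∃ R : ℝ, 1 < R ∧ ExtendsTo c R := by
    rintro c hc hz ⟨R, hR, h⟩
    obtain ⟨r, hr⟩ := hgap _ (inv_lt_one_of_one_lt₀ hR)
    exact hr.not_ge ((zero_angle_main hpos hanti hc hz hR h).1 r)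
  refine ⟨?_, fun x => ?_, nonAnalytic_gdelta s⟩
  · obtain ⟨c, hc, hc0⟩ := exists_zero hpos hanti hsum
    obtain ⟨x, rfl⟩ := exists_coeffOf hc.1
    exact ⟨⟨x, hc⟩, hz _ hc hc0⟩
  have hs0 := tendsto_s hpos hsum
  obtain ⟨M, α, β, hα, hβ, hc⟩ := exists_repr hpos hanti x.2
  have htr : ∀ d : ℕ → ℂ, (∀ n, ‖d n‖ = 1) → ∀ N n, ‖if n < N then d n else 1‖ = 1 := by
    intro d hd N n
    split_ifs
    · exact hd n
    · exact norm_one
  have hm := fun N => M.coef_mem hpos hanti hsum (htr α hα N) (htr β hβ N)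
  choose y hy using fun N => exists_coeffOf (hm N).1.1
  have hyT : ∀ N, y N ∈ torus s := fun N => by
    change InTorus s (coeffOf (y N))
    rw [hy]
    exact (hm N).1
  have hlim : Tendsto y atTop (𝓝 x) := by
    refine l2_tendsto y x (fun n => ?_) fun N => ?_
    · have h1 := (M.coef_tendsto hα hβ n).mul_const ((√(1 + (n : ℝ)) : ℝ) : ℂ)
      simp only [← hy, ← hc, coeffOf, div_mul_cancel₀ _ (sqrt_ne n)] at h1
      exact h1
    · have h1 := (hm N).2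
      have h2 := (M.coef_mem hpos hanti hsum hα hβ).2
      simp only [← hy, norm_coeffOf] at h1
      simp only [← hc, norm_coeffOf] at h2
      exact (pow_left_inj₀ (norm_nonneg _) (norm_nonneg _) two_ne_zero).1
        (((hasSum_sq _).unique h1).trans (h2.unique (hasSum_sq _)))
  refine mem_closure_of_tendsto (f := fun N => (⟨y N, hyT N⟩ : torus s)) (b := atTop)
    (tendsto_subtype_rng.2 hlim) (Eventually.of_forall fun N h => ?_)
  obtain ⟨C, a, ha, ha1, h⟩ := (analytic_iff _).1 h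
  simp only [hy] at h
  obtain ⟨C', a', ha', ha1', h'⟩ := M.geo_one hpos hanti hs0 hα hβ N
    (stein_geo (M.stein hpos hanti hs0 (htr α hα N) (htr β hβ N)) ha ha1 h)
  refine hz _ (M.coef_mem hpos hanti hsum (fun _ => norm_one) fun _ => norm_one).1 M.coef_zero
    ((analytic_iff _).2 ⟨‖dg (fun _ => 1) M.v‖ * C', a', ha', ha1', fun n => ?_⟩)
  rw [mul_assoc]
  exact (norm_inner_le_norm _ _).trans (mul_le_mul_of_nonneg_left (h' n) (norm_nonneg _))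

end Pool.Agent.MP_301177_an

end

end
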