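import Pool.Agent.MP_301177_an.Zero3

section
open Filter Topology InnerProductSpace
open scoped InnerProductSpace ComplexConjugate ComplexOrder

noncomputable section

namespace Pool.Agent.MP_301177_an

/-- The sum of the power series with coefficients `c`. -/
def ps (c : ℕ → ℂ) (z : ℂ) : ℂ := ∑' n, c n * z ^ n

/-- The Taylor series at `z₀` converges beyond the unit circle, with an explicit bound. -/
def TaylorBd (c : ℕ → ℂ) (z₀ : ℂ) (m : ℕ) : Prop :=
  ∀ k : ℕ, ‖iteratedDeriv k (ps c) z₀‖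
    ≤ (k.factorial : ℝ) * m / (1 - ‖z₀‖ + 1 / ((m : ℝ) + 1)) ^ k

lemma ps_hasSum {c : ℕ → ℂ} {B : ℝ} (hc : ∀ n, ‖c n‖ ≤ B) {z : ℂ} (hz : ‖z‖ < 1) :
    HasSum (fun n => c n * z ^ n) (ps c z) := by
  refine (Summable.of_norm_bounded
    ((summable_geometric_of_lt_one (norm_nonneg z) hz).mul_left B) fun n => ?_).hasSum
  rw [norm_mul, norm_pow]
  exact mul_le_mul_of_nonneg_right (hc n) (by positivity)

lemma ps_diff {c : ℕ → ℂ} {B : ℝ} (hc : ∀ n, ‖c n‖ ≤ B) :
    DifferentiableOn ℂ (ps c) (Metric.ball 0 1) := by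
  intro z hz
  obtain ⟨r, h1, h2⟩ := exists_between (mem_ball_zero_iff.1 hz)
  have hr : 0 ≤ r := (norm_nonneg z).trans h1.le
  have h3 : DifferentiableOn ℂ (ps c) (Metric.ball 0 r) :=
    Complex.differentiableOn_tsum_of_summable_norm
      ((summable_geometric_of_lt_one hr h2).mul_left B) (fun n => by fun_prop) Metric.isOpen_ball
      fun n w hw => by
        rw [norm_mul, norm_pow]
        exact mul_le_mul (hc n) (pow_le_pow_left₀ (norm_nonneg _) (mem_ball_zero_iff.1 hw).le n)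
          (by positivity) ((norm_nonneg _).trans (hc n))
  exact (h3.differentiableAt
    (Metric.isOpen_ball.mem_nhds (mem_ball_zero_iff.2 h1))).differentiableWithinAt

lemma coeffOf_le (x : L2) (n : ℕ) : ‖coeffOf x n‖ ≤ ‖x‖ := by
  have h1 := norm_coeffOf x n
  have h2 := le_hasSum (hasSum_sq x) n fun _ _ => sq_nonneg _
  have h3 : (0 : ℝ) ≤ n := Nat.cast_nonneg n
  exact (abs_le_of_sq_le_sq' (by nlinarith [sq_nonneg ‖coeffOf x n‖]) (norm_nonneg _)).2

end Pool.Agent.MP_301177_an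

end

end

section
open Filter Topology InnerProductSpace
open scoped InnerProductSpace ComplexConjugate ComplexOrder

noncomputable section

namespace Pool.Agent.MP_301177_an

lemma agree_ZZ1 {f k k₀ : ℂ → ℂ} {η : ℝ} (hη : 0 < η) (hη1 : η ≤ 1) {ζ ζ₀ : ℂ} (hζ : ‖ζ‖ = 1)
    (hd : ‖ζ - ζ₀‖ < η / 2) (h1 : DifferentiableOn ℂ k (Metric.ball ζ η))
    (h2 : DifferentiableOn ℂ k₀ (Metric.ball ζ₀ η))
    (e1 : ∀ z ∈ Metric.ball ζ η, ‖z‖ < 1 → k z = f z)
    (e2 : ∀ z ∈ Metric.ball ζ₀ η, ‖z‖ < 1 → k₀ z = f z) :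
    Set.EqOn k k₀ (Metric.ball ζ η ∩ Metric.ball ζ₀ η) := by
  have ho : IsOpen (Metric.ball ζ η ∩ Metric.ball ζ₀ η) :=
    Metric.isOpen_ball.inter Metric.isOpen_ball
  have a1 : AnalyticOnNhd ℂ k (Metric.ball ζ η ∩ Metric.ball ζ₀ η) :=
    (h1.mono Set.inter_subset_left).analyticOnNhd ho
  have a2 : AnalyticOnNhd ℂ k₀ (Metric.ball ζ η ∩ Metric.ball ζ₀ η) :=
    (h2.mono Set.inter_subset_right).analyticOnNhd ho
  have hw1 : ‖((1 - η / 4 : ℝ) : ℂ) * ζ - ζ‖ = η / 4 := by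
    have : ((1 - η / 4 : ℝ) : ℂ) * ζ - ζ = -(((η / 4 : ℝ) : ℂ) * ζ) := by
      push_cast
      ring
    rw [this, norm_neg, norm_mul, hζ, mul_one, Complex.norm_real, Real.norm_eq_abs,
      abs_of_pos (by linarith)]
  have hw2 : ‖((1 - η / 4 : ℝ) : ℂ) * ζ‖ < 1 := by
    rw [norm_mul, hζ, mul_one, Complex.norm_real, Real.norm_eq_abs, abs_of_pos (by linarith)]
    linarith
  have hw : ((1 - η / 4 : ℝ) : ℂ) * ζ ∈ Metric.ball ζ η ∩ Metric.ball ζ₀ η := by
    refine ⟨?_, ?_⟩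
    · rw [mem_ball_iff_norm, hw1]
      linarith
    · rw [mem_ball_iff_norm]
      have := norm_sub_le_norm_sub_add_norm_sub (((1 - η / 4 : ℝ) : ℂ) * ζ) ζ ζ₀
      linarith
  refine a1.eqOn_of_preconnected_of_eventuallyEq a2
    ((convex_ball ζ η).inter (convex_ball ζ₀ η)).isPreconnected hw ?_
  filter_upwards [ho.mem_nhds hw, Metric.isOpen_ball.mem_nhds (mem_ball_zero_iff.2 hw2)]
    with z hz hz1
  rw [e1 z hz.1 (mem_ball_zero_iff.1 hz1), e2 z hz.2 (mem_ball_zero_iff.1 hz1)]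

lemma uniform_ZZ1 {c : ℕ → ℂ} {B : ℝ} (hc : ∀ n, ‖c n‖ ≤ B)
    (h : ∀ ζ : ℂ, ‖ζ‖ = 1 → RegularAt c ζ) : ∃ η : ℝ, 0 < η ∧ η ≤ 1 ∧ ∃ k : ℂ → ℂ → ℂ,
      ∀ ζ : ℂ, ‖ζ‖ = 1 → DifferentiableOn ℂ (k ζ) (Metric.ball ζ η) ∧
        ∀ z ∈ Metric.ball ζ η, ‖z‖ < 1 → k ζ z = ps c z := by
  have h' : ∀ ζ : Metric.sphere (0 : ℂ) 1, RegularAt c ζ :=
    fun ζ => h ζ (mem_sphere_zero_iff_norm.1 ζ.2)
  choose ε hε g hg hgs using h'
  obtain ⟨δ, hδ, hcov⟩ := lebesgue_number_lemma_of_metric (isCompact_sphere (0 : ℂ) 1)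
    (c := fun ζ : Metric.sphere (0 : ℂ) 1 => Metric.ball (ζ : ℂ) (ε ζ))
    (fun _ => Metric.isOpen_ball)
    (fun z hz => Set.mem_iUnion.2 ⟨⟨z, hz⟩, Metric.mem_ball_self (hε _)⟩)
  have key : ∀ ζ : ℂ, ∃ k : ℂ → ℂ, ‖ζ‖ = 1 → DifferentiableOn ℂ k (Metric.ball ζ (min δ 1)) ∧
      ∀ z ∈ Metric.ball ζ (min δ 1), ‖z‖ < 1 → k z = ps c z := by
    intro ζ
    by_cases hζ : ‖ζ‖ = 1
    · obtain ⟨i, hi⟩ := hcov ζ (mem_sphere_zero_iff_norm.2 hζ)
      have hsub : Metric.ball ζ (min δ 1) ⊆ Metric.ball (i : ℂ) (ε i) :=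
        (Metric.ball_subset_ball (min_le_left _ _)).trans hi
      exact ⟨g i, fun _ => ⟨(hg i).mono hsub,
        fun z hz hz1 => (hgs i z (hsub hz) hz1).unique (ps_hasSum hc hz1)⟩⟩
    · exact ⟨0, fun h0 => absurd h0 hζ⟩
  choose k hk using key
  exact ⟨min δ 1, lt_min hδ one_pos, min_le_right _ _, k, hk⟩

theorem extends_of_regular {c : ℕ → ℂ} {B : ℝ} (hc : ∀ n, ‖c n‖ ≤ B)
    (h : ∀ ζ : ℂ, ‖ζ‖ = 1 → RegularAt c ζ) : ∃ R : ℝ, 1 < R ∧ ExtendsTo c R := by
  obtain ⟨η, hη, hη1, k, hk⟩ := uniform_ZZ1 hc h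
  have hun : ∀ z : ℂ, 1 ≤ ‖z‖ → ‖z / (‖z‖ : ℂ)‖ = 1 := by
    intro z hz
    rw [norm_div, Complex.norm_real, norm_norm, div_self (by linarith)]
  refine ⟨1 + η / 2, by linarith, fun z => if ‖z‖ < 1 then ps c z else k (z / (‖z‖ : ℂ)) z,
    ?_, ?_⟩
  · intro z₀ hz₀
    apply DifferentiableAt.differentiableWithinAt
    rw [mem_ball_zero_iff] at hz₀
    by_cases h0 : ‖z₀‖ < 1
    · have hn := Metric.isOpen_ball.mem_nhds (mem_ball_zero_iff.2 h0)
      refine ((ps_diff hc).differentiableAt hn).congr_of_eventuallyEq ?_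
      filter_upwards [hn] with z hz
      rw [if_pos (mem_ball_zero_iff.1 hz)]
    · have h1 : 1 ≤ ‖z₀‖ := not_lt.1 h0
      have hne : (‖z₀‖ : ℂ) ≠ 0 := Complex.ofReal_ne_zero.2 (by linarith)
      have hu := hun z₀ h1
      have hdist : ‖z₀ - z₀ / (‖z₀‖ : ℂ)‖ < η / 2 := by
        have : z₀ - z₀ / (‖z₀‖ : ℂ) = ((‖z₀‖ - 1 : ℝ) : ℂ) * (z₀ / (‖z₀‖ : ℂ)) := by
          push_cast
          field_simp
        rw [this, norm_mul, hu, mul_one, Complex.norm_real, Real.norm_eq_abs,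
          abs_of_nonneg (by linarith)]
        linarith
      have hcont : ContinuousAt (fun z : ℂ => z / (‖z‖ : ℂ)) z₀ :=
        continuousAt_id.div (Complex.continuous_ofReal.comp continuous_norm).continuousAt hne
      have hb : z₀ ∈ Metric.ball (z₀ / (‖z₀‖ : ℂ)) η := by
        rw [mem_ball_iff_norm]
        linarith
      refine ((hk _ hu).1.differentiableAt
        (Metric.isOpen_ball.mem_nhds hb)).congr_of_eventuallyEq ?_
      filter_upwards [Metric.isOpen_ball.mem_nhds (mem_ball_iff_norm.2 hdist),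
        hcont.eventually (Metric.ball_mem_nhds _ (half_pos hη))] with z hz1 hz2
      rw [mem_ball_iff_norm] at hz1
      rw [dist_eq_norm] at hz2
      have hzb : z ∈ Metric.ball (z₀ / (‖z₀‖ : ℂ)) η := by
        rw [mem_ball_iff_norm]
        linarith
      by_cases h2 : ‖z‖ < 1
      · rw [if_pos h2, (hk _ hu).2 z hzb h2]
      · rw [if_neg h2]
        have hv := hun z (not_lt.1 h2)
        refine agree_ZZ1 hη hη1 hv hz2 (hk _ hv).1 (hk _ hu).1 (hk _ hv).2 (hk _ hu).2 ⟨?_, hzb⟩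
        rw [mem_ball_iff_norm]
        have h3 := norm_sub_le_norm_sub_add_norm_sub z (z₀ / (‖z₀‖ : ℂ)) (z / (‖z‖ : ℂ))
        rw [norm_sub_rev (z₀ / (‖z₀‖ : ℂ))] at h3
        linarith
  · intro z hz
    rw [mem_ball_zero_iff] at hz
    simp only [if_pos hz]
    exact ps_hasSum hc hz

end Pool.Agent.MP_301177_an

end

end

section
open Filter Topology InnerProductSpace
open scoped InnerProductSpace ComplexConjugate ComplexOrder

noncomputable section

namespace Pool.Agent.MP_301177_an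

theorem regular_gen_ZZ2 {E : Type} [NormedAddCommGroup E] [InnerProductSpace ℂ E]
    [CompleteSpace E] (A : E →L[ℂ] E) (hA : ∀ x, ‖A x‖ ≤ ‖x‖) (v v' : E) (ζ : ℂ)
    (h : IsUnit (1 - ζ • A)) : RegularAt (fun n => ⟪v', A^[n] v⟫_ℂ) ζ := by
  have hc : Continuous (fun z : ℂ => (1 : E →L[ℂ] E) - z • A) :=
    continuous_const.sub (continuous_id.smul continuous_const)
  have ho : IsOpen {z : ℂ | IsUnit ((1 : E →L[ℂ] E) - z • A)} :=
    (Units.isOpen (R := E →L[ℂ] E)).preimage hc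
  obtain ⟨ε, hε, hb⟩ := Metric.isOpen_iff.1 ho ζ h
  have hn : ‖A‖ ≤ 1 :=
    ContinuousLinearMap.opNorm_le_bound _ zero_le_one fun x => by simpa using hA x
  let L : (E →L[ℂ] E) →L[ℂ] ℂ := (innerSL ℂ v').comp (ContinuousLinearMap.apply ℂ E v)
  have hL : ∀ T : E →L[ℂ] E, L T = ⟪v', T v⟫_ℂ := fun T => rfl
  refine ⟨ε, hε, fun z => L (Ring.inverse ((1 : E →L[ℂ] E) - z • A)), ?_, ?_⟩
  · intro z hz
    have h1 : DifferentiableAt ℂ (fun z : ℂ => (1 : E →L[ℂ] E) - z • A) z :=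
      (differentiableAt_const _).sub (differentiableAt_id.smul_const _)
    have h2 : DifferentiableAt ℂ (Ring.inverse : (E →L[ℂ] E) → (E →L[ℂ] E))
        ((1 : E →L[ℂ] E) - z • A) := differentiableAt_inverse (hb hz)
    exact (L.differentiableAt.comp z (h2.comp z h1)).differentiableWithinAt
  · intro z _ hz
    have h1 : ‖z • A‖ < 1 := by
      rw [norm_smul]
      exact lt_of_le_of_lt (mul_le_of_le_one_right (norm_nonneg _) hn) hz
    have h2 := L.hasSum (hasSum_geom_series_inverse (z • A) h1)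
    have h3 : (fun n : ℕ => ⟪v', A^[n] v⟫_ℂ * z ^ n) = fun n => L ((z • A) ^ n) := by
      funext n
      rw [smul_pow, map_smul, hL, FunLike.coe_pow_eq_iterate, smul_eq_mul, mul_comm]
    rw [h3]
    exact h2

theorem regular_of_isUnit (A : L2 →L[ℂ] L2) (hA : ∀ x, ‖A x‖ ≤ ‖x‖) (v v' : L2) (ζ : ℂ)
    (h : IsUnit (1 - ζ • A)) : RegularAt (fun n => ⟪v', A^[n] v⟫_ℂ) ζ :=
  regular_gen_ZZ2 A hA v v' ζ h

theorem unit_pos_ZZ2 {E : Type} [NormedAddCommGroup E] [InnerProductSpace ℂ E]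
    [CompleteSpace E] (A₀ : E →L[ℂ] E) (hA₀ : A₀.IsPositive) (ζ : ℂ) (hζ : ‖ζ‖ = 1)
    (hζ1 : ζ ≠ 1) : IsUnit (1 - ζ • A₀) := by
  have h0 : ζ ≠ 0 := by
    intro h
    rw [h, norm_zero] at hζ
    exact zero_ne_one hζ
  have hns : ζ⁻¹ ∉ spectrum ℂ A₀ := by
    intro hs
    have hre := hA₀.isSelfAdjoint.mem_spectrum_eq_re hs
    have hnn : (0 : E →L[ℂ] E) ≤ A₀ := (ContinuousLinearMap.nonneg_iff_isPositive A₀).2 hA₀
    have hr : (ζ⁻¹).re ∈ spectrum ℝ A₀ := by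
      rw [← spectrum.algebraMap_mem_iff ℂ]
      have : algebraMap ℝ ℂ (ζ⁻¹).re = ζ⁻¹ := hre.symm
      rw [this]
      exact hs
    have hpos : 0 ≤ (ζ⁻¹).re := spectrum_nonneg_of_nonneg hnn hr
    have hn : ‖ζ⁻¹‖ = 1 := by rw [norm_inv, hζ, inv_one]
    rw [hre, Complex.norm_real, Real.norm_eq_abs, abs_of_nonneg hpos] at hn
    rw [hn, Complex.ofReal_one] at hre
    exact hζ1 (inv_eq_one.1 hre)
  have hu : IsUnit (algebraMap ℂ (E →L[ℂ] E) ζ⁻¹ - A₀) := spectrum.notMem_iff.1 hns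
  have hz : IsUnit (algebraMap ℂ (E →L[ℂ] E) ζ) := (IsUnit.mk0 ζ h0).map _
  have he : (1 : E →L[ℂ] E) - ζ • A₀
      = algebraMap ℂ (E →L[ℂ] E) ζ * (algebraMap ℂ (E →L[ℂ] E) ζ⁻¹ - A₀) := by
    rw [mul_sub, ← map_mul, mul_inv_cancel₀ h0, map_one, ← Algebra.smul_def]
  rw [he]
  exact hz.mul hu

theorem isUnit_of_compact {E : Type} [NormedAddCommGroup E] [InnerProductSpace ℂ E]
    [CompleteSpace E] (A A₀ : E →L[ℂ] E) (hA₀ : A₀.IsPositive)
    (hlt : ∀ x, x ≠ 0 → ‖A x‖ < ‖x‖) (hK : IsCompactOperator (A - A₀)) (ζ : ℂ) (hζ : ‖ζ‖ = 1)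
    (hζ1 : ζ ≠ 1) : IsUnit (1 - ζ • A) := by
  obtain ⟨U, hU⟩ := unit_pos_ZZ2 A₀ hA₀ ζ hζ hζ1
  let K : E →L[ℂ] E := (ζ • ((U⁻¹ : (E →L[ℂ] E)ˣ) : E →L[ℂ] E)) * (A - A₀)
  have hKc : IsCompactOperator K := by
    have h1 := hK.clm_comp (ζ • ((U⁻¹ : (E →L[ℂ] E)ˣ) : E →L[ℂ] E))
    exact h1
  have he : (1 : E →L[ℂ] E) - ζ • A = (U : E →L[ℂ] E) * (1 - K) := by
    simp only [K]
    rw [mul_sub, mul_one, ← mul_assoc, mul_smul_comm, Units.mul_inv, smul_mul_assoc, one_mul, hU,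
      smul_sub]
    abel
  rcases hKc.hasEigenvalue_or_mem_resolventSet (one_ne_zero (α := ℂ)) with h | h
  · exfalso
    obtain ⟨x, hx⟩ := h.exists_hasEigenvector
    have hx0 : x ≠ 0 := hx.2
    have hx1 : K x = x := by
      have := hx.apply_eq_smul
      rw [one_smul] at this
      exact this
    have h2 : ((1 : E →L[ℂ] E) - ζ • A) x = 0 := by
      rw [he, mul_apply_eq_comp, _root_.sub_apply, hx1,
        one_apply_eq_self, sub_self, map_zero]
    have h3 : x = ζ • A x := by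
      rw [_root_.sub_apply, one_apply_eq_self,
        _root_.smul_apply, sub_eq_zero] at h2
      exact h2
    have h4 : ‖x‖ = ‖A x‖ := by
      have := congrArg norm h3
      rw [norm_smul, hζ, one_mul] at this
      exact this
    exact absurd (hlt x hx0) (by rw [← h4]; exact lt_irrefl _)
  · rw [spectrum.mem_resolventSet_iff, map_one] at h
    rw [he]
    exact U.isUnit.mul h

end Pool.Agent.MP_301177_an

end

end

section
open Filter Topology InnerProductSpace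
open scoped InnerProductSpace ComplexConjugate ComplexOrder

noncomputable section

namespace Pool.Agent.MP_301177_an

theorem dg_one_ZZ3 (x : L2) : dg (fun _ => 1) x = x :=
  lp.ext (funext fun n => by rw [dg_apply (M := 1) (fun _ => by simp), one_mul])

theorem cut_le_ZZ3 {d : ℕ → ℂ} (hd : ∀ n, ‖d n‖ = 1) (N j : ℕ) :
    ‖if j < N then d j else 1‖ ≤ 1 := by
  split_ifs
  · exact (hd j).le
  · exact norm_one.le

theorem dg_compact_ZZ3 {d : ℕ → ℂ} (hd : ∀ n, ‖d n‖ = 1) (N : ℕ) :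
    IsCompactOperator ((dg (fun j => if j < N then d j else 1) - 1 : L2 →L[ℂ] L2)) := by
  induction N with
  | zero =>
    have e : (dg (fun j => if j < 0 then d j else 1) - 1 : L2 →L[ℂ] L2) = 0 := by
      ext1 x
      simp only [Nat.not_lt_zero, if_false, sub_apply, dg_one_ZZ3,
        one_apply_eq_self, sub_self, zero_apply]
    rw [e]
    exact isCompactOperator_zero
  | succ N ih =>
    have e : (dg (fun j => if j < N + 1 then d j else 1) - 1 : L2 →L[ℂ] L2)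
        = (dg (fun j => if j < N then d j else 1) - 1)
          + (ContinuousLinearMap.toSpanSingleton ℂ ((d N - 1) • (lp.single 2 N (1 : ℂ) : L2))) ∘L
            innerSL ℂ (lp.single 2 N (1 : ℂ) : L2) := by
      ext1 x
      refine lp.ext (funext fun n => ?_)
      simp only [sub_apply, add_apply,
        one_apply_eq_self, ContinuousLinearMap.comp_apply, innerSL_apply_apply,
        ContinuousLinearMap.toSpanSingleton_apply, lp.coeFn_add, lp.coeFn_sub, lp.coeFn_smul,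
        Pi.add_apply, Pi.sub_apply, Pi.smul_apply, smul_eq_mul, lp.inner_single_left]
      rw [dg_apply (cut_le_ZZ3 hd _), dg_apply (cut_le_ZZ3 hd _)]
      rcases lt_trichotomy n N with h | h | h
      · rw [if_pos (by omega), if_pos h, lp.single_apply_ne _ _ _ h.ne]
        ring
      · subst h
        rw [if_pos (by omega), if_neg (by omega), lp.single_apply_self]
        simp
        ring
      · rw [if_neg (by omega), if_neg (by omega), lp.single_apply_ne _ _ _ h.ne']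
        ring
    rw [e]
    refine IsCompactOperator.add ih ?_
    exact (isCompactOperator_of_locallyCompactSpace_dom
      (innerSL ℂ (lp.single 2 N (1 : ℂ) : L2))).clm_comp
      (ContinuousLinearMap.toSpanSingleton ℂ ((d N - 1) • (lp.single 2 N (1 : ℂ) : L2)))

theorem Model.op_compact {s : ℕ → ℝ} (M : Model s) {α β : ℕ → ℂ} (hα : ∀ n, ‖α n‖ = 1)
    (hβ : ∀ n, ‖β n‖ = 1) (N : ℕ) :
    IsCompactOperator (M.op (fun j => if j < N then α j else 1) (fun k => if k < N then β k else 1)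
      - M.op (fun _ => 1) (fun _ => 1)) := by
  have hc : ∀ j, ‖conj (α j)‖ = 1 := fun j => by rw [Complex.norm_conj, hα]
  have h1 := ((dg_compact_ZZ3 hβ N).comp_clm
    (M.Q ∘L dg (fun j => if j < N then conj (α j) else 1))).clm_comp M.Qs
  have h2 := (dg_compact_ZZ3 hc N).clm_comp (M.Qs ∘L M.Q)
  have h3 := h1.add h2
  refine (congrArg IsCompactOperator (funext fun x => ?_)).mpr h3
  simp only [Pi.add_apply, Function.comp_apply, sub_apply,
    ContinuousLinearMap.comp_apply, one_apply_eq_self, Model.op_apply, map_one,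
    dg_one_ZZ3, apply_ite conj, map_sub]
  abel

theorem Model.op_one_pos {s : ℕ → ℝ} (M : Model s) :
    (M.op (fun _ => 1) (fun _ => 1)).IsPositive := by
  have e : M.op (fun _ => 1) (fun _ => 1) = M.Qs ∘L M.Q := by
    ext1 x
    simp only [Model.op_apply, map_one, dg_one_ZZ3, ContinuousLinearMap.comp_apply]
  rw [e]
  refine ⟨fun x y => ?_, fun x => ?_⟩
  · change ⟪M.Qs (M.Q x), y⟫_ℂ = ⟪x, M.Qs (M.Q y)⟫_ℂ
    rw [M.hadj', M.hadj]
  · change 0 ≤ RCLike.re ⟪M.Qs (M.Q x), x⟫_ℂ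
    rw [M.hadj']
    exact inner_self_nonneg

theorem Model.coef_rot {s : ℕ → ℝ} (M : Model s) (α : ℕ → ℂ) {β : ℕ → ℂ} (hβ : ∀ n, ‖β n‖ = 1)
    (ζ : ℂ) (n : ℕ) : M.coef α (fun k => ζ * β k) n = ζ ^ n * M.coef α β n := by
  have h1 : ∀ x, dg (fun k => ζ * β k) x = ζ • dg β x := fun x =>
    lp.ext (funext fun k => by
      rw [dg_apply (M := ‖ζ‖) (fun j => by rw [norm_mul, hβ, mul_one]), lp.coeFn_smul,
        Pi.smul_apply, dg_apply (fun j => (hβ j).le), smul_eq_mul, mul_assoc])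
  have h2 : (M.op α fun k => ζ * β k)^[n] M.v = ζ ^ n • (M.op α β)^[n] M.v := by
    induction n with
    | zero => simp
    | succ n ih =>
      rw [Function.iterate_succ_apply', Function.iterate_succ_apply', ih, map_smul, M.op_apply, h1,
        map_smul, ← M.op_apply, smul_smul, pow_succ]
  rw [Model.coef, Model.coef, h2, inner_smul_right]

theorem regularAt_rot {c : ℕ → ℂ} {ζ w : ℂ} (hζ : ‖ζ‖ = 1)
    (h : RegularAt (fun n => ζ ^ n * c n) w) : RegularAt c (ζ * w) := by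
  obtain ⟨ε, hε, g, hg, hs⟩ := h
  have h0 : ζ ≠ 0 := fun e => by rw [e, norm_zero] at hζ; exact zero_ne_one hζ
  have hm : ∀ y ∈ Metric.ball (ζ * w) ε, y / ζ ∈ Metric.ball w ε := fun y hy => by
    rw [Metric.mem_ball, dist_eq_norm] at hy ⊢
    have e : y / ζ - w = (y - ζ * w) / ζ := by field_simp
    rwa [e, norm_div, hζ, div_one]
  refine ⟨ε, hε, fun y => g (y / ζ), hg.comp (by fun_prop) hm, fun z hz h1 => ?_⟩
  have h2 := hs (z / ζ) (hm z hz) (by rwa [norm_div, hζ, div_one])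
  refine (congrArg (fun F => HasSum F (g (z / ζ))) (funext fun n => ?_)).mpr h2
  rw [div_pow]
  field_simp

theorem dg_tendsto_ZZ3 {d : ℕ → ℂ} {a : ℕ → ℕ → ℂ} (hd : ∀ n, ‖d n‖ = 1)
    (ha : ∀ N n, ‖a N n‖ = 1) (ha' : ∀ n, Tendsto (fun N => a N n) atTop (𝓝 (d n)))
    {x : ℕ → L2} {y : L2} (hx : Tendsto x atTop (𝓝 y)) :
    Tendsto (fun N => dg (a N) (x N)) atTop (𝓝 (dg d y)) := by
  have h1 : Tendsto (fun N => dg (a N) y) atTop (𝓝 (dg d y)) := by
    refine l2_tendsto _ _ (fun n => ?_) (fun N => (dg_norm (ha N) y).trans (dg_norm hd y).symm)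
    rw [dg_apply (fun n => (hd n).le)]
    exact ((ha' n).mul_const (y n)).congr fun N => (dg_apply (fun j => (ha N j).le) y n).symm
  have h2 : Tendsto (fun N => dg (a N) (x N - y)) atTop (𝓝 0) := by
    rw [tendsto_zero_iff_norm_tendsto_zero]
    refine (tendsto_iff_norm_sub_tendsto_zero.1 hx).congr fun N => ?_
    rw [dg_norm (ha N)]
  have h3 := h2.add h1
  rw [zero_add] at h3
  refine h3.congr fun N => ?_
  rw [← map_add, sub_add_cancel]

theorem Model.coef_tendsto' {s : ℕ → ℝ} (M : Model s) {α β : ℕ → ℂ} {a b : ℕ → ℕ → ℂ}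
    (hα : ∀ n, ‖α n‖ = 1) (hβ : ∀ n, ‖β n‖ = 1) (ha : ∀ N n, ‖a N n‖ = 1)
    (hb : ∀ N n, ‖b N n‖ = 1) (ha' : ∀ n, Tendsto (fun N => a N n) atTop (𝓝 (α n)))
    (hb' : ∀ n, Tendsto (fun N => b N n) atTop (𝓝 (β n))) (n : ℕ) :
    Tendsto (fun N => M.coef (a N) (b N) n) atTop (𝓝 (M.coef α β n)) := by
  have h1 : Tendsto (fun N => (M.op (a N) (b N))^[n] M.v) atTop (𝓝 ((M.op α β)^[n] M.v)) := by
    induction n with
    | zero => exact tendsto_const_nhds
    | succ n ih =>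
      have hc : ∀ j, ‖conj (α j)‖ = 1 := fun j => by rw [Complex.norm_conj, hα]
      have hc' : ∀ N j, ‖conj (a N j)‖ = 1 := fun N j => by rw [Complex.norm_conj, ha]
      have h0 := dg_tendsto_ZZ3 (a := fun N j => conj (a N j)) hc hc'
        (fun j => (Complex.continuous_conj.tendsto _).comp (ha' j)) ih
      have h2 := (M.Qs.continuous.tendsto _).comp
        (dg_tendsto_ZZ3 hβ hb hb' ((M.Q.continuous.tendsto _).comp h0))
      rw [Function.iterate_succ_apply', M.op_apply]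
      refine h2.congr fun N => ?_
      rw [Function.iterate_succ_apply', M.op_apply]
      simp only [Function.comp_apply]
  exact (dg_tendsto_ZZ3 hα ha ha' tendsto_const_nhds).inner h1

end Pool.Agent.MP_301177_an

end

end

section
open Filter Topology InnerProductSpace
open scoped InnerProductSpace ComplexConjugate ComplexOrder

noncomputable section

namespace Pool.Agent.MP_301177_an

theorem taylor_of_regular {c : ℕ → ℂ} {B : ℝ} (hc : ∀ n, ‖c n‖ ≤ B) {ζ : ℂ} (hζ : ‖ζ‖ = 1)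
    (h : RegularAt c ζ) {D : Set ℂ} (hD : Dense D) :
    ∃ z₀ ∈ D, z₀ ≠ 0 ∧ ‖z₀‖ < 1 ∧ ∃ m : ℕ, TaylorBd c z₀ m := by
  obtain ⟨ε, hε, g, hg, hs⟩ := h
  set t := min (ε / 8) (1 / 2) with ht
  have t0 : 0 < t := by positivity
  have t1 : t ≤ ε / 8 := min_le_left _ _
  have t2 : t ≤ 1 / 2 := min_le_right _ _
  have hU : IsOpen (Metric.ball ζ (ε / 4) ∩ Metric.ball (0 : ℂ) 1 ∩ {0}ᶜ) :=
    (Metric.isOpen_ball.inter Metric.isOpen_ball).inter isOpen_compl_singleton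
  have hn : ‖((1 - t : ℝ) : ℂ) * ζ‖ = 1 - t := by
    rw [norm_mul, hζ, mul_one, Complex.norm_real, Real.norm_eq_abs, abs_of_pos (by linarith)]
  obtain ⟨z, ⟨⟨hz1, hz2⟩, hz3⟩, hzD⟩ := hD.inter_open_nonempty _ hU
    ⟨((1 - t : ℝ) : ℂ) * ζ, ⟨by
      rw [mem_ball_iff_norm, show ((1 - t : ℝ) : ℂ) * ζ - ζ = -(t : ℂ) * ζ by push_cast; ring,
        norm_mul, hζ, norm_neg, Complex.norm_real, Real.norm_eq_abs, abs_of_pos t0]
      linarith, by
      rw [mem_ball_zero_iff, hn]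
      linarith⟩, fun h => by
      rw [Set.mem_singleton_iff.1 h, norm_zero] at hn
      linarith⟩
  have hz2' := mem_ball_zero_iff.1 hz2
  have hsub : Metric.closedBall z (ε / 2) ⊆ Metric.ball ζ ε :=
    Metric.closedBall_subset_ball' (by linarith [Metric.mem_ball.1 hz1])
  obtain ⟨C, hC⟩ := (isCompact_closedBall z (ε / 2)).exists_bound_of_continuousOn
    (hg.continuousOn.mono hsub)
  obtain ⟨m, hm⟩ := exists_nat_ge (max C (4 / ε))
  refine ⟨z, hzD, hz3, hz2', m, fun k => ?_⟩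
  have heq : ps c =ᶠ[𝓝 z] g := by
    filter_upwards [Metric.isOpen_ball.mem_nhds hz2,
      Metric.isOpen_ball.mem_nhds (Metric.ball_subset_ball (by linarith : ε / 4 ≤ ε) hz1)]
      with w h1 h2
    exact (ps_hasSum hc (mem_ball_zero_iff.1 h1)).unique (hs w h2 (mem_ball_zero_iff.1 h1))
  rw [heq.iteratedDeriv_eq]
  refine (Complex.norm_iteratedDeriv_le_of_forall_mem_sphere_norm_le k (half_pos hε)
    ((hg.mono hsub).diffContOnCl_ball subset_rfl)
    fun w hw => hC w (Metric.sphere_subset_closedBall hw)).trans ?_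
  have h1 : 1 - ‖z‖ < ε / 4 := by
    have := norm_sub_norm_le ζ z
    rw [hζ, norm_sub_rev] at this
    linarith [mem_ball_iff_norm.1 hz1]
  have h2 : 1 / ((m : ℝ) + 1) ≤ ε / 4 := by
    have h3 := (le_max_right _ _).trans hm
    rw [div_le_iff₀ hε] at h3
    rw [div_le_iff₀ (by positivity)]
    nlinarith
  have h4 : 0 < 1 / ((m : ℝ) + 1) := by positivity
  exact div_le_div₀ (by positivity)
    (mul_le_mul_of_nonneg_left ((le_max_left _ _).trans hm) (Nat.cast_nonneg _))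
    (pow_pos (by linarith) k) (pow_le_pow_left₀ (by linarith) (by linarith) k)

theorem taylor_cont {z₀ : ℂ} (hz : ‖z₀‖ < 1) (k : ℕ) :
    Continuous fun x : L2 => iteratedDeriv k (ps (coeffOf x)) z₀ := by
  rw [continuous_iff_continuousAt]
  intro x
  have h0 : TendstoLocallyUniformlyOn (fun y : L2 => ps (coeffOf y)) (ps (coeffOf x)) (𝓝 x)
      (Metric.ball 0 1) := by
    rw [tendstoLocallyUniformlyOn_iff_forall_isCompact Metric.isOpen_ball]
    intro K hK hKc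
    obtain ⟨r, hr1, hr⟩ := exists_lt_subset_ball hKc.isClosed hK
    rw [Metric.tendstoUniformlyOn_iff]
    intro ε hε
    filter_upwards [Metric.ball_mem_nhds x (mul_pos hε (sub_pos.2 hr1))] with y hy z hz
    have h1 := mem_ball_zero_iff.1 (hr hz)
    have h2 := h1.trans hr1
    have h3 := (ps_hasSum (coeffOf_le x) h2).sub (ps_hasSum (coeffOf_le y) h2)
    rw [dist_eq_norm]
    refine lt_of_le_of_lt (h3.norm_le_of_bounded
      ((hasSum_geometric_of_lt_one (norm_nonneg z) h2).mul_left ‖x - y‖) fun n => ?_) ?_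
    · rw [← sub_mul, norm_mul, norm_pow]
      refine mul_le_mul_of_nonneg_right (le_trans (le_of_eq ?_) (coeffOf_le (x - y) n))
        (by positivity)
      simp only [coeffOf, lp.coeFn_sub, Pi.sub_apply, sub_div]
    · rw [← div_eq_mul_inv, div_lt_iff₀ (by linarith), norm_sub_rev]
      exact (mem_ball_iff_norm.1 hy).trans (mul_lt_mul_of_pos_left (by linarith) hε)
  have h1 : ∀ k, (∀ y : L2, DifferentiableOn ℂ (iteratedDeriv k (ps (coeffOf y)))
      (Metric.ball 0 1)) ∧ TendstoLocallyUniformlyOn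
      (fun y : L2 => iteratedDeriv k (ps (coeffOf y))) (iteratedDeriv k (ps (coeffOf x))) (𝓝 x)
      (Metric.ball 0 1) := by
    intro k
    induction k with
    | zero => exact ⟨fun y => ps_diff (coeffOf_le y), h0⟩
    | succ k ih =>
      simp only [iteratedDeriv_succ]
      exact ⟨fun y => (ih.1 y).deriv Metric.isOpen_ball,
        ih.2.deriv (Eventually.of_forall ih.1) Metric.isOpen_ball⟩
  exact (h1 k).2.tendsto_at (mem_ball_zero_iff.2 hz)

end Pool.Agent.MP_301177_an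

end

end

section
open Filter Topology InnerProductSpace
open scoped InnerProductSpace ComplexConjugate ComplexOrder

noncomputable section

namespace Pool.Agent.MP_301177_an

theorem regular_of_taylor {c : ℕ → ℂ} {B : ℝ} (hc : ∀ n, ‖c n‖ ≤ B) {z₀ : ℂ} (hz0 : z₀ ≠ 0)
    (hz : ‖z₀‖ < 1) {m : ℕ} (h : TaylorBd c z₀ m) : RegularAt c (z₀ / ‖z₀‖) := by
  have hm : (0 : ℝ) < 1 / ((m : ℝ) + 1) := by positivity
  obtain ⟨ρ, hρ⟩ : ∃ ρ, ρ = 1 - ‖z₀‖ + 1 / ((m : ℝ) + 1) := ⟨_, rfl⟩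
  obtain ⟨r, hr1, hr2⟩ := exists_between (show 1 - ‖z₀‖ < ρ by linarith)
  have h0 : 0 < 1 - ‖z₀‖ := by linarith
  have hr0 : 0 < r := h0.trans hr1
  have hρ0 : 0 < ρ := hr0.trans hr2
  let g : ℂ → ℂ := fun z =>
    ∑' k : ℕ, ((k.factorial : ℂ))⁻¹ * iteratedDeriv k (ps c) z₀ * (z - z₀) ^ k
  have hg : DifferentiableOn ℂ g (Metric.ball z₀ r) :=
    Complex.differentiableOn_tsum_of_summable_norm
      ((summable_geometric_of_lt_one (div_pos hr0 hρ0).le ((div_lt_one hρ0).2 hr2)).mul_left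
        (m : ℝ)) (fun n => by fun_prop) Metric.isOpen_ball fun k w hw => by
        have h1 := h k
        rw [← hρ] at h1
        have h2 : (0 : ℝ) < k.factorial := by exact_mod_cast k.factorial_pos
        have h3 : ‖w - z₀‖ ^ k ≤ r ^ k :=
          pow_le_pow_left₀ (norm_nonneg _) (mem_ball_iff_norm.1 hw).le k
        rw [norm_mul, norm_mul, norm_inv, norm_pow, Complex.norm_natCast]
        calc (k.factorial : ℝ)⁻¹ * ‖iteratedDeriv k (ps c) z₀‖ * ‖w - z₀‖ ^ k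
            ≤ (k.factorial : ℝ)⁻¹ * ((k.factorial : ℝ) * m / ρ ^ k) * r ^ k := by gcongr
          _ = m * (r / ρ) ^ k := by
            rw [div_pow]
            field_simp
  have hsub : Metric.ball z₀ (1 - ‖z₀‖) ⊆ Metric.ball (0 : ℂ) 1 := fun z hz' => by
    rw [mem_ball_zero_iff]
    have h1 := mem_ball_iff_norm.1 hz'
    have h2 := norm_add_le (z - z₀) z₀
    rw [sub_add_cancel] at h2
    linarith
  have h1 : ∀ z ∈ Metric.ball z₀ (1 - ‖z₀‖), g z = ps c z := fun z hz' =>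
    Complex.taylorSeries_eq_on_ball' hz' ((ps_diff hc).mono hsub)
  have hU : IsOpen (Metric.ball z₀ r ∩ Metric.ball (0 : ℂ) 1) :=
    Metric.isOpen_ball.inter Metric.isOpen_ball
  have h2 : Set.EqOn g (ps c) (Metric.ball z₀ r ∩ Metric.ball (0 : ℂ) 1) :=
    AnalyticOnNhd.eqOn_of_preconnected_of_eventuallyEq
      ((hg.mono Set.inter_subset_left).analyticOnNhd hU)
      (((ps_diff hc).mono Set.inter_subset_right).analyticOnNhd hU)
      ((convex_ball z₀ r).inter (convex_ball 0 1)).isPreconnected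
      ⟨Metric.mem_ball_self hr0, mem_ball_zero_iff.2 hz⟩
      (Filter.eventually_of_mem (Metric.ball_mem_nhds z₀ h0) h1)
  have hn : 0 < ‖z₀‖ := norm_pos_iff.2 hz0
  have h3 : ‖z₀ / ‖z₀‖ - z₀‖ = 1 - ‖z₀‖ := by
    have e : z₀ / ‖z₀‖ - z₀ = ((1 - ‖z₀‖ : ℝ) : ℂ) * (z₀ / ‖z₀‖) := by
      have : ((‖z₀‖ : ℝ) : ℂ) ≠ 0 := by exact_mod_cast hn.ne'
      push_cast
      field_simp
    rw [e, norm_mul, norm_div, Complex.norm_real, Complex.norm_real, Real.norm_eq_abs,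
      Real.norm_eq_abs, abs_of_pos h0, abs_of_pos hn, div_self hn.ne', mul_one]
  have h4 : Metric.ball (z₀ / ‖z₀‖) (r - (1 - ‖z₀‖)) ⊆ Metric.ball z₀ r := fun z hz' => by
    rw [mem_ball_iff_norm] at hz' ⊢
    have := norm_sub_le_norm_sub_add_norm_sub z (z₀ / ‖z₀‖) z₀
    linarith
  refine ⟨r - (1 - ‖z₀‖), by linarith, g, hg.mono h4, fun z hz1 hz2 => ?_⟩
  rw [h2 ⟨h4 hz1, mem_ball_zero_iff.2 hz2⟩]
  exact ps_hasSum hc hz2

end Pool.Agent.MP_301177_an

end

end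

section
open Filter Topology InnerProductSpace
open scoped InnerProductSpace ComplexConjugate ComplexOrder

noncomputable section

namespace Pool.Agent.MP_301177_an

lemma trunc_not_regular {s : ℕ → ℝ} (hpos : ∀ r, 0 < s r) (hanti : StrictAnti s)
    (hsum : Summable fun r => s r ^ 2) (hgap : ∀ δ : ℝ, δ < 1 → ∃ r, δ * s r < s (r + 1))
    (M : Model s) {α β : ℕ → ℂ} (hα : ∀ n, ‖α n‖ = 1) (hβ : ∀ n, ‖β n‖ = 1) (N : ℕ) :
    ¬ RegularAt (M.coef (fun j => if j < N then α j else 1)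
      (fun k => if k < N then β k else 1)) 1 := by
  intro h1
  have hs0 := tendsto_s hpos hsum
  have a1 := cut_norm_ZY7 hα N
  have a2 := cut_norm_ZY7 hβ N
  obtain ⟨y, hy⟩ := exists_coeffOf (M.coef_mem hpos hanti hsum a1 a2).1.1
  have h2 := extends_of_regular (c := M.coef (fun j => if j < N then α j else 1)
    (fun k => if k < N then β k else 1)) (B := ‖y‖) (fun n => hy ▸ coeffOf_le y n) fun ζ hζ => by
      by_cases h : ζ = 1
      · exact h ▸ h1
      · refine regular_of_isUnit _ (fun x => ?_) _ _ ζ (isUnit_of_compact _ _ M.op_one_pos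
          (M.op_lt a1 a2) (M.op_compact hα hβ N) ζ hζ h)
        by_cases hx : x = 0
        · simp [hx]
        · exact (M.op_lt a1 a2 x hx).le
  obtain ⟨C, a, ha, ha1, h⟩ := (analytic_iff _).1 h2
  obtain ⟨C', a', ha', ha1', h'⟩ := M.geo_one hpos hanti hs0 hα hβ N
    (stein_geo (M.stein hpos hanti hs0 a1 a2) ha ha1 h)
  obtain ⟨R, hR, h3⟩ := (analytic_iff (M.coef (fun _ => 1) fun _ => 1)).2
    ⟨‖dg (fun _ => 1) M.v‖ * C', a', ha', ha1', fun n => by
      rw [mul_assoc]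
      exact (norm_inner_le_norm _ _).trans (mul_le_mul_of_nonneg_left (h' n) (norm_nonneg _))⟩
  obtain ⟨r, hr⟩ := hgap _ (inv_lt_one_of_one_lt₀ hR)
  exact hr.not_ge ((zero_angle_main hpos hanti
    (M.coef_mem hpos hanti hsum (fun _ => norm_one) fun _ => norm_one).1 M.coef_zero hR h3).1 r)

/-- The open sets whose intersection is the set of points with natural boundary. -/
def nbOpen (s : ℕ → ℝ) (i : ℕ × ℕ) : Set (torus s) :=
  {x | TopologicalSpace.denseSeq ℂ i.1 ≠ 0 → ‖TopologicalSpace.denseSeq ℂ i.1‖ < 1 →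
    ¬ TaylorBd (coeffOf x) (TopologicalSpace.denseSeq ℂ i.1) i.2}

lemma norm_div_norm {z : ℂ} (hz : z ≠ 0) : ‖z / ‖z‖‖ = 1 := by
  rw [norm_div, Complex.norm_real, norm_norm, div_self (norm_ne_zero_iff.2 hz)]

lemma nbOpen_open (s : ℕ → ℝ) (i : ℕ × ℕ) : IsOpen (nbOpen s i) := by
  by_cases h : TopologicalSpace.denseSeq ℂ i.1 ≠ 0 ∧ ‖TopologicalSpace.denseSeq ℂ i.1‖ < 1
  · have h1 : nbOpen s i = ⋃ k : ℕ, {x : torus s | (k.factorial : ℝ) * i.2 /
        (1 - ‖TopologicalSpace.denseSeq ℂ i.1‖ + 1 / ((i.2 : ℝ) + 1)) ^ k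
        < ‖iteratedDeriv k (ps (coeffOf x)) (TopologicalSpace.denseSeq ℂ i.1)‖} := by
      ext x
      simp only [nbOpen, TaylorBd, Set.mem_ofPred_eq, Set.mem_iUnion, not_forall, not_le]
      exact ⟨fun h2 => h2 h.1 h.2, fun h2 _ _ => h2⟩
    rw [h1]
    exact isOpen_iUnion fun k => isOpen_lt continuous_const
      ((taylor_cont h.2 k).comp continuous_subtype_val).norm
  · have h1 : nbOpen s i = Set.univ :=
      Set.eq_univ_of_forall fun x h1 h2 => absurd ⟨h1, h2⟩ h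
    rw [h1]
    exact isOpen_univ

lemma nb_eq (s : ℕ → ℝ) : naturalBoundary s = ⋂ i, nbOpen s i := by
  ext x
  rw [Set.mem_iInter]
  constructor
  · intro h i h1 h2 h3
    exact h _ (norm_div_norm h1) (regular_of_taylor (coeffOf_le x) h1 h2 h3)
  · intro h ζ hζ h1
    obtain ⟨_, ⟨i, rfl⟩, h2, h3, m, h4⟩ := taylor_of_regular (coeffOf_le x) hζ h1
      (TopologicalSpace.denseRange_denseSeq ℂ)
    exact h (i, m) h2 h3 h4

theorem nb_main {s : ℕ → ℝ} (hpos : ∀ r, 0 < s r) (hanti : StrictAnti s)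
    (hsum : Summable fun r => s r ^ 2) (hgap : ∀ δ : ℝ, δ < 1 → ∃ r, δ * s r < s (r + 1)) :
    (naturalBoundary s).Nonempty ∧ Dense (naturalBoundary s) ∧ IsGδ (naturalBoundary s) := by
  have hG : IsGδ (naturalBoundary s) := by
    rw [nb_eq]
    exact IsGδ.iInter_of_isOpen (nbOpen_open s)
  suffices hd : Dense (naturalBoundary s) by
    obtain ⟨c, hc, -⟩ := exists_zero hpos hanti hsum
    obtain ⟨x, rfl⟩ := exists_coeffOf hc.1
    have : Nonempty (torus s) := ⟨⟨x, hc⟩⟩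
    exact ⟨hd.nonempty, hd, hG⟩
  intro x
  obtain ⟨M, α, β, hα, hβ, hc⟩ := exists_repr hpos hanti x.2
  let K := (ℕ → Metric.sphere (0 : ℂ) 1) × (ℕ → Metric.sphere (0 : ℂ) 1)
  have hn : ∀ t : Metric.sphere (0 : ℂ) 1, ‖(t : ℂ)‖ = 1 := fun t => mem_sphere_zero_iff_norm.1 t.2
  have hm := fun κ : K => M.coef_mem hpos hanti hsum (α := fun n => κ.1 n) (β := fun n => κ.2 n)
    (fun n => hn _) fun n => hn _
  choose y hy using fun κ : K => exists_coeffOf (hm κ).1.1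
  have hyT : ∀ κ, y κ ∈ torus s := fun κ => by
    change InTorus s (coeffOf (y κ))
    rw [hy]
    exact (hm κ).1
  let Ψ : K → torus s := fun κ => ⟨y κ, hyT κ⟩
  have hΨ : Continuous Ψ := by
    refine Continuous.subtype_mk (continuous_iff_seqContinuous.2 fun u κ hu => ?_) _
    refine l2_tendsto _ _ (fun n => ?_) fun N => ?_
    · have h1 := (M.coef_tendsto' (α := fun n => κ.1 n) (β := fun n => κ.2 n)
        (a := fun N n => (u N).1 n) (b := fun N n => (u N).2 n) (fun n => hn _) (fun n => hn _)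
        (fun _ _ => hn _) (fun _ _ => hn _)
        (fun n => tendsto_subtype_rng.1 (tendsto_pi_nhds.1 (Filter.Tendsto.fst_nhds hu) n))
        (fun n => tendsto_subtype_rng.1 (tendsto_pi_nhds.1 (Filter.Tendsto.snd_nhds hu) n))
        n).mul_const ((√(1 + (n : ℝ)) : ℝ) : ℂ)
      simp only [← hy, coeffOf, div_mul_cancel₀ _ (sqrt_ne n)] at h1
      exact h1
    · have h1 := (hm (u N)).2
      have h2 := (hm κ).2
      simp only [← hy, norm_coeffOf] at h1 h2
      exact (pow_left_inj₀ (norm_nonneg _) (norm_nonneg _) two_ne_zero).1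
        (((hasSum_sq _).unique h1).trans (h2.unique (hasSum_sq _)))
  have hdense : ∀ i, Dense (Ψ ⁻¹' nbOpen s i) := by
    intro i κ
    by_cases h0 : TopologicalSpace.denseSeq ℂ i.1 = 0
    · exact subset_closure fun h => absurd h0 h
    set ζ : ℂ := TopologicalSpace.denseSeq ℂ i.1 / ‖TopologicalSpace.denseSeq ℂ i.1‖ with hζ
    have hζ1 : ‖ζ‖ = 1 := norm_div_norm h0
    have hζ0 : ζ ≠ 0 := norm_ne_zero_iff.1 (by rw [hζ1]; exact one_ne_zero)
    have hζ2 : ‖ζ⁻¹‖ = 1 := by rw [norm_inv, hζ1, inv_one]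
    let u : ℕ → K := fun N =>
      (fun j => if j < N then κ.1 j else ⟨1, mem_sphere_zero_iff_norm.2 norm_one⟩,
        fun j => if j < N then κ.2 j else ⟨ζ⁻¹, mem_sphere_zero_iff_norm.2 hζ2⟩)
    have hu : Tendsto u atTop (𝓝 κ) := by
      refine Tendsto.prodMk_nhds (tendsto_pi_nhds.2 fun j => ?_) (tendsto_pi_nhds.2 fun j => ?_)
      · exact tendsto_const_nhds.congr' ((eventually_gt_atTop j).mono fun N hN => (if_pos hN).symm)
      · exact tendsto_const_nhds.congr' ((eventually_gt_atTop j).mono fun N hN => (if_pos hN).symm)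
    refine mem_closure_of_tendsto hu (Eventually.of_forall fun N h1 h2 h3 => ?_)
    have h4 := regular_of_taylor (coeffOf_le (y (u N))) h1 h2 h3
    have hβ' : ∀ n, ‖ζ * (κ.2 n : ℂ)‖ = 1 := fun n => by rw [norm_mul, hζ1, hn, one_mul]
    have h5 : coeffOf (y (u N)) = fun n => ζ⁻¹ ^ n * M.coef (fun j => if j < N then κ.1 j else 1)
        (fun k => if k < N then ζ * κ.2 k else 1) n := by
      ext n
      rw [hy, ← M.coef_rot _ (cut_norm_ZY7 hβ' N)]
      congr 1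
      · ext j
        simp only [u]
        split_ifs <;> rfl
      · ext j
        simp only [u]
        split_ifs
        · rw [inv_mul_cancel_left₀ hζ0]
        · rw [mul_one]
    rw [h5] at h4
    have h6 := regularAt_rot hζ2 h4
    rw [← hζ, inv_mul_cancel₀ hζ0] at h6
    exact trunc_not_regular hpos hanti hsum hgap M (fun n => hn _) hβ' N h6
  have h1 := dense_iInter_of_isOpen (fun i => (nbOpen_open s i).preimage hΨ) hdense
  rw [← Set.preimage_iInter, ← nb_eq] at h1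
  let κ : K := (fun n => ⟨α n, mem_sphere_zero_iff_norm.2 (hα n)⟩,
    fun n => ⟨β n, mem_sphere_zero_iff_norm.2 (hβ n)⟩)
  have h2 : Ψ κ = x := Subtype.ext (lp.ext (funext fun n => by
    have h3 : coeffOf (y κ) n = coeffOf x n := by rw [hy, hc]
    exact (div_left_inj' (sqrt_ne n)).1 h3))
  rw [← h2]
  exact map_mem_closure hΨ (h1 κ) fun _ h => h

lemma close_iff (ε : ℝ) (x y : L2) : Close ε (coeffOf x) (coeffOf y) ↔ ‖x - y‖ ^ 2 ≤ ε := by
  have h : ∀ n : ℕ, (1 + (n : ℝ)) * ‖coeffOf x n - coeffOf y n‖ ^ 2 = ‖(x - y) n‖ ^ 2 := fun n => by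
    rw [← norm_coeffOf]
    simp only [coeffOf, lp.coeFn_sub, Pi.sub_apply, sub_div]
  simp only [Close, h]
  exact ⟨fun h1 => le_of_tendsto' (hasSum_sq (x - y)).tendsto_sum_nat h1, fun h1 N =>
    (sum_le_hasSum _ (fun _ _ => sq_nonneg _) (hasSum_sq (x - y))).trans h1⟩

theorem nb_final {s : ℕ → ℝ} (hpos : ∀ r, 0 < s r) (hanti : StrictAnti s)
    (hsum : Summable fun r => s r ^ 2) (hgap : ∀ δ : ℝ, δ < 1 → ∃ r, δ * s r < s (r + 1)) :
    (∃ c, InTorus s c ∧ NaturalBoundary c) ∧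
    (∀ c, InTorus s c → ∀ ε : ℝ, 0 < ε → ∃ d, InTorus s d ∧ NaturalBoundary d ∧ Close ε c d) ∧
    ∃ U : ℕ → Set (ℕ → ℂ),
      (∀ m, ∀ c ∈ U m, ∃ ε : ℝ, 0 < ε ∧ ∀ d, InTorus s d → Close ε c d → d ∈ U m) ∧
      ∀ c, InTorus s c → (NaturalBoundary c ↔ ∀ m, c ∈ U m) := by
  obtain ⟨⟨x, hx⟩, h2, h3⟩ := nb_main hpos hanti hsum hgap
  refine ⟨⟨_, x.2, hx⟩, fun c hc ε hε => ?_, ?_⟩
  · obtain ⟨x, rfl⟩ := exists_coeffOf hc.1
    obtain ⟨y, hy, hd⟩ := h2.exists_dist_lt ⟨x, hc⟩ (Real.sqrt_pos.2 hε)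
    refine ⟨_, y.2, hy, (close_iff _ _ _).2 ?_⟩
    rw [Subtype.dist_eq, dist_eq_norm] at hd
    exact (Real.lt_sqrt (norm_nonneg _)).1 hd |>.le
  · obtain ⟨f, hf, he⟩ := h3.eq_iInter_nat
    refine ⟨fun m => {c | ∃ x ∈ f m, coeffOf x.1 = c}, ?_, fun c hc => ?_⟩
    · rintro m _ ⟨x, hx, rfl⟩
      obtain ⟨δ, hδ, h⟩ := Metric.isOpen_iff.1 (hf m) x hx
      refine ⟨(δ / 2) ^ 2, by positivity, fun d hd h1 => ?_⟩
      obtain ⟨y, rfl⟩ := exists_coeffOf hd.1
      refine ⟨⟨y, hd⟩, h ?_, rfl⟩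
      rw [Metric.mem_ball, Subtype.dist_eq, dist_eq_norm, norm_sub_rev]
      have h4 := (abs_le_of_sq_le_sq' ((close_iff _ _ _).1 h1) (by positivity)).2
      linarith
    · obtain ⟨x, rfl⟩ := exists_coeffOf hc.1
      have h4 : (⟨x, hc⟩ : torus s) ∈ naturalBoundary s ↔ ∀ m, (⟨x, hc⟩ : torus s) ∈ f m := by
        rw [he, Set.mem_iInter]
      refine h4.trans (forall_congr' fun m => ⟨fun h => ⟨_, h, rfl⟩, ?_⟩)
      rintro ⟨y, hy, h⟩
      have h5 : y = ⟨x, hc⟩ := Subtype.ext (lp.ext (funext fun n =>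
        (div_left_inj' (sqrt_ne n)).1 (congrFun h n)))
      exact h5 ▸ hy

end Pool.Agent.MP_301177_an

end

end
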